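import Pool.Agent.Lib.MP_f80667_ag.Hm.LemG

/-!
# HM (C1): the number of the `S`-units modulo squares

`US K S` is the group of the `S`-units of the number field `K` (Mathlib's `Set.unit`).
`sq_index`: the squares have index `2 ^ (|S| + number of infinite places)`.
-/

set_option autoImplicit false

namespace Hm

open Module NumberField IsDedekindDomain WithZero

section General

/-- In a finite group the kernel and the cokernel of an endomorphism have the same order. -/
theorem index_range_fin {G : Type*} [AddCommGroup G] [Finite G] (f : G →+ G) :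
    f.range.index = Nat.card f.ker := by
  have h1 := AddSubgroup.card_mul_index f.ker
  have h2 := AddSubgroup.card_mul_index f.range
  have h3 : Nat.card f.range = f.ker.index := (AddSubgroup.index_ker f).symm
  have h4 : 0 < Nat.card f.range := Nat.card_pos
  rw [← h3] at h1
  rw [← h1, mul_comm (Nat.card f.ker)] at h2
  exact Nat.eq_of_mul_eq_mul_left h4 h2

theorem index_two_free (n : ℕ) : (nsmulAddMonoidHom 2 : (Fin n → ℤ) →+ (Fin n → ℤ)).range.index =
    2 ^ n := by
  let φ : (Fin n → ℤ) →+ (Fin n → ZMod 2) :=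
    { toFun := fun x i => (x i : ZMod 2)
      map_zero' := by funext i; simp
      map_add' := fun x y => by funext i; simp }
  have h1 : (nsmulAddMonoidHom 2 : (Fin n → ℤ) →+ (Fin n → ℤ)).range = φ.ker := by
    ext x
    constructor
    · rintro ⟨y, rfl⟩
      rw [AddMonoidHom.mem_ker]
      funext i
      change (((2 : ℕ) • y) i : ZMod 2) = 0
      rw [Pi.smul_apply, nsmul_eq_mul]
      push_cast
      have : (2 : ZMod 2) = 0 := rfl
      rw [this, zero_mul]
    · intro hx
      have h2 : ∀ i, ∃ y : ℤ, x i = 2 * y := fun i => by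
        have h3 : ((x i : ℤ) : ZMod 2) = 0 := congrFun hx i
        rw [ZMod.intCast_zmod_eq_zero_iff_dvd] at h3
        exact h3
      choose y hy using h2
      refine ⟨y, ?_⟩
      funext i
      rw [hy i]
      simp [nsmulAddMonoidHom]
  have h2 : φ.range = ⊤ := by
    rw [AddMonoidHom.range_eq_top]
    intro y
    refine ⟨fun i => (y i).val, ?_⟩
    funext i
    change (((y i).val : ℤ) : ZMod 2) = y i
    simp
  rw [h1, AddSubgroup.index_ker, h2]
  simp [Nat.card_eq_fintype_card]

theorem two_prod {A B : Type*} [AddCommGroup A] [AddCommGroup B] :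
    (nsmulAddMonoidHom 2 : A × B →+ A × B).range =
      (nsmulAddMonoidHom 2 : A →+ A).range.prod (nsmulAddMonoidHom 2 : B →+ B).range := by
  ext ⟨a, b⟩
  constructor
  · rintro ⟨⟨x, y⟩, h⟩
    exact ⟨⟨x, congrArg Prod.fst h⟩, ⟨y, congrArg Prod.snd h⟩⟩
  · rintro ⟨⟨x, hx⟩, ⟨y, hy⟩⟩
    exact ⟨(x, y), Prod.ext hx hy⟩

theorem finrank_fin_prod (n : ℕ) (D : Type*) [AddCommGroup D] [Finite D] :
    finrank ℤ ((Fin n → ℤ) × D) = n := by
  have : Module.Finite ℤ D := Module.Finite.iff_addGroup_fg.mpr AddGroup.fg_of_finite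
  have h0 := (LinearMap.ker (LinearMap.fst ℤ (Fin n → ℤ) D)).finrank_quotient_add_finrank
  have h1 : finrank ℤ (((Fin n → ℤ) × D) ⧸ LinearMap.ker (LinearMap.fst ℤ (Fin n → ℤ) D)) = n := by
    rw [((LinearMap.fst ℤ (Fin n → ℤ) D).quotKerEquivOfSurjective
      LinearMap.fst_surjective).finrank_eq, Module.finrank_fin_fun]
  have h2 : finrank ℤ (LinearMap.ker (LinearMap.fst ℤ (Fin n → ℤ) D)) = 0 := by
    rw [Module.finrank_eq_zero_iff_isTorsion]
    intro ⟨⟨x, d⟩, hx⟩
    have hx' : x = 0 := hx
    subst hx'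
    refine ⟨⟨(Nat.card D : ℤ), mem_nonZeroDivisors_of_ne_zero (by
      have : 0 < Nat.card D := Nat.card_pos
      omega)⟩, ?_⟩
    apply Subtype.ext
    refine Prod.ext (by
      change (Nat.card D : ℤ) • (0 : Fin n → ℤ) = 0
      exact smul_zero _) ?_
    change ((Nat.card D : ℤ) • d) = 0
    rw [natCast_zsmul]
    exact card_nsmul_eq_zero'
  rw [h1, h2, add_zero] at h0
  exact h0.symm

/-- The index of `2 G` for a finitely generated abelian group. -/
theorem index_two {G : Type*} [AddCommGroup G] [Module.Finite ℤ G] :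
    (nsmulAddMonoidHom 2 : G →+ G).range.index =
      2 ^ finrank ℤ G * Nat.card (nsmulAddMonoidHom 2 : G →+ G).ker := by
  have hfg : AddGroup.FG G := Module.Finite.iff_addGroup_fg.mp inferInstance
  obtain ⟨n, ι, fι, p, hp, e, ⟨f⟩⟩ := AddCommGroup.equiv_free_prod_directSum_zmod G
  have : ∀ i : ι, NeZero (p i ^ e i) := fun i => ⟨pow_ne_zero (e i) (hp i).ne_zero⟩
  obtain ⟨D, hD⟩ : ∃ D, D = DirectSum ι fun i => ZMod (p i ^ e i) := ⟨_, rfl⟩
  have hfin : Finite (DirectSum ι fun i => ZMod (p i ^ e i)) :=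
    Finite.of_equiv _ DFinsupp.equivFunOnFintype.symm
  let g : G ≃+ (Fin n → ℤ) × (DirectSum ι fun i => ZMod (p i ^ e i)) :=
    f.trans ((Finsupp.linearEquivFunOnFinite ℤ ℤ (Fin n)).toAddEquiv.prodCongr (AddEquiv.refl _))
  have h1 : finrank ℤ G = n := by
    rw [g.toIntLinearEquiv.finrank_eq, finrank_fin_prod]
  have h2 : (nsmulAddMonoidHom 2 : G →+ G).range.map (g : G →+ _) =
      (nsmulAddMonoidHom 2 : _ →+ (Fin n → ℤ) × (DirectSum ι fun i => ZMod (p i ^ e i))).range := by
    ext y
    constructor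
    · rintro ⟨_, ⟨x, rfl⟩, rfl⟩
      exact ⟨g x, (map_nsmul g 2 x).symm⟩
    · rintro ⟨x, rfl⟩
      refine ⟨2 • g.symm x, ⟨g.symm x, rfl⟩, ?_⟩
      change g (2 • g.symm x) = 2 • x
      rw [map_nsmul, AddEquiv.apply_symm_apply]
  have h3 := AddSubgroup.index_map_equiv (nsmulAddMonoidHom 2 : G →+ G).range g
  rw [h2, two_prod, AddSubgroup.index_prod, index_two_free, index_range_fin] at h3
  rw [← h3, h1]
  congr 1
  refine Nat.card_congr (Equiv.symm ?_)
  refine (Equiv.ofBijective (fun x : (nsmulAddMonoidHom 2 : G →+ G).ker =>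
    (⟨(g x).2, ?_⟩ : (nsmulAddMonoidHom 2 : _ →+ (DirectSum ι fun i => ZMod (p i ^ e i))).ker)) ?_)
  · have h4 : (2 : ℕ) • (x : G) = 0 := x.2
    have h5 : (g ((2 : ℕ) • (x : G))).2 = (g 0).2 := by rw [h4]
    rw [map_nsmul, map_zero] at h5
    exact h5
  · have hz : ∀ x : (nsmulAddMonoidHom 2 : G →+ G).ker, (g x).1 = 0 := by
      intro x
      have h4 : (2 : ℕ) • (x : G) = 0 := x.2
      have h5 : (g ((2 : ℕ) • (x : G))).1 = (g 0).1 := by rw [h4]
      rw [map_nsmul, map_zero] at h5
      have h6 : (2 : ℕ) • (g x).1 = 0 := h5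
      exact (smul_eq_zero.mp h6).resolve_left two_ne_zero
    constructor
    · intro x y hxy
      apply Subtype.ext
      apply g.injective
      exact Prod.ext ((hz x).trans (hz y).symm) (congrArg Subtype.val hxy)
    · rintro ⟨d, hd⟩
      refine ⟨⟨g.symm (0, d), ?_⟩, ?_⟩
      · rw [AddMonoidHom.mem_ker]
        change (2 : ℕ) • g.symm (0, d) = 0
        rw [← map_nsmul]
        have h6 : (2 : ℕ) • ((0 : Fin n → ℤ), d) = 0 := by
          refine Prod.ext ?_ hd
          change (2 : ℕ) • (0 : Fin n → ℤ) = 0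
          exact smul_zero _
        rw [h6, map_zero]
      · apply Subtype.ext
        change (g (g.symm (0, d))).2 = d
        rw [AddEquiv.apply_symm_apply]

/-- The squares of a group which is finitely generated (written additively). -/
theorem Sq_index {M : Type*} [CommGroup M] [Module.Finite ℤ (Additive M)] :
    (Sq M).index = 2 ^ finrank ℤ (Additive M) * Nat.card {x : M // x ^ 2 = 1} := by
  have h1 := index_two (G := Additive M)
  have h2 : (nsmulAddMonoidHom 2 : Additive M →+ Additive M).range =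
      Subgroup.toAddSubgroup (Sq M) := by
    ext x
    constructor
    · rintro ⟨y, rfl⟩
      exact ⟨Additive.toMul y, rfl⟩
    · rintro ⟨y, hy⟩
      exact ⟨Additive.ofMul y, hy⟩
  rw [h2, Subgroup.index_toAddSubgroup] at h1
  rw [h1]
  congr 1

/-- The index of the squares is invariant under isomorphisms. -/
theorem Sq_index_congr {M M' : Type*} [CommGroup M] [CommGroup M'] (e : M ≃* M') :
    (Sq M).index = (Sq M').index := by
  have h1 : (Sq M).map (e : M →* M') = Sq M' := by
    ext x
    constructor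
    · rintro ⟨_, ⟨y, rfl⟩, rfl⟩
      exact ⟨e y, (map_pow e y 2).symm⟩
    · rintro ⟨y, rfl⟩
      refine ⟨e.symm y ^ 2, ⟨e.symm y, rfl⟩, ?_⟩
      change e (e.symm y ^ 2) = y ^ 2
      rw [map_pow, MulEquiv.apply_symm_apply]
  rw [← h1, Subgroup.index_map_equiv]

/-- The squares of a subgroup. -/
theorem sqOf_relIndex {M : Type*} [CommGroup M] (A : Subgroup M) :
    (sqOf A).relIndex A = (Sq A).index := by
  rw [Subgroup.relIndex]
  congr 1
  ext x
  rw [Subgroup.mem_subgroupOf, mem_sqOf, mem_Sq]
  constructor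
  · rintro ⟨y, hy, h⟩
    exact ⟨⟨y, hy⟩, Subtype.ext h⟩
  · rintro ⟨y, h⟩
    exact ⟨y, y.2, congrArg Subtype.val h⟩

end General

variable (K : Type*) [Field K] [NumberField K] (S : Finset (HeightOneSpectrum (𝓞 K)))

/-- The `S`-units. -/
noncomputable abbrev US : Subgroup Kˣ := (S : Set (HeightOneSpectrum (𝓞 K))).unit K

variable {K}

/-- The order of an element. -/
noncomputable def ordv (v : HeightOneSpectrum (𝓞 K)) : Additive Kˣ →+ ℤ :=
  -(MonoidHom.toAdditiveLeft v.valuationOfNeZero)

theorem ordv_spec (v : HeightOneSpectrum (𝓞 K)) (x : Kˣ) :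
    v.valuation K (x : K) = exp (-ordv v (Additive.ofMul x)) := by
  rw [← HeightOneSpectrum.valuationOfNeZero_eq]
  simp only [ordv, AddMonoidHom.neg_apply, neg_neg]
  rfl

theorem ordv_eq_zero {v : HeightOneSpectrum (𝓞 K)} {x : Kˣ} :
    ordv v (Additive.ofMul x) = 0 ↔ v.valuation K (x : K) = 1 := by
  rw [ordv_spec, ← exp_zero, exp_inj, neg_eq_zero]

theorem mem_US {S : Finset (HeightOneSpectrum (𝓞 K))} {x : Kˣ} :
    x ∈ US K S ↔ ∀ v ∉ S, ordv v (Additive.ofMul x) = 0 := by
  simp only [ordv_eq_zero]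
  exact Iff.rfl

variable (K)

/-- The vector of the orders of an `S`-unit. -/
noncomputable def ords : Additive (US K S) →+ (S → ℤ) where
  toFun x := fun v => ordv v.1 (Additive.ofMul ((Additive.toMul x : US K S) : Kˣ))
  map_zero' := by
    funext v
    exact map_zero _
  map_add' x y := by
    funext v
    exact map_add (ordv v.1) (Additive.ofMul ((Additive.toMul x : US K S) : Kˣ))
      (Additive.ofMul ((Additive.toMul y : US K S) : Kˣ))

/-- Units are `S`-units. -/
noncomputable def inclU : (𝓞 K)ˣ →* US K S where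
  toFun x := ⟨Units.map (algebraMap (𝓞 K) K : 𝓞 K →* K) x, fun v _ => by
    rw [← HeightOneSpectrum.valuationOfNeZero_eq, HeightOneSpectrum.valuation_of_unit_eq]
    rfl⟩
  map_one' := by
    apply Subtype.ext
    exact map_one _
  map_mul' x y := by
    apply Subtype.ext
    exact map_mul _ x y

theorem inclU_inj : Function.Injective (inclU K S) := by
  intro x y h
  have h1 := congrArg (fun z : US K S => ((z : Kˣ) : K)) h
  apply Units.ext
  exact RingOfIntegers.coe_injective h1

theorem range_inclU : (MonoidHom.toAdditive (inclU K S)).range = (ords K S).ker := by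
  ext x
  constructor
  · rintro ⟨y, rfl⟩
    rw [AddMonoidHom.mem_ker]
    funext v
    change ordv v.1 (Additive.ofMul _) = 0
    rw [ordv_eq_zero]
    change v.1.valuation K ((Units.map (algebraMap (𝓞 K) K : 𝓞 K →* K) (Additive.toMul y) : Kˣ) : K) = 1
    rw [← HeightOneSpectrum.valuationOfNeZero_eq, HeightOneSpectrum.valuation_of_unit_eq]
    rfl
  · intro hx
    obtain ⟨u, hu⟩ : ∃ u : US K S, u = Additive.toMul x := ⟨_, rfl⟩
    have h0 : ∀ v : HeightOneSpectrum (𝓞 K), v.valuation K ((u : Kˣ) : K) = 1 := by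
      intro v
      by_cases hv : v ∈ S
      · have h1 : ordv v (Additive.ofMul (u : Kˣ)) = 0 := by
          rw [hu]
          exact congrFun hx ⟨v, hv⟩
        rwa [ordv_eq_zero] at h1
      · exact u.2 v hv
    obtain ⟨a, ha⟩ := HeightOneSpectrum.mem_integers_of_valuation_le_one K ((u : Kˣ) : K)
      fun v => (h0 v).le
    obtain ⟨b, hb⟩ := HeightOneSpectrum.mem_integers_of_valuation_le_one K (((u : Kˣ)⁻¹ : Kˣ) : K)
      fun v => by
        rw [Units.val_inv_eq_inv_val, map_inv₀, h0 v, inv_one]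
    have hab : a * b = 1 := by
      apply RingOfIntegers.coe_injective
      rw [map_mul, map_one, ha, hb, Units.mul_inv]
    refine ⟨Additive.ofMul ⟨a, b, hab, (mul_comm b a).trans hab⟩, ?_⟩
    change Additive.ofMul (inclU K S ⟨a, b, hab, (mul_comm b a).trans hab⟩) = x
    have h2 : inclU K S ⟨a, b, hab, (mul_comm b a).trans hab⟩ = u := by
      apply Subtype.ext
      apply Units.ext
      exact ha
    rw [h2, hu]
    rfl

/-- There is an element with the given orders, up to the factor `h`. -/
theorem exists_ordv (v : HeightOneSpectrum (𝓞 K)) : ∃ x : Kˣ,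
    ordv v (Additive.ofMul x) = (classNumber K : ℤ) ∧
      ∀ w : HeightOneSpectrum (𝓞 K), w ≠ v → ordv w (Additive.ofMul x) = 0 := by
  have hv0 : v.asIdeal ∈ nonZeroDivisors (Ideal (𝓞 K)) := mem_nonZeroDivisors_of_ne_zero v.ne_bot
  have h1 : (ClassGroup.mk0 ⟨v.asIdeal, hv0⟩) ^ classNumber K = 1 := by
    rw [classNumber, ← Nat.card_eq_fintype_card]
    exact pow_card_eq_one'
  rw [← map_pow, ClassGroup.mk0_eq_one_iff] at h1
  obtain ⟨a, ha⟩ := h1.principal
  have ha' : v.asIdeal ^ classNumber K = Ideal.span {a} := ha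
  have ha0 : a ≠ 0 := by
    rintro rfl
    rw [Ideal.span_singleton_eq_bot.mpr rfl] at ha'
    exact pow_ne_zero _ v.ne_bot ha'
  have haK : (algebraMap (𝓞 K) K a) ≠ 0 := by
    rw [Ne, FaithfulSMul.algebraMap_eq_zero_iff]
    exact ha0
  have h2 : ∀ w : HeightOneSpectrum (𝓞 K), ordv w (Additive.ofMul (Units.mk0 _ haK)) =
      multiplicity w.asIdeal (v.asIdeal ^ classNumber K) := by
    intro w
    have h3 := ordv_spec w (Units.mk0 _ haK)
    rw [Units.val_mk0, HeightOneSpectrum.valuation_of_algebraMap,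
      HeightOneSpectrum.intValuation_eq_exp_neg_multiplicity _ ha0, exp_inj, neg_inj, ← ha'] at h3
    exact h3.symm
  refine ⟨Units.mk0 _ haK, ?_, fun w hw => ?_⟩
  · rw [h2, multiplicity_pow_self v.ne_bot v.prime.not_isUnit]
  · rw [h2, multiplicity_eq_zero.mpr, Nat.cast_zero]
    intro hd
    have h3 := w.prime.dvd_of_dvd_pow hd
    rw [Ideal.dvd_iff_le] at h3
    have h4 := v.isMaximal.eq_of_le w.isPrime.ne_top h3
    exact hw (HeightOneSpectrum.ext h4.symm)

theorem finrank_range : finrank ℤ (LinearMap.range (ords K S).toIntLinearMap) = S.card := by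
  classical
  have h0 := (LinearMap.range (ords K S).toIntLinearMap).finrank_quotient_add_finrank
  have h1 : finrank ℤ ((S → ℤ) ⧸ LinearMap.range (ords K S).toIntLinearMap) = 0 := by
    rw [Module.finrank_eq_zero_iff_isTorsion]
    intro q
    obtain ⟨z, rfl⟩ := Submodule.Quotient.mk_surjective _ q
    refine ⟨⟨(classNumber K : ℤ), mem_nonZeroDivisors_of_ne_zero (by
      have := classNumber_ne_zero K
      exact_mod_cast this)⟩, ?_⟩
    change (classNumber K : ℤ) • (Submodule.Quotient.mk z :
      (S → ℤ) ⧸ LinearMap.range (ords K S).toIntLinearMap) = 0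
    rw [← Submodule.Quotient.mk_smul, Submodule.Quotient.mk_eq_zero]
    have h2 : (classNumber K : ℤ) • z = ∑ v, z v • (fun w => if w = v then (classNumber K : ℤ) else 0) := by
      funext w
      rw [Finset.sum_apply, Finset.sum_eq_single w]
      · simp [mul_comm]
      · intro b _ hb
        simp [Ne.symm hb]
      · simp
    rw [h2]
    refine Submodule.sum_mem _ fun v _ => Submodule.smul_mem _ _ ?_
    obtain ⟨x, hx, hx'⟩ := exists_ordv K v.1
    have hxS : x ∈ US K S := mem_US.mpr fun w hw => hx' w fun h => hw (h ▸ v.2)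
    refine ⟨Additive.ofMul ⟨x, hxS⟩, ?_⟩
    funext w
    change ordv w.1 (Additive.ofMul x) = _
    by_cases hw : w = v
    · subst hw
      rw [if_pos rfl, hx]
    · rw [if_neg hw, hx' w.1 fun h => hw (Subtype.ext h)]
  rw [h1, zero_add, finrank_fintype_fun_eq_card, Fintype.card_coe] at h0
  exact h0

theorem ker_eq : LinearMap.ker (ords K S).toIntLinearMap =
    LinearMap.range (MonoidHom.toAdditive (inclU K S)).toIntLinearMap := by
  ext x
  have h1 := SetLike.ext_iff.mp (range_inclU K S) x
  exact h1.symm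

instance finite_US : Module.Finite ℤ (Additive (US K S)) := by
  rw [Module.finite_def]
  refine Submodule.fg_of_fg_map_of_fg_inf_ker (ords K S).toIntLinearMap ?_ ?_
  · exact IsNoetherian.noetherian _
  · rw [inf_of_le_right le_top, ker_eq]
    exact Module.Finite.iff_fg.mp inferInstance

theorem finrank_US : finrank ℤ (Additive (US K S)) =
    S.card + Units.rank K := by
  have h0 := (LinearMap.ker (ords K S).toIntLinearMap).finrank_quotient_add_finrank
  rw [((ords K S).toIntLinearMap.quotKerEquivRange).finrank_eq, finrank_range, ker_eq,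
    LinearMap.finrank_range_of_inj, Units.finrank_eq] at h0
  · exact h0.symm
  · intro x y hxy
    exact inclU_inj K S hxy

theorem card_two_torsion : Nat.card {x : US K S // x ^ 2 = 1} = 2 := by
  rw [Nat.card_eq_two_iff]
  refine ⟨⟨1, one_pow 2⟩, ⟨inclU K S (-1), ?_⟩, ?_, ?_⟩
  · rw [← map_pow, neg_one_sq, map_one]
  · intro h
    have h1 : (1 : US K S) = inclU K S (-1) := congrArg Subtype.val h
    rw [← map_one (inclU K S)] at h1
    have h2 := congrArg (fun z : (𝓞 K)ˣ => ((z : 𝓞 K) : K)) (inclU_inj K S h1)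
    simp only [Units.val_one, Units.val_neg, map_one, map_neg] at h2
    have h3 : (2 : K) = 0 := by linear_combination h2
    exact two_ne_zero h3
  · ext ⟨x, hx⟩
    simp only [Set.mem_insert_iff, Set.mem_singleton_iff, Set.mem_univ, iff_true, Subtype.mk.injEq]
    have h1 : ((x : Kˣ) : K) ^ 2 = 1 := by
      have h2 := congrArg (fun z : US K S => ((z : Kˣ) : K)) hx
      exact h2
    rcases sq_eq_one_iff.mp h1 with h2 | h2
    · left
      exact Subtype.ext (Units.ext h2)
    · right
      exact Subtype.ext (Units.ext h2)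

/-- **(C1)** The index of the squares in the group of the `S`-units. -/
theorem sq_index : (Sq (US K S)).index = 2 ^ (S.card + Fintype.card (InfinitePlace K)) := by
  rw [Sq_index, finrank_US, card_two_torsion, ← pow_succ]
  congr 1
  have h1 : 0 < Fintype.card (InfinitePlace K) := Fintype.card_pos
  rw [Units.rank]
  omega

/-- (C1) as the cardinality of the quotient. -/
theorem card_sq : Nat.card (US K S ⧸ Sq (US K S)) =
    2 ^ (S.card + Fintype.card (InfinitePlace K)) := by
  rw [← sq_index]
  rfl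

/-- (C1) with `Nat.card` and the squares of the elements of `US K S` inside `Kˣ`. -/
theorem sqOf_US : (sqOf (US K S)).relIndex (US K S) =
    2 ^ (S.card + Nat.card (InfinitePlace K)) := by
  rw [sqOf_relIndex, sq_index, Nat.card_eq_fintype_card]

end Hm
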