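import Mathlib

/-!
# Local squares and norms without completions

`K` is a number field, `v` a finite place of `K` (`HeightOneSpectrum (𝓞 K)`).
* `LSq v`: the local squares at `v` (elements of `Kˣ` near a square),
* `Nrm b`: the values `x² - b y²` on `K`,
* `LNm v b`: the local norms at `v` (elements near a value `x² - b y²`),
* `tt b S`: number of the `v ∈ S` where `b` is not a local square plus the number of the real embeddings with
  `b < 0`,
* `Gen S`: `S` contains the dyadic places and generates the class group.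
-/

open IsDedekindDomain NumberField

namespace Hm

variable {K : Type*} [Field K]

/-- The values `x² - b y²` on a field. -/
def Nrm (b : Kˣ) : Subgroup Kˣ where
  carrier := {c | ∃ x y : K, (c : K) = x ^ 2 - b * y ^ 2}
  one_mem' := ⟨1, 0, by simp⟩
  mul_mem' := by
    rintro c d ⟨x, y, h⟩ ⟨z, w, h'⟩
    refine ⟨x * z + b * y * w, x * w + y * z, ?_⟩
    push_cast
    rw [h, h']
    ring
  inv_mem' := by
    rintro c ⟨x, y, h⟩
    refine ⟨x / c, y / c, ?_⟩
    have hc : (c : K) ≠ 0 := c.ne_zero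
    push_cast
    field_simp
    rw [h]

theorem mem_Nrm {b c : Kˣ} : c ∈ Nrm b ↔ ∃ x y : K, (c : K) = x ^ 2 - b * y ^ 2 := Iff.rfl

theorem sq_mem_Nrm (b x : Kˣ) : x ^ 2 ∈ Nrm b := ⟨x, 0, by push_cast; ring⟩

variable [NumberField K]

theorem val4_le (v : HeightOneSpectrum (𝓞 K)) : v.valuation K 4 ≤ 1 := by
  have e : algebraMap (𝓞 K) K 4 = 4 := map_ofNat (algebraMap (𝓞 K) K) 4
  rw [← e]
  exact v.valuation_le_one (K := K) (4 : 𝓞 K)

theorem val4_pos (v : HeightOneSpectrum (𝓞 K)) : 0 < v.valuation K 4 :=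
  zero_lt_iff.2 ((v.valuation K).ne_zero_iff.2 (by norm_num))

/-- The local squares at `v`. -/
def LSq (v : HeightOneSpectrum (𝓞 K)) : Subgroup Kˣ where
  carrier := {x | ∃ y : Kˣ, v.valuation K ((x : K) * (y : K) ^ 2 - 1) < v.valuation K 4}
  one_mem' := ⟨1, by simpa using val4_pos v⟩
  mul_mem' := by
    rintro x z ⟨y, hy⟩ ⟨w, hw⟩
    refine ⟨y * w, ?_⟩
    have h4 : v.valuation K 4 ≤ 1 := val4_le v
    have e : ((x * z : Kˣ) : K) * ((y * w : Kˣ) : K) ^ 2 - 1 =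
        ((x : K) * (y : K) ^ 2 - 1) * ((z : K) * (w : K) ^ 2 - 1) + (((x : K) * (y : K) ^ 2 - 1) +
          ((z : K) * (w : K) ^ 2 - 1)) := by
      push_cast
      ring
    rw [e]
    refine lt_of_le_of_lt (Valuation.map_add _ _ _) (max_lt ?_ ?_)
    · rw [map_mul]
      calc _ ≤ v.valuation K ((x : K) * (y : K) ^ 2 - 1) * 1 :=
            mul_le_mul_right (hw.le.trans h4) _
        _ < _ := by rwa [mul_one]
    · exact lt_of_le_of_lt (Valuation.map_add _ _ _) (max_lt hy hw)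
  inv_mem' := by
    rintro x ⟨y, hy⟩
    refine ⟨x * y, ?_⟩
    have e : ((x⁻¹ : Kˣ) : K) * ((x * y : Kˣ) : K) ^ 2 - 1 = (x : K) * (y : K) ^ 2 - 1 := by
      have hx : (x : K) ≠ 0 := x.ne_zero
      push_cast
      field_simp
    rw [e]
    exact hy

theorem mem_LSq {v : HeightOneSpectrum (𝓞 K)} {x : Kˣ} :
    x ∈ LSq v ↔ ∃ y : Kˣ, v.valuation K ((x : K) * (y : K) ^ 2 - 1) < v.valuation K 4 := Iff.rfl

theorem sq_mem_LSq (v : HeightOneSpectrum (𝓞 K)) (x : Kˣ) : x ^ 2 ∈ LSq v := by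
  refine ⟨x⁻¹, ?_⟩
  have hx : (x : K) ≠ 0 := x.ne_zero
  have : ((x ^ 2 : Kˣ) : K) * ((x⁻¹ : Kˣ) : K) ^ 2 - 1 = 0 := by
    push_cast
    field_simp
    ring
  rw [this, map_zero]
  exact val4_pos v

theorem mul_self_mem_LSq (v : HeightOneSpectrum (𝓞 K)) (x : Kˣ) : x * x ∈ LSq v := by
  rw [← pow_two]
  exact sq_mem_LSq v x

/-- The local norms at `v`. -/
def LNm (v : HeightOneSpectrum (𝓞 K)) (b : Kˣ) : Subgroup Kˣ := LSq v ⊔ Nrm b

theorem mem_LNm {v : HeightOneSpectrum (𝓞 K)} {b c : Kˣ} :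
    c ∈ LNm v b ↔ ∃ x y : K, ∃ s ∈ LSq v, (c : K) * (s : Kˣ) = x ^ 2 - b * y ^ 2 := by
  rw [LNm, Subgroup.mem_sup]
  constructor
  · rintro ⟨s, hs, d, ⟨x, y, h⟩, rfl⟩
    refine ⟨x, y, s⁻¹, inv_mem hs, ?_⟩
    have hs0 : (s : K) ≠ 0 := s.ne_zero
    rw [← h]
    push_cast
    field_simp
  · rintro ⟨x, y, s, hs, h⟩
    refine ⟨s⁻¹, inv_mem hs, c * s, ⟨x, y, by push_cast; exact h⟩, ?_⟩
    rw [mul_comm, mul_assoc, mul_inv_cancel, mul_one]

theorem Nrm_le_LNm (v : HeightOneSpectrum (𝓞 K)) (b : Kˣ) : Nrm b ≤ LNm v b := le_sup_right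

theorem LSq_le_LNm (v : HeightOneSpectrum (𝓞 K)) (b : Kˣ) : LSq v ≤ LNm v b := le_sup_left

open Classical in
/-- Number of the nonsplit places in `S` and at infinity. -/
noncomputable def tt (b : Kˣ) (S : Finset (HeightOneSpectrum (𝓞 K))) : ℕ :=
  (S.filter fun v => b ∉ LSq v).card + Nat.card {φ : K →+* ℝ // φ b < 0}

/-- `S` contains the dyadic places and generates the class group. -/
def Gen (S : Finset (HeightOneSpectrum (𝓞 K))) : Prop :=
  (∀ v : HeightOneSpectrum (𝓞 K), v.valuation K 2 ≠ 1 → v ∈ S) ∧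
    ∀ w : HeightOneSpectrum (𝓞 K), ∃ x : Kˣ, w.valuation K x = WithZero.exp (-1 : ℤ) ∧
      ∀ v ∉ S, v ≠ w → v.valuation K x = 1

end Hm
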