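import Pool.Agent.Lib.MP_f80667_ag.Hm.Defs

/-! Finite sets of primes of a number field which generate the class group. -/

namespace Hm

open NumberField IsDedekindDomain WithZero
open scoped nonZeroDivisors

variable {K : Type*} [Field K] [NumberField K]

/-- Only finitely many primes divide a nonzero element. -/
theorem finite_val_ne_one (x : Kˣ) :
    {v : HeightOneSpectrum (𝓞 K) | v.valuation K (x : K) ≠ 1}.Finite := by
  have h1 := HeightOneSpectrum.Support.finite (𝓞 K) (x : K)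
  have h2 := HeightOneSpectrum.Support.finite (𝓞 K) ((x⁻¹ : Kˣ) : K)
  refine (h1.union h2).subset ?_
  intro v hv
  rcases lt_or_gt_of_ne hv with h | h
  · right
    change 1 < v.valuation K ((x⁻¹ : Kˣ) : K)
    rw [Units.val_inv_eq_inv_val, map_inv₀]
    exact (one_lt_inv₀ (zero_lt_iff.2 ((Valuation.ne_zero_iff _).2 x.ne_zero))).2 h
  · left
    exact h

/-- A principal ideal divisible exactly by given primes. -/
theorem val_one_of_not_dvd {r : 𝓞 K} {w : HeightOneSpectrum (𝓞 K)}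
    (h : ¬ w.asIdeal ∣ Ideal.span {r}) : w.valuation K (algebraMap (𝓞 K) K r) = 1 := by
  rw [HeightOneSpectrum.valuation_of_algebraMap]
  rw [← HeightOneSpectrum.intValuation_lt_one_iff_dvd, not_lt] at h
  exact le_antisymm (w.intValuation_le_one r) h

/-- Two primes with `w ∣ v` are equal. -/
theorem eq_of_asIdeal_dvd {v w : HeightOneSpectrum (𝓞 K)} (h : w.asIdeal ∣ v.asIdeal) :
    w = v := by
  have h1 : v.asIdeal ≤ w.asIdeal := Ideal.le_of_dvd h
  have h2 : v.asIdeal.IsMaximal := v.isMaximal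
  have h3 := h2.eq_of_le w.isMaximal.ne_top h1
  exact (HeightOneSpectrum.ext h3).symm

/-- Every finite set of primes lies in a finite set which generates the class group (at the primes
outside it). -/
theorem exists_genA (S : Finset (HeightOneSpectrum (𝓞 K))) :
    ∃ T : Finset (HeightOneSpectrum (𝓞 K)), S ⊆ T ∧ ∀ v ∉ T, ∃ x : Kˣ,
      v.valuation K (x : K) = exp (-1 : ℤ) ∧ ∀ w ∉ T, w ≠ v → w.valuation K (x : K) = 1 := by
  classical
  have h1 : ∀ c : ClassGroup (𝓞 K), ∃ I : (Ideal (𝓞 K))⁰, ClassGroup.mk0 I = c :=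
    fun c => ClassGroup.mk0_surjective c
  choose I hI using h1
  have h2 : ∀ c, {w : HeightOneSpectrum (𝓞 K) | w.asIdeal ∣ (I c : Ideal (𝓞 K))}.Finite :=
    fun c => Ideal.finite_factors (nonZeroDivisors.coe_ne_zero (I c))
  refine ⟨S ∪ Finset.univ.biUnion (fun c => (h2 c).toFinset), Finset.subset_union_left, ?_⟩
  intro v hv
  have hv0 : v.asIdeal ∈ (Ideal (𝓞 K))⁰ := mem_nonZeroDivisors_of_ne_zero v.ne_bot
  set c := (ClassGroup.mk0 ⟨v.asIdeal, hv0⟩)⁻¹ with hc
  have hdv : ∀ w : HeightOneSpectrum (𝓞 K), w.asIdeal ∣ (I c : Ideal (𝓞 K)) →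
      w ∈ S ∪ Finset.univ.biUnion (fun c => (h2 c).toFinset) := by
    intro w hw
    rw [Finset.mem_union, Finset.mem_biUnion]
    right
    exact ⟨c, Finset.mem_univ _, (h2 c).mem_toFinset.2 hw⟩
  have h3 : ClassGroup.mk0 (⟨v.asIdeal, hv0⟩ * I c) = 1 := by
    rw [map_mul, hI c, hc, mul_inv_cancel]
  have h4 : ((⟨v.asIdeal, hv0⟩ * I c : (Ideal (𝓞 K))⁰) : Ideal (𝓞 K)) =
      v.asIdeal * (I c : Ideal (𝓞 K)) := rfl
  have h5 : (v.asIdeal * (I c : Ideal (𝓞 K))).IsPrincipal := by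
    rw [← h4, ← ClassGroup.mk0_eq_one_iff (SetLike.coe_mem _)]
    exact h3
  obtain ⟨r, hr⟩ := h5
  have hr' : v.asIdeal * (I c : Ideal (𝓞 K)) = Ideal.span {r} := hr
  have hIc : (I c : Ideal (𝓞 K)) ≠ 0 := nonZeroDivisors.coe_ne_zero (I c)
  have hv1 : v.asIdeal ≠ 0 := v.ne_bot
  have hr0 : r ≠ 0 := by
    rintro rfl
    rw [Ideal.span_singleton_eq_bot.2 rfl] at hr'
    exact mul_ne_zero hv1 hIc hr'
  have hrK : algebraMap (𝓞 K) K r ≠ 0 := by
    rwa [Ne, FaithfulSMul.algebraMap_eq_zero_iff]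
  refine ⟨Units.mk0 _ hrK, ?_, ?_⟩
  · rw [Units.val_mk0, HeightOneSpectrum.valuation_of_algebraMap]
    have h6 : v.intValuation r ≤ exp (-((1 : ℕ) : ℤ)) := by
      rw [HeightOneSpectrum.intValuation_le_pow_iff_dvd, ← hr', pow_one]
      exact dvd_mul_right _ _
    have h7 : ¬ v.intValuation r ≤ exp (-((2 : ℕ) : ℤ)) := by
      rw [HeightOneSpectrum.intValuation_le_pow_iff_dvd, ← hr', pow_two]
      intro h8
      exact hv (hdv v ((mul_dvd_mul_iff_left hv1).1 h8))
    rw [HeightOneSpectrum.intValuation_if_neg _ hr0] at h6 h7 ⊢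
    rw [exp_le_exp] at h6 h7
    congr 1
    push_cast at h6 h7
    omega
  · intro w hw hwv
    rw [Units.val_mk0]
    apply val_one_of_not_dvd
    rw [← hr']
    intro h2
    rcases w.prime.dvd_or_dvd h2 with h | h
    · exact hwv (eq_of_asIdeal_dvd h)
    · exact hw (hdv w h)

/-- The dyadic places are finite in number. -/
theorem finite_dyadic : {v : HeightOneSpectrum (𝓞 K) | v.valuation K 2 ≠ 1}.Finite :=
  finite_val_ne_one (K := K) (Units.mk0 2 two_ne_zero)

/-- Every finite set of primes lies in a finite set `S` with `Gen S`. -/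
theorem exists_gen (S₀ : Finset (HeightOneSpectrum (𝓞 K))) : ∃ S, S₀ ⊆ S ∧ Gen S := by
  classical
  obtain ⟨T, hT, hg⟩ := exists_genA (S₀ ∪ (finite_dyadic (K := K)).toFinset)
  have h1 : ∀ v : HeightOneSpectrum (𝓞 K), ∃ x : Kˣ, v.valuation K (x : K) = exp (-1 : ℤ) := by
    intro v
    obtain ⟨x, hx⟩ := v.valuation_exists_uniformizer K
    refine ⟨Units.mk0 x ?_, hx⟩
    rintro rfl
    rw [map_zero] at hx
    exact absurd hx.symm exp_ne_zero
  choose p hp using h1
  refine ⟨T ∪ T.biUnion (fun v => (finite_val_ne_one (p v)).toFinset),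
    (Finset.subset_union_left.trans hT).trans Finset.subset_union_left, ?_, ?_⟩
  · intro v hv
    exact Finset.mem_union_left _ (hT (Finset.mem_union_right _
      ((finite_dyadic (K := K)).mem_toFinset.2 hv)))
  · intro w
    by_cases hw : w ∈ T
    · refine ⟨p w, hp w, ?_⟩
      intro v hv _
      by_contra h
      exact hv (Finset.mem_union_right _ (Finset.mem_biUnion.2
        ⟨w, hw, (finite_val_ne_one (p w)).mem_toFinset.2 h⟩))
    · obtain ⟨x, hx, hx2⟩ := hg w hw
      exact ⟨x, hx, fun v hv hvw => hx2 v (fun h => hv (Finset.mem_union_left _ h)) hvw⟩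

theorem Gen.mono {S T : Finset (HeightOneSpectrum (𝓞 K))} (h : Gen S) (hST : S ⊆ T) : Gen T := by
  refine ⟨fun v hv => hST (h.1 v hv), fun w => ?_⟩
  obtain ⟨x, hx, hx2⟩ := h.2 w
  exact ⟨x, hx, fun v hv hvw => hx2 v (fun h2 => hv (hST h2)) hvw⟩

/-- Prescribed valuations outside `S`. -/
theorem Gen.exists_val {S : Finset (HeightOneSpectrum (𝓞 K))} (hS : Gen S)
    (f : HeightOneSpectrum (𝓞 K) → ℤ) (hf : {v | f v ≠ 0}.Finite) :
    ∃ x : Kˣ, ∀ v ∉ S, v.valuation K (x : K) = exp (f v) := by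
  classical
  choose u hu hu2 using hS.2
  refine ⟨∏ v ∈ hf.toFinset.filter (fun v => v ∉ S), u v ^ (- f v), ?_⟩
  intro v hv
  have h1 : ∀ w ∈ hf.toFinset.filter (fun v => v ∉ S), w ≠ v →
      v.valuation K ((u w : K) ^ (- f w)) = 1 := by
    intro w hw hwv
    rw [map_zpow₀, hu2 w v hv hwv.symm, one_zpow]
  rw [Units.coe_prod, map_prod]
  simp only [Units.val_zpow_eq_zpow_val]
  by_cases hfv : f v = 0
  · rw [hfv, exp_zero]
    apply Finset.prod_eq_one
    intro w hw
    apply h1 w hw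
    rintro rfl
    exact (hf.mem_toFinset.1 (Finset.mem_filter.1 hw).1) hfv
  · rw [Finset.prod_eq_single v h1]
    · rw [map_zpow₀, hu v, ← exp_zsmul]
      congr 1
      simp
    · intro h
      exact absurd (Finset.mem_filter.2 ⟨hf.mem_toFinset.2 hfv, hv⟩) h

end Hm
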