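import Pool.Agent.Lib.MP_f80667_ag.Hm.Defs

/-!
# HM: near isotropic diagonal forms

`NI v a`: the form `∑ a_i x_i²` takes arbitrarily small values at `v` on primitive vectors of `K`.
* `LNm_eq_top`: if `b` is a local square then every element is a local norm,
* `mem_LNm_of_NI`: if `⟨a₁, a₂, a₃, a₁a₂a₃⟩` is near isotropic then `-a₁a₃` is a local norm for
  `-a₁a₂`,
* `NI.ext`: near isotropic forms stay so in extensions.
-/

set_option autoImplicit false

open IsDedekindDomain NumberField WithZero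

namespace Hm

variable {K : Type*} [Field K] [NumberField K]

/-- Near isotropic at `v`. -/
def NI (v : HeightOneSpectrum (𝓞 K)) {ι : Type*} [Fintype ι] (a : ι → Kˣ) : Prop :=
  ∀ ε : Kˣ, ∃ x : ι → K, (∀ i, v.valuation K (x i) ≤ 1) ∧ (∃ i, v.valuation K (x i) = 1) ∧
    v.valuation K (∑ i, (a i : K) * x i ^ 2) < v.valuation K ε

/-- An element with a smaller valuation than two given ones. -/
theorem exists_le2 (v : HeightOneSpectrum (𝓞 K)) (a b : Kˣ) :
    ∃ c : Kˣ, v.valuation K c ≤ v.valuation K a ∧ v.valuation K c ≤ v.valuation K b := by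
  rcases le_total (v.valuation K (a : K)) (v.valuation K (b : K)) with h | h
  · exact ⟨a, le_rfl, h⟩
  · exact ⟨b, h, le_rfl⟩

theorem val_pos (v : HeightOneSpectrum (𝓞 K)) (a : Kˣ) : 0 < v.valuation K (a : K) :=
  zero_lt_iff.2 ((v.valuation K).ne_zero_iff.2 a.ne_zero)

/-- The valuation of a unit is a power of `exp 1`. -/
theorem exists_exp (v : HeightOneSpectrum (𝓞 K)) (a : Kˣ) :
    ∃ n : ℤ, v.valuation K (a : K) = exp n :=
  ⟨log (v.valuation K (a : K)), (exp_log (val_pos v a).ne').symm⟩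

/-- Local squares are squares up to arbitrary precision. -/
theorem exists_near (v : HeightOneSpectrum (𝓞 K)) {x : Kˣ} (hx : x ∈ LSq v) (ε : Kˣ) :
    ∃ y : Kˣ, v.valuation K ((x : K) * (y : K) ^ 2 - 1) < v.valuation K ε := by
  have h4 : (4 : K) ≠ 0 := by norm_num
  have h2 : (2 : K) ≠ 0 := by norm_num
  obtain ⟨k, hk⟩ := exists_exp v (Units.mk0 (4 : K) h4)
  rw [Units.val_mk0] at hk
  have hk0 : v.valuation K (4 : K) ≤ 1 := val4_le v
  have main : ∀ n : ℕ, ∃ y : Kˣ, v.valuation K ((x : K) * (y : K) ^ 2 - 1) ≤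
      v.valuation K 4 * exp (-(n : ℤ) - 1) := by
    intro n
    induction n with
    | zero =>
      obtain ⟨y, hy⟩ := hx
      refine ⟨y, ?_⟩
      by_cases h0 : (x : K) * (y : K) ^ 2 - 1 = 0
      · rw [h0, map_zero]; exact zero_le
      obtain ⟨m, hm⟩ := exists_exp v (Units.mk0 _ h0)
      rw [Units.val_mk0] at hm
      rw [hm, hk, exp_lt_exp] at hy
      rw [hm, hk, ← exp_add, exp_le_exp]
      push_cast
      omega
    | succ n ih =>
      obtain ⟨y, hy⟩ := ih
      set t := (x : K) * (y : K) ^ 2 - 1 with ht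
      have hn : v.valuation K 4 * exp (-(n : ℤ) - 1) < 1 := by
        have : exp (-(n : ℤ) - 1) < (1 : ℤᵐ⁰) := by
          rw [← exp_zero, exp_lt_exp]; omega
        calc v.valuation K 4 * exp (-(n : ℤ) - 1) ≤ 1 * exp (-(n : ℤ) - 1) :=
              mul_le_mul_left hk0 _
          _ < 1 := by rwa [one_mul]
      have ht1 : v.valuation K t < 1 := lt_of_le_of_lt hy hn
      have h3 : v.valuation K (3 - (x : K) * (y : K) ^ 2) ≤ 1 := by
        have e : 3 - (x : K) * (y : K) ^ 2 = 2 - t := by rw [ht]; ring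
        rw [e]
        refine (Valuation.map_sub _ _ _).trans (max_le ?_ ht1.le)
        have e2 : algebraMap (𝓞 K) K 2 = 2 := map_ofNat (algebraMap (𝓞 K) K) 2
        rw [← e2]
        exact v.valuation_le_one (K := K) (2 : 𝓞 K)
      have hne : (y : K) * (3 - (x : K) * (y : K) ^ 2) / 2 ≠ 0 := by
        have h5 : 3 - (x : K) * (y : K) ^ 2 ≠ 0 := by
          intro h5
          have h6 : t = 2 := by rw [ht]; linear_combination -h5
          have h7 : v.valuation K t ≤ v.valuation K 4 * exp (-(n : ℤ) - 1) := hy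
          have h8 : v.valuation K (4 : K) = v.valuation K 2 * v.valuation K 2 := by
            rw [← map_mul]; norm_num
          have h9 : 0 < v.valuation K (2 : K) := val_pos v (Units.mk0 2 h2)
          rw [h6, h8, mul_assoc] at h7
          have h10 : v.valuation K (2 : K) * exp (-(n : ℤ) - 1) < 1 := by
            rw [h6] at ht1
            have : exp (-(n : ℤ) - 1) < (1 : ℤᵐ⁰) := by
              rw [← exp_zero, exp_lt_exp]; omega
            calc v.valuation K 2 * exp (-(n : ℤ) - 1) ≤ 1 * exp (-(n : ℤ) - 1) :=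
                  mul_le_mul_left ht1.le _
              _ < 1 := by rwa [one_mul]
          have h11 : v.valuation K (2 : K) * (v.valuation K (2 : K) * exp (-(n : ℤ) - 1)) <
              v.valuation K (2 : K) * 1 := mul_lt_mul_of_pos_left h10 h9
          rw [mul_one] at h11
          exact absurd h7 (not_le.2 h11)
        exact div_ne_zero (mul_ne_zero y.ne_zero h5) h2
      refine ⟨Units.mk0 _ hne, ?_⟩
      have e : (x : K) * ((Units.mk0 ((y : K) * (3 - (x : K) * (y : K) ^ 2) / 2) hne : Kˣ) : K) ^ 2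
          - 1 = t * t * (t - 3) / 4 := by
        rw [Units.val_mk0, ht]
        field_simp
        ring
      rw [e, map_div₀, map_mul, map_mul]
      have h5 : v.valuation K (t - 3) ≤ 1 := by
        refine (Valuation.map_sub _ _ _).trans (max_le ht1.le ?_)
        have e2 : algebraMap (𝓞 K) K 3 = 3 := map_ofNat (algebraMap (𝓞 K) K) 3
        rw [← e2]
        exact v.valuation_le_one (K := K) (3 : 𝓞 K)
      have h6 : v.valuation K t * v.valuation K t * v.valuation K (t - 3) ≤
          (v.valuation K 4 * exp (-(n : ℤ) - 1)) * (v.valuation K 4 * exp (-(n : ℤ) - 1)) * 1 :=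
        mul_le_mul' (mul_le_mul' hy hy) h5
      rw [div_le_iff₀ (val4_pos v)]
      refine h6.trans ?_
      rw [hk, mul_one, ← exp_add, ← exp_add, ← exp_add, ← exp_add, exp_le_exp]
      push_cast
      omega
  obtain ⟨m, hm⟩ := exists_exp v ε
  obtain ⟨y, hy⟩ := main (k - m).toNat
  refine ⟨y, lt_of_le_of_lt hy ?_⟩
  rw [hm, hk, ← exp_add, exp_lt_exp]
  have := Int.self_le_toNat (k - m)
  omega

/-- An element close to one is a local square. -/
theorem near_one (v : HeightOneSpectrum (𝓞 K)) {s : K}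
    (h : v.valuation K (s - 1) < v.valuation K 4) : ∃ t : Kˣ, (t : K) = s ∧ t ∈ LSq v := by
  have hs : s ≠ 0 := by
    rintro rfl
    rw [zero_sub, Valuation.map_neg, map_one] at h
    exact absurd (val4_le v) (not_le.2 h)
  refine ⟨Units.mk0 s hs, rfl, 1, ?_⟩
  simpa using h

/-- If `b` is a local square then every element is a local norm. -/
theorem LNm_eq_top {v : HeightOneSpectrum (𝓞 K)} {b : Kˣ} (hb : b ∈ LSq v) (c : Kˣ) :
    c ∈ LNm v b := by
  by_cases hc : (c : K) = 1
  · have : c = 1 := Units.ext hc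
    rw [this]
    exact one_mem _
  have h4 : (4 : K) ≠ 0 := by norm_num
  have hc1 : (c : K) - 1 ≠ 0 := sub_ne_zero.2 hc
  have hc0 : (c : K) ≠ 0 := c.ne_zero
  have hne : 16 * (c : K) / ((c : K) - 1) ^ 2 ≠ 0 :=
    div_ne_zero (mul_ne_zero (by norm_num) hc0) (pow_ne_zero 2 hc1)
  obtain ⟨y, hy⟩ := exists_near v hb (Units.mk0 _ hne)
  rw [Units.val_mk0] at hy
  set δ := (b : K) * (y : K) ^ 2 - 1 with hδ
  have e1 : (((c : K) + 1) / 2) ^ 2 - (b : K) * ((y : K) * ((c : K) - 1) / 2) ^ 2 =
      c * (1 - δ * (((c : K) - 1) ^ 2 / (4 * c))) := by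
    rw [hδ]
    field_simp
    ring
  have h5 : v.valuation K ((1 - δ * (((c : K) - 1) ^ 2 / (4 * c))) - 1) < v.valuation K 4 := by
    have e2 : (1 - δ * (((c : K) - 1) ^ 2 / (4 * c))) - 1 =
        -(δ * (((c : K) - 1) ^ 2 / (4 * c))) := by ring
    rw [e2, Valuation.map_neg, map_mul]
    have h6 : 0 < v.valuation K (((c : K) - 1) ^ 2 / (4 * c)) :=
      val_pos v (Units.mk0 _ (div_ne_zero (pow_ne_zero 2 hc1) (mul_ne_zero h4 hc0)))
    refine (mul_lt_mul_of_pos_right hy h6).trans_le (le_of_eq ?_)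
    rw [← map_mul]
    congr 1
    field_simp
    norm_num
  obtain ⟨t, ht, htS⟩ := near_one v h5
  rw [mem_LNm]
  exact ⟨_, _, t, htS, by rw [ht, e1]⟩

/-- Lower bounds for a norm form which is not near isotropic. -/
theorem low1 {v : HeightOneSpectrum (𝓞 K)} {b : Kˣ} (hb : b ∉ LSq v) (x y : K) :
    v.valuation K 4 * v.valuation K x ^ 2 ≤ v.valuation K (x ^ 2 - b * y ^ 2) := by
  by_contra h
  push Not at h
  have hx : x ≠ 0 := by
    rintro rfl
    rw [map_zero] at h
    simp at h
  have hx2 : 0 < v.valuation K (x ^ 2) := val_pos v (Units.mk0 _ (pow_ne_zero 2 hx))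
  rw [← map_pow] at h
  have hy : y ≠ 0 := by
    rintro rfl
    have e : x ^ 2 - (b : K) * 0 ^ 2 = x ^ 2 := by ring
    rw [e] at h
    have h7 : v.valuation K 4 * v.valuation K (x ^ 2) ≤ 1 * v.valuation K (x ^ 2) :=
      mul_le_mul_left (val4_le v) _
    rw [one_mul] at h7
    exact absurd h7 (not_le.2 h)
  apply hb
  refine ⟨Units.mk0 (y / x) (div_ne_zero hy hx), ?_⟩
  rw [Units.val_mk0]
  have e : (b : K) * (y / x) ^ 2 - 1 = -((x ^ 2 - b * y ^ 2) / x ^ 2) := by
    field_simp
    ring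
  rw [e, Valuation.map_neg, map_div₀, div_lt_iff₀ hx2]
  exact h

theorem low2 {v : HeightOneSpectrum (𝓞 K)} {b : Kˣ} (hb : b ∉ LSq v) (x y : K) :
    v.valuation K 4 * (v.valuation K b * v.valuation K y ^ 2) ≤
      v.valuation K (x ^ 2 - b * y ^ 2) := by
  have h1 := low1 hb x y
  have h4 := val4_le v
  have e : (b : K) * y ^ 2 = x ^ 2 - (x ^ 2 - b * y ^ 2) := by ring
  have h2 : v.valuation K ((b : K) * y ^ 2) ≤
      max (v.valuation K (x ^ 2)) (v.valuation K (x ^ 2 - b * y ^ 2)) := by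
    conv_lhs => rw [e]
    exact Valuation.map_sub _ _ _
  rw [← map_pow, ← map_mul]
  refine (mul_le_mul_right h2 _).trans ?_
  rcases max_cases (v.valuation K (x ^ 2)) (v.valuation K (x ^ 2 - b * y ^ 2)) with h3 | h3
  · rw [h3.1, map_pow]
    exact h1
  · rw [h3.1]
    calc _ ≤ 1 * v.valuation K (x ^ 2 - b * y ^ 2) := mul_le_mul_left h4 _
      _ = _ := one_mul _

/-- A near isotropic form `⟨a₁, a₂, a₃, a₁a₂a₃⟩` gives a local norm. -/
theorem mem_LNm_of_NI {v : HeightOneSpectrum (𝓞 K)} {a₁ a₂ a₃ : Kˣ}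
    (h : NI v ![a₁, a₂, a₃, a₁ * a₂ * a₃]) : -(a₁ * a₃) ∈ LNm v (-(a₁ * a₂)) := by
  by_cases hb : -(a₁ * a₂) ∈ LSq v
  · exact LNm_eq_top hb _
  have h4 : (4 : K) ≠ 0 := by norm_num
  set b := -(a₁ * a₂) with hbd
  set c := -(a₁ * a₃) with hcd
  -- the precision
  let f4 : Kˣ := Units.mk0 4 h4
  obtain ⟨e1, he1, he1'⟩ := exists_le2 v (f4 * f4 * a₁ ^ 2) (f4 * f4 * b)
  obtain ⟨e2, he2, he2'⟩ := exists_le2 v (f4 * c * f4) (f4 * c * (f4 * b))
  obtain ⟨e, he, he'⟩ := exists_le2 v e1 e2
  obtain ⟨x, -, ⟨i, hi⟩, hx⟩ := h (e * a₁⁻¹)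
  set P := ((a₁ : K) * x 0) ^ 2 - (b : K) * x 1 ^ 2 with hP
  set Q := x 2 ^ 2 - (b : K) * x 3 ^ 2 with hQ
  have ha₁ : (a₁ : K) ≠ 0 := a₁.ne_zero
  have hPQ : P - c * Q = a₁ * ∑ i, ((![a₁, a₂, a₃, a₁ * a₂ * a₃] i : Kˣ) : K) * x i ^ 2 := by
    rw [hP, hQ, hbd, hcd, Fin.sum_univ_four]
    simp
    ring
  have hlt : v.valuation K (P - c * Q) < v.valuation K e := by
    rw [hPQ, map_mul]
    have h5 := mul_lt_mul_of_pos_left hx (val_pos v a₁)
    refine h5.trans_le (le_of_eq ?_)
    rw [← map_mul]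
    congr 1
    push_cast
    field_simp
  have l1 := low1 hb ((a₁ : K) * x 0) (x 1)
  have l2 := low2 hb ((a₁ : K) * x 0) (x 1)
  have l3 := low1 hb (x 2) (x 3)
  have l4 := low2 hb (x 2) (x 3)
  rw [← hP] at l1 l2
  rw [← hQ] at l3 l4
  have hc0 : (c : K) ≠ 0 := c.ne_zero
  have key : v.valuation K (P - c * Q) < v.valuation K 4 * v.valuation K (c * Q) := by
    have hA : v.valuation K 4 * v.valuation K (a₁ : K) ^ 2 ≤ v.valuation K P ∨
        v.valuation K 4 * v.valuation K (b : K) ≤ v.valuation K P ∨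
        v.valuation K 4 ≤ v.valuation K Q ∨
        v.valuation K 4 * v.valuation K (b : K) ≤ v.valuation K Q := by
      fin_cases i
      · left
        have hi' : v.valuation K (x 0) = 1 := hi
        rw [map_mul, hi', mul_one] at l1
        exact l1
      · right; left
        have hi' : v.valuation K (x 1) = 1 := hi
        rw [hi', one_pow, mul_one] at l2
        exact l2
      · right; right; left
        have hi' : v.valuation K (x 2) = 1 := hi
        rw [hi', one_pow, mul_one] at l3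
        exact l3
      · right; right; right
        have hi' : v.valuation K (x 3) = 1 := hi
        rw [hi', one_pow, mul_one] at l4
        exact l4
    -- large `P`
    have hlP : v.valuation K e ≤ v.valuation K 4 * v.valuation K P →
        v.valuation K (P - c * Q) < v.valuation K 4 * v.valuation K (c * Q) := by
      intro h5
      have h6 := hlt.trans_le h5
      have h7 : v.valuation K (P - c * Q) < v.valuation K P := by
        refine h6.trans_le ?_
        calc _ ≤ 1 * v.valuation K P := mul_le_mul_left (val4_le v) _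
          _ = _ := one_mul _
      have h8 : v.valuation K (c * Q) = v.valuation K P := by
        have e3 : (c : K) * Q = P - (P - c * Q) := by ring
        rw [e3]
        exact Valuation.map_sub_eq_of_lt_left _ h7
      rw [h8]
      exact h6
    -- large `Q`
    have hlQ : v.valuation K e ≤ v.valuation K 4 * v.valuation K (c * Q) →
        v.valuation K (P - c * Q) < v.valuation K 4 * v.valuation K (c * Q) := fun h5 =>
      hlt.trans_le h5
    have m0 : v.valuation K (f4 : K) = v.valuation K 4 := rfl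
    rcases hA with h5 | h5 | h5 | h5
    · apply hlP
      refine (he.trans he1).trans ?_
      push_cast
      rw [map_mul, map_mul, map_pow, m0, mul_assoc]
      exact mul_le_mul_right h5 _
    · apply hlP
      refine (he.trans he1').trans ?_
      push_cast
      rw [map_mul, map_mul, m0, mul_assoc]
      exact mul_le_mul_right h5 _
    · apply hlQ
      refine (he'.trans he2).trans ?_
      push_cast
      rw [map_mul, map_mul, m0, mul_assoc, map_mul]
      exact mul_le_mul_right (mul_le_mul_right h5 _) _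
    · apply hlQ
      refine (he'.trans he2').trans ?_
      push_cast
      rw [map_mul, map_mul, map_mul, m0, mul_assoc, map_mul]
      exact mul_le_mul_right (mul_le_mul_right h5 _) _
  have hQ0 : Q ≠ 0 := by
    intro h5
    rw [h5, mul_zero, map_zero, mul_zero] at key
    exact absurd key (not_lt.2 zero_le)
  have hcQ : 0 < v.valuation K (c * Q) := val_pos v (Units.mk0 _ (mul_ne_zero hc0 hQ0))
  have h5 : v.valuation K (P / (c * Q) - 1) < v.valuation K 4 := by
    have e3 : P / (c * Q) - 1 = (P - c * Q) / (c * Q) := by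
      field_simp
    rw [e3, map_div₀, div_lt_iff₀ hcQ]
    exact key
  obtain ⟨t, ht, htS⟩ := near_one v h5
  have hP0 : P ≠ 0 := by
    rintro h6
    rw [h6, zero_div] at ht
    exact t.ne_zero ht
  have hPn : Units.mk0 P hP0 ∈ Nrm b := ⟨_, _, by rw [Units.val_mk0, hP]⟩
  have hQn : Units.mk0 Q hQ0 ∈ Nrm b := ⟨_, _, by rw [Units.val_mk0, hQ]⟩
  have ec : c = t⁻¹ * (Units.mk0 P hP0 / Units.mk0 Q hQ0) := by
    apply Units.ext
    push_cast
    rw [ht, Units.val_mk0, Units.val_mk0]
    field_simp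
  rw [ec]
  exact mul_mem (LSq_le_LNm v b (inv_mem htS)) (Nrm_le_LNm v b (div_mem hPn hQn))

/-- Near isotropic forms stay near isotropic in an extension. -/
theorem NI.ext {L : Type*} [Field L] [NumberField L] [Algebra K L]
    {ι : Type*} [Fintype ι] {a : ι → Kˣ} (h : ∀ v : HeightOneSpectrum (𝓞 K), NI v a)
    (w : HeightOneSpectrum (𝓞 L)) : NI w fun i => Units.map (algebraMap K L).toMonoidHom (a i) := by
  intro ε
  let v : HeightOneSpectrum (𝓞 K) := w.under (𝓞 K)
  have : w.asIdeal.LiesOver v.asIdeal := ⟨rfl⟩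
  have hval : ∀ x : K, v.valuation K x ^ v.asIdeal.ramificationIdx' w.asIdeal =
      w.valuation L (algebraMap K L x) := HeightOneSpectrum.valuation_liesOver L v w
  have he : v.asIdeal.ramificationIdx' w.asIdeal ≠ 0 :=
    Ideal.IsDedekindDomain.ramificationIdx'_ne_zero_of_liesOver w.asIdeal v.ne_bot
  set m := v.asIdeal.ramificationIdx' w.asIdeal with hm
  obtain ⟨π, hπ⟩ := v.valuation_exists_uniformizer K
  obtain ⟨n, hn⟩ := exists_exp w ε
  have hπ0 : π ≠ 0 := by
    rintro rfl
    rw [map_zero] at hπ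
    exact exp_ne_zero hπ.symm
  obtain ⟨x, h1, ⟨i, hi⟩, h2⟩ := h v (Units.mk0 π hπ0 ^ n.natAbs)
  refine ⟨fun i => algebraMap K L (x i), fun i => ?_, ⟨i, ?_⟩, ?_⟩
  · rw [← hval]
    exact pow_le_one' (h1 i) _
  · rw [← hval, hi, one_pow]
  · have e : ∑ i, ((Units.map (algebraMap K L).toMonoidHom (a i) : Lˣ) : L) *
        (algebraMap K L (x i)) ^ 2 = algebraMap K L (∑ i, (a i : K) * x i ^ 2) := by
      rw [map_sum]
      refine Finset.sum_congr rfl fun i _ => ?_
      rw [map_mul, map_pow]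
      rfl
    rw [e, ← hval, hn]
    rw [Units.val_pow_eq_pow_val, Units.val_mk0, map_pow, hπ] at h2
    refine (pow_lt_pow_left₀ h2 zero_le he).trans_le ?_
    rw [← exp_nsmul, ← exp_nsmul, exp_le_exp]
    have hm1 : 1 ≤ m := Nat.one_le_iff_ne_zero.2 he
    simp only [nsmul_eq_mul]
    have h5 : (m : ℤ) * ((n.natAbs : ℤ) * -1) ≤ 1 * ((n.natAbs : ℤ) * -1) := by
      apply mul_le_mul_of_nonpos_right
      · exact_mod_cast hm1
      · omega
    have h6 : -(n.natAbs : ℤ) ≤ n := by omega
    linarith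

end Hm
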