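import Pool.Agent.Lib.MP_f80667_ag.Hm.Ord

/-! The quadratic defect: in a field with a discrete valuation and finite residue field, if `b` is not
near a square, then some `c` is not near a value of `x ^ 2 - b y ^ 2`. No completeness is used. -/

set_option autoImplicit false

namespace Hm

open WithZero

variable {F : Type*} [Field F] {v : Valuation F ℤᵐ⁰}

theorem G_mul_one {k : ℤ} {x y : F} (hx : G v 0 x) (hy : G v k y) : G v k (x * y) := by
  have h := hx.mul hy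
  rwa [zero_add] at h

/-- Every residue is a square in residue characteristic two. -/
theorem sq_surj (hR : FinRes v) (h2 : G v 1 (2 : F)) {z : F} (hz : G v 0 z) :
    ∃ x, G v 0 x ∧ G v 1 (x ^ 2 - z) := by
  refine (hR.inj_iff_surj (fun x => x ^ 2) (fun x hx => ?_) (fun x y hx hy h => ?_)).1
    (fun x y hx hy h => ?_) z hz
  · have h := hx.sq
    rwa [mul_zero] at h
  · have h1 : x ^ 2 - y ^ 2 = (x + y) * (x - y) := by ring
    rw [h1]
    exact G_mul_one (hx.add hy) h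
  · by_contra hc
    have h0 : E v 0 (x - y) := E_of (hx.sub hy) (by rwa [zero_add])
    have h1 : E v 0 (x - y + 2 * y) := h0.add (by
      have := h2.mul hy
      rwa [add_zero, ← zero_add (1 : ℤ)] at this)
    have h3 := h0.mul h1
    have h4 : (x - y) * (x - y + 2 * y) = x ^ 2 - y ^ 2 := by ring
    rw [h4, add_zero] at h3
    have := h3.ge_iff.1 h
    omega

/-- A residue not of the form `α u - β u ^ 2`. -/
theorem exists_irr (hR : FinRes v) {α β : F} (hα : E v 0 α) (hβ : E v 0 β) :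
    ∃ η, G v 0 η ∧ ∀ u, G v 0 u → ¬G v 1 (α * u - β * u ^ 2 - η) := by
  by_contra hc
  push Not at hc
  have h := (hR.inj_iff_surj (fun u => α * u - β * u ^ 2) (fun x hx => ?_)
    (fun x y hx hy h => ?_)).2 hc (α * β⁻¹) 0 ?_ G_zero ?_
  · rw [sub_zero] at h
    have h1 := (hα.mul hβ.inv).ge_iff.1 h
    omega
  · have h1 := hx.sq
    rw [mul_zero] at h1
    exact (G_mul_one hα.ge hx).sub (G_mul_one hβ.ge h1)
  · have h1 : α * x - β * x ^ 2 - (α * y - β * y ^ 2) = (α - β * (x + y)) * (x - y) := by ring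
    rw [h1]
    exact G_mul_one (hα.ge.sub (G_mul_one hβ.ge (hx.add hy))) h
  · have h1 := (hα.mul hβ.inv).ge
    rwa [neg_zero, add_zero] at h1
  · have h1 : α * (α * β⁻¹) - β * (α * β⁻¹) ^ 2 - (α * 0 - β * 0 ^ 2) = 0 := by
      have := hβ.ne
      field_simp
      ring
    rw [h1]
    exact G_zero

/-- The unramified case. -/
theorem unram {e : ℤ} (h2 : E v e (2 : F)) {ε : F} (hε : G v 0 ε)
    (hu : ∀ u, G v 0 u → ¬G v 1 (u ^ 2 + u - ε)) (x : F) :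
    ∃ j : ℤ, j ≤ 0 ∧ E v (2 * e + 2 * j) (x ^ 2 - (1 + 4 * ε)) := by
  obtain ⟨z, rfl⟩ : ∃ z : F, x = 1 + 2 * z := ⟨(x - 1) / 2, by
    have := h2.ne
    field_simp
    ring⟩
  have h4 : E v (2 * e) ((2 : F) ^ 2) := h2.sq
  have h5 : (1 + 2 * z) ^ 2 - (1 + 4 * ε) = 2 ^ 2 * (z ^ 2 + (z - ε)) := by ring
  rw [h5]
  by_cases hz : G v 0 z
  · refine ⟨0, le_rfl, ?_⟩
    have h6 : E v 0 (z ^ 2 + (z - ε)) := by
      refine E_of ?_ ?_
      · have := hz.sq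
        rw [mul_zero] at this
        exact this.add (hz.sub hε)
      · rw [zero_add, ← add_sub_assoc]
        exact hu z hz
    exact h4.mul h6
  · have hz0 : z ≠ 0 := by
      rintro rfl
      exact hz G_zero
    obtain ⟨k, hk⟩ := exists_E v hz0
    rw [hk.ge_iff] at hz
    exact ⟨k, by omega, h4.mul (hk.sq.add ((hk.ge.sub (hε.mono (by omega))).mono (by omega)))⟩

/-- The case of odd valuation. -/
theorem defect_odd (hR : FinRes v) {e : ℤ} (he : 0 ≤ e) (h2 : E v e (2 : F)) {b : F} {k : ℤ}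
    (hb : E v k b) (hk : Odd k) :
    ∃ c : F, c ≠ 0 ∧ G v 0 c ∧ ∀ x y : F, ¬G v (2 * e + 1) (x ^ 2 - b * y ^ 2 - c) := by
  obtain ⟨η, hη, hη'⟩ := exists_irr hR (α := (1 : F)) (β := -1) E_one E_one.neg
  have hu : ∀ u, G v 0 u → ¬G v 1 (u ^ 2 + u - η) := fun u hu h => hη' u hu (by
    have h1 : 1 * u - -1 * u ^ 2 - η = u ^ 2 + u - η := by ring
    rwa [h1])
  have h4 : G v (2 * e) (2 ^ 2 : F) := h2.sq.ge
  refine ⟨1 + 4 * η, ?_, ?_, fun x y h => ?_⟩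
  · obtain ⟨j, -, hj⟩ := unram h2 hη hu 0
    intro h0
    rw [h0] at hj
    exact hj.ne (by ring)
  · have h5 : (4 : F) * η = 2 ^ 2 * η := by ring
    rw [h5]
    exact E_one.ge.add ((h4.mul hη).mono (by omega))
  · obtain ⟨j, hj0, hj⟩ := unram h2 hη hu x
    rcases eq_or_ne y 0 with rfl | hy
    · have h6 : x ^ 2 - b * 0 ^ 2 - (1 + 4 * η) = x ^ 2 - (1 + 4 * η) := by ring
      rw [h6, hj.ge_iff] at h
      omega
    · obtain ⟨l, hl⟩ := exists_E v hy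
      have h6 := hb.mul hl.sq
      have h7 := hj.sub (h.mono (l := 2 * e + 2 * j + 1) (by omega))
      have h8 : x ^ 2 - (1 + 4 * η) - (x ^ 2 - b * y ^ 2 - (1 + 4 * η)) = b * y ^ 2 := by ring
      rw [h8] at h7
      have h9 := h6.eq h7
      obtain ⟨m, hm⟩ := hk
      omega

/-- The unramified case. -/
theorem defect_unram {e : ℤ} (he : 0 ≤ e) (h2 : E v e (2 : F)) {ε c : F} (hε : G v 0 ε)
    (hu : ∀ u, G v 0 u → ¬G v 1 (u ^ 2 + u - ε)) (hc : E v 1 c) (x y : F) :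
    ¬G v (2 * e + 2) (x ^ 2 - (1 + 4 * ε) * y ^ 2 - c) := by
  intro h
  have h1 : E v 1 (x ^ 2 - (1 + 4 * ε) * y ^ 2) := by
    have h3 := hc.add (h.mono (l := 1 + 1) (by omega))
    have h4 : c + (x ^ 2 - (1 + 4 * ε) * y ^ 2 - c) = x ^ 2 - (1 + 4 * ε) * y ^ 2 := by ring
    rwa [h4] at h3
  rcases eq_or_ne y 0 with rfl | hy
  · have h3 : x ^ 2 - (1 + 4 * ε) * 0 ^ 2 = x ^ 2 := by ring
    rw [h3] at h1
    have hx : x ≠ 0 := by
      rintro rfl
      exact h1.ne (by ring)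
    obtain ⟨l, hl⟩ := exists_E v hx
    have := hl.sq.eq h1
    omega
  · obtain ⟨j, -, hj⟩ := unram h2 hε hu (x / y)
    obtain ⟨l, hl⟩ := exists_E v hy
    have h3 := hl.sq.mul hj
    have h4 : y ^ 2 * ((x / y) ^ 2 - (1 + 4 * ε)) = x ^ 2 - (1 + 4 * ε) * y ^ 2 := by
      field_simp
    rw [h4] at h3
    have := h3.eq h1
    omega

/-- A value `z ^ 2 - w x ^ 2` with `w = 1 + 4 ε` unramified is zero only for `z = x = 0`, and has even
valuation. -/
theorem unram_form {e : ℤ} (h2 : E v e (2 : F)) {ε : F} (hε : G v 0 ε)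
    (hu : ∀ u, G v 0 u → ¬G v 1 (u ^ 2 + u - ε)) {z x : F} (h0 : z ≠ 0 ∨ x ≠ 0) :
    ∃ j : ℤ, E v (2 * j) (z ^ 2 - (1 + 4 * ε) * x ^ 2) := by
  rcases eq_or_ne x 0 with rfl | hx
  · obtain ⟨l, hl⟩ := exists_E v (h0.resolve_right (fun h => h rfl))
    have h3 : z ^ 2 - (1 + 4 * ε) * 0 ^ 2 = z ^ 2 := by ring
    rw [h3]
    exact ⟨l, hl.sq⟩
  · obtain ⟨j, -, hj⟩ := unram h2 hε hu (z / x)
    obtain ⟨l, hl⟩ := exists_E v hx
    have h3 := hl.sq.mul hj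
    have h4 : x ^ 2 * ((z / x) ^ 2 - (1 + 4 * ε)) = z ^ 2 - (1 + 4 * ε) * x ^ 2 := by
      field_simp
    rw [h4] at h3
    exact ⟨l + (e + j), by rwa [mul_add, mul_add]⟩

/-- The ramified case of a unit (the identity is helper70's). -/
theorem defect_ram (hR : FinRes v) {e : ℤ} (h2 : E v e (2 : F)) {β : F}
    {k : ℤ} (hβ : E v k β) (hk : Odd k) (hk0 : 0 < k) (hk2 : k < 2 * e) :
    ∃ c : F, c ≠ 0 ∧ G v 0 c ∧ ∀ x y : F, ¬G v (2 * e + 1) (x ^ 2 - (1 + β) * y ^ 2 - c) := by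
  obtain ⟨m, hm⟩ := hk
  obtain ⟨t, ht, ht'⟩ := exists_irr hR (α := (1 : F)) (β := -1) E_one E_one.neg
  have hu : ∀ u, G v 0 u → ¬G v 1 (u ^ 2 + u - t) := fun u hu h => ht' u hu (by
    have h1 : 1 * u - -1 * u ^ 2 - t = u ^ 2 + u - t := by ring
    rwa [h1])
  have hβ0 : β ≠ 0 := hβ.ne
  have h20 : (2 : F) ≠ 0 := h2.ne
  have hγ : G v (2 * e - k) (-(2 ^ 2 * t * β⁻¹)) := by
    have := ((h2.sq.ge.mul ht).mul hβ.inv.ge).neg
    rwa [add_zero, ← sub_eq_add_neg] at this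
  obtain ⟨γ, hγd⟩ : ∃ γ, γ = -(2 ^ 2 * t * β⁻¹) := ⟨_, rfl⟩
  rw [← hγd] at hγ
  have hβγ : β * γ = -(4 * t) := by
    rw [hγd]
    field_simp
    ring
  have hc : E v 0 (1 + γ) := E_one.add (hγ.mono (by omega))
  refine ⟨1 + γ, hc.ne, hc.ge, fun x y h => ?_⟩
  obtain ⟨δ, hδ⟩ : ∃ δ, δ = x ^ 2 - (1 + β) * y ^ 2 - (1 + γ) := ⟨_, rfl⟩
  rw [← hδ] at h
  -- the perturbed parameter
  have hs : G v 1 (β * δ * (2⁻¹) ^ 2) :=
    ((hβ.ge.mul h).mul h2.inv.sq.ge).mono (by omega)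
  obtain ⟨s, hsd⟩ : ∃ s, s = β * δ * (2⁻¹) ^ 2 := ⟨_, rfl⟩
  rw [← hsd] at hs
  have h4s : 4 * s = β * δ := by
    rw [hsd]
    field_simp
    ring
  have hts : G v 0 (t - s) := ht.sub (hs.mono (by omega))
  have hu' : ∀ u, G v 0 u → ¬G v 1 (u ^ 2 + u - (t - s)) := fun u hu0 h1 => hu u hu0 (by
    have h3 := h1.sub hs
    have h5 : u ^ 2 + u - (t - s) - s = u ^ 2 + u - t := by ring
    rwa [h5] at h3)
  obtain ⟨V, hV⟩ : ∃ V, V = -(β * (1 + γ + δ)) := ⟨_, rfl⟩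
  obtain ⟨X, hX⟩ : ∃ X, X = x + (1 + β) * y := ⟨_, rfl⟩
  obtain ⟨Y, hY⟩ : ∃ Y, Y = x + y := ⟨_, rfl⟩
  have hVE : E v k V := by
    have h3 := (hβ.mul (hc.add (h.mono (l := 0 + 1) (by omega)))).neg
    rw [add_zero] at h3
    rwa [hV]
  have hVXY : V = X ^ 2 - (1 + β) * Y ^ 2 := by
    rw [hV, hX, hY, hδ]
    ring
  have hw : 1 + 4 * (t - s) = 1 + β + V := by
    rw [hV]
    linear_combination hβγ - h4s
  have hid : ((1 + β) * Y + V) ^ 2 - (1 + 4 * (t - s)) * X ^ 2 = -((1 + β) * V * (Y - 1) ^ 2) := by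
    rw [hw]
    linear_combination (V + (1 + β)) * hVXY
  have hb : E v 0 (1 + β) := E_one.add (hβ.ge.mono (by omega))
  rcases eq_or_ne Y 1 with hY1 | hY1
  · rw [hY1, sub_self] at hid
    have h0 : ¬((1 + β) * 1 + V ≠ 0 ∨ X ≠ 0) := by
      intro h0
      obtain ⟨j, hj⟩ := unram_form h2 hts hu' h0
      rw [hid] at hj
      exact hj.ne (by ring)
    push Not at h0
    obtain ⟨j, hj⟩ := unram_form h2 hts hu' (z := 0) (x := 1) (Or.inr one_ne_zero)
    refine hj.ne ?_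
    rw [hw]
    linear_combination (-1 : F) * h0.1
  · obtain ⟨l, hl⟩ := exists_E v (sub_ne_zero.2 hY1)
    have h3 := ((hb.mul hVE).mul hl.sq).neg
    have h0 : (1 + β) * Y + V ≠ 0 ∨ X ≠ 0 := by
      by_contra h0
      push Not at h0
      rw [← hid, h0.1, h0.2] at h3
      exact h3.ne (by ring)
    obtain ⟨j, hj⟩ := unram_form h2 hts hu' h0
    rw [hid] at hj
    have := h3.eq hj
    omega

/-- There is `c` which is not near a value of `x ^ 2 - b y ^ 2`. -/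
def NoVal (v : Valuation F ℤᵐ⁰) (e : ℤ) (b : F) : Prop :=
  ∃ c : F, ∃ l : ℤ, E v l c ∧ ∀ x y : F, ¬G v (l + 2 * e + 1) (x ^ 2 - b * y ^ 2 - c)

theorem NoVal.of {e : ℤ} {b : F}
    (h : ∃ c : F, c ≠ 0 ∧ G v 0 c ∧ ∀ x y : F, ¬G v (2 * e + 1) (x ^ 2 - b * y ^ 2 - c)) :
    NoVal v e b := by
  obtain ⟨c, hc, hc0, h⟩ := h
  obtain ⟨l, hl⟩ := exists_E v hc
  rw [hl.ge_iff] at hc0
  exact ⟨c, l, hl, fun x y h1 => h x y (h1.mono (by omega))⟩

theorem NoVal.trans {e : ℤ} {b y : F} (hy : y ≠ 0) (h : NoVal v e (b * y ^ 2)) : NoVal v e b := by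
  obtain ⟨c, l, hl, h⟩ := h
  refine ⟨c, l, hl, fun x z h1 => h x (z / y) ?_⟩
  have h2 : b * y ^ 2 * (z / y) ^ 2 = b * z ^ 2 := by
    field_simp
  rwa [h2]

theorem improve {b y u : F} {n : ℤ} (hy : E v 0 (b * y ^ 2)) (hn : 1 ≤ n)
    (hu : G v n (b * y ^ 2 - u ^ 2)) :
    ∃ z, E v 0 (b * z ^ 2) ∧ G v n (b * z ^ 2 - 1) := by
  have h1 : E v 0 (u ^ 2) := by
    have h2 := hy.sub (hu.mono (l := 0 + 1) (by omega))
    rwa [sub_sub_cancel] at h2
  have hu0 : u ≠ 0 := by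
    rintro rfl
    exact h1.ne (by ring)
  have h3 : b * (y / u) ^ 2 = b * y ^ 2 * (u ^ 2)⁻¹ := by
    field_simp
  have h4 : b * (y / u) ^ 2 - 1 = (b * y ^ 2 - u ^ 2) * (u ^ 2)⁻¹ := by
    field_simp
  refine ⟨y / u, ?_, ?_⟩
  · rw [h3]
    have := hy.mul h1.inv
    rwa [neg_zero, add_zero] at this
  · rw [h4]
    have := hu.mul h1.inv.ge
    rwa [neg_zero, add_zero] at this

theorem E_zpow {p : F} (hp : E v 1 p) (j : ℤ) : E v j (p ^ j) := by
  rw [E, map_zpow₀, hp, ← exp_zsmul]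
  congr 1
  simp

/-- The theorem in terms of `E` and `G`. -/
theorem noVal (hR : FinRes v) {p : F} (hp : E v 1 p) {e : ℤ} (he : 0 ≤ e) (h2 : E v e (2 : F))
    {b : F} (hb0 : b ≠ 0) (hb : ∀ y : F, ¬G v (2 * e + 1) (b * y ^ 2 - 1)) : NoVal v e b := by
  obtain ⟨k, hk⟩ := exists_E v hb0
  rcases Int.even_or_odd' k with ⟨m, hm | hm⟩
  swap
  · exact NoVal.of (defect_odd hR he h2 hk ⟨m, hm⟩)
  have h0 : ∃ y, E v 0 (b * y ^ 2) := ⟨p ^ (-m), by
    have := hk.mul (E_zpow hp (-m)).sq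
    rwa [hm, ← mul_add, add_neg_cancel, mul_zero] at this⟩
  have hy0 : ∀ y, E v 0 (b * y ^ 2) → y ≠ 0 := by
    rintro y hy rfl
    exact hy.ne (by ring)
  have key : ∀ n : ℕ, (n : ℤ) ≤ 2 * e →
      (∃ y, E v 0 (b * y ^ 2) ∧ G v n (b * y ^ 2 - 1)) ∨ NoVal v e b := by
    intro n
    induction n with
    | zero =>
      intro _
      obtain ⟨y, hy⟩ := h0
      exact Or.inl ⟨y, hy, hy.ge.sub E_one.ge⟩
    | succ n ih =>
      intro hn
      push_cast at hn ⊢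
      rcases ih (by omega) with ⟨y, hy, h1⟩ | h
      swap
      · exact Or.inr h
      by_cases h3 : G v (n + 1) (b * y ^ 2 - 1)
      · exact Or.inl ⟨y, hy, h3⟩
      have h4 : E v n (b * y ^ 2 - 1) := E_of h1 h3
      rcases Int.even_or_odd' (n : ℤ) with ⟨r, hr | hr⟩
      · left
        obtain ⟨d, hd, hd'⟩ := sq_surj hR (h2.ge.mono (by omega))
          (z := (b * y ^ 2 - 1) * p ^ (-(n : ℤ))) (by
            have := (h4.mul (E_zpow hp (-(n : ℤ)))).ge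
            rwa [add_neg_cancel] at this)
        have hp0 : p ≠ 0 := hp.ne
        have h5 : G v (n + 1) ((d ^ 2 - (b * y ^ 2 - 1) * p ^ (-(n : ℤ))) * p ^ (n : ℤ)) := by
          have := hd'.mul (E_zpow hp n).ge
          rwa [add_comm] at this
        have h6 : G v (n + 1) (2 * (p ^ r * d)) :=
          (h2.ge.mul ((E_zpow hp r).ge.mul hd)).mono (by omega)
        refine improve hy (u := 1 + p ^ r * d) (by omega) ?_
        have h7 := (h5.add h6).neg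
        have h8 : p ^ (n : ℤ) = (p ^ r) ^ 2 := by
          rw [hr, mul_comm 2 r, zpow_mul]
          exact zpow_natCast _ 2
        have h9 : p ^ (-(n : ℤ)) = ((p ^ r) ^ 2)⁻¹ := by
          rw [zpow_neg, h8]
        have h10 : (p ^ r : F) ≠ 0 := zpow_ne_zero _ hp0
        have h11 : b * y ^ 2 - (1 + p ^ r * d) ^ 2 =
            -((d ^ 2 - (b * y ^ 2 - 1) * p ^ (-(n : ℤ))) * p ^ (n : ℤ) + 2 * (p ^ r * d)) := by
          rw [h9, h8]
          field_simp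
          ring
        rwa [h11]
      · right
        refine NoVal.trans (hy0 y hy) (NoVal.of ?_)
        have h5 := defect_ram hR h2 h4 ⟨r, hr⟩ (by omega) (by omega)
        rwa [add_sub_cancel] at h5
  obtain ⟨N, hN⟩ := Int.eq_ofNat_of_zero_le (show 0 ≤ 2 * e by omega)
  rcases key N (le_of_eq hN.symm) with ⟨y, hy, h1⟩ | h
  swap
  · exact h
  have h20 : (2 : F) ≠ 0 := h2.ne
  have h4 : G v 0 ((b * y ^ 2 - 1) * (2⁻¹) ^ 2) := by
    have := h1.mul h2.inv.sq.ge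
    rwa [← hN, ← mul_add, add_neg_cancel, mul_zero] at this
  obtain ⟨ε, hε⟩ : ∃ ε, ε = (b * y ^ 2 - 1) * (2⁻¹) ^ 2 := ⟨_, rfl⟩
  rw [← hε] at h4
  have h5 : 1 + 4 * ε = b * y ^ 2 := by
    rw [hε]
    field_simp
    ring
  refine NoVal.trans (hy0 y hy) ?_
  rw [← h5]
  refine ⟨p, 1, hp, fun x z h => ?_⟩
  refine defect_unram he h2 h4 (fun u hu hu' => ?_) hp x z (h.mono (by omega))
  obtain ⟨z, -, hz⟩ := improve hy (u := 1 + 2 * u) (n := 2 * e + 1) (by omega) (by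
    have h6 := (h2.sq.ge.mul hu').neg
    have h7 : b * y ^ 2 - (1 + 2 * u) ^ 2 = -(2 ^ 2 * (u ^ 2 + u - ε)) := by
      rw [← h5]
      ring
    rwa [h7])
  exact hb z hz

/-- The theorem on the quadratic defect: if `b` is not near a square, some `c` is not near a value of
the form `x ^ 2 - b y ^ 2`. -/
theorem exists_not_near (hR : ∃ R : Set F, R.Finite ∧ ∀ x, v x ≤ 1 → ∃ r ∈ R, v (x - r) < 1)
    {p : F} (hp : v p = exp (-1)) (h20 : (2 : F) ≠ 0) (h21 : v 2 ≤ 1) {b : F} (hb0 : b ≠ 0)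
    (hb : ∀ y : F, v 4 ≤ v (b * y ^ 2 - 1)) :
    ∃ c : F, c ≠ 0 ∧ ∀ x y : F, v 4 * v c ≤ v (x ^ 2 - b * y ^ 2 - c) := by
  obtain ⟨e, he⟩ := exists_E v h20
  have he0 : 0 ≤ e := by
    rw [E] at he
    rw [he, ← exp_zero, exp_le_exp] at h21
    omega
  have h4 : E v (2 * e) (4 : F) := by
    have := he.sq
    have h5 : (2 : F) ^ 2 = 4 := by norm_num
    rwa [h5] at this
  have hlt : ∀ (k : ℤ) (x : F), ¬G v (k + 1) x → exp (-k) ≤ v x := by
    intro k x h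
    rcases eq_or_ne x 0 with rfl | hx
    · exact absurd G_zero h
    · obtain ⟨l, hl⟩ := exists_E v hx
      rw [hl.ge_iff] at h
      rw [hl, exp_le_exp]
      omega
  have hG1 : ∀ x : F, v x < 1 → G v 1 x := by
    intro x hx
    rcases eq_or_ne x 0 with rfl | hx0
    · exact G_zero
    · obtain ⟨l, hl⟩ := exists_E v hx0
      rw [E] at hl
      rw [hl, ← exp_zero, exp_lt_exp] at hx
      rw [G, hl, exp_le_exp]
      omega
  have hR' : FinRes v := by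
    obtain ⟨R, hR, h⟩ := hR
    refine ⟨R, hR, fun x hx => ?_⟩
    obtain ⟨r, hr, h1⟩ := h x (by
      rw [G, neg_zero, exp_zero] at hx
      exact hx)
    exact ⟨r, hr, hG1 _ h1⟩
  obtain ⟨c, l, hl, h⟩ := noVal hR' (p := p) hp he0 he hb0 (fun y h => by
    have h5 := hb y
    rw [h4] at h5
    have h6 := h5.trans h
    rw [exp_le_exp] at h6
    omega)
  refine ⟨c, hl.ne, fun x y => ?_⟩
  have h5 := hlt (l + 2 * e) _ (h x y)
  rw [h4, hl, ← exp_add]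
  refine le_trans (le_of_eq ?_) h5
  congr 1
  ring

end Hm
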