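import Pool.Agent.Lib.MP_f80667_ag.Hm.Defs
import Pool.Agent.Lib.MP_f80667_ag.Hm.Def

/-! (L2): if `b` is not a local square at `v`, not every element is a local norm from `K(√b)`. -/

set_option autoImplicit false

open IsDedekindDomain NumberField WithZero

namespace Hm

variable {K : Type*} [Field K] [NumberField K]

/-- The residue field of `v` is finite. -/
theorem finRes (v : HeightOneSpectrum (𝓞 K)) :
    ∃ R : Set K, R.Finite ∧ ∀ x : K, v.valuation K x ≤ 1 → ∃ r ∈ R, v.valuation K (x - r) < 1 := by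
  have hf : Finite (𝓞 K ⧸ v.asIdeal) := Ideal.finiteQuotientOfFreeOfNeBot _ v.ne_bot
  refine ⟨Set.range fun q : 𝓞 K ⧸ v.asIdeal => algebraMap (𝓞 K) K q.out, Set.finite_range _,
    fun x hx => ?_⟩
  obtain ⟨a, ha⟩ := v.exists_valuation_sub_lt_of_integer hx 1
  refine ⟨_, ⟨Ideal.Quotient.mk _ a, rfl⟩, ?_⟩
  have h1 : a - (Ideal.Quotient.mk v.asIdeal a).out ∈ v.asIdeal := by
    rw [← Ideal.Quotient.eq, Ideal.Quotient.mk_out]
  rw [← v.valuation_lt_one_iff_mem (K := K)] at h1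
  have h2 : x - algebraMap (𝓞 K) K (Ideal.Quotient.mk v.asIdeal a).out =
      algebraMap (𝓞 K) K (a - (Ideal.Quotient.mk v.asIdeal a).out) -
        (algebraMap (𝓞 K) K a - x) := by
    rw [map_sub]
    ring
  rw [h2]
  exact Valuation.map_sub_lt _ h1 ha

theorem val2_le (v : HeightOneSpectrum (𝓞 K)) : v.valuation K 2 ≤ 1 := by
  have e : algebraMap (𝓞 K) K 2 = 2 := map_ofNat (algebraMap (𝓞 K) K) 2
  rw [← e]
  exact v.valuation_le_one (K := K) (2 : 𝓞 K)

/-- (L2) -/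
theorem exists_notMem_LNm (v : HeightOneSpectrum (𝓞 K)) {b : Kˣ} (hb : b ∉ LSq v) :
    ∃ c : Kˣ, c ∉ LNm v b := by
  obtain ⟨p, hp⟩ := v.valuation_exists_uniformizer K
  obtain ⟨c, hc0, hc⟩ := exists_not_near (finRes v) hp (by norm_num) (val2_le v) b.ne_zero
    (fun y => by
      rcases eq_or_ne y 0 with rfl | hy
      · have h1 : (b : K) * 0 ^ 2 - 1 = -1 := by ring
        rw [h1, Valuation.map_neg, map_one]
        exact val4_le v
      · by_contra h
        exact hb ⟨Units.mk0 y hy, not_le.1 h⟩)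
  refine ⟨Units.mk0 c hc0, fun h => ?_⟩
  obtain ⟨x, y, s, ⟨t, ht⟩, h⟩ := mem_LNm.1 h
  have h1 := hc (x * t) (y * t)
  have h2 : (x * t) ^ 2 - b * (y * t) ^ 2 - c = c * (s * t ^ 2 - 1) := by
    rw [Units.val_mk0] at h
    linear_combination (-(t : K) ^ 2) * h
  rw [h2, map_mul, mul_comm] at h1
  have h3 : 0 < v.valuation K c := zero_lt_iff.2 ((v.valuation K).ne_zero_iff.2 hc0)
  exact absurd ((mul_le_mul_iff_right₀ h3).1 h1) (not_le.2 ht)

end Hm
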