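import Pool.Agent.Lib.MP_f80667_ag.Hm.Defs

/-!
# Weak approximation in number fields: finitely many finite places and all real places
-/

set_option autoImplicit false

namespace Hm

open NumberField IsDedekindDomain WithZero
open NumberField.HeightOneSpectrum (adicAbv)

variable {K : Type*} [Field K] [NumberField K]

private theorem nontriv_fin (v : HeightOneSpectrum (𝓞 K)) : (adicAbv K v).IsNontrivial := by
  obtain ⟨x, hx, hx0⟩ := Submodule.exists_mem_ne_zero_of_ne_bot v.ne_bot
  refine ⟨algebraMap (𝓞 K) K x, ?_, ?_⟩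
  · simpa using hx0
  · have := (v.adicAbv_coe_lt_one_iff (K := K) (NumberField.HeightOneSpectrum.one_lt_absNorm_nnreal v) x).2 hx
    exact this.ne

private theorem neq_fin {v w : HeightOneSpectrum (𝓞 K)} (h : v ≠ w) :
    ¬ (adicAbv K v).IsEquiv (adicAbv K w) := by
  intro he
  have hnle : ¬ v.asIdeal ≤ w.asIdeal := by
    intro hle
    apply h
    ext1
    exact (v.isMaximal.eq_of_le w.isPrime.ne_top hle)
  obtain ⟨x, hx, hxw⟩ := SetLike.not_le_iff_exists.1 hnle
  have h1 := (v.adicAbv_coe_lt_one_iff (K := K) (NumberField.HeightOneSpectrum.one_lt_absNorm_nnreal v) x).2 hx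
  have h2 : ¬ adicAbv K w (algebraMap (𝓞 K) K x) < 1 := fun hlt =>
    hxw ((w.adicAbv_coe_lt_one_iff (K := K) (NumberField.HeightOneSpectrum.one_lt_absNorm_nnreal w) x).1 hlt)
  exact h2 (he.lt_one_iff.1 h1)

private theorem neq_mix (v : HeightOneSpectrum (𝓞 K)) (w : InfinitePlace K) :
    ¬ (adicAbv K v).IsEquiv w.1 := by
  intro he
  have h1 : ¬ 1 < adicAbv K v (2 : K) := by
    have := NumberField.HeightOneSpectrum.adicAbv_natCast_le_one (K := K) v 2
    push_cast at this
    exact not_lt.2 this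
  apply h1
  rw [he.one_lt_iff]
  have : w.1 (2 : K) = w (2 : K) := rfl
  rw [this, ← InfinitePlace.norm_embedding_eq w 2, map_ofNat]
  norm_num

/-- Weak approximation: finitely many finite places, all infinite places. -/
theorem wapx (S : Finset (HeightOneSpectrum (𝓞 K))) (a : HeightOneSpectrum (𝓞 K) → K)
    (b : InfinitePlace K → K) (g : HeightOneSpectrum (𝓞 K) → ℤᵐ⁰) (hg : ∀ v, g v ≠ 0)
    (δ : ℝ) (hδ : 0 < δ) :
    ∃ x : K, (∀ v ∈ S, v.valuation K (x - a v) < g v) ∧ ∀ w : InfinitePlace K, w (x - b w) < δ := by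
  classical
  let A : (S ⊕ InfinitePlace K) → AbsoluteValue K ℝ :=
    Sum.elim (fun v => adicAbv K v.1) (fun w => w.1)
  have hA : ∀ i, (A i).IsNontrivial := by
    rintro (v | w)
    · exact nontriv_fin v.1
    · exact w.isNontrivial
  have hP : Pairwise fun i j => ¬ (A i).IsEquiv (A j) := by
    rintro (v | w) (v' | w') hne
    · exact neq_fin fun h => hne (by rw [Subtype.ext h])
    · exact neq_mix v.1 w'
    · exact fun he => neq_mix v'.1 w he.symm
    · exact fun he => hne (by rw [InfinitePlace.eq_iff_isEquiv.2 he])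
  have hd := AbsoluteValue.denseRange_algebraMap_pi hA hP
  let t : (S ⊕ InfinitePlace K) → K := Sum.elim (fun v => a v.1) b
  let r : (S ⊕ InfinitePlace K) → ℝ := Sum.elim
    (fun v => (WithZeroMulInt.toNNReal (NumberField.HeightOneSpectrum.absNorm_ne_zero v.1) (g v.1) : ℝ)) (fun _ => δ)
  have hr : ∀ i, 0 < r i := by
    rintro (v | w)
    · exact_mod_cast WithZeroMulInt.toNNReal_pos _ (hg v.1)
    · exact hδ
  let U : Set ((i : S ⊕ InfinitePlace K) → WithAbs (A i)) :=
    Set.univ.pi fun i => Metric.ball ((WithAbs.equiv (A i)).symm (t i)) (r i)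
  have hU : IsOpen U := isOpen_set_pi Set.finite_univ fun i _ => Metric.isOpen_ball
  have hUn : U.Nonempty := ⟨fun i => (WithAbs.equiv (A i)).symm (t i), fun i _ =>
    Metric.mem_ball_self (hr i)⟩
  obtain ⟨x, hx⟩ := hd.exists_mem_open hU hUn
  have key : ∀ i, A i (x - t i) < r i := by
    intro i
    have h1 := hx i (Set.mem_univ i)
    rw [Metric.mem_ball, dist_eq_norm] at h1
    exact h1
  refine ⟨x, fun v hv => ?_, fun w => key (Sum.inr w)⟩
  have h2 := key (Sum.inl ⟨v, hv⟩)
  have h3 : WithZeroMulInt.toNNReal (NumberField.HeightOneSpectrum.absNorm_ne_zero v) (v.valuation K (x - a v))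
      < WithZeroMulInt.toNNReal (NumberField.HeightOneSpectrum.absNorm_ne_zero v) (g v) := by
    exact_mod_cast h2
  exact (WithZeroMulInt.toNNReal_strictMono (NumberField.HeightOneSpectrum.one_lt_absNorm_nnreal v)).lt_iff_lt.1 h3

/-- The infinite place of a real embedding. -/
private noncomputable def pl (φ : K →+* ℝ) : InfinitePlace K := InfinitePlace.mk (Complex.ofRealHom.comp φ)

omit [NumberField K] in
private theorem pl_apply (φ : K →+* ℝ) (x : K) : pl φ x = |φ x| := by
  show ‖(Complex.ofRealHom.comp φ) x‖ = |φ x|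
  simp

omit [NumberField K] in
private theorem pl_inj {φ ψ : K →+* ℝ} (h : pl φ = pl ψ) : φ = ψ := by
  have h1 := InfinitePlace.mk_eq_iff.1 h
  rcases h1 with h1 | h1
  · ext x
    have := congrArg (fun f : K →+* ℂ => (f x).re) h1
    simpa using this
  · ext x
    have := congrArg (fun f : K →+* ℂ => (f x).re) h1
    simpa [ComplexEmbedding.conjugate] using this

/-- Weak approximation with real targets. -/
theorem wapr (S : Finset (HeightOneSpectrum (𝓞 K))) (a : HeightOneSpectrum (𝓞 K) → K)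
    (r : (K →+* ℝ) → ℝ) (g : HeightOneSpectrum (𝓞 K) → ℤᵐ⁰) (hg : ∀ v, g v ≠ 0)
    (δ : ℝ) (hδ : 0 < δ) :
    ∃ x : K, (∀ v ∈ S, v.valuation K (x - a v) < g v) ∧ ∀ φ : K →+* ℝ, |φ x - r φ| < δ := by
  classical
  have hq : ∀ φ : K →+* ℝ, ∃ q : ℚ, |(q : ℝ) - r φ| < δ / 2 := by
    intro φ
    obtain ⟨q, hq1, hq2⟩ := exists_rat_btwn (show r φ < r φ + δ / 2 by linarith)
    exact ⟨q, by rw [abs_lt]; constructor <;> linarith⟩
  choose q hq using hq
  let b : InfinitePlace K → K := fun w => if h : ∃ φ : K →+* ℝ, pl φ = w then ((q h.choose : ℚ) : K) else 0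
  obtain ⟨x, hx1, hx2⟩ := wapx S a b g hg (δ / 2) (by linarith)
  refine ⟨x, hx1, fun φ => ?_⟩
  have h1 := hx2 (pl φ)
  have hb : b (pl φ) = ((q φ : ℚ) : K) := by
    have he : ∃ ψ : K →+* ℝ, pl ψ = pl φ := ⟨φ, rfl⟩
    have h2 : he.choose = φ := pl_inj he.choose_spec
    show (if h : ∃ ψ : K →+* ℝ, pl ψ = pl φ then ((q h.choose : ℚ) : K) else 0) = _
    rw [dif_pos he, h2]
  rw [hb, pl_apply, map_sub, map_ratCast] at h1
  have h3 := hq φ
  calc |φ x - r φ| = |(φ x - (q φ : ℝ)) + ((q φ : ℝ) - r φ)| := by ring_nf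
    _ ≤ |φ x - (q φ : ℝ)| + |(q φ : ℝ) - r φ| := abs_add_le _ _
    _ < δ / 2 + δ / 2 := add_lt_add h1 h3
    _ = δ := by ring

/-- `x` near `a` relative to `4 a`: the quotient is a local square. -/
theorem div_mem_LSq {v : HeightOneSpectrum (𝓞 K)} {x a : Kˣ}
    (h : v.valuation K ((x : K) - a) < v.valuation K (4 * (a : K))) : x / a ∈ LSq v := by
  refine ⟨1, ?_⟩
  have ha : (a : K) ≠ 0 := a.ne_zero
  have hva : 0 < v.valuation K (a : K) := zero_lt_iff.2 ((v.valuation K).ne_zero_iff.2 ha)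
  have e : ((x / a : Kˣ) : K) * ((1 : Kˣ) : K) ^ 2 - 1 = ((x : K) - a) * (a : K)⁻¹ := by
    rw [Units.val_div_eq_div_val]
    push_cast
    field_simp
  rw [e, map_mul, map_inv₀]
  have h1 := mul_lt_mul_of_pos_right h (inv_pos.2 hva)
  rwa [map_mul, mul_assoc, mul_inv_cancel₀ hva.ne', mul_one] at h1

/-- Weak approximation: prescribed classes modulo local squares, prescribed signs. -/
theorem wa (S : Finset (HeightOneSpectrum (𝓞 K))) (a : HeightOneSpectrum (𝓞 K) → Kˣ)
    (ε : (K →+* ℝ) → ℝ) (hε : ∀ φ, ε φ ≠ 0) :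
    ∃ x : Kˣ, (∀ v ∈ S, x / a v ∈ LSq v) ∧ ∀ φ : K →+* ℝ, 0 < φ (x : K) * ε φ := by
  classical
  obtain ⟨x, hx1, hx2⟩ := wapr S (fun v => (a v : K)) (fun φ => if 0 < ε φ then 1 else -1)
    (fun v => v.valuation K (4 * (a v : K)))
    (fun v => (v.valuation K).ne_zero_iff.2 (mul_ne_zero (by norm_num) (a v).ne_zero)) (1 / 2)
    (by norm_num)
  by_cases h0 : x = 0
  · have hS : ∀ v ∈ S, False := by
      intro v hv
      have h := hx1 v hv
      rw [h0, zero_sub, Valuation.map_neg, map_mul] at h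
      have h4 := val4_le v
      have : v.valuation K 4 * v.valuation K (a v : K) ≤ 1 * v.valuation K (a v : K) :=
        mul_le_mul_left h4 _
      rw [one_mul] at this
      exact absurd h (not_lt.2 this)
    have hR : ∀ φ : K →+* ℝ, False := by
      intro φ
      have h := hx2 φ
      rw [h0, map_zero] at h
      split_ifs at h
      · norm_num at h
      · norm_num at h
    exact ⟨1, fun v hv => (hS v hv).elim, fun φ => (hR φ).elim⟩
  · refine ⟨Units.mk0 x h0, fun v hv => div_mem_LSq (hx1 v hv), fun φ => ?_⟩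
    have h := hx2 φ
    rw [Units.val_mk0]
    rcases lt_or_gt_of_ne (hε φ) with hneg | hpos
    · rw [if_neg (not_lt.2 hneg.le), abs_lt] at h
      exact mul_pos_of_neg_of_neg (by linarith [h.2]) hneg
    · rw [if_pos hpos, abs_lt] at h
      exact mul_pos (by linarith [h.1]) hpos

end Hm
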