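import Pool.Agent.Lib.MP_f80667_ag.Hm.Grp
import Pool.Agent.Lib.MP_f80667_ag.Hm.L2
import Pool.Agent.Lib.MP_f80667_ag.Hm.WA

/-!
A family of elements dual to the local norm conditions at the nonsplit places of a finite set and at the real
places with `b < 0`.
-/

open IsDedekindDomain NumberField

namespace Hm

variable {K : Type*} [Field K] [NumberField K]

/-- The elements which are positive for the real embedding `φ`. -/
def Pos (φ : K →+* ℝ) : Subgroup Kˣ where
  carrier := {x | 0 < φ x}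
  one_mem' := by simp
  mul_mem' := by
    intro x y hx hy
    change 0 < φ ((x * y : Kˣ) : K)
    rw [Units.val_mul, map_mul]
    exact mul_pos hx hy
  inv_mem' := by
    intro x hx
    change 0 < φ ((x⁻¹ : Kˣ) : K)
    rw [Units.val_inv_eq_inv_val, map_inv₀]
    exact inv_pos.2 hx

omit [NumberField K] in
theorem mem_Pos {φ : K →+* ℝ} {x : Kˣ} : x ∈ Pos φ ↔ 0 < φ x := Iff.rfl

theorem Nrm_le_Pos {φ : K →+* ℝ} {b : Kˣ} (hφ : φ b < 0) : Nrm b ≤ Pos φ := by
  rintro c ⟨x, y, h⟩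
  rw [mem_Pos]
  have h0 : φ (c : K) ≠ 0 := (map_ne_zero φ).2 c.ne_zero
  rw [h] at h0 ⊢
  have e : φ (x ^ 2 - (b : K) * y ^ 2) = φ x ^ 2 + (-φ (b : K)) * φ y ^ 2 := by
    rw [map_sub, map_mul, map_pow, map_pow]
    ring
  rw [e] at h0 ⊢
  have h1 : 0 ≤ φ x ^ 2 + (-φ (b : K)) * φ y ^ 2 :=
    add_nonneg (sq_nonneg _) (mul_nonneg (neg_nonneg.2 hφ.le) (sq_nonneg _))
  exact lt_of_le_of_ne h1 (Ne.symm h0)

/-- The indices of the local conditions. -/
abbrev Idx (b : Kˣ) (S' : Finset (HeightOneSpectrum (𝓞 K))) : Type _ :=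
  {v // v ∈ S'} ⊕ {φ : K →+* ℝ // φ b < 0}

/-- The local conditions. -/
def HH (b : Kˣ) (S' : Finset (HeightOneSpectrum (𝓞 K))) (i : Idx b S') : Subgroup Kˣ :=
  Sum.elim (fun v : {v // v ∈ S'} => LNm v.1 b) (fun φ : {φ : K →+* ℝ // φ b < 0} => Pos φ.1) i

theorem Nrm_le_HH (b : Kˣ) (S' : Finset (HeightOneSpectrum (𝓞 K))) (i : Idx b S') :
    Nrm b ≤ HH b S' i := by
  rcases i with v | φ
  · exact Nrm_le_LNm v.1 b
  · exact Nrm_le_Pos φ.2

theorem exists_fam (b : Kˣ) (S' : Finset (HeightOneSpectrum (𝓞 K))) (hS' : ∀ v ∈ S', b ∉ LSq v) :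
    ∃ x : Idx b S' → Kˣ, (∀ i, x i ∉ HH b S' i) ∧ ∀ i j, j ≠ i → x i ∈ HH b S' j := by
  classical
  have hx : ∀ i : Idx b S', ∃ x : Kˣ, x ∉ HH b S' i ∧ ∀ j, j ≠ i → x ∈ HH b S' j := by
    rintro (⟨v, hv⟩ | ⟨φ, hφ⟩)
    · obtain ⟨c, hc⟩ := exists_notMem_LNm v (hS' v hv)
      obtain ⟨x, hx1, hx2⟩ := wa S' (fun w => if w = v then c else 1) (fun _ => 1) (fun _ => one_ne_zero)
      refine ⟨x, fun h => hc ?_, ?_⟩
      · have h1 := hx1 v hv
        rw [if_pos rfl] at h1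
        have h2 := mul_mem h (inv_mem (LSq_le_LNm v b h1))
        rwa [inv_div, mul_div_cancel] at h2
      · rintro (⟨w, hw⟩ | ⟨ψ, hψ⟩) hne
        · have h1 := hx1 w hw
          have hwv : w ≠ v := fun e => hne (by subst e; rfl)
          rw [if_neg hwv, div_one] at h1
          exact LSq_le_LNm w b h1
        · have h1 := hx2 ψ
          rw [mul_one] at h1
          exact h1
    · obtain ⟨x, hx1, hx2⟩ := wa S' (fun _ => 1) (fun ψ => if ψ = φ then -1 else 1) (fun ψ => by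
        split_ifs <;> norm_num)
      refine ⟨x, fun h => ?_, ?_⟩
      · have h1 := hx2 φ
        rw [if_pos rfl] at h1
        have h2 : 0 < φ x := h
        linarith
      · rintro (⟨w, hw⟩ | ⟨ψ, hψ⟩) hne
        · have h1 := hx1 w hw
          rw [div_one] at h1
          exact LSq_le_LNm w b h1
        · have h1 := hx2 ψ
          have hne' : ψ ≠ φ := fun e => hne (by subst e; rfl)
          rw [if_neg hne', mul_one] at h1
          exact h1
  choose x hx1 hx2 using hx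
  exact ⟨x, hx1, fun i j hij => hx2 i j hij⟩

theorem card_Idx (b : Kˣ) (S S' : Finset (HeightOneSpectrum (𝓞 K)))
    (hS' : ∀ v, v ∈ S' ↔ v ∈ S ∧ b ∉ LSq v) [Fintype (Idx b S')] : Fintype.card (Idx b S') = tt b S := by
  classical
  have h1 : Fintype.card (Idx b S') = Nat.card (Idx b S') := Fintype.card_eq_nat_card
  rw [h1, Nat.card_sum, tt]
  congr 1
  rw [Nat.card_eq_fintype_card, Fintype.card_coe]
  congr 1
  ext v
  rw [Finset.mem_filter, hS']

end Hm
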