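import Pool.Agent.Lib.MP_f80667_ag.Hm.Defs

/-! At a place of odd residue characteristic the local squares have index two in the units. -/

open IsDedekindDomain NumberField

namespace Hm

variable {K : Type*} [Field K] [NumberField K] {v : HeightOneSpectrum (𝓞 K)}

theorem val4_eq_one (h2 : v.valuation K 2 = 1) : v.valuation K 4 = 1 := by
  have e : (4 : K) = 2 * 2 := by norm_num
  rw [e, map_mul, h2, one_mul]

theorem exists_near_int {x : K} (hx : v.valuation K x ≤ 1) :
    ∃ a : 𝓞 K, v.valuation K (algebraMap (𝓞 K) K a - x) < 1 := by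
  obtain ⟨a, ha⟩ := HeightOneSpectrum.exists_valuation_sub_lt_of_integer v hx 1
  exact ⟨a, by simpa using ha⟩

theorem mem_LSq_of_isSquare (h2 : v.valuation K 2 = 1) {x : Kˣ} {a : 𝓞 K}
    (hx : v.valuation K x = 1) (ha : v.valuation K (algebraMap (𝓞 K) K a - x) < 1)
    (hs : IsSquare (Ideal.Quotient.mk v.asIdeal a)) : x ∈ LSq v := by
  obtain ⟨c, hc⟩ := hs
  obtain ⟨b, rfl⟩ := Ideal.Quotient.mk_surjective c
  rw [← map_mul, Ideal.Quotient.eq] at hc
  rw [← HeightOneSpectrum.valuation_lt_one_iff_mem (K := K)] at hc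
  have h3 : v.valuation K ((algebraMap (𝓞 K) K b) * algebraMap (𝓞 K) K b - x) < 1 := by
    have e : (algebraMap (𝓞 K) K b) * algebraMap (𝓞 K) K b - x =
        (algebraMap (𝓞 K) K a - x) - algebraMap (𝓞 K) K (a - b * b) := by
      rw [map_sub, map_mul]
      ring
    rw [e]
    exact lt_of_le_of_lt (Valuation.map_sub _ _ _) (max_lt ha hc)
  have h4 : v.valuation K (algebraMap (𝓞 K) K b) ^ 2 = 1 := by
    rw [← map_pow, pow_two]
    have e : (algebraMap (𝓞 K) K b) * algebraMap (𝓞 K) K b =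
        (x : K) + ((algebraMap (𝓞 K) K b) * algebraMap (𝓞 K) K b - x) := by ring
    rw [e, Valuation.map_add_eq_of_lt_left _ (by rw [hx]; exact h3), hx]
  have h5 : algebraMap (𝓞 K) K b ≠ 0 := by
    intro h
    rw [h] at h4
    simp at h4
  refine ⟨(Units.mk0 _ h5)⁻¹, ?_⟩
  have e : (x : K) * (((Units.mk0 _ h5)⁻¹ : Kˣ) : K) ^ 2 - 1 =
      -((algebraMap (𝓞 K) K b) * algebraMap (𝓞 K) K b - x) / (algebraMap (𝓞 K) K b) ^ 2 := by
    rw [Units.val_inv_eq_inv_val, Units.val_mk0]
    field_simp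
    ring
  rw [e, map_div₀, Valuation.map_neg, map_pow, h4, div_one, val4_eq_one h2]
  exact h3

/-- Residue index two: the product of two units which are not local squares is a local square. -/
theorem mul_mem_LSq (h2 : v.valuation K 2 = 1) {a b : Kˣ} (ha : v.valuation K a = 1)
    (hb : v.valuation K b = 1) (hna : a ∉ LSq v) (hnb : b ∉ LSq v) : a * b ∈ LSq v := by
  classical
  obtain ⟨α, hα⟩ := exists_near_int ha.le
  obtain ⟨β, hβ⟩ := exists_near_int hb.le
  have hm : v.asIdeal.IsMaximal := v.isMaximal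
  let _ : Field (𝓞 K ⧸ v.asIdeal) := Ideal.Quotient.field v.asIdeal
  have : Finite (𝓞 K ⧸ v.asIdeal) := Ideal.finiteQuotientOfFreeOfNeBot v.asIdeal v.ne_bot
  let _ : Fintype (𝓞 K ⧸ v.asIdeal) := Fintype.ofFinite _
  have hsa : ¬ IsSquare (Ideal.Quotient.mk v.asIdeal α) := fun h => hna (mem_LSq_of_isSquare h2 ha hα h)
  have hsb : ¬ IsSquare (Ideal.Quotient.mk v.asIdeal β) := fun h => hnb (mem_LSq_of_isSquare h2 hb hβ h)
  have ha0 : Ideal.Quotient.mk v.asIdeal α ≠ 0 := fun h => hsa (h ▸ IsSquare.zero)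
  have hb0 : Ideal.Quotient.mk v.asIdeal β ≠ 0 := fun h => hsb (h ▸ IsSquare.zero)
  have hab : IsSquare (Ideal.Quotient.mk v.asIdeal (α * β)) := by
    rw [map_mul, ← quadraticChar_one_iff_isSquare (mul_ne_zero ha0 hb0), map_mul,
      quadraticChar_neg_one_iff_not_isSquare.2 hsa, quadraticChar_neg_one_iff_not_isSquare.2 hsb]
    norm_num
  refine mem_LSq_of_isSquare h2 (x := a * b) (a := α * β) ?_ ?_ hab
  · rw [Units.val_mul, map_mul, ha, hb, one_mul]
  · have hα1 : v.valuation K (algebraMap (𝓞 K) K α) ≤ 1 := v.valuation_le_one α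
    have e : algebraMap (𝓞 K) K (α * β) - ((a * b : Kˣ) : K) =
        algebraMap (𝓞 K) K α * (algebraMap (𝓞 K) K β - b) + (algebraMap (𝓞 K) K α - a) * b := by
      rw [map_mul, Units.val_mul]
      ring
    rw [e]
    refine lt_of_le_of_lt (Valuation.map_add _ _ _) (max_lt ?_ ?_)
    · rw [map_mul]
      exact lt_of_le_of_lt (mul_le_of_le_one_left' hα1) hβ
    · rw [map_mul, hb, mul_one]
      exact hα

/-- Away from `2` the units fall into two classes modulo local squares. -/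
theorem mem_or_mem (h2 : v.valuation K 2 = 1) {a b : Kˣ} (ha : v.valuation K a = 1)
    (hb : v.valuation K b = 1) : a ∈ LSq v ∨ b ∈ LSq v ∨ a * b ∈ LSq v := by
  by_cases h : a ∈ LSq v
  · exact Or.inl h
  by_cases h' : b ∈ LSq v
  · exact Or.inr (Or.inl h')
  exact Or.inr (Or.inr (mul_mem_LSq h2 ha hb h h'))

end Hm
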