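import Pool.Agent.Lib.MP_f80667_ag.Hm.F1
import Pool.Agent.Lib.MP_f80667_ag.Hm.Fam
import Pool.Agent.Lib.MP_f80667_ag.Hm.Res
import Pool.Agent.Lib.MP_f80667_ag.Hm.GenS

/-!
Two elements which are independent modulo squares: infinitely many places where the first is a local square
and the second is not.
-/

open IsDedekindDomain NumberField HeightOneSpectrum

namespace Hm

/-- `F1` in terms of `US`. -/
theorem F1U {K : Type*} [Field K] [NumberField K] (b : Kˣ) (hb : ¬ IsSquare b)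
    (S : Finset (HeightOneSpectrum (𝓞 K))) (hS : Gen S) (hbS : b ∈ US K S) :
    (Nrm b).relIndex (US K S) ≠ 0 ∧ 2 * (Nrm b).relIndex (US K S) ≤ 2 ^ tt b S :=
  F1 b hb S hS hbS

/-- Infinitely many places are nonsplit for a nonsquare. -/
theorem exists_nonsplit {K : Type*} [Field K] [NumberField K] (u : Kˣ) (hu : ¬ IsSquare u)
    (S₀ : Finset (HeightOneSpectrum (𝓞 K))) : ∃ v, v ∉ S₀ ∧ u ∉ LSq v := by
  classical
  by_contra hcon
  push Not at hcon
  obtain ⟨S', hS'⟩ : ∃ S' : Finset (HeightOneSpectrum (𝓞 K)), ∀ v, v ∈ S' ↔ v ∈ S₀ ∧ u ∉ LSq v :=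
    ⟨S₀.filter (fun v => u ∉ LSq v), fun v => Finset.mem_filter⟩
  obtain ⟨x, hx1, hx2⟩ := exists_fam u S' fun v hv => ((hS' v).1 hv).2
  obtain ⟨S, hSS, hS⟩ := exists_gen (K := K) (S₀ ∪ ((finite_val_ne_one u).toFinset ∪
    Finset.univ.biUnion fun i => (finite_val_ne_one (x i)).toFinset))
  have huS : u ∈ US K S := fun v hv => by
    by_contra h1
    exact hv (hSS (Finset.mem_union_right _ (Finset.mem_union_left _
      ((finite_val_ne_one u).mem_toFinset.2 h1))))
  have hxS : ∀ i, x i ∈ US K S := fun i v hv => by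
    by_contra h1
    exact hv (hSS (Finset.mem_union_right _ (Finset.mem_union_right _
      (Finset.mem_biUnion.2 ⟨i, Finset.mem_univ _, (finite_val_ne_one (x i)).mem_toFinset.2 h1⟩))))
  obtain ⟨h0, h2⟩ := F1U u hu S hS huS
  have h3 := two_pow_le (HH u S') (Nrm u) (US K S) (Nrm_le_HH u S') x hxS hx1 hx2 h0
  rw [card_Idx u S S'] at h3
  · have h4 : 0 < 2 ^ tt u S := by positivity
    have h5 : 2 * 2 ^ tt u S ≤ 2 ^ tt u S := (Nat.mul_le_mul_left 2 h3).trans h2
    omega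
  · intro v
    rw [hS']
    constructor
    · rintro ⟨h4, h5⟩
      exact ⟨hSS (Finset.mem_union_left _ h4), h5⟩
    · rintro ⟨h4, h5⟩
      refine ⟨?_, h5⟩
      by_contra h6
      exact h5 (hcon v h6)

section

variable {K L : Type*} [Field K] [Field L] [NumberField K] [NumberField L] [Algebra K L]

theorem up_mem_LSq {w : HeightOneSpectrum (𝓞 L)} {x : Kˣ} (hx : x ∈ LSq (w.under (𝓞 K))) :
    up K L x ∈ LSq w := by
  obtain ⟨y, hy⟩ := hx
  refine ⟨up K L y, ?_⟩
  have h4 : (4 : K) ≠ 0 := by norm_num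
  have h4' : (4 : L) ≠ 0 := by norm_num
  have h1 : (w.under (𝓞 K)).valuation K (((x : K) * (y : K) ^ 2 - 1) / 4) < 1 := by
    rw [map_div₀, div_lt_one₀]
    · exact hy
    · rw [zero_lt_iff]
      exact (Valuation.ne_zero_iff _).2 h4
  have h2 := val_under_lt h1
  rw [map_div₀, map_sub, map_mul, map_pow, map_one, map_ofNat, map_div₀, div_lt_one₀] at h2
  · exact h2
  · rw [zero_lt_iff]
    exact (Valuation.ne_zero_iff _).2 h4'

theorem Quad.not_isSquare_up {σ : L ≃ₐ[K] L} {θ : L} {b : Kˣ} (h : Quad σ θ (b : K)) {u : Kˣ}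
    (hu : ¬ IsSquare u) (hub : ¬ IsSquare (u * b)) : ¬ IsSquare (up K L u) := by
  rintro ⟨z, hz⟩
  have h1 : algebraMap K L u = (z : L) * (z : L) := by
    have := congrArg (fun t : Lˣ => (t : L)) hz
    simpa using this
  obtain ⟨p, q, hpq⟩ := h.dec (z : L)
  have h2 : algebraMap K L (u : K) + algebraMap K L 0 * θ =
      algebraMap K L (p ^ 2 + q ^ 2 * b) + algebraMap K L (2 * p * q) * θ := by
    rw [h1, hpq, map_add, map_mul (algebraMap K L) (q ^ 2) (b : K), ← h.sq]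
    simp only [map_mul, map_pow, map_zero, map_ofNat]
    ring
  obtain ⟨h3, h4⟩ := h.uniq h2
  have h5 : p = 0 ∨ q = 0 := by
    have h6 : (2 : K) * (p * q) = 0 := by rw [← mul_assoc]; exact h4.symm
    rcases mul_eq_zero.1 h6 with h7 | h7
    · exact absurd h7 two_ne_zero
    · exact mul_eq_zero.1 h7
  rcases h5 with rfl | rfl
  · -- `u = q ^ 2 b`
    have hq : q ≠ 0 := by
      rintro rfl
      apply u.ne_zero
      rw [h3]
      ring
    apply hub
    refine ⟨Units.mk0 q hq * b, ?_⟩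
    apply Units.ext
    rw [Units.val_mul, Units.val_mul, Units.val_mul, Units.val_mk0, h3]
    ring
  · have hp : p ≠ 0 := by
      rintro rfl
      apply u.ne_zero
      rw [h3]
      ring
    apply hu
    refine ⟨Units.mk0 p hp, ?_⟩
    apply Units.ext
    rw [Units.val_mul, Units.val_mk0, h3]
    ring

end

theorem not_isSquare_coe {K : Type*} [Field K] {b : Kˣ} (hb : ¬ IsSquare b) : ¬ IsSquare (b : K) := by
  rintro ⟨z, hz⟩
  have hz0 : z ≠ 0 := by
    rintro rfl
    rw [mul_zero] at hz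
    exact b.ne_zero hz
  apply hb
  refine ⟨Units.mk0 z hz0, ?_⟩
  apply Units.ext
  rw [Units.val_mul, Units.val_mk0, hz]

theorem cor {K : Type*} [Field K] [NumberField K] (b u : Kˣ) (hb : ¬ IsSquare b) (hu : ¬ IsSquare u)
    (hub : ¬ IsSquare (u * b)) (S₀ : Finset (HeightOneSpectrum (𝓞 K))) :
    ∃ v, v ∉ S₀ ∧ b ∈ LSq v ∧ u ∉ LSq v := by
  classical
  obtain ⟨L, _, _, _, σ, θ, h⟩ := exists_quad (not_isSquare_coe hb)
  obtain ⟨S, hS⟩ : ∃ S : Finset (HeightOneSpectrum (𝓞 K)), S = S₀ ∪ (finite_dyadic (K := K)).toFinset ∪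
    (finite_val_ne_one b).toFinset ∪ (finite_val_ne_one u).toFinset := ⟨_, rfl⟩
  obtain ⟨w, hw, huw⟩ := exists_nonsplit (up K L u) (h.not_isSquare_up hu hub) (SL L S)
  rw [mem_SL, hS] at hw
  simp only [Finset.mem_union, Set.Finite.mem_toFinset, Set.mem_ofPred_eq, not_or, not_not] at hw
  obtain ⟨⟨⟨h1, h2⟩, h3⟩, h4⟩ := hw
  have hu' : u ∉ LSq (w.under (𝓞 K)) := fun h5 => huw (up_mem_LSq h5)
  refine ⟨w.under (𝓞 K), h1, ?_, hu'⟩
  rcases mem_or_mem h2 h3 h4 with h5 | h5 | h5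
  · exact h5
  · exact absurd h5 hu'
  · exfalso
    apply huw
    have h6 := up_mem_LSq h5
    rw [map_mul] at h6
    have hθ : up K L b = Units.mk0 θ h.t0 ^ 2 := by
      apply Units.ext
      rw [up_coe, Units.val_pow_eq_pow_val, Units.val_mk0, h.sq]
    rw [hθ] at h6
    exact (Subgroup.mul_mem_cancel_left _ (sq_mem_LSq w _)).1 h6

end Hm
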