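import Mathlib

/-! Pure group theory: the index of the norms for an action of a group of order two. -/

namespace Hm

/-- The squares. -/
def Sq (M : Type*) [CommGroup M] : Subgroup M := (powMonoidHom 2 : M →* M).range

/-- The squares of the elements of `A`. -/
def sqOf {M : Type*} [CommGroup M] (A : Subgroup M) : Subgroup M :=
  A.map (powMonoidHom 2 : M →* M)

/-- The norm `x ↦ x σ(x)`. -/
def nrm {M : Type*} [CommGroup M] (σ : M →* M) : M →* M := MonoidHom.id M * σ

@[simp] theorem nrm_apply {M : Type*} [CommGroup M] (σ : M →* M) (x : M) :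
    nrm σ x = x * σ x := rfl

theorem mem_Sq {M : Type*} [CommGroup M] {x : M} : x ∈ Sq M ↔ ∃ y, y ^ 2 = x := Iff.rfl

theorem mem_sqOf {M : Type*} [CommGroup M] {A : Subgroup M} {x : M} :
    x ∈ sqOf A ↔ ∃ y ∈ A, y ^ 2 = x := Iff.rfl

/-- `2 [A : N M] |M/M²| = |A/A²|²`. -/
theorem lemG {M : Type*} [CommGroup M] (σ : M →* M) (hσ : ∀ x, σ (σ x) = x) (A : Subgroup M)
    (hA : ∀ x, x ∈ A ↔ σ x = x) (h90 : ∀ x, x * σ x = 1 → ∃ y, x = y / σ y)
    (h2 : (sqOf A).relIndex (A ⊓ Sq M) = 2) :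
    2 * ((nrm σ).range.relIndex A * (Sq M).index) = (sqOf A).relIndex A ^ 2 := by
  have hNA : (nrm σ).range ≤ A := by
    rintro _ ⟨x, rfl⟩
    rw [hA, nrm_apply, map_mul, hσ, mul_comm]
  have hAN : sqOf A ≤ (nrm σ).range := by
    rintro _ ⟨x, hx, rfl⟩
    refine ⟨x, ?_⟩
    rw [nrm_apply, (hA x).1 hx, powMonoidHom_apply, pow_two]
  have hSA : sqOf A ≤ Sq M := by
    rintro _ ⟨x, hx, rfl⟩
    exact ⟨x, rfl⟩
  have hSA' : sqOf A ≤ A := hAN.trans hNA
  -- `[M : A M²] = [N M : A²]`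
  have h1 : (A ⊔ Sq M).index = (sqOf A).relIndex (nrm σ).range := by
    have h3 : (sqOf A).comap (nrm σ) = A ⊔ Sq M := by
      apply le_antisymm
      · intro x hx
        rw [Subgroup.mem_comap, nrm_apply, mem_sqOf] at hx
        obtain ⟨a, ha, hax⟩ := hx
        have h4 : (x / a) * σ (x / a) = 1 := by
          rw [map_div, (hA a).1 ha, div_mul_div_comm, ← hax, pow_two, div_self']
        obtain ⟨y, hy⟩ := h90 _ h4
        have h5 : x = (a / (y * σ y)) * y ^ 2 := by
          rw [div_eq_iff_eq_mul] at hy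
          rw [hy, pow_two, div_mul_eq_mul_div, div_mul_eq_mul_div, div_eq_div_iff_mul_eq_mul]
          ac_rfl
        rw [h5]
        refine Subgroup.mul_mem_sup (A.div_mem ha (hNA ⟨y, rfl⟩)) ⟨y, rfl⟩
      · rw [sup_le_iff]
        constructor
        · intro x hx
          rw [Subgroup.mem_comap, nrm_apply]
          exact ⟨x, hx, by rw [powMonoidHom_apply, (hA x).1 hx, pow_two]⟩
        · rintro _ ⟨x, rfl⟩
          rw [Subgroup.mem_comap]
          refine ⟨nrm σ x, hNA ⟨x, rfl⟩, ?_⟩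
          rw [powMonoidHom_apply, powMonoidHom_apply, map_pow]
    rw [← h3, Subgroup.index_comap]
  have h4 : (Sq M).relIndex (A ⊔ Sq M) = (A ⊓ Sq M).relIndex A := by
    rw [Subgroup.relIndex_sup_right, Subgroup.inf_relIndex_left]
  have h5 : (Sq M).relIndex (A ⊔ Sq M) * (A ⊔ Sq M).index = (Sq M).index :=
    Subgroup.relIndex_mul_index le_sup_right
  have h6 : (sqOf A).relIndex (A ⊓ Sq M) * (A ⊓ Sq M).relIndex A = (sqOf A).relIndex A :=
    Subgroup.relIndex_mul_relIndex _ _ _ (le_inf hSA' hSA) inf_le_left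
  have h7 : (sqOf A).relIndex (nrm σ).range * (nrm σ).range.relIndex A = (sqOf A).relIndex A :=
    Subgroup.relIndex_mul_relIndex _ _ _ hAN hNA
  rw [h2] at h6
  calc 2 * ((nrm σ).range.relIndex A * (Sq M).index)
      = (2 * (A ⊓ Sq M).relIndex A) * ((sqOf A).relIndex (nrm σ).range *
        (nrm σ).range.relIndex A) := by
        rw [← h5, h4, h1]; ring
    _ = (sqOf A).relIndex A ^ 2 := by rw [h6, h7]; ring

end Hm
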