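import Mathlib
import Pool.Agent.Lib.MP_f80667_ag.LF.Adic
import Pool.Agent.Lib.MP_f80667_ag.Hm.LemG

/-! The number of square classes of a local field: at most `4 |O/2O|`. -/

namespace Hm

open IsLocalRing

section dvr

variable {R : Type*} [CommRing R] [IsDomain R] [IsDiscreteValuationRing R]

/-- `1 + 4 a` is a square for `a` in the maximal ideal. -/
theorem exists_sq_of_mem [HenselianLocalRing R] {a : R} (ha : a ∈ maximalIdeal R) :
    ∃ y : Rˣ, (y : R) ^ 2 = 1 + 4 * a := by
  classical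
  let f : Polynomial R := Polynomial.X ^ 2 + (Polynomial.X - Polynomial.C a)
  have hf : f.Monic := by
    refine Polynomial.monic_X_pow_add ?_
    rw [Polynomial.degree_X_sub_C]
    norm_num
  obtain ⟨r, hr, hr1⟩ := HenselianLocalRing.is_henselian f hf 0
    (by simpa [f] using ha) (by simp [f])
  have hr2 : r ^ 2 + (r - a) = 0 := by simpa [f, Polynomial.IsRoot] using hr
  have hr3 : r ∈ maximalIdeal R := by simpa using hr1
  have hu : IsUnit (1 + 2 * r) := by
    by_contra hn
    have h1 : (1 : R) ∈ maximalIdeal R := by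
      have h2 : (1 + 2 * r) - 2 * r ∈ maximalIdeal R :=
        Ideal.sub_mem _ ((mem_maximalIdeal _).2 hn) (Ideal.mul_mem_left _ _ hr3)
      rwa [add_sub_cancel_right] at h2
    exact (Ideal.ne_top_iff_one _).1 (maximalIdeal.isMaximal R).ne_top h1
  refine ⟨hu.unit, ?_⟩
  rw [IsUnit.unit_spec]
  linear_combination 4 * hr2

/-- A unit whose square is `1` modulo `4 π` is `± 1` modulo `2 π`. -/
theorem dvd_or_dvd {ϖ : R} (hϖ : Irreducible ϖ) (h2 : (2 : R) ≠ 0) {x : R}
    (hx : 4 * ϖ ∣ x ^ 2 - 1) : 2 * ϖ ∣ x - 1 ∨ 2 * ϖ ∣ x + 1 := by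
  have hp : Prime ϖ := hϖ.prime
  obtain ⟨c, hc⟩ := hx
  have key : 2 ∣ x - 1 → 2 * ϖ ∣ x - 1 ∨ 2 * ϖ ∣ x + 1 := by
    rintro ⟨a, ha⟩
    have h1 : ϖ ∣ a * (a + 1) := by
      refine ⟨c, ?_⟩
      have h3 : (4 : R) * (a * (a + 1)) = 4 * (ϖ * c) := by
        have hx1 : x = 1 + 2 * a := by linear_combination ha
        rw [hx1] at hc
        linear_combination hc
      have h4 : (4 : R) ≠ 0 := by
        have : (4 : R) = 2 * 2 := by norm_num
        rw [this]
        exact mul_ne_zero h2 h2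
      exact mul_left_cancel₀ h4 h3
    rcases hp.dvd_or_dvd h1 with ⟨d, hd⟩ | ⟨d, hd⟩
    · left
      exact ⟨d, by rw [ha, hd]; ring⟩
    · right
      exact ⟨d, by linear_combination ha + 2 * hd⟩
  rcases ValuationRing.dvd_total (x - 1) 2 with h | h
  · obtain ⟨s, hs⟩ := h
    by_cases hsu : IsUnit s
    · refine key ?_
      obtain ⟨t, ht⟩ := hsu.exists_right_inv
      exact ⟨t, by linear_combination -(x - 1) * ht - t * hs⟩
    · exfalso
      have hsm : ϖ ∣ s := by
        have h1 : s ∈ maximalIdeal R := (mem_maximalIdeal _).2 hsu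
        rw [(IsDiscreteValuationRing.irreducible_iff_uniformizer ϖ).1 hϖ] at h1
        exact Ideal.mem_span_singleton.1 h1
      have hA : x - 1 ≠ 0 := by
        intro h0
        rw [h0, zero_mul] at hs
        exact h2 hs
      have h3 : (x - 1) ^ 2 * (1 + s) = (x - 1) ^ 2 * (s ^ 2 * ϖ * c) := by
        linear_combination hc - (x - 1) * hs + (2 + (x - 1) * s) * ϖ * c * hs
      have h4 := mul_left_cancel₀ (pow_ne_zero 2 hA) h3
      have h5 : ϖ ∣ 1 := by
        obtain ⟨d, hd⟩ := hsm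
        exact ⟨s ^ 2 * c - d, by linear_combination h4 - hd⟩
      exact hϖ.not_isUnit (isUnit_of_dvd_one h5)
  · exact key h

open scoped Classical in
/-- At most `2 |R/2|` square classes of units. -/
theorem index_units_le [HenselianLocalRing R] [Finite (ResidueField R)] (h2 : (2 : R) ≠ 0) :
    (Sq Rˣ).index ≠ 0 ∧ Finite (R ⧸ Ideal.span {(2 : R)}) ∧
      (Sq Rˣ).index ≤ 2 * Nat.card (R ⧸ Ideal.span {(2 : R)}) := by
  obtain ⟨ϖ, hϖ⟩ := IsDiscreteValuationRing.exists_irreducible R
  have hfin : ∀ a : R, a ≠ 0 → Finite (R ⧸ Ideal.span {a}) := by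
    intro a ha
    obtain ⟨n, hn⟩ := IsDiscreteValuationRing.ideal_eq_span_pow_irreducible
      (s := Ideal.span {a}) (by rw [Ne, Ideal.span_singleton_eq_bot]; exact ha) hϖ
    have h1 : Ideal.span {a} = maximalIdeal R ^ n := by
      rw [hn, (IsDiscreteValuationRing.irreducible_iff_uniformizer ϖ).1 hϖ,
        Ideal.span_singleton_pow]
    have h3 : Submodule.cardQuot (maximalIdeal R ^ n) = Submodule.cardQuot (maximalIdeal R) ^ n :=
      cardQuot_pow_of_prime (IsDiscreteValuationRing.not_a_field R)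
    have h4 : Submodule.cardQuot (maximalIdeal R) ≠ 0 := by
      rw [Submodule.cardQuot_apply]
      have : Finite (R ⧸ maximalIdeal R) := inferInstanceAs (Finite (ResidueField R))
      exact Nat.card_pos.ne'
    have h5 : Nat.card (R ⧸ Ideal.span {a}) ≠ 0 := by
      rw [← Submodule.cardQuot_apply, h1, h3]
      exact pow_ne_zero _ h4
    exact (Nat.card_ne_zero.1 h5).2
  have h4 : (4 : R) ≠ 0 := by
    have : (4 : R) = 2 * 2 := by norm_num
    rw [this]
    exact mul_ne_zero h2 h2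
  let I : Ideal R := Ideal.span {4 * ϖ}
  have : Finite (R ⧸ I) := hfin _ (mul_ne_zero h4 hϖ.ne_zero)
  have hf2 := hfin 2 h2
  let G := (R ⧸ I)ˣ
  let f : Rˣ →* G := Units.map (Ideal.Quotient.mk I).toMonoidHom
  have hf : Function.Surjective f := by
    intro g
    obtain ⟨x, hx⟩ := Ideal.Quotient.mk_surjective (g : R ⧸ I)
    have hu : IsUnit x := by
      by_contra hn
      have h1 : x ∈ maximalIdeal R := (mem_maximalIdeal _).2 hn
      obtain ⟨y, hy⟩ := Ideal.Quotient.mk_surjective ((g⁻¹ : G) : R ⧸ I)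
      have h3 : x * y - 1 ∈ I := by
        rw [← Ideal.Quotient.eq, map_mul, hx, hy, map_one]
        exact g.mul_inv
      have h5 : I ≤ maximalIdeal R := by
        rw [(IsDiscreteValuationRing.irreducible_iff_uniformizer ϖ).1 hϖ]
        exact Ideal.span_singleton_le_span_singleton.2 (Dvd.intro_left _ rfl)
      have h6 : (1 : R) ∈ maximalIdeal R := by
        have h7 := Ideal.sub_mem _ (Ideal.mul_mem_right y _ h1) (h5 h3)
        rwa [sub_sub_cancel] at h7
      exact (Ideal.ne_top_iff_one _).1 (maximalIdeal.isMaximal R).ne_top h6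
    refine ⟨hu.unit, ?_⟩
    ext
    exact hx
  have hker : f.ker ≤ Sq Rˣ := by
    intro u hu
    have h1 : Ideal.Quotient.mk I (u : R) = 1 := congrArg Units.val hu
    rw [← map_one (Ideal.Quotient.mk I), Ideal.Quotient.eq, Ideal.mem_span_singleton] at h1
    obtain ⟨c, hc⟩ := h1
    obtain ⟨y, hy⟩ := exists_sq_of_mem (R := R) (a := ϖ * c) (by
      rw [(IsDiscreteValuationRing.irreducible_iff_uniformizer ϖ).1 hϖ]
      exact Ideal.mem_span_singleton.2 (Dvd.intro _ rfl))
    refine ⟨y, ?_⟩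
    ext
    rw [powMonoidHom_apply, Units.val_pow_eq_pow_val, hy]
    linear_combination -hc
  have hidx : ((Sq Rˣ).map f).index = (Sq Rˣ).index := Subgroup.index_map_eq _ hf hker
  have hmap : (Sq Rˣ).map f = Sq G := by
    ext g
    constructor
    · rintro ⟨_, ⟨y, rfl⟩, rfl⟩
      exact ⟨f y, by simp⟩
    · rintro ⟨g', rfl⟩
      obtain ⟨y, rfl⟩ := hf g'
      exact ⟨y ^ 2, ⟨y, rfl⟩, by simp⟩
  have : Finite G := inferInstance
  have hcard : (Sq G).index = Nat.card (powMonoidHom 2 : G →* G).ker := by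
    have h1 : (Sq G).index * Nat.card (Sq G) = Nat.card G := Subgroup.index_mul_card _
    have h3 : (powMonoidHom 2 : G →* G).ker.index * Nat.card (powMonoidHom 2 : G →* G).ker =
      Nat.card G := Subgroup.index_mul_card _
    rw [Subgroup.index_ker] at h3
    have h5 : 0 < Nat.card (Sq G) := Nat.card_pos
    have h6 : Nat.card (Sq G) * (Sq G).index =
        Nat.card (Sq G) * Nat.card (powMonoidHom 2 : G →* G).ker := by
      rw [mul_comm, h1, ← h3]
      rfl
    exact Nat.eq_of_mul_eq_mul_left h5 h6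
  have hle : Nat.card (powMonoidHom 2 : G →* G).ker ≤
      Nat.card (Bool × (R ⧸ Ideal.span {(2 : R)})) := by
    have h1 : ∀ g : (powMonoidHom 2 : G →* G).ker, ∃ p : Bool × R,
        ((g : G) : R ⧸ I) = Ideal.Quotient.mk I ((if p.1 then 1 else -1) + 2 * ϖ * p.2) := by
      rintro ⟨g, hg⟩
      obtain ⟨x, hx⟩ := Ideal.Quotient.mk_surjective (g : R ⧸ I)
      have h3 : g ^ 2 = 1 := hg
      have h5 : 4 * ϖ ∣ x ^ 2 - 1 := by
        rw [← Ideal.mem_span_singleton]
        change x ^ 2 - 1 ∈ I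
        rw [← Ideal.Quotient.eq, map_pow, hx, map_one, ← Units.val_pow_eq_pow_val, h3,
          Units.val_one]
      rcases dvd_or_dvd hϖ h2 h5 with ⟨y, hy⟩ | ⟨y, hy⟩
      · refine ⟨(true, y), ?_⟩
        simp only [if_true]
        rw [← hx]
        congr 1
        linear_combination hy
      · refine ⟨(false, y), ?_⟩
        simp only [Bool.false_eq_true, if_false]
        rw [← hx]
        congr 1
        linear_combination hy
    choose p hp using h1
    refine Nat.card_le_card_of_injective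
      (fun g => ((p g).1, Ideal.Quotient.mk (Ideal.span {(2 : R)}) (p g).2)) ?_
    intro g g' hgg
    simp only [Prod.mk.injEq] at hgg
    obtain ⟨e1, e2⟩ := hgg
    rw [Ideal.Quotient.eq, Ideal.mem_span_singleton] at e2
    obtain ⟨d, hd⟩ := e2
    apply Subtype.ext
    apply Units.ext
    rw [hp g, hp g', e1, Ideal.Quotient.eq, Ideal.mem_span_singleton]
    exact ⟨d, by linear_combination 2 * ϖ * hd⟩
  have hB : Nat.card (Bool × (R ⧸ Ideal.span {(2 : R)})) =
      2 * Nat.card (R ⧸ Ideal.span {(2 : R)}) := by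
    rw [Nat.card_prod, Nat.card_eq_fintype_card (α := Bool), Fintype.card_bool]
  refine ⟨?_, hf2, ?_⟩
  · rw [← hidx, hmap, hcard]
    exact Nat.card_pos.ne'
  · rw [← hidx, hmap, hcard, ← hB]
    exact hle

variable {K : Type*} [Field K] [Algebra R K] [IsFractionRing R K]

/-- At most `4 |R/2|` square classes of the fraction field. -/
theorem index_field_le [HenselianLocalRing R] [Finite (ResidueField R)] (h2 : (2 : R) ≠ 0) :
    (Sq Kˣ).index ≠ 0 ∧ (Sq Kˣ).index ≤ 4 * Nat.card (R ⧸ Ideal.span {(2 : R)}) := by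
  obtain ⟨ϖ, hϖ⟩ := IsDiscreteValuationRing.exists_irreducible R
  obtain ⟨h1, h3, h4⟩ := index_units_le (R := R) h2
  have hinj : Function.Injective (algebraMap R K) := IsFractionRing.injective R K
  have hϖ0 : algebraMap R K ϖ ≠ 0 := by
    rw [Ne, map_eq_zero_iff _ hinj]
    exact hϖ.ne_zero
  let P : Kˣ := Units.mk0 _ hϖ0
  let f : Rˣ →* Kˣ := Units.map (algebraMap R K).toMonoidHom
  have hfS : Sq Rˣ ≤ (Sq Kˣ).comap f := by
    rintro _ ⟨y, rfl⟩
    exact ⟨f y, by simp⟩
  let F : Bool × (Rˣ ⧸ Sq Rˣ) → Kˣ ⧸ Sq Kˣ := fun p =>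
    QuotientGroup.mk (if p.1 then P else 1) * QuotientGroup.map _ _ f hfS p.2
  have hfi : (Sq Rˣ).FiniteIndex := ⟨h1⟩
  have hfin : Finite (Rˣ ⧸ Sq Rˣ) := inferInstance
  have hF : Function.Surjective F := by
    intro z
    obtain ⟨x, rfl⟩ := QuotientGroup.mk_surjective z
    obtain ⟨a, b, hb, hab⟩ := IsFractionRing.div_surjective (A := R) (x : K)
    have hb0 : b ≠ 0 := nonZeroDivisors.ne_zero hb
    have hb1 : algebraMap R K b ≠ 0 := by
      rw [Ne, map_eq_zero_iff _ hinj]
      exact hb0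
    have ha0 : a ≠ 0 := by
      rintro rfl
      rw [map_zero, zero_div] at hab
      exact x.ne_zero hab.symm
    obtain ⟨n, u, hu⟩ := IsDiscreteValuationRing.eq_unit_mul_pow_irreducible
      (mul_ne_zero ha0 hb0) hϖ
    let B : Kˣ := Units.mk0 _ hb1
    have hx : x * B ^ 2 = f u * P ^ n := by
      ext
      push_cast
      have e1 : (x : K) * (B : K) ^ 2 = algebraMap R K a * algebraMap R K b := by
        rw [← hab]
        change algebraMap R K a / algebraMap R K b * (algebraMap R K b) ^ 2 = _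
        field_simp
      rw [e1, ← map_mul, hu, map_mul, map_pow]
      rfl
    obtain ⟨m, hm | hm⟩ := Nat.even_or_odd' n
    · refine ⟨(false, QuotientGroup.mk u), ?_⟩
      change QuotientGroup.mk (if false = true then P else 1) * QuotientGroup.mk (f u) = _
      rw [if_neg (by simp), ← QuotientGroup.mk_mul, QuotientGroup.eq]
      refine ⟨P ^ m / B, ?_⟩
      rw [powMonoidHom_apply, div_pow, ← pow_mul, mul_comm m 2, ← hm, one_mul,
        div_eq_iff_eq_mul, mul_assoc, hx]
      group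
    · refine ⟨(true, QuotientGroup.mk u), ?_⟩
      change QuotientGroup.mk (if true = true then P else 1) * QuotientGroup.mk (f u) = _
      rw [if_pos rfl, ← QuotientGroup.mk_mul, QuotientGroup.eq]
      refine ⟨P ^ m / B, ?_⟩
      rw [powMonoidHom_apply, div_pow, ← pow_mul, mul_comm m 2,
        div_eq_iff_eq_mul, mul_assoc, hx, hm, pow_succ, eq_inv_mul_iff_mul_eq]
      ac_rfl
  have hfK : Finite (Kˣ ⧸ Sq Kˣ) := Finite.of_surjective F hF
  have hc : Nat.card (Kˣ ⧸ Sq Kˣ) ≤ Nat.card (Bool × (Rˣ ⧸ Sq Rˣ)) :=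
    Nat.card_le_card_of_surjective F hF
  rw [Nat.card_prod, Nat.card_eq_fintype_card (α := Bool), Fintype.card_bool] at hc
  refine ⟨Nat.card_pos.ne', ?_⟩
  change Nat.card (Kˣ ⧸ Sq Kˣ) ≤ _
  change Nat.card (Rˣ ⧸ Sq Rˣ) ≤ _ at h4
  omega

end dvr

end Hm
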