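import Mathlib
import Pool.Agent.Lib.MP_f80667_ag.Hm.LocA
import Pool.Agent.Lib.MP_f80667_ag.Hm.Defs

/-! Global form of the bound for the number of local square classes. -/

namespace Hm

open IsLocalRing IsDedekindDomain NumberField HeightOneSpectrum
open Pool.Agent.Lib.MP_f80667_ag

variable {F : Type*} [Field F] [NumberField F]

/-- Local integers are congruent to global integers modulo `2`. -/
theorem exists_close_two (v : HeightOneSpectrum (𝓞 F)) (x : v.adicCompletionIntegers F) :
    ∃ a : 𝓞 F, x - algebraMap (𝓞 F) (v.adicCompletionIntegers F) a ∈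
      Ideal.span {(2 : v.adicCompletionIntegers F)} := by
  have hx := x.2
  rw [mem_adicCompletionIntegers] at hx
  have h2 : (2 : v.adicCompletion F) ≠ 0 := two_ne_zero
  have hv2 : (Valued.v (2 : v.adicCompletion F)) ≠ 0 := by
    rwa [Ne, map_eq_zero]
  have hval : ∀ z : F, Valued.v (algebraMap F (v.adicCompletion F) z) = v.valuation F z :=
    fun z => valuedAdicCompletion_eq_valuation' v z
  have hv2' : v.valuation F 2 ≠ 0 := by
    rw [Ne, map_eq_zero]
    exact two_ne_zero
  have h22 : Valued.v (2 : v.adicCompletion F) = v.valuation F 2 := by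
    rw [← hval, map_ofNat (algebraMap F (v.adicCompletion F)) 2]
  obtain ⟨y, hy⟩ : ∃ y : F, Valued.v ((x : v.adicCompletion F) -
      algebraMap F (v.adicCompletion F) y) < Valued.v (2 : v.adicCompletion F) := by
    have hopen : IsOpen {z : v.adicCompletion F | Valued.v ((x : v.adicCompletion F) - z) <
        Valued.v (2 : v.adicCompletion F)} := by
      have h1 : IsOpen {z : v.adicCompletion F | Valued.v z < Valued.v (2 : v.adicCompletion F)} := by
        have h3 : {z : v.adicCompletion F | Valued.v z < Valued.v (2 : v.adicCompletion F)} =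
            (fun z => z / 2) ⁻¹' {z : v.adicCompletion F | Valued.v z < 1} := by
          ext z
          simp only [Set.mem_ofPred_eq, Set.mem_preimage, map_div₀]
          rw [div_lt_one₀ (zero_lt_iff.2 hv2)]
        rw [h3]
        have h4 : IsOpen {z : v.adicCompletion F | Valued.v z < 1} := by
          simpa only [Valuation.restrict_lt_one_iff] using Valued.isOpen_ball (v.adicCompletion F) 1
        exact h4.preimage (continuous_id.div_const 2)
      exact h1.preimage (continuous_const.sub continuous_id)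
    obtain ⟨z, hz⟩ := (denseRange_algebraMap F v).exists_mem_open hopen
      ⟨(x : v.adicCompletion F), by simp [zero_lt_iff]⟩
    exact ⟨z, hz⟩
  have hle1 : Valued.v (2 : v.adicCompletion F) ≤ 1 := by
    have h := (2 : v.adicCompletionIntegers F).2
    rwa [mem_adicCompletionIntegers] at h
  have hy1 : v.valuation F y ≤ 1 := by
    rw [← hval]
    have : algebraMap F (v.adicCompletion F) y =
        (x : v.adicCompletion F) - ((x : v.adicCompletion F) - algebraMap F _ y) := by
      ring
    rw [this]
    exact (Valuation.map_sub _ _ _).trans (max_le hx (hy.le.trans hle1))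
  obtain ⟨a, ha⟩ := exists_valuation_sub_lt_of_integer v hy1 (Units.mk0 _ hv2')
  rw [Units.val_mk0] at ha
  refine ⟨a, ?_⟩
  have h3 : ((x - algebraMap (𝓞 F) (v.adicCompletionIntegers F) a :
    v.adicCompletionIntegers F) : v.adicCompletion F) =
      ((x : v.adicCompletion F) - algebraMap F _ y) -
        algebraMap F (v.adicCompletion F) (algebraMap (𝓞 F) F a - y) := by
    rw [map_sub]
    have h4 : ((algebraMap (𝓞 F) (v.adicCompletionIntegers F) a : v.adicCompletionIntegers F) :
        v.adicCompletion F) = algebraMap F (v.adicCompletion F) (algebraMap (𝓞 F) F a) := rfl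
    have h5 : ((x - algebraMap (𝓞 F) (v.adicCompletionIntegers F) a :
        v.adicCompletionIntegers F) : v.adicCompletion F) = (x : v.adicCompletion F) -
        ((algebraMap (𝓞 F) (v.adicCompletionIntegers F) a : v.adicCompletionIntegers F) :
        v.adicCompletion F) := rfl
    rw [h5, h4]
    ring
  have h6 : Valued.v ((x - algebraMap (𝓞 F) (v.adicCompletionIntegers F) a :
      v.adicCompletionIntegers F) : v.adicCompletion F) ≤ Valued.v (2 : v.adicCompletion F) := by
    rw [h3]
    refine (Valuation.map_sub _ _ _).trans (max_le hy.le ?_)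
    rw [hval, h22]
    exact ha.le
  rw [Ideal.mem_span_singleton]
  have h7 : ((x - algebraMap (𝓞 F) (v.adicCompletionIntegers F) a :
      v.adicCompletionIntegers F) : v.adicCompletion F) / 2 ∈ v.adicCompletionIntegers F := by
    rw [mem_adicCompletionIntegers, map_div₀]
    exact (div_le_one₀ (zero_lt_iff.2 hv2)).2 h6
  refine ⟨⟨_, h7⟩, ?_⟩
  apply Subtype.ext
  change _ = (2 : v.adicCompletion F) * (_ / 2)
  rw [mul_div_cancel₀ _ h2]

/-- The product of the orders of `O_v / 2` is at most `2 ^ [F : ℚ]`. -/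
theorem prod_card_le (S : Finset (HeightOneSpectrum (𝓞 F))) :
    ∏ v ∈ S, Nat.card (v.adicCompletionIntegers F ⧸
      Ideal.span {(2 : v.adicCompletionIntegers F)}) ≤ 2 ^ Module.finrank ℚ F := by
  classical
  have hcard : Nat.card (𝓞 F ⧸ Ideal.span {(2 : 𝓞 F)}) = 2 ^ Module.finrank ℚ F := by
    rw [← Submodule.cardQuot_apply, ← Ideal.absNorm_apply, Ideal.absNorm_span_singleton]
    have h1 : (2 : 𝓞 F) = algebraMap ℤ (𝓞 F) 2 := by simp
    rw [h1, Algebra.norm_algebraMap, Int.natAbs_pow, RingOfIntegers.rank]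
    rfl
  have hfin : Finite (𝓞 F ⧸ Ideal.span {(2 : 𝓞 F)}) := by
    refine (Nat.card_ne_zero.1 ?_).2
    rw [hcard]
    positivity
  let φ : 𝓞 F →+* ∀ v : S, v.1.adicCompletionIntegers F ⧸
      Ideal.span {(2 : v.1.adicCompletionIntegers F)} :=
    RingHom.pi fun v => (Ideal.Quotient.mk _).comp
      (algebraMap (𝓞 F) (v.1.adicCompletionIntegers F))
  have hφ : ∀ a ∈ Ideal.span {(2 : 𝓞 F)}, φ a = 0 := by
    intro a ha
    obtain ⟨b, rfl⟩ := Ideal.mem_span_singleton.1 ha
    funext v
    change Ideal.Quotient.mk _ (algebraMap (𝓞 F) (v.1.adicCompletionIntegers F) (2 * b)) = 0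
    rw [Ideal.Quotient.eq_zero_iff_mem, map_mul, map_ofNat]
    exact Ideal.mem_span_singleton.2 (Dvd.intro _ rfl)
  let ψ := Ideal.Quotient.lift (Ideal.span {(2 : 𝓞 F)}) φ hφ
  have hψ : Function.Surjective ψ := by
    intro z
    have h1 : ∀ v : S, ∃ a : 𝓞 F, z v = Ideal.Quotient.mk _
        (algebraMap (𝓞 F) (v.1.adicCompletionIntegers F) a) := by
      intro v
      obtain ⟨x, hx⟩ := Ideal.Quotient.mk_surjective (z v)
      obtain ⟨a, ha⟩ := exists_close_two v.1 x
      exact ⟨a, by rw [← hx, Ideal.Quotient.eq]; exact ha⟩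
    choose a ha using h1
    have hn : ∀ v : HeightOneSpectrum (𝓞 F), ∃ n : ℕ,
        v.intValuation (2 : 𝓞 F) = WithZero.exp (-(n : ℤ)) := by
      intro v
      exact ⟨_, v.intValuation_if_neg two_ne_zero⟩
    choose n hn using hn
    obtain ⟨y, hy⟩ := IsDedekindDomain.exists_forall_sub_mem_ideal (s := S)
      (fun v => v.asIdeal) n (fun v _ => v.prime)
      (fun v _ w _ h e => h (HeightOneSpectrum.ext e)) a
    refine ⟨Ideal.Quotient.mk _ y, ?_⟩
    change φ y = z
    funext v
    rw [ha v]
    change Ideal.Quotient.mk _ (algebraMap (𝓞 F) (v.1.adicCompletionIntegers F) y) = _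
    rw [Ideal.Quotient.eq, ← map_sub]
    have h3 := hy v.1 v.2
    rw [← intValuation_le_pow_iff_mem, ← hn] at h3
    rw [Ideal.mem_span_singleton]
    have h2 : (2 : v.1.adicCompletion F) ≠ 0 := two_ne_zero
    have hv2 : (Valued.v (2 : v.1.adicCompletion F)) ≠ 0 := by
      rwa [Ne, map_eq_zero]
    have h22 : Valued.v (2 : v.1.adicCompletion F) = v.1.intValuation (2 : 𝓞 F) := by
      have h4 : Valued.v (algebraMap F (v.1.adicCompletion F) 2) = v.1.valuation F 2 :=
        valuedAdicCompletion_eq_valuation' v.1 (2 : F)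
      have h5 : v.1.valuation F (algebraMap (𝓞 F) F 2) = v.1.intValuation (2 : 𝓞 F) :=
        v.1.valuation_of_algebraMap (K := F) (2 : 𝓞 F)
      rw [map_ofNat (algebraMap (𝓞 F) F) 2] at h5
      rw [map_ofNat (algebraMap F (v.1.adicCompletion F)) 2] at h4
      rw [← h5, ← h4]
    have h6 : Valued.v ((algebraMap (𝓞 F) (v.1.adicCompletionIntegers F) (y - a ⟨v.1, v.2⟩) :
        v.1.adicCompletionIntegers F) : v.1.adicCompletion F) ≤
        Valued.v (2 : v.1.adicCompletion F) := by
      rw [h22]
      refine le_trans (le_of_eq ?_) h3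
      rw [← v.1.valuation_of_algebraMap (K := F)]
      exact valuedAdicCompletion_eq_valuation' v.1 _
    have h7 : ((algebraMap (𝓞 F) (v.1.adicCompletionIntegers F) (y - a ⟨v.1, v.2⟩) :
        v.1.adicCompletionIntegers F) : v.1.adicCompletion F) / 2 ∈
        v.1.adicCompletionIntegers F := by
      rw [mem_adicCompletionIntegers, map_div₀]
      exact (div_le_one₀ (zero_lt_iff.2 hv2)).2 h6
    refine ⟨⟨_, h7⟩, ?_⟩
    apply Subtype.ext
    change _ = (2 : v.1.adicCompletion F) * (_ / 2)
    rw [mul_div_cancel₀ _ h2]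
  have h1 := Nat.card_le_card_of_surjective ψ hψ
  rw [hcard, Nat.card_pi] at h1
  rw [← Finset.prod_coe_sort]
  exact h1

/-- An element of `F` which is a square in `F_v` is a local square in the sense of `LSq`. -/
theorem mem_LSq_of_sq {v : HeightOneSpectrum (𝓞 F)} {x : Fˣ} {z : v.adicCompletion F}
    (hz : algebraMap F (v.adicCompletion F) x = z ^ 2) : x ∈ LSq v := by
  have hval : ∀ z : F, Valued.v (algebraMap F (v.adicCompletion F) z) = v.valuation F z :=
    fun z => valuedAdicCompletion_eq_valuation' v z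
  have hv4 : v.valuation F 4 ≠ 0 := (val4_pos v).ne'
  have h44 : Valued.v (4 : v.adicCompletion F) = v.valuation F 4 := by
    rw [← hval, map_ofNat (algebraMap F (v.adicCompletion F)) 4]
  have h4 : (4 : v.adicCompletion F) ≠ 0 := by
    intro h
    rw [h, map_zero] at h44
    exact hv4 h44.symm
  have hopen : IsOpen {t : v.adicCompletion F | Valued.v (z * t - 1) < v.valuation F 4} := by
    have h3 : {t : v.adicCompletion F | Valued.v (z * t - 1) < v.valuation F 4} =
        (fun t => (z * t - 1) / 4) ⁻¹' {t : v.adicCompletion F | Valued.v t < 1} := by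
      ext t
      simp only [Set.mem_ofPred_eq, Set.mem_preimage, map_div₀, h44]
      rw [div_lt_one₀ (zero_lt_iff.2 hv4)]
    rw [h3]
    have h5 : IsOpen {z : v.adicCompletion F | Valued.v z < 1} := by
      simpa only [Valuation.restrict_lt_one_iff] using Valued.isOpen_ball (v.adicCompletion F) 1
    exact h5.preimage (((continuous_const.mul continuous_id).sub continuous_const).div_const 4)
  have hz0 : z ≠ 0 := by
    rintro rfl
    rw [zero_pow two_ne_zero, map_eq_zero] at hz
    exact x.ne_zero hz
  obtain ⟨y, hy⟩ := (denseRange_algebraMap F v).exists_mem_open hopen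
    ⟨z⁻¹, by
      change Valued.v (z * z⁻¹ - 1) < v.valuation F 4
      rw [mul_inv_cancel₀ hz0, sub_self, map_zero]
      exact val4_pos v⟩
  have hy' : Valued.v (z * algebraMap F (v.adicCompletion F) y - 1) < v.valuation F 4 := hy
  have hy0 : y ≠ 0 := by
    rintro rfl
    rw [map_zero, mul_zero, zero_sub, Valuation.map_neg, map_one] at hy'
    exact absurd (val4_le v) (not_le.2 hy')
  refine ⟨Units.mk0 y hy0, ?_⟩
  rw [Units.val_mk0, ← hval, map_sub, map_mul, map_pow, hz, map_one]
  set ε := z * algebraMap F (v.adicCompletion F) y - 1 with hε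
  have e : z ^ 2 * algebraMap F (v.adicCompletion F) y ^ 2 - 1 = ε * ε + 2 * ε := by
    rw [hε]
    ring
  rw [e]
  have hle2 : Valued.v (2 : v.adicCompletion F) ≤ 1 := by
    have h := (2 : v.adicCompletionIntegers F).2
    rwa [mem_adicCompletionIntegers] at h
  refine lt_of_le_of_lt (Valuation.map_add _ _ _) (max_lt ?_ ?_)
  · rw [map_mul]
    calc _ ≤ Valued.v ε * 1 := mul_le_mul_right (hy'.le.trans (val4_le v)) _
      _ < _ := by rwa [mul_one]
  · rw [map_mul]
    calc _ ≤ 1 * Valued.v ε := mul_le_mul_left hle2 _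
      _ < _ := by rwa [one_mul]

instance (v : HeightOneSpectrum (𝓞 F)) : HenselianLocalRing (v.adicCompletionIntegers F) where
  is_henselian f hf a₀ h₁ h₂ :=
    HenselianRing.is_henselian (I := maximalIdeal (v.adicCompletionIntegers F)) f hf a₀ h₁
      (h₂.map (Ideal.Quotient.mk _))

/-- The index of the local squares. -/
theorem index_LSq_le (v : HeightOneSpectrum (𝓞 F)) :
    (LSq v).index ≠ 0 ∧ (LSq v).index ≤ 4 * Nat.card (v.adicCompletionIntegers F ⧸
      Ideal.span {(2 : v.adicCompletionIntegers F)}) := by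
  have h2 : (2 : v.adicCompletionIntegers F) ≠ 0 := by
    intro h
    exact two_ne_zero (α := v.adicCompletion F) (congrArg Subtype.val h)
  obtain ⟨h3, h4⟩ := index_field_le (R := v.adicCompletionIntegers F)
    (K := v.adicCompletion F) h2
  let f : Fˣ →* (v.adicCompletion F)ˣ := Units.map (algebraMap F (v.adicCompletion F)).toMonoidHom
  have h5 : (Sq (v.adicCompletion F)ˣ).comap f ≤ LSq v := by
    rintro x ⟨z, hz⟩
    refine mem_LSq_of_sq (z := (z : v.adicCompletion F)) ?_
    have h6 := congrArg Units.val hz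
    rw [powMonoidHom_apply, Units.val_pow_eq_pow_val] at h6
    exact h6.symm
  have h6 : ((Sq (v.adicCompletion F)ˣ).comap f).index ≠ 0 := by
    rw [Subgroup.index_comap]
    intro h
    exact h3 (Nat.eq_zero_of_zero_dvd (h ▸ Subgroup.relIndex_dvd_index_of_normal _ _))
  have h7 : ((Sq (v.adicCompletion F)ˣ).comap f).index ≤ (Sq (v.adicCompletion F)ˣ).index := by
    rw [Subgroup.index_comap]
    exact Nat.le_of_dvd (Nat.pos_of_ne_zero h3) (Subgroup.relIndex_dvd_index_of_normal _ _)
  have h8 := Subgroup.index_dvd_of_le h5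
  refine ⟨fun h => h6 (Nat.eq_zero_of_zero_dvd (h ▸ h8)), ?_⟩
  exact (Nat.le_of_dvd (Nat.pos_of_ne_zero h6) h8).trans (h7.trans h4)

/-- **(L1)** The product of the indices of the local squares. -/
theorem prod_L1 (S : Finset (HeightOneSpectrum (𝓞 F))) :
    ∏ v ∈ S, (LSq v).index ≤ 4 ^ S.card * 2 ^ Module.finrank ℚ F := by
  calc ∏ v ∈ S, (LSq v).index
      ≤ ∏ v ∈ S, 4 * Nat.card (v.adicCompletionIntegers F ⧸
          Ideal.span {(2 : v.adicCompletionIntegers F)}) :=
        Finset.prod_le_prod' fun v _ => (index_LSq_le v).2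
    _ = 4 ^ S.card * ∏ v ∈ S, Nat.card (v.adicCompletionIntegers F ⧸
          Ideal.span {(2 : v.adicCompletionIntegers F)}) := by
        rw [Finset.prod_mul_distrib, Finset.prod_const]
    _ ≤ 4 ^ S.card * 2 ^ Module.finrank ℚ F := Nat.mul_le_mul_left _ (prod_card_le S)

end Hm
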