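import Mathlib

/-!
# Springer's theorem on odd degree extensions, for diagonal quadratic forms
-/

set_option autoImplicit false

namespace Hm

open Polynomial

variable {K : Type*} [Field K]

/-- A polynomial of odd degree has an irreducible factor of odd degree. -/
theorem exists_irred_odd : ∀ (n : ℕ) (h : K[X]), h.natDegree = n → Odd n →
    ∃ f : K[X], Irreducible f ∧ f ∣ h ∧ Odd f.natDegree := by
  intro n
  induction n using Nat.strong_induction_on with
  | _ n ih =>
    intro h hn hodd
    have h0 : h ≠ 0 := by
      rintro rfl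
      rw [natDegree_zero] at hn
      subst hn
      exact absurd hodd (by decide)
    have hu : ¬ IsUnit h := by
      intro hu
      rw [natDegree_eq_zero_of_isUnit hu] at hn
      subst hn
      exact absurd hodd (by decide)
    obtain ⟨f, hf, k, hk⟩ := WfDvdMonoid.exists_irreducible_factor hu h0
    have hk0 : k ≠ 0 := by
      rintro rfl
      exact h0 (by rw [hk, mul_zero])
    have hdeg : h.natDegree = f.natDegree + k.natDegree := by
      rw [hk, natDegree_mul hf.ne_zero hk0]
    rcases Nat.even_or_odd f.natDegree with he | ho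
    · have hpos : 0 < f.natDegree := hf.natDegree_pos
      have hko : Odd k.natDegree := by
        have : Odd (f.natDegree + k.natDegree) := by rw [← hdeg, hn]; exact hodd
        rcases Nat.even_or_odd k.natDegree with hk' | hk'
        · exact absurd this (Nat.not_odd_iff_even.2 (he.add hk'))
        · exact hk'
      obtain ⟨g, hg, hgd, hgo⟩ := ih k.natDegree (by omega) k rfl hko
      exact ⟨g, hg, hgd.trans ⟨f, by rw [hk, mul_comm]⟩, hgo⟩
    · exact ⟨f, hf, ⟨k, hk⟩, ho⟩

variable {ι : Type*} [Fintype ι]

private theorem coeff_q (a : ι → K) (g : ι → K[X]) (d : ℕ) (hd : ∀ i, (g i).natDegree ≤ d) :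
    (∑ i, C (a i) * g i ^ 2).natDegree ≤ 2 * d ∧
      (∑ i, C (a i) * g i ^ 2).coeff (2 * d) = ∑ i, a i * (g i).coeff d ^ 2 := by
  constructor
  · refine natDegree_sum_le_of_forall_le _ _ fun i _ => ?_
    refine (natDegree_C_mul_le _ _).trans ((natDegree_pow_le).trans ?_)
    exact Nat.mul_le_mul_left 2 (hd i)
  · rw [finsetSum_coeff]
    refine Finset.sum_congr rfl fun i _ => ?_
    rw [coeff_C_mul, coeff_pow_of_natDegree_le (hd i)]

private theorem step (a : ι → K) (ha : ∀ x : ι → K, ∑ i, a i * x i ^ 2 = 0 → x = 0) (N : ℕ)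
    (hN : Odd N)
    (ih : ∀ M < N, Odd M → ∀ p : K[X], Irreducible p → p.natDegree = M → ∀ g : ι → K[X],
      p ∣ ∑ i, C (a i) * g i ^ 2 → ∀ i, p ∣ g i)
    (p : K[X]) (hp : Irreducible p) (hpN : p.natDegree = N) :
    ∀ (d : ℕ) (g : ι → K[X]), d < N → (∀ i, (g i).natDegree ≤ d) →
      p ∣ ∑ i, C (a i) * g i ^ 2 → g = 0 := by
  intro d
  induction d using Nat.strong_induction_on with
  | _ d ihd =>
    intro g hdN hd hpg
    by_contra hne
    obtain ⟨hq1, hq2⟩ := coeff_q a g d hd
    by_cases hc : (fun i => (g i).coeff d) = 0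
    · rcases Nat.eq_zero_or_pos d with h0 | hpos
      · apply hne
        funext i
        have h1 := hd i
        rw [h0] at h1 hc
        have h2 := congrFun hc i
        rw [eq_C_of_natDegree_le_zero h1]
        simp only [Pi.zero_apply] at h2
        rw [h2, C_0, Pi.zero_apply]
      · refine hne (ihd (d - 1) (by omega) g (by omega) (fun i => ?_) hpg)
        have h2 : (g i).coeff d = 0 := congrFun hc i
        by_contra hlt
        have h3 : (g i).natDegree = d := le_antisymm (hd i) (by omega)
        have h4 : (g i).leadingCoeff = 0 := by rw [leadingCoeff, h3, h2]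
        rw [leadingCoeff_eq_zero] at h4
        rw [h4, natDegree_zero] at h3
        omega
    · have hcne : (∑ i, C (a i) * g i ^ 2).coeff (2 * d) ≠ 0 := by
        rw [hq2]
        exact fun h => hc (ha _ h)
      have hdeg : (∑ i, C (a i) * g i ^ 2).natDegree = 2 * d :=
        le_antisymm hq1 (le_natDegree_of_ne_zero hcne)
      obtain ⟨h, hh⟩ := hpg
      have hq0 : (∑ i, C (a i) * g i ^ 2) ≠ 0 := by
        intro h0
        rw [h0, coeff_zero] at hcne
        exact hcne rfl
      have hh0 : h ≠ 0 := by
        rintro rfl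
        exact hq0 (by rw [hh, mul_zero])
      have hdh : 2 * d = N + h.natDegree := by
        rw [← hdeg, hh, natDegree_mul hp.ne_zero hh0, hpN]
      have hodd : Odd h.natDegree := by
        rcases Nat.even_or_odd h.natDegree with he | ho
        · have : Odd (2 * d) := by rw [hdh]; exact hN.add_even he
          exact absurd this (Nat.not_odd_iff_even.2 (even_two_mul d))
        · exact ho
      obtain ⟨f, hf, ⟨k, hk⟩, hfo⟩ := exists_irred_odd _ h rfl hodd
      have hk0 : k ≠ 0 := by
        rintro rfl
        exact hh0 (by rw [hk, mul_zero])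
      have hfh : f.natDegree ≤ h.natDegree := by
        rw [hk, natDegree_mul hf.ne_zero hk0]
        omega
      have hall := ih f.natDegree (by omega) hfo f hf rfl g
        (hh ▸ ⟨p * k, by rw [hk]; ring⟩)
      choose g' hg' using hall
      have hfp : ¬ p ∣ f := fun hd' => by
        have := natDegree_le_of_dvd hd' hf.ne_zero
        omega
      have hq' : (∑ i, C (a i) * g i ^ 2) = f ^ 2 * ∑ i, C (a i) * g' i ^ 2 := by
        rw [Finset.mul_sum]
        refine Finset.sum_congr rfl fun i _ => ?_
        rw [hg' i]
        ring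
      have hpq : p ∣ ∑ i, C (a i) * g' i ^ 2 := by
        have h1 : p ∣ f ^ 2 * ∑ i, C (a i) * g' i ^ 2 := by rw [← hq', hh]; exact dvd_mul_right _ _
        rcases hp.prime.dvd_or_dvd h1 with h2 | h2
        · exact absurd (hp.prime.dvd_of_dvd_pow h2) hfp
        · exact h2
      have hfpos : 0 < f.natDegree := hf.natDegree_pos
      have hg0 : g' = 0 := by
        refine ihd (d - 1) (by omega) g' (by omega) (fun i => ?_) hpq
        by_cases hi : g' i = 0
        · rw [hi, natDegree_zero]
          omega
        · have h1 := hd i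
          rw [hg' i, natDegree_mul hf.ne_zero hi] at h1
          omega
      apply hne
      funext i
      rw [hg' i, hg0]
      simp

/-- Springer's theorem for the extension by a root of an irreducible polynomial of odd degree. -/
theorem spr (a : ι → K) (ha : ∀ x : ι → K, ∑ i, a i * x i ^ 2 = 0 → x = 0) (N : ℕ) :
    Odd N → ∀ p : K[X], Irreducible p → p.natDegree = N → ∀ g : ι → K[X],
      p ∣ ∑ i, C (a i) * g i ^ 2 → ∀ i, p ∣ g i := by
  induction N using Nat.strong_induction_on with
  | _ N ih =>
    intro hN p hp hpN g hg i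
    have h1 : p ∣ ∑ i, C (a i) * (g i % p) ^ 2 := by
      have e : (∑ i, C (a i) * (g i % p) ^ 2) = (∑ i, C (a i) * g i ^ 2) -
          p * ∑ i, C (a i) * (g i / p) * (g i + g i % p) := by
        rw [Finset.mul_sum, ← Finset.sum_sub_distrib]
        refine Finset.sum_congr rfl fun i _ => ?_
        have h2 : g i = p * (g i / p) + g i % p := (EuclideanDomain.div_add_mod (g i) p).symm
        generalize g i / p = u at h2 ⊢
        generalize g i % p = w at h2 ⊢
        rw [h2]
        ring
      rw [e]
      exact dvd_sub hg (dvd_mul_right _ _)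
    have hpos : 0 < N := hN.pos
    have h2 := step a ha N hN ih p hp hpN (N - 1) (fun i => g i % p) (by omega) (fun i => by
      have h3 := natDegree_mod_lt (g i) (q := p) (by omega)
      omega) h1
    have h3 : g i % p = 0 := congrFun h2 i
    exact (EuclideanDomain.mod_eq_zero).1 h3

/-- Springer's theorem. -/
theorem spr_ext {L : Type*} [Field L] [Algebra K L] [FiniteDimensional K L] [CharZero K]
    (hodd : Odd (Module.finrank K L)) (a : ι → K)
    (h : ∃ y : ι → L, y ≠ 0 ∧ ∑ i, algebraMap K L (a i) * y i ^ 2 = 0) :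
    ∃ x : ι → K, x ≠ 0 ∧ ∑ i, a i * x i ^ 2 = 0 := by
  by_contra hcon
  have ha : ∀ x : ι → K, ∑ i, a i * x i ^ 2 = 0 → x = 0 := by
    intro x hx
    by_contra hx0
    exact hcon ⟨x, hx0, hx⟩
  obtain ⟨y, hy0, hy⟩ := h
  obtain ⟨α, hα⟩ := Field.exists_primitive_element K L
  have hint : IsIntegral K α := Algebra.IsIntegral.isIntegral α
  have hdeg : (minpoly K α).natDegree = Module.finrank K L := by
    rw [← IntermediateField.adjoin.finrank hint, hα]
    exact IntermediateField.finrank_top'
  have hrep : ∀ z : L, ∃ f : K[X], aeval α f = z := by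
    intro z
    have hz : z ∈ IntermediateField.adjoin K {α} := by rw [hα]; trivial
    rw [← IntermediateField.mem_toSubalgebra,
      IntermediateField.adjoin_simple_toSubalgebra_of_isAlgebraic hint.isAlgebraic,
      Algebra.adjoin_singleton_eq_range_aeval] at hz
    exact hz
  choose g hg using fun i => hrep (y i)
  have hd : minpoly K α ∣ ∑ i, C (a i) * g i ^ 2 := by
    apply minpoly.dvd
    rw [map_sum]
    simp only [map_mul, map_pow, aeval_C, hg]
    exact hy
  have h1 := spr a ha _ (hdeg ▸ hodd) (minpoly K α) (minpoly.irreducible hint) rfl g hd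
  apply hy0
  funext i
  obtain ⟨k, hk⟩ := h1 i
  rw [← hg i, hk, map_mul, minpoly.aeval, zero_mul, Pi.zero_apply]

end Hm
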