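import Mathlib

/-! Real embeddings and completions. -/

open NumberField

namespace Hm

/-- A real embedding of a field `M` over the number field `F` gives a real place of `F`. -/
theorem exists_real (F M : Type) [Field F] [NumberField F] [Field M] [Algebra F M] (φ : M →+* ℝ) :
    ∃ v : InfinitePlace F, v.IsReal ∧ ∃ e : ℝ ≃+* v.Completion,
      ∀ x : F, e (φ (algebraMap F M x)) = algebraMap F v.Completion x := by
  let ψ : F →+* ℂ := (Complex.ofRealHom.comp φ).comp (algebraMap F M)
  have hψ : ComplexEmbedding.IsReal ψ := by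
    rw [ComplexEmbedding.isReal_iff]
    ext x
    simp [ψ]
  have hv : (InfinitePlace.mk ψ).IsReal := ⟨ψ, hψ, rfl⟩
  refine ⟨InfinitePlace.mk ψ, hv,
    (InfinitePlace.Completion.ringEquivRealOfIsReal hv).symm, fun x => ?_⟩
  rw [RingEquiv.symm_apply_eq]
  have h1 : InfinitePlace.Completion.ringEquivRealOfIsReal hv
      (algebraMap F (InfinitePlace.mk ψ).Completion x) =
      InfinitePlace.embedding_of_isReal hv x :=
    InfinitePlace.Completion.extensionEmbeddingOfIsReal_coe hv _
  rw [h1]
  have h2 : ((InfinitePlace.embedding_of_isReal hv x : ℝ) : ℂ) = ψ x := by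
    rw [InfinitePlace.embedding_of_isReal_apply, InfinitePlace.embedding_mk_eq_of_isReal hψ]
  have h3 : ψ x = ((φ (algebraMap F M x) : ℝ) : ℂ) := rfl
  rw [h3] at h2
  exact_mod_cast h2.symm

end Hm
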