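import Mathlib

/-!
# From diagonal forms to arbitrary quadratic forms, over a field with real embeddings
-/

set_option autoImplicit false

namespace Hm

open Matrix

variable {K : Type*} [Field K] [CharZero K]

/-- Diagonalisation in terms of matrices. -/
theorem exists_diag {m : ℕ} (A : Matrix (Fin m) (Fin m) K) :
    ∃ (w : Fin m → K) (P Q : Matrix (Fin m) (Fin m) K), P * Q = 1 ∧ Q * P = 1 ∧
      Pᵀ * A * P + (Pᵀ * A * P)ᵀ = (2 : K) • diagonal w := by
  classical
  let _ : Invertible (2 : K) := invertibleOfNonzero two_ne_zero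
  let q : QuadraticForm K (Fin m → K) :=
    LinearMap.BilinMap.toQuadraticMap (Matrix.toLinearMap₂' K A)
  have hq : ∀ x, q x = x ⬝ᵥ (A *ᵥ x) := by
    intro x
    show (Matrix.toLinearMap₂' K A) x x = _
    rw [Matrix.toLinearMap₂'_apply']
  obtain ⟨w0, ⟨e0⟩⟩ := q.equivalent_weightedSumSquares
  have hf : Module.finrank K (Fin m → K) = m := Module.finrank_fin_fun K
  let σ : Fin m ≃ Fin (Module.finrank K (Fin m → K)) := finCongr hf.symm
  let e1 : (Fin (Module.finrank K (Fin m → K)) → K) ≃ₗ[K] (Fin m → K) :=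
    LinearEquiv.funCongrLeft K K σ
  let e : (Fin m → K) ≃ₗ[K] (Fin m → K) := e1.symm.trans e0.symm.toLinearEquiv
  have he : ∀ x, q (e x) = ∑ i, w0 (σ i) * x i ^ 2 := by
    intro x
    have h1 : q (e0.symm (e1.symm x)) = QuadraticMap.weightedSumSquares K w0 (e1.symm x) :=
      e0.symm.map_app _
    have h2 : q (e x) = q (e0.symm (e1.symm x)) := rfl
    rw [h2, h1, QuadraticMap.weightedSumSquares_apply, ← Equiv.sum_comp σ]
    refine Finset.sum_congr rfl fun i _ => ?_
    have h3 : e1.symm x (σ i) = x i := by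
      show x (σ.symm (σ i)) = x i
      rw [Equiv.symm_apply_apply]
    rw [h3, smul_eq_mul, pow_two]
  set P := LinearMap.toMatrix' (e : (Fin m → K) →ₗ[K] (Fin m → K)) with hP
  set Q := LinearMap.toMatrix' (e.symm : (Fin m → K) →ₗ[K] (Fin m → K)) with hQ
  have hPx : ∀ x, P *ᵥ x = e x := by
    intro x
    rw [hP, LinearMap.toMatrix'_mulVec]
    rfl
  refine ⟨fun i => w0 (σ i), P, Q, ?_, ?_, ?_⟩
  · rw [hP, hQ, ← LinearMap.toMatrix'_comp]
    have : (e : (Fin m → K) →ₗ[K] (Fin m → K)) ∘ₗ (e.symm : (Fin m → K) →ₗ[K] (Fin m → K)) =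
        LinearMap.id := by
      ext x
      simp
    rw [this, LinearMap.toMatrix'_id]
  · rw [hP, hQ, ← LinearMap.toMatrix'_comp]
    have : (e.symm : (Fin m → K) →ₗ[K] (Fin m → K)) ∘ₗ (e : (Fin m → K) →ₗ[K] (Fin m → K)) =
        LinearMap.id := by
      ext x
      simp
    rw [this, LinearMap.toMatrix'_id]
  · set M := Pᵀ * A * P with hM
    have hMx : ∀ x, x ⬝ᵥ (M *ᵥ x) = ∑ i, w0 (σ i) * x i ^ 2 := by
      intro x
      rw [← he, hq, ← hPx, hM, Matrix.mul_assoc, ← Matrix.mulVec_mulVec, ← Matrix.mulVec_mulVec,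
        Matrix.dotProduct_mulVec, Matrix.vecMul_transpose]
    ext i j
    rw [Matrix.add_apply, Matrix.transpose_apply, Matrix.smul_apply, smul_eq_mul]
    have hs : ∀ i, M i i = w0 (σ i) := by
      intro i
      have h1 := hMx (Pi.single i 1)
      rw [Matrix.mulVec_single_one, single_dotProduct, one_mul, Finset.sum_eq_single i] at h1
      · rw [Pi.single_eq_same] at h1
        simpa using h1
      · intro j _ hj
        rw [Pi.single_eq_of_ne hj]
        ring
      · intro h
        exact absurd (Finset.mem_univ i) h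
    by_cases hij : i = j
    · subst hij
      rw [diagonal_apply_eq, hs]
      ring
    · rw [diagonal_apply_ne _ hij, mul_zero]
      have h1 := hMx (Pi.single i 1 + Pi.single j 1)
      rw [Matrix.mulVec_add, dotProduct_add, add_dotProduct, add_dotProduct,
        Matrix.mulVec_single_one, Matrix.mulVec_single_one, single_dotProduct, single_dotProduct,
        single_dotProduct, single_dotProduct, one_mul, one_mul, one_mul, one_mul] at h1
      have h2 : ∑ k, w0 (σ k) * (Pi.single i (1 : K) + Pi.single j (1 : K) : Fin m → K) k ^ 2 =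
          w0 (σ i) + w0 (σ j) := by
        rw [← Finset.add_sum_erase _ _ (Finset.mem_univ i),
          ← Finset.add_sum_erase _ _ (Finset.mem_erase.2 ⟨Ne.symm hij, Finset.mem_univ j⟩)]
        have h3 : ∑ k ∈ (Finset.univ.erase i).erase j,
            w0 (σ k) * (Pi.single i (1 : K) + Pi.single j (1 : K) : Fin m → K) k ^ 2 = 0 := by
          refine Finset.sum_eq_zero fun k hk => ?_
          have hkj : k ≠ j := (Finset.mem_erase.1 hk).1
          have hki : k ≠ i := (Finset.mem_erase.1 (Finset.mem_erase.1 hk).2).1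
          rw [Pi.add_apply, Pi.single_eq_of_ne hki, Pi.single_eq_of_ne hkj]
          ring
        rw [h3, Pi.add_apply, Pi.add_apply, Pi.single_eq_same, Pi.single_eq_same,
          Pi.single_eq_of_ne hij, Pi.single_eq_of_ne (Ne.symm hij)]
        ring
      rw [h2] at h1
      have h4 := hs i
      have h5 := hs j
      simp only [col_apply] at h1
      linear_combination h1 - h4 - h5

private theorem val_of_diag {F : Type*} [Field F] (h2 : (2 : F) ≠ 0) {m : ℕ}
    {A P : Matrix (Fin m) (Fin m) F} {w : Fin m → F}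
    (hD : Pᵀ * A * P + (Pᵀ * A * P)ᵀ = (2 : F) • diagonal w) (x : Fin m → F) :
    (P *ᵥ x) ⬝ᵥ (A *ᵥ (P *ᵥ x)) = ∑ i, w i * x i ^ 2 := by
  have h1 : (P *ᵥ x) ⬝ᵥ (A *ᵥ (P *ᵥ x)) = x ⬝ᵥ ((Pᵀ * A * P) *ᵥ x) := by
    rw [Matrix.mul_assoc, ← Matrix.mulVec_mulVec, ← Matrix.mulVec_mulVec,
      Matrix.dotProduct_mulVec x, Matrix.vecMul_transpose]
  have h3 : x ⬝ᵥ ((Pᵀ * A * P)ᵀ *ᵥ x) = x ⬝ᵥ ((Pᵀ * A * P) *ᵥ x) := by
    rw [Matrix.mulVec_transpose, dotProduct_comm, Matrix.dotProduct_mulVec]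
  have h4 : x ⬝ᵥ (((2 : F) • diagonal w) *ᵥ x) = 2 * ∑ i, w i * x i ^ 2 := by
    rw [Matrix.smul_mulVec, dotProduct_smul, smul_eq_mul]
    congr 1
    simp only [dotProduct, mulVec_diagonal]
    exact Finset.sum_congr rfl fun i _ => by ring
  have h5 : 2 * (x ⬝ᵥ ((Pᵀ * A * P) *ᵥ x)) = 2 * ∑ i, w i * x i ^ 2 := by
    rw [← h4, ← hD, Matrix.add_mulVec, dotProduct_add, h3]
    ring
  rw [h1]
  exact mul_left_cancel₀ h2 h5

/-- From diagonal forms to arbitrary quadratic forms. -/
theorem isoM_of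
    (h5 : ∀ {n : ℕ}, 2 ≤ n → ∀ (a : Fin n → K) (b : Fin 3 → K), (∀ i, a i ≠ 0) → (∀ i, b i ≠ 0) →
      (∀ φ : K →+* ℝ, ((∃ i, 0 < φ (a i)) ∨ ∃ i, 0 < φ (b i)) ∧
        ((∃ i, φ (a i) < 0) ∨ ∃ i, φ (b i) < 0)) →
      ∃ (x : Fin n → K) (y : Fin 3 → K), (x ≠ 0 ∨ y ≠ 0) ∧
        ∑ i, a i * x i ^ 2 + ∑ i, b i * y i ^ 2 = 0)
    {m : ℕ} (hm : 4 < m) (A : Matrix (Fin m) (Fin m) K)
    (hR : ∀ φ : K →+* ℝ, ∃ x : Fin m → ℝ, x ≠ 0 ∧ dotProduct x ((A.map φ).mulVec x) = 0) :
    ∃ x : Fin m → K, x ≠ 0 ∧ dotProduct x (A.mulVec x) = 0 := by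
  classical
  obtain ⟨w, P, Q, hPQ, hQP, hD⟩ := exists_diag A
  have h2 : (2 : K) ≠ 0 := two_ne_zero
  have hval := val_of_diag h2 hD
  have hinj : ∀ x : Fin m → K, P *ᵥ x = 0 → x = 0 := by
    intro x hx
    have : Q *ᵥ (P *ᵥ x) = x := by rw [Matrix.mulVec_mulVec, hQP, Matrix.one_mulVec]
    rw [← this, hx, Matrix.mulVec_zero]
  suffices hs : ∃ x : Fin m → K, x ≠ 0 ∧ ∑ i, w i * x i ^ 2 = 0 by
    obtain ⟨x, hx0, hx⟩ := hs
    exact ⟨P *ᵥ x, fun h => hx0 (hinj x h), by rw [hval, hx]⟩
  by_cases hw : ∃ i, w i = 0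
  · obtain ⟨i, hi⟩ := hw
    refine ⟨Pi.single i 1, fun h => ?_, ?_⟩
    · have := congrFun h i
      simp at this
    · rw [Finset.sum_eq_single i]
      · rw [hi, zero_mul]
      · intro j _ hj
        rw [Pi.single_eq_of_ne hj]
        ring
      · intro h
        exact absurd (Finset.mem_univ i) h
  · push Not at hw
    -- both signs occur
    have hsign : ∀ φ : K →+* ℝ, (∃ i, 0 < φ (w i)) ∧ ∃ i, φ (w i) < 0 := by
      intro φ
      obtain ⟨x, hx0, hx⟩ := hR φ
      have hw' : ∀ i, φ (w i) ≠ 0 := fun i => by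
        have := hw i
        rwa [Ne, map_eq_zero]
      have hDφ : (P.map φ)ᵀ * A.map φ * P.map φ + ((P.map φ)ᵀ * A.map φ * P.map φ)ᵀ =
          (2 : ℝ) • diagonal fun i => φ (w i) := by
        have h1 := congrArg (fun M : Matrix (Fin m) (Fin m) K => M.map φ) hD
        simp only [Matrix.map_add φ (map_add φ), Matrix.map_mul, Matrix.transpose_map] at h1
        rw [h1]
        ext i j
        rw [Matrix.map_apply, Matrix.smul_apply, Matrix.smul_apply, smul_eq_mul, smul_eq_mul,
          map_mul, map_ofNat]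
        by_cases hij : i = j
        · subst hij
          rw [diagonal_apply_eq, diagonal_apply_eq]
        · rw [diagonal_apply_ne _ hij, diagonal_apply_ne _ hij, map_zero]
      have hPQφ : P.map φ * Q.map φ = 1 := by
        rw [← Matrix.map_mul, hPQ, Matrix.map_one _ (map_zero φ) (map_one φ)]
      set y := Q.map φ *ᵥ x with hy
      have hPy : P.map φ *ᵥ y = x := by rw [hy, Matrix.mulVec_mulVec, hPQφ, Matrix.one_mulVec]
      have hy0 : y ≠ 0 := by
        intro h
        rw [h, Matrix.mulVec_zero] at hPy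
        exact hx0 hPy.symm
      have hzero : ∑ i, φ (w i) * y i ^ 2 = 0 := by
        rw [← val_of_diag two_ne_zero hDφ y, hPy, hx]
      obtain ⟨j, hj⟩ := Function.ne_iff.1 hy0
      have hj2 : 0 < y j ^ 2 := by
        have : y j ≠ 0 := hj
        positivity
      constructor
      · by_contra hcon
        push Not at hcon
        have hneg : ∀ i, φ (w i) < 0 := fun i => lt_of_le_of_ne (hcon i) (hw' i)
        have : ∑ i, φ (w i) * y i ^ 2 < 0 := by
          refine Finset.sum_neg' (fun i _ => mul_nonpos_of_nonpos_of_nonneg (hneg i).le (sq_nonneg _))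
            ⟨j, Finset.mem_univ j, mul_neg_of_neg_of_pos (hneg j) hj2⟩
        linarith
      · by_contra hcon
        push Not at hcon
        have hpos : ∀ i, 0 < φ (w i) := fun i => lt_of_le_of_ne (hcon i) (Ne.symm (hw' i))
        have : 0 < ∑ i, φ (w i) * y i ^ 2 := by
          refine Finset.sum_pos' (fun i _ => mul_nonneg (hpos i).le (sq_nonneg _))
            ⟨j, Finset.mem_univ j, mul_pos (hpos j) hj2⟩
        linarith
    obtain ⟨n, rfl⟩ : ∃ n, m = n + 3 := ⟨m - 3, by omega⟩
    obtain ⟨x, y, hxy, h0⟩ := h5 (n := n) (by omega) (fun i => w (Fin.castAdd 3 i))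
      (fun i => w (Fin.natAdd n i)) (fun i => hw _) (fun i => hw _) (by
        intro φ
        obtain ⟨⟨i, hi⟩, ⟨j, hj⟩⟩ := hsign φ
        constructor
        · induction i using Fin.addCases with
          | left i => exact Or.inl ⟨i, hi⟩
          | right i => exact Or.inr ⟨i, hi⟩
        · induction j using Fin.addCases with
          | left j => exact Or.inl ⟨j, hj⟩
          | right j => exact Or.inr ⟨j, hj⟩)
    refine ⟨Fin.append x y, fun h => ?_, ?_⟩
    · rcases hxy with h1 | h1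
      · apply h1
        funext i
        have := congrFun h (Fin.castAdd 3 i)
        rwa [Fin.append_left] at this
      · apply h1
        funext i
        have := congrFun h (Fin.natAdd n i)
        rwa [Fin.append_right] at this
    · rw [Fin.sum_univ_add]
      simp only [Fin.append_left, Fin.append_right]
      exact h0

end Hm
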