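import Pool.Agent.Lib.MP_f80667_ag.Hm.U4

/-! Ternary forms with unit coefficients. -/

open IsDedekindDomain NumberField

namespace Hm

/-- Ternary forms with unit coefficients have local zeros. -/
theorem iso3_unit {K : Type} [Field K] [NumberField K] {v : HeightOneSpectrum (𝓞 K)}
    (hv : v.valuation K 2 = 1) (a : Fin 3 → K) (ha : ∀ i, v.valuation K (a i) = 1) :
    ∃ x : Fin 3 → v.adicCompletion K, x ≠ 0 ∧
      ∑ i, algebraMap K (v.adicCompletion K) (a i) * x i ^ 2 = 0 :=
  zero3_unit hv a ha

end Hm
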