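import Pool.Agent.Lib.MP_f80667_ag.Hm.Star
import Pool.Agent.Lib.MP_f80667_ag.Hm.L1

/-!
# The norm theorem for quadratic extensions of number fields

`norm_thm`: `c` is of the form `x² - b y²` over the number field `K` as soon as this is so locally everywhere.
-/

open IsDedekindDomain NumberField

namespace Hm

variable {K : Type*} [Field K] [NumberField K]

theorem index_Pos (φ : K →+* ℝ) : (Pos φ).index ≠ 0 ∧ (Pos φ).index ≤ 2 := by
  have h := relIndex_le_of_cover (Pos φ) ⊤ (fun i : Bool => if i then (1 : Kˣ) else -1) fun u _ => ?_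
  · rw [Subgroup.relIndex_top_right] at h
    simpa using h
  · have h0 : φ (u : K) ≠ 0 := (map_ne_zero φ).2 u.ne_zero
    rcases lt_or_gt_of_ne h0 with h | h
    · refine ⟨false, ?_⟩
      rw [mem_Pos]
      simpa using h
    · refine ⟨true, ?_⟩
      rw [mem_Pos]
      simpa using h

theorem card_real_le : Fintype.card (K →+* ℝ) + Module.finrank ℚ K ≤
    2 * Fintype.card (InfinitePlace K) := by
  classical
  have h1 : Fintype.card (K →+* ℝ) ≤ InfinitePlace.nrRealPlaces K := by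
    rw [← InfinitePlace.card_real_embeddings]
    refine Fintype.card_le_of_injective
      (fun φ : K →+* ℝ => ⟨Complex.ofRealHom.comp φ, ?_⟩) ?_
    · rw [ComplexEmbedding.isReal_iff]
      ext x
      simp [ComplexEmbedding.conjugate_coe_eq]
    · intro φ ψ h
      ext x
      have h2 := congrArg (fun f : {φ : K →+* ℂ // ComplexEmbedding.IsReal φ} => f.1 x) h
      simpa using h2
  have h2 := InfinitePlace.card_add_two_mul_card_eq_rank K
  have h3 := InfinitePlace.card_eq_nrRealPlaces_add_nrComplexPlaces K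
  omega

section Count

variable {b : Kˣ} {S T : Finset (HeightOneSpectrum (𝓞 K))}

/-- Squares at `S` and at the real places. -/
def DD (S : Finset (HeightOneSpectrum (𝓞 K))) : Subgroup Kˣ := (⨅ v : S, LSq v.1) ⊓ ⨅ φ : K →+* ℝ, Pos φ

/-- Norms at `S` and at the real places. -/
def EE (b : Kˣ) (S : Finset (HeightOneSpectrum (𝓞 K))) : Subgroup Kˣ :=
  (⨅ v : S, LNm v.1 b) ⊓ ⨅ φ : {φ : K →+* ℝ // φ b < 0}, Pos φ.1

theorem mem_DD {x : Kˣ} : x ∈ DD S ↔ (∀ v ∈ S, x ∈ LSq v) ∧ ∀ φ : K →+* ℝ, 0 < φ x := by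
  rw [DD, Subgroup.mem_inf, Subgroup.mem_iInf, Subgroup.mem_iInf]
  simp [mem_Pos]

theorem mem_EE {x : Kˣ} : x ∈ EE b S ↔ (∀ v ∈ S, x ∈ LNm v b) ∧ ∀ φ : K →+* ℝ, φ b < 0 → 0 < φ x := by
  rw [EE, Subgroup.mem_inf, Subgroup.mem_iInf, Subgroup.mem_iInf]
  simp [mem_Pos]

theorem DD_le_EE : DD S ≤ EE b S := by
  intro x hx
  rw [mem_DD] at hx
  exact mem_EE.2 ⟨fun v hv => LSq_le_LNm v b (hx.1 v hv), fun φ _ => hx.2 φ⟩

theorem Nrm_le_EE : Nrm b ≤ EE b S := fun _ hc =>
  mem_EE.2 ⟨fun v _ => Nrm_le_LNm v b hc, fun _ hφ => Nrm_le_Pos hφ hc⟩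

theorem index_DD : (DD S).index ≠ 0 ∧ (DD (K := K) S).index ≤
    2 ^ (2 * (S.card + Fintype.card (InfinitePlace K))) := by
  have h1 : (⨅ v : S, LSq (K := K) v.1).index ≠ 0 :=
    Subgroup.index_iInf_ne_zero fun v => (index_LSq_le v.1).1
  have h2 : (⨅ φ : K →+* ℝ, Pos φ).index ≠ 0 :=
    Subgroup.index_iInf_ne_zero fun φ => (index_Pos φ).1
  refine ⟨Subgroup.index_inf_ne_zero h1 h2, ?_⟩
  have h3 : (⨅ v : S, LSq (K := K) v.1).index ≤ 4 ^ S.card * 2 ^ Module.finrank ℚ K := by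
    refine (Subgroup.index_iInf_le _).trans ?_
    rw [Finset.prod_coe_sort S fun v => (LSq (K := K) v).index]
    exact prod_L1 S
  have h4 : (⨅ φ : K →+* ℝ, Pos φ).index ≤ 2 ^ Fintype.card (K →+* ℝ) := by
    refine (Subgroup.index_iInf_le _).trans ?_
    refine (Finset.prod_le_prod' fun φ _ => (index_Pos φ).2).trans ?_
    rw [Finset.prod_const, Finset.card_univ]
  refine (Subgroup.index_inf_le).trans ((Nat.mul_le_mul h3 h4).trans ?_)
  have h5 := card_real_le (K := K)
  have h6 : (4 : ℕ) = 2 ^ 2 := by norm_num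
  rw [h6, ← pow_mul, ← pow_add, ← pow_add]
  exact Nat.pow_le_pow_right (by norm_num) (by omega)

theorem two_pow_le_EE : (EE b S).index ≠ 0 ∧ 2 ^ tt b S ≤ (EE b S).index := by
  classical
  have h0 : (EE b S).index ≠ 0 := fun h => by
    have h1 := Subgroup.index_dvd_of_le (DD_le_EE (b := b) (S := S))
    rw [h] at h1
    exact (index_DD (S := S)).1 (Nat.eq_zero_of_zero_dvd h1)
  refine ⟨h0, ?_⟩
  obtain ⟨S', hS'⟩ : ∃ S' : Finset (HeightOneSpectrum (𝓞 K)), ∀ v, v ∈ S' ↔ v ∈ S ∧ b ∉ LSq v :=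
    ⟨S.filter (fun v => b ∉ LSq v), fun v => Finset.mem_filter⟩
  obtain ⟨x, hx1, hx2⟩ := exists_fam b S' fun v hv => ((hS' v).1 hv).2
  have h3 := two_pow_le (HH b S') (EE b S) ⊤ ?_ x (fun _ => Subgroup.mem_top _) hx1 hx2
    (by rwa [Subgroup.relIndex_top_right])
  · rwa [Subgroup.relIndex_top_right, card_Idx b S S' hS'] at h3
  · rintro (⟨v, hv⟩ | ⟨φ, hφ⟩) y hy
    · exact (mem_EE.1 hy).1 v ((hS' v).1 hv).1
    · exact (mem_EE.1 hy).2 φ hφ

theorem count [DecidableEq (HeightOneSpectrum (𝓞 K))] (hb : ¬ IsSquare b) (hS : Gen S) (hbS : b ∈ US K S)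
    (hT : Dual b S T) (hc : T.card + 1 = S.card + Fintype.card (InfinitePlace K)) :
    EE b S ⊓ US K (S ∪ T) ≤ Nrm b := by
  obtain ⟨U, hU⟩ : ∃ U, U = US K (S ∪ T) := ⟨_, rfl⟩
  have hbU : b ∈ US K (S ∪ T) := US_mono Finset.subset_union_left hbS
  -- the squares
  have h1 : DD S ⊓ U = sqOf U := by
    ext x
    rw [Subgroup.mem_inf, mem_DD]
    constructor
    · rintro ⟨⟨h2, h3⟩, h4⟩
      rw [hU] at h4 ⊢
      exact mem_sqOf_US h4 (star hS hT x h4 h2 h3)
    · rintro ⟨y, hy, rfl⟩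
      refine ⟨⟨fun v _ => sq_mem_LSq v y, fun φ => ?_⟩, pow_mem hy 2⟩
      rw [powMonoidHom_apply, Units.val_pow_eq_pow_val, map_pow]
      have h0 : φ (y : K) ≠ 0 := (map_ne_zero φ).2 y.ne_zero
      positivity
  have h2 : (DD S).relIndex U = 2 ^ (2 * (S.card + Fintype.card (InfinitePlace K)) - 1) := by
    rw [← Subgroup.inf_relIndex_right, h1, hU, sqOf_US, Nat.card_eq_fintype_card,
      Finset.card_union_of_disjoint]
    · congr 1
      omega
    · rw [Finset.disjoint_left]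
      intro v hv hv'
      exact hT.disj v hv' hv
  -- the index of `U D`
  have h3 : (DD S).relIndex U * (U ⊔ DD S).index = (DD S).index := by
    rw [← Subgroup.relIndex_sup_right (H := U) (K := DD S)]
    exact Subgroup.relIndex_mul_index le_sup_right
  have h4 : (U ⊔ DD S).index ≠ 0 := fun h => by
    rw [h, mul_zero] at h3
    exact (index_DD (S := S)).1 h3.symm
  have h5 : (U ⊔ DD S).index ≤ 2 := by
    have h6 := (index_DD (S := S)).2
    rw [← h3, h2] at h6
    have hpos : 0 < S.card + Fintype.card (InfinitePlace K) := by omega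
    have h7 : 2 ^ (2 * (S.card + Fintype.card (InfinitePlace K))) =
        2 ^ (2 * (S.card + Fintype.card (InfinitePlace K)) - 1) * 2 := by
      rw [← pow_succ]
      congr 1
      omega
    rw [h7] at h6
    exact Nat.le_of_mul_le_mul_left h6 (by positivity)
  have h6 : (U ⊔ EE b S).index ≠ 0 ∧ (U ⊔ EE b S).index ≤ 2 := by
    have h7 : U ⊔ DD S ≤ U ⊔ EE b S := sup_le_sup_left DD_le_EE U
    have h8 := Subgroup.index_dvd_of_le h7
    refine ⟨fun h => h4 (Nat.eq_zero_of_zero_dvd (h ▸ h8)), ?_⟩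
    exact (Nat.le_of_dvd (Nat.pos_of_ne_zero h4) h8).trans h5
  have h7 : (EE b S).relIndex U * (U ⊔ EE b S).index = (EE b S).index := by
    rw [← Subgroup.relIndex_sup_right (H := U) (K := EE b S)]
    exact Subgroup.relIndex_mul_index le_sup_right
  obtain ⟨h8, h9⟩ := two_pow_le_EE (b := b) (S := S)
  have h10 : 2 ^ tt b S ≤ (EE b S).relIndex U * 2 := by
    rw [← h7] at h9
    exact h9.trans (Nat.mul_le_mul_left _ h6.2)
  -- the norms
  obtain ⟨h11, h12⟩ := F1U b hb (S ∪ T) hS.union hbU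
  have ht : tt b (S ∪ T) = tt b S := by
    classical
    rw [tt, tt]
    congr 2
    ext v
    rw [Finset.mem_filter, Finset.mem_filter, Finset.mem_union]
    constructor
    · rintro ⟨h13 | h13, h14⟩
      · exact ⟨h13, h14⟩
      · exact absurd (hT.sq v h13) h14
    · rintro ⟨h13, h14⟩
      exact ⟨Or.inl h13, h14⟩
  rw [← hU] at h11 h12 ⊢
  rw [ht] at h12
  have h13 := Subgroup.relIndex_inf_mul_relIndex (H := Nrm b) (K := EE b S) (L := U)
  rw [inf_eq_left.2 (Nrm_le_EE (b := b) (S := S))] at h13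
  have h14 : (EE b S).relIndex U ≠ 0 := fun h => by
    rw [h, mul_zero] at h13
    exact h11 h13.symm
  have h15 : (Nrm b).relIndex (EE b S ⊓ U) ≠ 0 := fun h => by
    rw [h, zero_mul] at h13
    exact h11 h13.symm
  have h16 : (Nrm b).relIndex (EE b S ⊓ U) = 1 := by
    rw [← h13] at h12
    have h17 : 2 * ((Nrm b).relIndex (EE b S ⊓ U) * (EE b S).relIndex U) ≤ (EE b S).relIndex U * 2 :=
      h12.trans h10
    have h18 : 0 < (EE b S).relIndex U := Nat.pos_of_ne_zero h14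
    have h19 : (Nrm b).relIndex (EE b S ⊓ U) * (EE b S).relIndex U ≤ 1 * (EE b S).relIndex U := by
      omega
    have h20 := Nat.le_of_mul_le_mul_right h19 h18
    omega
  exact Subgroup.relIndex_eq_one.1 h16

end Count

/-- **The norm theorem for quadratic extensions.** -/
theorem norm_thm (b c : Kˣ) (h : ∀ v : HeightOneSpectrum (𝓞 K), c ∈ LNm v b)
    (hR : ∀ φ : K →+* ℝ, φ b < 0 → 0 < φ c) : c ∈ Nrm b := by
  classical
  by_cases hb : IsSquare b
  · obtain ⟨d, rfl⟩ := hb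
    refine ⟨((c : K) + 1) / 2, ((c : K) - 1) / (2 * d), ?_⟩
    have hd : (d : K) ≠ 0 := d.ne_zero
    rw [Units.val_mul]
    field_simp
    ring
  · obtain ⟨S, hS0, hS⟩ := exists_gen (K := K)
      ((finite_val_ne_one b).toFinset ∪ (finite_val_ne_one c).toFinset)
    have hbS : b ∈ US K S := fun v hv => by
      by_contra h1
      exact hv (hS0 (Finset.mem_union_left _ ((finite_val_ne_one b).mem_toFinset.2 h1)))
    have hcS : c ∈ US K S := fun v hv => by
      by_contra h1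
      exact hv (hS0 (Finset.mem_union_right _ ((finite_val_ne_one c).mem_toFinset.2 h1)))
    obtain ⟨T, hT, hc⟩ := exists_T b hb S hS hbS
    refine count hb hS hbS hT hc (Subgroup.mem_inf.2 ⟨mem_EE.2 ⟨fun v _ => h v, hR⟩, ?_⟩)
    exact US_mono Finset.subset_union_left hcS

end Hm
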