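import Pool.Agent.Lib.MP_f80667_ag.Hm.F1D

/-! (F1): the first inequality for quadratic extensions, in terms of the values `x² - b y²`. -/

open IsDedekindDomain NumberField HeightOneSpectrum WithZero Polynomial

namespace Hm

universe u

/-- Existence of `K(√b)`. -/
theorem exists_quad {K : Type u} [Field K] [NumberField K] {b : K} (hb : ¬ IsSquare b) :
    ∃ (L : Type u) (_ : Field L) (_ : NumberField L) (_ : Algebra K L) (σ : L ≃ₐ[K] L) (θ : L),
      Quad σ θ b := by
  obtain ⟨f, hf⟩ : ∃ f : K[X], f = X ^ 2 - C b := ⟨_, rfl⟩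
  have hirr : Irreducible f := by
    rw [hf]
    apply X_pow_sub_C_irreducible_of_prime Nat.prime_two
    intro z hz
    exact hb ⟨z, by rw [← hz, pow_two]⟩
  have hfact : Fact (Irreducible f) := ⟨hirr⟩
  have hmon : f.Monic := by
    rw [hf]
    exact monic_X_pow_sub_C b two_ne_zero
  have hnd : f.natDegree = 2 := by
    rw [hf]
    exact natDegree_X_pow_sub_C
  have hev : ∀ {R : Type u} [CommRing R] (i : K →+* R) (x : R), eval₂ i x f = x ^ 2 - i b := by
    intro R _ i x
    rw [hf, eval₂_sub, eval₂_pow, eval₂_X, eval₂_C]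
  have hroot : (AdjoinRoot.root f) ^ 2 = algebraMap K (AdjoinRoot f) b := by
    have h1 := AdjoinRoot.eval₂_root f
    rw [hev, sub_eq_zero] at h1
    exact h1
  have hfin : FiniteDimensional K (AdjoinRoot f) := (AdjoinRoot.powerBasis hirr.ne_zero).finite
  have hc0 : CharZero (AdjoinRoot f) :=
    charZero_of_injective_algebraMap (algebraMap K (AdjoinRoot f)).injective
  have hnf : NumberField (AdjoinRoot f) :=
    { to_charZero := hc0
      to_finiteDimensional := Module.Finite.trans K (AdjoinRoot f) }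
  obtain ⟨s, hs⟩ : ∃ s : AdjoinRoot f →ₐ[K] AdjoinRoot f,
      s (AdjoinRoot.root f) = -AdjoinRoot.root f := by
    refine ⟨AdjoinRoot.liftAlgHom f (Algebra.ofId K _) (-AdjoinRoot.root f) ?_, ?_⟩
    · rw [hev, neg_sq, hroot, sub_eq_zero]
      rfl
    · simp
  have hss : s.comp s = AlgHom.id K (AdjoinRoot f) := by
    apply AdjoinRoot.algHom_ext
    rw [AlgHom.comp_apply, hs, map_neg, hs, neg_neg, AlgHom.id_apply]
  refine ⟨AdjoinRoot f, inferInstance, hnf, inferInstance, AlgEquiv.ofAlgHom s s hss hss,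
    AdjoinRoot.root f, hroot, hs, ?_, hb⟩
  intro y
  obtain ⟨g, rfl⟩ := AdjoinRoot.mk_surjective y
  have h1 : AdjoinRoot.mk f g = AdjoinRoot.mk f (g %ₘ f) := by
    rw [AdjoinRoot.mk_eq_mk]
    exact ⟨g /ₘ f, by
      have := modByMonic_add_div g f
      linear_combination -this⟩
  have h2 : (g %ₘ f).natDegree ≤ 1 := by
    have h3 := natDegree_modByMonic_lt g hmon (by
      intro h4
      rw [h4, natDegree_one] at hnd
      omega)
    omega
  obtain ⟨a, c, hac⟩ := exists_eq_X_add_C_of_natDegree_le_one h2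
  refine ⟨c, a, ?_⟩
  rw [h1, hac, map_add, map_mul, AdjoinRoot.mk_X, AdjoinRoot.mk_C, AdjoinRoot.mk_C, add_comm]
  rfl

/-- (F1) The first inequality. -/
theorem F1 {K : Type*} [Field K] [NumberField K] (b : Kˣ) (hb : ¬ IsSquare b)
    (S : Finset (HeightOneSpectrum (𝓞 K))) (hS : Gen S)
    (hbS : b ∈ (S : Set (HeightOneSpectrum (𝓞 K))).unit K) :
    (Nrm b).relIndex ((S : Set (HeightOneSpectrum (𝓞 K))).unit K) ≠ 0 ∧
      2 * (Nrm b).relIndex ((S : Set (HeightOneSpectrum (𝓞 K))).unit K) ≤ 2 ^ tt b S := by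
  have hb' : ¬ IsSquare (b : K) := by
    rintro ⟨z, hz⟩
    have hz0 : z ≠ 0 := by
      rintro rfl
      rw [mul_zero] at hz
      exact b.ne_zero hz
    apply hb
    refine ⟨Units.mk0 z hz0, ?_⟩
    apply Units.ext
    rw [Units.val_mul, Units.val_mk0, hz]
  obtain ⟨L, _, _, _, σ, θ, h⟩ := exists_quad hb'
  exact h.F1 hS hbS

end Hm
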