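import Pool.Agent.Lib.MP_f80667_ag.Hm.NI
import Pool.Agent.Lib.MP_f80667_ag.Hm.F1

/-!
# HM: four variables

`iso4_of`: a diagonal form in four variables over a number field which is near isotropic at all
finite places and indefinite at all real places has a zero (from the norm theorem).
-/

set_option autoImplicit false

open IsDedekindDomain NumberField WithZero

namespace Hm

universe u

section Algebra

variable {K : Type*} [Field K]

/-- A zero over `K(√d)`, `d` the discriminant, gives a zero over `K`. -/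
theorem descend {L : Type*} [Field L] [Algebra K L] (h2 : (2 : K) ≠ 0) (a : Fin 4 → K)
    (ha : ∀ i, a i ≠ 0) {θ : L} (hθ : θ ^ 2 = algebraMap K L (a 0 * a 1 * a 2 * a 3))
    (hind : ∀ p q : K, algebraMap K L p + algebraMap K L q * θ = 0 → p = 0 ∧ q = 0)
    (hdec : ∀ y : L, ∃ p q : K, y = algebraMap K L p + algebraMap K L q * θ)
    (x : Fin 4 → L) (hx : x ≠ 0) (hx0 : ∑ i, algebraMap K L (a i) * x i ^ 2 = 0) :
    ∃ y : Fin 4 → K, y ≠ 0 ∧ ∑ i, a i * y i ^ 2 = 0 := by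
  choose u v huv using fun i => hdec (x i)
  have h1 : algebraMap K L (∑ i, a i * u i ^ 2 + (a 0 * a 1 * a 2 * a 3) * ∑ i, a i * v i ^ 2) +
      algebraMap K L (2 * ∑ i, a i * (u i * v i)) * θ = 0 := by
    rw [← hx0]
    simp only [Fin.sum_univ_four, huv, map_add, map_mul, map_pow, map_ofNat] at hθ ⊢
    linear_combination -(algebraMap K L (a 0) * algebraMap K L (v 0) ^ 2 +
      algebraMap K L (a 1) * algebraMap K L (v 1) ^ 2 +
      algebraMap K L (a 2) * algebraMap K L (v 2) ^ 2 +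
      algebraMap K L (a 3) * algebraMap K L (v 3) ^ 2) * hθ
  obtain ⟨hA, hB⟩ := hind _ _ h1
  have hB' : ∑ i, a i * (u i * v i) = 0 := (mul_eq_zero.1 hB).resolve_left h2
  by_cases hv0 : v = 0
  · refine ⟨u, ?_, ?_⟩
    · rintro rfl
      apply hx
      funext i
      rw [huv, hv0]
      simp
    · rw [hv0] at hA
      simpa using hA
  by_cases he : ∑ i, a i * v i ^ 2 = 0
  · exact ⟨v, hv0, he⟩
  set e := ∑ i, a i * v i ^ 2 with hedef
  -- a vector orthogonal to `u` and `v`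
  let f : (Fin 4 → K) →ₗ[K] (Fin 2 → K) :=
    { toFun := fun z => ![∑ i, a i * (u i * z i), ∑ i, a i * (v i * z i)]
      map_add' := fun z w => by
        funext j
        fin_cases j <;> simp [Fin.sum_univ_four] <;> ring
      map_smul' := fun c z => by
        funext j
        fin_cases j <;> simp [Fin.sum_univ_four] <;> ring }
  have hker : LinearMap.ker f ≠ ⊥ := by
    apply LinearMap.ker_ne_bot_of_finrank_lt
    simp
  obtain ⟨z, hz, hz0⟩ := (Submodule.ne_bot_iff _).1 hker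
  have hz' : f z = 0 := hz
  have hu : ∑ i, a i * (u i * z i) = 0 := congrFun hz' 0
  have hv : ∑ i, a i * (v i * z i) = 0 := congrFun hz' 1
  have ha0 := ha 0
  have ha1 := ha 1
  have ha2 := ha 2
  have ha3 := ha 3
  simp only [Fin.sum_univ_four] at hA hB' hu hv hedef
  set m0 := u 1 * (v 2 * z 3 - v 3 * z 2) - u 2 * (v 1 * z 3 - v 3 * z 1) +
    u 3 * (v 1 * z 2 - v 2 * z 1) with hm0
  set m1 := -(u 0 * (v 2 * z 3 - v 3 * z 2) - u 2 * (v 0 * z 3 - v 3 * z 0) +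
    u 3 * (v 0 * z 2 - v 2 * z 0)) with hm1
  set m2 := u 0 * (v 1 * z 3 - v 3 * z 1) - u 1 * (v 0 * z 3 - v 3 * z 0) +
    u 3 * (v 0 * z 1 - v 1 * z 0) with hm2
  set m3 := -(u 0 * (v 1 * z 2 - v 2 * z 1) - u 1 * (v 0 * z 2 - v 2 * z 0) +
    u 2 * (v 0 * z 1 - v 1 * z 0)) with hm3
  have horth : m0 * z 0 + m1 * z 1 + m2 * z 2 + m3 * z 3 = 0 := by
    rw [hm0, hm1, hm2, hm3]
    ring
  have hgram : m0 ^ 2 * (a 1 * a 2 * a 3) + m1 ^ 2 * (a 0 * a 2 * a 3) +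
      m2 ^ 2 * (a 0 * a 1 * a 3) + m3 ^ 2 * (a 0 * a 1 * a 2) =
      -(a 0 * a 1 * a 2 * a 3) * e ^ 2 *
        (a 0 * z 0 ^ 2 + a 1 * z 1 ^ 2 + a 2 * z 2 ^ 2 + a 3 * z 3 ^ 2) := by
    have h5 : m0 ^ 2 * (a 1 * a 2 * a 3) + m1 ^ 2 * (a 0 * a 2 * a 3) +
        m2 ^ 2 * (a 0 * a 1 * a 3) + m3 ^ 2 * (a 0 * a 1 * a 2) =
        (a 0 * u 0 ^ 2 + a 1 * u 1 ^ 2 + a 2 * u 2 ^ 2 + a 3 * u 3 ^ 2) *
        (a 0 * v 0 ^ 2 + a 1 * v 1 ^ 2 + a 2 * v 2 ^ 2 + a 3 * v 3 ^ 2) *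
        (a 0 * z 0 ^ 2 + a 1 * z 1 ^ 2 + a 2 * z 2 ^ 2 + a 3 * z 3 ^ 2) +
        2 * (a 0 * (u 0 * v 0) + a 1 * (u 1 * v 1) + a 2 * (u 2 * v 2) + a 3 * (u 3 * v 3)) *
        (a 0 * (u 0 * z 0) + a 1 * (u 1 * z 1) + a 2 * (u 2 * z 2) + a 3 * (u 3 * z 3)) *
        (a 0 * (v 0 * z 0) + a 1 * (v 1 * z 1) + a 2 * (v 2 * z 2) + a 3 * (v 3 * z 3)) -
        (a 0 * u 0 ^ 2 + a 1 * u 1 ^ 2 + a 2 * u 2 ^ 2 + a 3 * u 3 ^ 2) *
        (a 0 * (v 0 * z 0) + a 1 * (v 1 * z 1) + a 2 * (v 2 * z 2) + a 3 * (v 3 * z 3)) ^ 2 -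
        (a 0 * v 0 ^ 2 + a 1 * v 1 ^ 2 + a 2 * v 2 ^ 2 + a 3 * v 3 ^ 2) *
        (a 0 * (u 0 * z 0) + a 1 * (u 1 * z 1) + a 2 * (u 2 * z 2) + a 3 * (u 3 * z 3)) ^ 2 -
        (a 0 * z 0 ^ 2 + a 1 * z 1 ^ 2 + a 2 * z 2 ^ 2 + a 3 * z 3 ^ 2) *
        (a 0 * (u 0 * v 0) + a 1 * (u 1 * v 1) + a 2 * (u 2 * v 2) + a 3 * (u 3 * v 3)) ^ 2 := by
      rw [hm0, hm1, hm2, hm3]
      ring
    have h6 : a 0 * u 0 ^ 2 + a 1 * u 1 ^ 2 + a 2 * u 2 ^ 2 + a 3 * u 3 ^ 2 =
        -(a 0 * a 1 * a 2 * a 3) * e := by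
      linear_combination hA
    rw [h5, hB', hu, hv, h6, ← hedef]
    ring
  have hAm : a 0 * (m0 / a 0) ^ 2 + a 1 * (m1 / a 1) ^ 2 + a 2 * (m2 / a 2) ^ 2 +
      a 3 * (m3 / a 3) ^ 2 =
      -e ^ 2 * (a 0 * z 0 ^ 2 + a 1 * z 1 ^ 2 + a 2 * z 2 ^ 2 + a 3 * z 3 ^ 2) := by
    have h7 : (a 0 * a 1 * a 2 * a 3) * (a 0 * (m0 / a 0) ^ 2 + a 1 * (m1 / a 1) ^ 2 +
        a 2 * (m2 / a 2) ^ 2 + a 3 * (m3 / a 3) ^ 2) =
        m0 ^ 2 * (a 1 * a 2 * a 3) + m1 ^ 2 * (a 0 * a 2 * a 3) +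
      m2 ^ 2 * (a 0 * a 1 * a 3) + m3 ^ 2 * (a 0 * a 1 * a 2) := by
      field_simp
    have h8 : a 0 * a 1 * a 2 * a 3 ≠ 0 :=
      mul_ne_zero (mul_ne_zero (mul_ne_zero ha0 ha1) ha2) ha3
    apply mul_left_cancel₀ h8
    rw [h7, hgram]
    ring
  have hmid : a 0 * (m0 / a 0 * z 0) + a 1 * (m1 / a 1 * z 1) + a 2 * (m2 / a 2 * z 2) +
      a 3 * (m3 / a 3 * z 3) = 0 := by
    rw [← horth]
    field_simp
  let y : Fin 4 → K := ![m0 / a 0 + e * z 0, m1 / a 1 + e * z 1, m2 / a 2 + e * z 2,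
    m3 / a 3 + e * z 3]
  by_cases hy : y = 0
  · -- then `z` is isotropic
    refine ⟨z, hz0, ?_⟩
    have y0 : m0 / a 0 + e * z 0 = 0 := congrFun hy 0
    have y1 : m1 / a 1 + e * z 1 = 0 := congrFun hy 1
    have y2 : m2 / a 2 + e * z 2 = 0 := congrFun hy 2
    have y3 : m3 / a 3 + e * z 3 = 0 := congrFun hy 3
    rw [Fin.sum_univ_four]
    have h9 : (2 * e) * (a 0 * z 0 ^ 2 + a 1 * z 1 ^ 2 + a 2 * z 2 ^ 2 + a 3 * z 3 ^ 2) = 0 := by
      linear_combination 2 * (a 0 * z 0) * y0 + 2 * (a 1 * z 1) * y1 + 2 * (a 2 * z 2) * y2 +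
        2 * (a 3 * z 3) * y3 - 2 * hmid
    exact (mul_eq_zero.1 h9).resolve_left (mul_ne_zero h2 he)
  · refine ⟨y, hy, ?_⟩
    rw [Fin.sum_univ_four]
    have e0 : y 0 = m0 / a 0 + e * z 0 := rfl
    have e1 : y 1 = m1 / a 1 + e * z 1 := rfl
    have e2 : y 2 = m2 / a 2 + e * z 2 := rfl
    have e3 : y 3 = m3 / a 3 + e * z 3 := rfl
    rw [e0, e1, e2, e3]
    linear_combination hAm + 2 * e * hmid

/-- A value of the norm form gives a zero of the ternary form. -/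
theorem zero_of_mem_Nrm {a₀ a₁ a₂ : Kˣ} (h : -(a₀ * a₂) ∈ Nrm (-(a₀ * a₁))) :
    ∃ x y : K, (a₀ : K) * x ^ 2 + a₁ * y ^ 2 + a₂ = 0 := by
  obtain ⟨x, y, hxy⟩ := h
  refine ⟨x / a₀, y, ?_⟩
  have h0 : (a₀ : K) ≠ 0 := a₀.ne_zero
  push_cast at hxy
  have h1 : (a₀ : K) * ((a₀ : K) * (x / a₀) ^ 2 + a₁ * y ^ 2 + a₂) = 0 := by
    have : (a₀ : K) * ((a₀ : K) * (x / a₀) ^ 2) = x ^ 2 := by
      field_simp
    rw [mul_add, mul_add, this]
    linear_combination -hxy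
  exact (mul_eq_zero.1 h1).resolve_left h0

end Algebra

variable {K : Type u} [Field K] [NumberField K]

/-- A common lower bound for finitely many valuations. -/
theorem exists_le_all (v : HeightOneSpectrum (𝓞 K)) {ι : Type*} [Finite ι] (f : ι → Kˣ) :
    ∃ c : Kˣ, ∀ i, v.valuation K (c : K) ≤ v.valuation K (f i : K) := by
  rcases isEmpty_or_nonempty ι with h | h
  · exact ⟨1, fun i => h.elim i⟩
  · obtain ⟨i, hi⟩ := Finite.exists_min fun i => v.valuation K (f i : K)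
    exact ⟨f i, hi⟩

/-- Scale invariant form of `NI`. -/
theorem NI_of {v : HeightOneSpectrum (𝓞 K)} {ι : Type*} [Fintype ι] {a : ι → Kˣ}
    (h : ∀ ε : Kˣ, ∃ (x : ι → K) (i : ι), v.valuation K (∑ i, (a i : K) * x i ^ 2) <
      v.valuation K ε * v.valuation K (x i) ^ 2) : NI v a := by
  intro ε
  obtain ⟨x, i, hx⟩ := h ε
  have : Nonempty ι := ⟨i⟩
  obtain ⟨j, hj⟩ := Finite.exists_max fun i => v.valuation K (x i)
  have hi0 : v.valuation K (x i) ≠ 0 := by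
    intro h0
    rw [h0, zero_pow two_ne_zero, mul_zero] at hx
    exact absurd hx (not_lt.2 zero_le)
  have hj0 : 0 < v.valuation K (x j) := (zero_lt_iff.2 hi0).trans_le (hj i)
  refine ⟨fun i => x i / x j, fun i => ?_, ⟨j, ?_⟩, ?_⟩
  · rw [map_div₀]
    exact (div_le_one₀ hj0).2 (hj i)
  · rw [map_div₀, div_self hj0.ne']
  · have e : ∑ i, (a i : K) * (x i / x j) ^ 2 = (∑ i, (a i : K) * x i ^ 2) / x j ^ 2 := by
      rw [Finset.sum_div]
      refine Finset.sum_congr rfl fun i _ => ?_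
      rw [div_pow, mul_div_assoc]
    rw [e, map_div₀, map_pow, div_lt_iff₀ (pow_pos hj0 2)]
    refine hx.trans_le ?_
    exact mul_le_mul_right (pow_le_pow_left₀ zero_le (hj i) 2) _

/-- Coefficients can be changed by squares. -/
theorem NI.scale {v : HeightOneSpectrum (𝓞 K)} {ι : Type*} [Fintype ι] {a : ι → Kˣ}
    (h : NI v a) (t : ι → Kˣ) : NI v fun i => a i * t i ^ 2 := by
  apply NI_of
  intro ε
  obtain ⟨c, hc⟩ := exists_le_all v fun i => ε * ((t i)⁻¹) ^ 2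
  obtain ⟨x, -, ⟨i, hi⟩, hx⟩ := h c
  refine ⟨fun i => x i / t i, i, ?_⟩
  have e : ∑ i, ((a i * t i ^ 2 : Kˣ) : K) * (x i / t i) ^ 2 = ∑ i, (a i : K) * x i ^ 2 := by
    refine Finset.sum_congr rfl fun i _ => ?_
    have h0 : (t i : K) ≠ 0 := (t i).ne_zero
    push_cast
    field_simp
  rw [e]
  refine hx.trans_le ((hc i).trans (le_of_eq ?_))
  rw [map_div₀, hi]
  push_cast
  rw [map_mul, map_pow, map_inv₀, one_div]

/-- Square discriminant. -/
theorem iso_sq (hN : ∀ b c : Kˣ, (∀ v : HeightOneSpectrum (𝓞 K), c ∈ LNm v b) →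
      (∀ φ : K →+* ℝ, φ b < 0 → 0 < φ c) → c ∈ Nrm b)
    (a : Fin 4 → Kˣ) {θ : Kˣ} (hθ : a 0 * a 1 * a 2 * a 3 = θ ^ 2)
    (h : ∀ v : HeightOneSpectrum (𝓞 K), NI v a)
    (hR : ∀ φ : K →+* ℝ, (∃ i, 0 < φ (a i)) ∧ ∃ i, φ (a i) < 0) :
    ∃ x : Fin 4 → K, x ≠ 0 ∧ ∑ i, (a i : K) * x i ^ 2 = 0 := by
  have hm : -(a 0 * a 2) ∈ Nrm (-(a 0 * a 1)) := by
    apply hN
    · intro v
      apply mem_LNm_of_NI
      have h1 := (h v).scale ![1, 1, 1, θ * (a 3)⁻¹]
      have e : (fun i => a i * (![1, 1, 1, θ * (a 3)⁻¹] : Fin 4 → Kˣ) i ^ 2) =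
          ![a 0, a 1, a 2, a 0 * a 1 * a 2] := by
        funext i
        fin_cases i
        · simp
        · simp
        · simp
        · change a 3 * (θ * (a 3)⁻¹) ^ 2 = a 0 * a 1 * a 2
          rw [mul_pow, ← hθ]
          have h30 : (a 3 : K) ≠ 0 := (a 3).ne_zero
          apply Units.ext
          push_cast
          field_simp
      rwa [e] at h1
    · intro φ hφ
      obtain ⟨⟨i, hi⟩, j, hj⟩ := hR φ
      have hd : φ (a 0) * φ (a 1) * (φ (a 2) * φ (a 3)) = φ θ ^ 2 := by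
        rw [← map_pow, ← Units.val_pow_eq_pow_val, ← hθ]
        push_cast
        rw [map_mul, map_mul, map_mul]
        ring
      have hθ0 : φ θ ≠ 0 := (map_ne_zero φ).2 θ.ne_zero
      have hθ2 : 0 < φ θ ^ 2 := by positivity
      push_cast at hφ ⊢
      rw [map_neg, map_mul] at hφ ⊢
      have h01 : 0 < φ (a 0) * φ (a 1) := by linarith
      have h23 : 0 < φ (a 2) * φ (a 3) := by
        by_contra h5
        push Not at h5
        have : φ (a 0) * φ (a 1) * (φ (a 2) * φ (a 3)) ≤ 0 :=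
          mul_nonpos_of_nonneg_of_nonpos h01.le h5
        linarith
      by_contra h5
      have h02 : 0 ≤ φ (a 0) * φ (a 2) := by linarith
      have hne : ∀ i, φ (a i) ≠ 0 := fun i => (map_ne_zero φ).2 (a i).ne_zero
      rcases lt_or_gt_of_ne (hne 0) with h0 | h0
      · have h1 : φ (a 1) < 0 := by
          by_contra h6
          push Not at h6
          linarith [mul_nonpos_of_nonpos_of_nonneg h0.le h6]
        have h2 : φ (a 2) < 0 := by
          rcases lt_or_gt_of_ne (hne 2) with h6 | h6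
          · exact h6
          · exact absurd (mul_neg_of_neg_of_pos h0 h6) (not_lt.2 h02)
        have h3 : φ (a 3) < 0 := by
          by_contra h6
          push Not at h6
          linarith [mul_nonpos_of_nonpos_of_nonneg h2.le h6]
        fin_cases i
        · exact absurd hi (not_lt.2 h0.le)
        · exact absurd hi (not_lt.2 h1.le)
        · exact absurd hi (not_lt.2 h2.le)
        · exact absurd hi (not_lt.2 h3.le)
      · have h1 : 0 < φ (a 1) := by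
          by_contra h6
          push Not at h6
          linarith [mul_nonpos_of_nonneg_of_nonpos h0.le h6]
        have h2 : 0 < φ (a 2) := by
          rcases lt_or_gt_of_ne (hne 2) with h6 | h6
          · exact absurd (mul_neg_of_pos_of_neg h0 h6) (not_lt.2 h02)
          · exact h6
        have h3 : 0 < φ (a 3) := by
          by_contra h6
          push Not at h6
          linarith [mul_nonpos_of_nonneg_of_nonpos h2.le h6]
        fin_cases j
        · exact absurd hj (not_lt.2 h0.le)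
        · exact absurd hj (not_lt.2 h1.le)
        · exact absurd hj (not_lt.2 h2.le)
        · exact absurd hj (not_lt.2 h3.le)
  obtain ⟨x, y, hxy⟩ := zero_of_mem_Nrm hm
  refine ⟨![x, y, 1, 0], ?_, ?_⟩
  · intro h5
    exact one_ne_zero (congrFun h5 2)
  · rw [Fin.sum_univ_four]
    simp
    linear_combination hxy

/-- **Hasse–Minkowski in four variables**, from the norm theorem. -/
theorem iso4_of (hN : ∀ (L : Type u) [Field L] [NumberField L] (b c : Lˣ),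
      (∀ v : HeightOneSpectrum (𝓞 L), c ∈ LNm v b) →
      (∀ φ : L →+* ℝ, φ b < 0 → 0 < φ c) → c ∈ Nrm b)
    (a : Fin 4 → Kˣ) (h : ∀ v : HeightOneSpectrum (𝓞 K), NI v a)
    (hR : ∀ φ : K →+* ℝ, (∃ i, 0 < φ (a i)) ∧ ∃ i, φ (a i) < 0) :
    ∃ x : Fin 4 → K, x ≠ 0 ∧ ∑ i, (a i : K) * x i ^ 2 = 0 := by
  by_cases hd : IsSquare ((a 0 * a 1 * a 2 * a 3 : Kˣ) : K)
  · obtain ⟨θ, hθ⟩ := hd
    have hθ0 : θ ≠ 0 := by
      rintro rfl
      rw [mul_zero] at hθ
      exact (a 0 * a 1 * a 2 * a 3).ne_zero hθ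
    refine iso_sq (hN K) a (θ := Units.mk0 θ hθ0) ?_ h hR
    apply Units.ext
    rw [hθ]
    push_cast
    rw [Units.val_mk0, pow_two]
  · obtain ⟨L, _, _, _, σ, θ, hq⟩ := exists_quad hd
    have hθ0 : θ ≠ 0 := hq.t0
    let a' : Fin 4 → Lˣ := fun i => Units.map (algebraMap K L).toMonoidHom (a i)
    have ha' : ∀ i, (a' i : L) = algebraMap K L (a i) := fun i => rfl
    obtain ⟨x, hx, hx0⟩ := iso_sq (hN L) a' (θ := Units.mk0 θ hθ0) (by
      apply Units.ext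
      simp only [Units.val_mul, Units.val_pow_eq_pow_val, Units.val_mk0]
      rw [hq.sq, ha', ha', ha', ha']
      simp only [Units.val_mul, map_mul]) (fun w => NI.ext h w) (by
      intro φ
      exact hR (φ.comp (algebraMap K L)))
    refine descend two_ne_zero (fun i => (a i : K)) (fun i => (a i).ne_zero) (θ := θ) ?_ ?_
      hq.dec x hx hx0
    · rw [hq.sq]
      push_cast
      rfl
    · intro p q hpq
      have hq0 : q = 0 := by
        by_contra hq0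
        apply hd
        have h5 : algebraMap K L q ≠ 0 := (map_ne_zero _).2 hq0
        have h6 : θ = algebraMap K L (-p / q) := by
          rw [map_div₀, map_neg, eq_div_iff h5]
          linear_combination hpq
        refine ⟨-p / q, (algebraMap K L).injective ?_⟩
        rw [map_mul, ← h6, ← pow_two, hq.sq]
      subst hq0
      rw [map_zero, zero_mul, add_zero] at hpq
      exact ⟨(map_eq_zero _).1 hpq, rfl⟩

end Hm
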