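import Pool.Agent.Lib.MP_f80667_ag.Hm.Frm5B
import Pool.Agent.Lib.MP_f80667_ag.Hm.Frm5C
import Pool.Agent.Lib.MP_f80667_ag.Hm.Iso3
import Pool.Agent.Lib.MP_f80667_ag.Hm.Q4
import Pool.Agent.Lib.MP_f80667_ag.Hm.Main

/-! Quadratic forms in five variables over number fields. -/

set_option autoImplicit false

open IsDedekindDomain NumberField

namespace Hm

theorem four_of {K : Type} [Field K] [NumberField K]
    (h4 : ∀ a : Fin 4 → Kˣ, (∀ v : HeightOneSpectrum (𝓞 K), NI v a) →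
      (∀ φ : K →+* ℝ, (∃ i, 0 < φ (a i)) ∧ ∃ i, φ (a i) < 0) →
      ∃ x : Fin 4 → K, x ≠ 0 ∧ ∑ i, (a i : K) * x i ^ 2 = 0) : Four K := by
  intro a ha hv hR
  exact h4 (fun i => Units.mk0 (a i) (ha i)) (fun v ε => hv v (v.valuation K (ε : K))
    (((v.valuation K).ne_zero_iff).2 ε.ne_zero)) hR

/-- The case of four variables. -/
theorem four (K : Type) [Field K] [NumberField K] : Four K :=
  four_of fun a h hR => iso4_of (fun _ _ _ => norm_thm) a h hR

/-- A diagonal form in at least five variables over a number field which is indefinite at all real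
places has a zero. -/
theorem iso5 {K : Type} [Field K] [NumberField K] {n : ℕ} (hn : 2 ≤ n) (a : Fin n → K)
    (b : Fin 3 → K) (ha : ∀ i, a i ≠ 0) (hb : ∀ i, b i ≠ 0)
    (hR : ∀ φ : K →+* ℝ, ((∃ i, 0 < φ (a i)) ∨ ∃ i, 0 < φ (b i)) ∧
      ((∃ i, φ (a i) < 0) ∨ ∃ i, φ (b i) < 0)) :
    ∃ (x : Fin n → K) (y : Fin 3 → K), (x ≠ 0 ∨ y ≠ 0) ∧
      ∑ i, a i * x i ^ 2 + ∑ i, b i * y i ^ 2 = 0 :=
  iso5_of (four K) (fun _ hv a ha => iso3_unit hv a ha) hn a b ha hb hR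

/-- **Hasse–Minkowski** for at least five variables, in terms of matrices. -/
theorem isoM {K : Type} [Field K] [NumberField K] {m : ℕ} (hm : 4 < m)
    (A : Matrix (Fin m) (Fin m) K) (hR : ∀ φ : K →+* ℝ, ∃ x : Fin m → ℝ, x ≠ 0 ∧
      dotProduct x ((A.map φ).mulVec x) = 0) :
    ∃ x : Fin m → K, x ≠ 0 ∧ dotProduct x (A.mulVec x) = 0 :=
  isoM_of (fun hn a b ha hb hR => iso5 hn a b ha hb hR) hm A hR

end Hm
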