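import Mathlib

/-! Springer's theorem: a quadratic form with a zero over an extension of odd degree has a zero. -/

open Polynomial

namespace Hm

variable {k : Type*} [Field k] {m : ℕ}

/-- The value of the form with matrix `A` over a `k`-algebra. -/
def qf {R : Type*} [CommRing R] [Algebra k R] (A : Matrix (Fin m) (Fin m) k) (x : Fin m → R) : R :=
  ∑ i, ∑ j, algebraMap k R (A i j) * (x i * x j)

theorem qf_map {R S : Type*} [CommRing R] [Algebra k R] [CommRing S] [Algebra k S]
    (A : Matrix (Fin m) (Fin m) k) (f : R →ₐ[k] S) (x : Fin m → R) :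
    qf A (fun i => f (x i)) = f (qf A x) := by
  simp [qf, map_sum]

theorem qf_smul {R : Type*} [CommRing R] [Algebra k R]
    (A : Matrix (Fin m) (Fin m) k) (c : R) (x : Fin m → R) :
    qf A (fun i => c * x i) = c ^ 2 * qf A x := by
  simp only [qf, Finset.mul_sum]
  exact Finset.sum_congr rfl fun i _ => Finset.sum_congr rfl fun j _ => by ring

theorem qf_eq {R : Type*} [CommRing R] [Algebra k R] (A : Matrix (Fin m) (Fin m) k)
    (x : Fin m → R) : dotProduct x ((A.map (algebraMap k R)).mulVec x) = qf A x := by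
  simp only [qf, dotProduct, Matrix.mulVec, Matrix.map_apply, Finset.mul_sum]
  exact Finset.sum_congr rfl fun i _ => Finset.sum_congr rfl fun j _ => by ring

theorem exists_odd_factor {h : k[X]} (h0 : h ≠ 0) (hodd : Odd h.natDegree) :
    ∃ p, Irreducible p ∧ p ∣ h ∧ Odd p.natDegree := by
  induction h using WfDvdMonoid.induction_on_irreducible with
  | zero => exact absurd rfl h0
  | unit u hu =>
    rw [natDegree_eq_zero_of_isUnit hu] at hodd
    exact absurd hodd (by decide)
  | mul a p ha hp ih =>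
    rw [natDegree_mul hp.ne_zero ha] at hodd
    by_cases h1 : Odd p.natDegree
    · exact ⟨p, hp, dvd_mul_right _ _, h1⟩
    · have h2 : Odd a.natDegree := by
        rw [Nat.not_odd_iff_even] at h1
        exact (Nat.odd_add'.1 hodd).2 h1
      obtain ⟨q, hq, hqa, hqo⟩ := ih ha h2
      exact ⟨q, hq, hqa.mul_left _, hqo⟩

/-- The core of Springer's theorem. -/
theorem springer_poly (A : Matrix (Fin m) (Fin m) k) (hA : ∀ x : Fin m → k, qf A x = 0 → x = 0)
    (d : ℕ) : ∀ f : k[X], Irreducible f → f.natDegree = d → Odd d → ∀ g : Fin m → k[X],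
      f ∣ qf A g → ∀ i, f ∣ g i := by
  classical
  induction d using Nat.strong_induction_on with
  | _ d ih =>
  intro f hf hfd hd g hg
  by_contra hcon
  push Not at hcon
  obtain ⟨i₀, hi₀⟩ := hcon
  -- reduce modulo `f`
  let g₁ : Fin m → k[X] := fun i => g i % f
  have hg₁ : f ∣ qf A g₁ := by
    have h1 : (Ideal.Quotient.mkₐ k (Ideal.span {f})) (qf A g₁) = 0 := by
      rw [← qf_map]
      have h2 : (fun i => (Ideal.Quotient.mkₐ k (Ideal.span {f})) (g₁ i)) =
          fun i => (Ideal.Quotient.mkₐ k (Ideal.span {f})) (g i) := by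
        funext i
        rw [Ideal.Quotient.mkₐ_eq_mk, Ideal.Quotient.mk_eq_mk_iff_sub_mem,
          Ideal.mem_span_singleton]
        have h3 := EuclideanDomain.mod_add_div (g i) f
        refine ⟨-(g i / f), ?_⟩
        change g i % f - g i = _
        linear_combination h3
      rw [h2, qf_map, Ideal.Quotient.mkₐ_eq_mk, Ideal.Quotient.eq_zero_iff_mem,
        Ideal.mem_span_singleton]
      exact hg
    rwa [Ideal.Quotient.mkₐ_eq_mk, Ideal.Quotient.eq_zero_iff_mem, Ideal.mem_span_singleton] at h1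
  have hg₁i : g₁ i₀ ≠ 0 := fun h => hi₀ ((EuclideanDomain.mod_eq_zero).1 h)
  have hdeg : ∀ i, g₁ i ≠ 0 → (g₁ i).natDegree < d := by
    intro i hi
    rw [← hfd]
    exact natDegree_lt_natDegree hi (degree_mod_lt _ hf.ne_zero)
  -- divide by the gcd
  set D := Finset.univ.gcd g₁ with hD
  have hD0 : D ≠ 0 := fun h => hg₁i ((Finset.gcd_eq_zero_iff.1 h) i₀ (Finset.mem_univ _))
  have hDd : ∀ i, D ∣ g₁ i := fun i => Finset.gcd_dvd (Finset.mem_univ i)
  choose g₂ hg₂ using hDd
  have hfD : ¬ f ∣ D := by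
    intro h
    have h1 : f ∣ g₁ i₀ := h.trans ⟨_, hg₂ i₀⟩
    have h2 := natDegree_le_of_dvd h1 hg₁i
    have h3 := hdeg i₀ hg₁i
    omega
  have hg₂f : f ∣ qf A g₂ := by
    have h1 : g₁ = fun i => D * g₂ i := funext hg₂
    rw [h1, qf_smul] at hg₁
    exact (hf.prime.dvd_or_dvd hg₁).resolve_left fun h => hfD (hf.prime.dvd_of_dvd_pow h)
  have hgcd : ∀ p : k[X], Irreducible p → (∀ i, p ∣ g₂ i) → False := by
    intro p hp hpi
    have h1 : D * p ∣ D := by
      rw [hD]
      refine Finset.dvd_gcd fun i _ => ?_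
      rw [← hD, hg₂ i]
      exact mul_dvd_mul_left _ (hpi i)
    exact hp.not_isUnit (isUnit_of_dvd_one ((mul_dvd_mul_iff_left hD0).1 (by rwa [mul_one])))
  have hg₂i : g₂ i₀ ≠ 0 := by
    intro h
    apply hg₁i
    rw [hg₂, h, mul_zero]
  have hdeg₂ : ∀ i, (g₂ i).natDegree < d := by
    intro i
    by_cases h : g₂ i = 0
    · rw [h, natDegree_zero]
      exact hd.pos
    · have h1 : g₁ i ≠ 0 := by
        rw [hg₂]
        exact mul_ne_zero hD0 h
      have h2 := hdeg i h1
      rw [hg₂, natDegree_mul hD0 h] at h2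
      omega
  -- the degree of the value
  obtain ⟨i₁, -, hi₁⟩ := Finset.exists_max_image Finset.univ (fun i => (g₂ i).natDegree)
    ⟨i₀, Finset.mem_univ _⟩
  set M := (g₂ i₁).natDegree with hM
  have hle : ∀ i, (g₂ i).natDegree ≤ M := fun i => hi₁ i (Finset.mem_univ _)
  have hi₁0 : ∃ i, (g₂ i).coeff M ≠ 0 := by
    by_cases h : g₂ i₁ = 0
    · have hM0 : M = 0 := by rw [hM, h, natDegree_zero]
      refine ⟨i₀, ?_⟩
      have h1 : (g₂ i₀).natDegree = 0 := by
        have := hle i₀
        omega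
      rw [hM0]
      intro h2
      apply hg₂i
      rw [eq_C_of_natDegree_eq_zero h1, h2, C_0]
    · exact ⟨i₁, by rw [hM]; exact leadingCoeff_ne_zero.2 h⟩
  have hcoeff : (qf A g₂).coeff (M + M) = qf A (fun i => (g₂ i).coeff M) := by
    simp only [qf, finsetSum_coeff, ← C_eq_algebraMap, coeff_C_mul]
    refine Finset.sum_congr rfl fun i _ => Finset.sum_congr rfl fun j _ => ?_
    rw [coeff_mul_add_eq_of_natDegree_le (hle i) (hle j)]
    rfl
  have hne : (qf A g₂).coeff (M + M) ≠ 0 := by
    rw [hcoeff]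
    intro h
    obtain ⟨i, hi⟩ := hi₁0
    exact hi (congrFun (hA _ h) i)
  have hq0 : qf A g₂ ≠ 0 := fun h => hne (by rw [h, coeff_zero])
  have hqdeg : (qf A g₂).natDegree = M + M := by
    apply le_antisymm
    · refine natDegree_sum_le_of_forall_le _ _ fun i _ =>
        natDegree_sum_le_of_forall_le _ _ fun j _ => ?_
      rw [← C_eq_algebraMap]
      refine (natDegree_C_mul_le _ _).trans (natDegree_mul_le.trans ?_)
      have := hle i
      have := hle j
      omega
    · exact le_natDegree_of_ne_zero hne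
  obtain ⟨h, hh⟩ := hg₂f
  have hh0 : h ≠ 0 := by
    intro h1
    apply hq0
    rw [hh, h1, mul_zero]
  have hhdeg : d + h.natDegree = M + M := by
    rw [← hqdeg, hh, natDegree_mul hf.ne_zero hh0, hfd]
  have hhodd : Odd h.natDegree := by
    have h1 : Even (d + h.natDegree) := ⟨M, hhdeg⟩
    have h2 := Nat.even_add'.1 h1
    exact h2.1 hd
  obtain ⟨p, hp, hph, hpo⟩ := exists_odd_factor hh0 hhodd
  have hpd : p.natDegree < d := by
    have h1 := natDegree_le_of_dvd hph hh0
    have h2 := hdeg₂ i₁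
    omega
  exact hgcd p hp (ih _ hpd p hp rfl hpo g₂ (hph.trans ⟨f, by rw [hh, mul_comm]⟩))

end Hm
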