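import Pool.Agent.Lib.MP_f80667_ag.LF.GoodN
import Pool.Agent.Lib.MP_f80667_ag.Hm.SprA

/-! Springer's theorem, and zeros of quadratic forms in five variables over the completions of a
number field. -/

open IsDedekindDomain NumberField Polynomial

namespace Hm

/-- **Springer's theorem.** A quadratic form with a zero over an extension of odd degree has a
zero. -/
theorem springer {k l : Type*} [Field k] [CharZero k] [Field l] [Algebra k l]
    [FiniteDimensional k l] (hodd : Odd (Module.finrank k l)) {m : ℕ}
    (A : Matrix (Fin m) (Fin m) k) (x : Fin m → l) (hx : x ≠ 0)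
    (h0 : dotProduct x ((A.map (algebraMap k l)).mulVec x) = 0) :
    ∃ x : Fin m → k, x ≠ 0 ∧ dotProduct x (A.mulVec x) = 0 := by
  by_contra hcon
  push Not at hcon
  have hA : ∀ x : Fin m → k, qf A x = 0 → x = 0 := by
    intro y hy
    by_contra hy0
    refine hcon y hy0 ?_
    have h1 := qf_eq (R := k) A y
    rw [hy, Algebra.algebraMap_self] at h1
    exact h1
  obtain ⟨θ, hθ⟩ := Field.exists_primitive_element k l
  have hint : IsIntegral k θ := IsIntegral.of_finite k θ
  have hdeg : (minpoly k θ).natDegree = Module.finrank k l := by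
    rw [← IntermediateField.adjoin.finrank hint, hθ, IntermediateField.finrank_top']
  have hgen : ∀ z : l, ∃ g : k[X], aeval θ g = z := by
    intro z
    have hz : z ∈ IntermediateField.adjoin k {θ} := by
      rw [hθ]
      exact IntermediateField.mem_top
    have h1 : z ∈ (IntermediateField.adjoin k {θ}).toSubalgebra := hz
    rw [IntermediateField.adjoin_simple_toSubalgebra_of_isAlgebraic hint.isAlgebraic,
      Algebra.adjoin_singleton_eq_range_aeval] at h1
    exact h1
  choose g hg using fun i => hgen (x i)
  have hq : aeval θ (qf A g) = 0 := by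
    rw [← qf_map A (aeval θ) g]
    have h1 : (fun i => aeval θ (g i)) = x := funext hg
    rw [h1, ← qf_eq]
    exact h0
  have hdvd : minpoly k θ ∣ qf A g := minpoly.dvd k θ hq
  apply hx
  funext i
  have h2 := springer_poly A hA _ (minpoly k θ) (minpoly.irreducible hint) rfl
    (by rw [hdeg]; exact hodd) g hdvd i
  obtain ⟨c, hc⟩ := h2
  rw [← hg i, hc, map_mul, minpoly.aeval, zero_mul]
  rfl

/-- Quadratic forms in at least five variables over a completion at a finite place have zeros. -/
theorem iso_locM {K : Type} [Field K] [NumberField K] (v : HeightOneSpectrum (𝓞 K)) {m : ℕ}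
    (hm : 4 < m) (A : Matrix (Fin m) (Fin m) (v.adicCompletion K)) :
    ∃ x : Fin m → v.adicCompletion K, x ≠ 0 ∧ dotProduct x (A.mulVec x) = 0 := by
  obtain ⟨L, hL, hcop, hI⟩ := Pool.Agent.Lib.MP_f80667_ag.LF.good_adic K v 1 2 (by norm_num)
  have hodd : Odd (Module.finrank (v.adicCompletion K) L) := by
    rw [← Nat.not_even_iff_odd, even_iff_two_dvd]
    intro h
    have h1 := Nat.Coprime.eq_one_of_dvd hcop.symm h
    norm_num at h1
  obtain ⟨x, hx, h0⟩ := hI L hL le_rfl 1 le_rfl m (by omega)
    (fun _ => A.map (algebraMap (v.adicCompletion K) L))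
  exact springer hodd A x hx (h0 0)

/-- Diagonal forms in at least five variables over a completion at a finite place have zeros. -/
theorem iso_loc {K : Type} [Field K] [NumberField K] (v : HeightOneSpectrum (𝓞 K)) {m : ℕ}
    (hm : 4 < m) (a : Fin m → v.adicCompletion K) :
    ∃ x : Fin m → v.adicCompletion K, x ≠ 0 ∧ ∑ i, a i * x i ^ 2 = 0 := by
  obtain ⟨x, hx, h0⟩ := iso_locM v hm (Matrix.diagonal a)
  refine ⟨x, hx, ?_⟩
  rw [← h0]
  simp only [dotProduct, Matrix.mulVec_diagonal]
  exact Finset.sum_congr rfl fun i _ => by ring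

end Hm
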