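import Pool.Agent.Lib.MP_f80667_ag.Hm.Loc
import Pool.Agent.Lib.MP_f80667_ag.Hm.IsoLoc

/-! Local zeros of diagonal quadratic forms, in terms of the number field only. -/

open IsDedekindDomain NumberField HeightOneSpectrum

namespace Hm

variable {K : Type} [Field K] [NumberField K]

theorem valC (v : HeightOneSpectrum (𝓞 K)) (z : K) :
    Valued.v (algebraMap K (v.adicCompletion K) z) = v.valuation K z :=
  valuedAdicCompletion_eq_valuation' v z

/-- The open balls of the completion. -/
theorem isOpen_ballC (v : HeightOneSpectrum (𝓞 K)) {t : v.adicCompletion K} (ht : t ≠ 0) :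
    IsOpen {z : v.adicCompletion K | Valued.v z < Valued.v t} := by
  have hv : (Valued.v t) ≠ 0 := by rwa [Ne, map_eq_zero]
  have h3 : {z : v.adicCompletion K | Valued.v z < Valued.v t} =
      (fun z => z / t) ⁻¹' {z : v.adicCompletion K | Valued.v z < 1} := by
    ext z
    simp only [Set.mem_ofPred_eq, Set.mem_preimage, map_div₀]
    rw [div_lt_one₀ (zero_lt_iff.2 hv)]
  rw [h3]
  have h4 : IsOpen {z : v.adicCompletion K | Valued.v z < 1} := by
    simpa only [Valuation.restrict_lt_one_iff] using Valued.isOpen_ball (v.adicCompletion K) 1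
  exact h4.preimage (continuous_id.div_const t)

/-- Elements of the number field near an element of the completion. -/
theorem exists_nearC (v : HeightOneSpectrum (𝓞 K)) {t : v.adicCompletion K} (ht : t ≠ 0)
    (x : v.adicCompletion K) :
    ∃ y : K, Valued.v (algebraMap K (v.adicCompletion K) y - x) < Valued.v t := by
  have hopen : IsOpen {z : v.adicCompletion K | Valued.v (z - x) < Valued.v t} :=
    (isOpen_ballC v ht).preimage (continuous_id.sub continuous_const)
  have hv : (Valued.v t) ≠ 0 := by rwa [Ne, map_eq_zero]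
  obtain ⟨y, hy⟩ := (denseRange_algebraMap K v).exists_mem_open hopen
    ⟨x, by
      change Valued.v (x - x) < Valued.v t
      rw [sub_self, map_zero]
      exact zero_lt_iff.2 hv⟩
  exact ⟨y, hy⟩

/-- A zero over the completion gives near zeros in the number field. -/
theorem near_of_zeroC (v : HeightOneSpectrum (𝓞 K)) {ι : Type*} [Fintype ι] (a : ι → Kˣ)
    (x : ι → v.adicCompletion K) (hx : x ≠ 0)
    (h0 : ∑ i, algebraMap K (v.adicCompletion K) (a i : K) * x i ^ 2 = 0) (ε : Kˣ) :
    ∃ y : ι → K, (∀ i, v.valuation K (y i) ≤ 1) ∧ (∃ i, v.valuation K (y i) = 1) ∧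
      v.valuation K (∑ i, (a i : K) * y i ^ 2) < v.valuation K (ε : K) := by
  classical
  -- make the zero primitive
  obtain ⟨j, hj⟩ : ∃ j, x j ≠ 0 := by
    by_contra h
    push Not at h
    exact hx (funext h)
  obtain ⟨k, -, hk⟩ := Finset.exists_max_image Finset.univ (fun i => Valued.v (x i))
    ⟨j, Finset.mem_univ _⟩
  have hk0 : x k ≠ 0 := by
    intro h
    have h1 := hk j (Finset.mem_univ _)
    rw [h, map_zero] at h1
    exact hj ((map_eq_zero _).1 (le_antisymm h1 zero_le))
  have hkv : Valued.v (x k) ≠ 0 := by rwa [Ne, map_eq_zero]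
  -- the radius
  obtain ⟨m, -, hm⟩ := Finset.exists_max_image Finset.univ
    (fun i => Valued.v (algebraMap K (v.adicCompletion K) (a i : K))) ⟨j, Finset.mem_univ _⟩
  have hA : ∀ i, algebraMap K (v.adicCompletion K) (a i : K) ≠ 0 := fun i => by
    rw [Ne, map_eq_zero]
    exact (a i).ne_zero
  have hE : algebraMap K (v.adicCompletion K) (ε : K) ≠ 0 := by
    rw [Ne, map_eq_zero]
    exact ε.ne_zero
  obtain ⟨t, ht0, ht1, htE⟩ : ∃ t : v.adicCompletion K, t ≠ 0 ∧ Valued.v t ≤ 1 ∧
      Valued.v (algebraMap K (v.adicCompletion K) (a m : K)) * Valued.v t ≤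
        Valued.v (algebraMap K (v.adicCompletion K) (ε : K)) := by
    rcases le_total (Valued.v (algebraMap K (v.adicCompletion K) (ε : K) /
      algebraMap K (v.adicCompletion K) (a m : K))) 1 with h | h
    · refine ⟨_, div_ne_zero hE (hA m), h, ?_⟩
      rw [← map_mul, mul_div_cancel₀ _ (hA m)]
    · refine ⟨1, one_ne_zero, by rw [map_one], ?_⟩
      rw [map_div₀, one_le_div₀ (zero_lt_iff.2 (by rw [Ne, map_eq_zero]; exact hA m))] at h
      rwa [map_one, mul_one]
  choose y hy using fun i => exists_nearC v ht0 (x i / x k)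
  have hxi : ∀ i, Valued.v (x i / x k) ≤ 1 := fun i => by
    rw [map_div₀]
    exact (div_le_one₀ (zero_lt_iff.2 hkv)).2 (hk i (Finset.mem_univ _))
  have hy1 : ∀ i, v.valuation K (y i) ≤ 1 := fun i => by
    rw [← valC]
    have e : algebraMap K (v.adicCompletion K) (y i) =
        (algebraMap K (v.adicCompletion K) (y i) - x i / x k) + x i / x k := by ring
    rw [e]
    exact (Valuation.map_add _ _ _).trans (max_le ((hy i).le.trans ht1) (hxi i))
  refine ⟨y, hy1, ⟨k, ?_⟩, ?_⟩
  · refine le_antisymm (hy1 k) ?_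
    by_contra hlt
    rw [not_le, ← valC] at hlt
    have h1 := hy k
    rw [div_self hk0] at h1
    have h2 : Valued.v (1 : v.adicCompletion K) < 1 := by
      have e : (1 : v.adicCompletion K) = algebraMap K (v.adicCompletion K) (y k) -
        (algebraMap K (v.adicCompletion K) (y k) - 1) := by ring
      rw [e]
      exact lt_of_le_of_lt (Valuation.map_sub _ _ _) (max_lt hlt (h1.trans_le ht1))
    rw [map_one] at h2
    exact lt_irrefl _ h2
  · rw [← valC, map_sum]
    have e : ∑ i, algebraMap K (v.adicCompletion K) ((a i : K) * y i ^ 2) =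
        ∑ i, algebraMap K (v.adicCompletion K) (a i : K) *
          ((algebraMap K (v.adicCompletion K) (y i) - x i / x k) *
            (algebraMap K (v.adicCompletion K) (y i) + x i / x k)) := by
      have e1 : ∑ i, algebraMap K (v.adicCompletion K) (a i : K) * (x i / x k) ^ 2 = 0 := by
        have : ∑ i, algebraMap K (v.adicCompletion K) (a i : K) * (x i / x k) ^ 2 =
            (∑ i, algebraMap K (v.adicCompletion K) (a i : K) * x i ^ 2) / x k ^ 2 := by
          rw [Finset.sum_div]
          exact Finset.sum_congr rfl fun i _ => by rw [div_pow, mul_div_assoc]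
        rw [this, h0, zero_div]
      rw [← sub_zero (∑ i, algebraMap K (v.adicCompletion K) ((a i : K) * y i ^ 2)), ← e1,
        ← Finset.sum_sub_distrib]
      refine Finset.sum_congr rfl fun i _ => ?_
      rw [map_mul, map_pow]
      ring
    rw [e, ← valC v (ε : K)]
    refine Valuation.map_sum_lt _ (by rw [Ne, map_eq_zero]; exact hE) fun i _ => ?_
    rw [map_mul, map_mul]
    refine lt_of_lt_of_le ?_ htE
    have h1 : Valued.v (algebraMap K (v.adicCompletion K) (y i) + x i / x k) ≤ 1 :=
      (Valuation.map_add _ _ _).trans (max_le (by rw [valC]; exact hy1 i) (hxi i))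
    have h2 : Valued.v (algebraMap K (v.adicCompletion K) (y i) - x i / x k) *
        Valued.v (algebraMap K (v.adicCompletion K) (y i) + x i / x k) < Valued.v t :=
      lt_of_le_of_lt (mul_le_of_le_one_right' h1) (hy i)
    have h3 : 0 < Valued.v (algebraMap K (v.adicCompletion K) (a m : K)) :=
      zero_lt_iff.2 (by rw [Ne, map_eq_zero]; exact hA m)
    calc _ ≤ Valued.v (algebraMap K (v.adicCompletion K) (a m : K)) *
          (Valued.v (algebraMap K (v.adicCompletion K) (y i) - x i / x k) *
            Valued.v (algebraMap K (v.adicCompletion K) (y i) + x i / x k)) :=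
          mul_le_mul_left (hm i (Finset.mem_univ _)) _
      _ < _ := (mul_lt_mul_iff_right₀ h3).2 h2

/-- A nonzero value of a binary form over the completion is a value over the number field times a
square. -/
theorem exists_near_value (v : HeightOneSpectrum (𝓞 K)) (a b : K) (z w : v.adicCompletion K)
    (h0 : algebraMap K (v.adicCompletion K) a * z ^ 2 +
      algebraMap K (v.adicCompletion K) b * w ^ 2 ≠ 0) :
    ∃ (x y : K) (r : v.adicCompletion K), a * x ^ 2 + b * y ^ 2 ≠ 0 ∧ r ≠ 0 ∧
      algebraMap K (v.adicCompletion K) (a * x ^ 2 + b * y ^ 2) * r ^ 2 =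
        algebraMap K (v.adicCompletion K) a * z ^ 2 +
          algebraMap K (v.adicCompletion K) b * w ^ 2 := by
  obtain ⟨t, ht⟩ : ∃ t, t = algebraMap K (v.adicCompletion K) a * z ^ 2 +
      algebraMap K (v.adicCompletion K) b * w ^ 2 := ⟨_, rfl⟩
  rw [← ht] at h0 ⊢
  have h4 : (4 : v.adicCompletion K) ≠ 0 := by
    have h2 : (2 : v.adicCompletion K) ≠ 0 := two_ne_zero
    have : (4 : v.adicCompletion K) = 2 * 2 := by norm_num
    rw [this]
    exact mul_ne_zero h2 h2
  have hopen : IsOpen {p : v.adicCompletion K × v.adicCompletion K |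
      Valued.v ((algebraMap K (v.adicCompletion K) a * p.1 ^ 2 +
        algebraMap K (v.adicCompletion K) b * p.2 ^ 2) / t - 1) <
          Valued.v (4 : v.adicCompletion K)} := by
    refine (isOpen_ballC v h4).preimage ?_
    exact (((continuous_const.mul (continuous_fst.pow 2)).add
      (continuous_const.mul (continuous_snd.pow 2))).div_const t).sub continuous_const
  obtain ⟨⟨x, y⟩, hxy⟩ := ((denseRange_algebraMap K v).prodMap
    (denseRange_algebraMap K v)).exists_mem_open hopen ⟨(z, w), by
      change Valued.v ((algebraMap K (v.adicCompletion K) a * z ^ 2 +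
        algebraMap K (v.adicCompletion K) b * w ^ 2) / t - 1) <
          Valued.v (4 : v.adicCompletion K)
      rw [← ht, div_self h0, sub_self, map_zero]
      exact zero_lt_iff.2 (by rwa [Ne, map_eq_zero])⟩
  obtain ⟨s, hs0, hs⟩ := exists_sq_of_near hxy
  simp only [Prod.map_apply] at hs
  have hc : algebraMap K (v.adicCompletion K) (a * x ^ 2 + b * y ^ 2) = s ^ 2 * t := by
    rw [hs, div_mul_cancel₀ _ h0]
    simp only [map_add, map_mul, map_pow]
  refine ⟨x, y, s⁻¹, ?_, inv_ne_zero hs0, ?_⟩
  · intro h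
    rw [h, map_zero] at hc
    exact mul_ne_zero (pow_ne_zero 2 hs0) h0 hc.symm
  · rw [hc]
    field_simp

/-- **The local theorem for five variables, in terms of the number field.** -/
theorem ni5 (v : HeightOneSpectrum (𝓞 K)) (a : Fin 5 → Kˣ) :
    ∃ c : Kˣ, (∃ x y : K, (c : K) = a 0 * x ^ 2 + a 1 * y ^ 2) ∧
      ∀ ε : Kˣ, ∃ x : Fin 4 → K, (∀ i, v.valuation K (x i) ≤ 1) ∧
        (∃ i, v.valuation K (x i) = 1) ∧
        v.valuation K (∑ i, (![c, a 2, a 3, a 4] i : K) * x i ^ 2) < v.valuation K (ε : K) := by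
  obtain ⟨z, hz, h0⟩ := iso_loc v (m := 5) (by norm_num)
    (fun i => algebraMap K (v.adicCompletion K) (a i : K))
  have hA : ∀ i, algebraMap K (v.adicCompletion K) (a i : K) ≠ 0 := fun i => by
    rw [Ne, map_eq_zero]
    exact (a i).ne_zero
  have key : ∀ z : Fin 5 → v.adicCompletion K,
      ∑ i, algebraMap K (v.adicCompletion K) (a i : K) * z i ^ 2 = 0 →
      algebraMap K (v.adicCompletion K) (a 0 : K) * z 0 ^ 2 +
        algebraMap K (v.adicCompletion K) (a 1 : K) * z 1 ^ 2 ≠ 0 →
      ∃ c : Kˣ, (∃ x y : K, (c : K) = a 0 * x ^ 2 + a 1 * y ^ 2) ∧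
      ∀ ε : Kˣ, ∃ x : Fin 4 → K, (∀ i, v.valuation K (x i) ≤ 1) ∧
        (∃ i, v.valuation K (x i) = 1) ∧
        v.valuation K (∑ i, (![c, a 2, a 3, a 4] i : K) * x i ^ 2) < v.valuation K (ε : K) := by
    intro z h0 h1
    obtain ⟨x, y, r, hc, hr, h2⟩ := exists_near_value v _ _ _ _ h1
    refine ⟨Units.mk0 _ hc, ⟨x, y, rfl⟩, fun ε => near_of_zeroC v _ ![r, z 2, z 3, z 4] ?_ ?_ ε⟩
    · intro h
      exact hr (congrFun h 0)
    · rw [Fin.sum_univ_five] at h0
      rw [Fin.sum_univ_four]
      simp only [Matrix.cons_val, Units.val_mk0]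
      rw [h2]
      exact h0
  by_cases h1 : algebraMap K (v.adicCompletion K) (a 0 : K) * z 0 ^ 2 +
        algebraMap K (v.adicCompletion K) (a 1 : K) * z 1 ^ 2 = 0
  swap
  · exact key z h0 h1
  by_cases h2 : z 2 = 0 ∧ z 3 = 0 ∧ z 4 = 0
  · -- the binary form is hyperbolic
    obtain ⟨h2, h3, h4⟩ := h2
    have hz01 : z 0 ≠ 0 ∧ z 1 ≠ 0 := by
      constructor
      · intro h
        rw [h, zero_pow two_ne_zero, mul_zero, zero_add] at h1
        have h5 : z 1 = 0 := by
          have := (mul_eq_zero.1 h1).resolve_left (hA 1)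
          exact pow_eq_zero_iff two_ne_zero |>.1 this
        apply hz
        funext i
        fin_cases i <;> assumption
      · intro h
        rw [h, zero_pow two_ne_zero, mul_zero, add_zero] at h1
        have h5 : z 0 = 0 := by
          have := (mul_eq_zero.1 h1).resolve_left (hA 0)
          exact pow_eq_zero_iff two_ne_zero |>.1 this
        apply hz
        funext i
        fin_cases i <;> assumption
    have h2' : (2 : v.adicCompletion K) ≠ 0 := two_ne_zero
    -- `z + s e` with value `- a 2`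
    obtain ⟨s, hs⟩ : ∃ s, s = -(algebraMap K (v.adicCompletion K) (a 2 : K)) /
      (4 * algebraMap K (v.adicCompletion K) (a 0 : K) * z 0 ^ 2) := ⟨_, rfl⟩
    have hs' : algebraMap K (v.adicCompletion K) (a 0 : K) * (z 0 * (1 + s)) ^ 2 +
        algebraMap K (v.adicCompletion K) (a 1 : K) * (z 1 * (1 - s)) ^ 2 =
          -(algebraMap K (v.adicCompletion K) (a 2 : K)) := by
      have h5 : algebraMap K (v.adicCompletion K) (a 1 : K) * z 1 ^ 2 =
        -(algebraMap K (v.adicCompletion K) (a 0 : K) * z 0 ^ 2) := by linear_combination h1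
      have h6 : 4 * algebraMap K (v.adicCompletion K) (a 0 : K) * z 0 ^ 2 * s =
          -(algebraMap K (v.adicCompletion K) (a 2 : K)) := by
        rw [hs]
        refine mul_div_cancel₀ _ ?_
        have h4' : (4 : v.adicCompletion K) = 2 * 2 := by norm_num
        rw [h4']
        exact mul_ne_zero (mul_ne_zero (mul_ne_zero h2' h2') (hA 0)) (pow_ne_zero 2 hz01.1)
      linear_combination (1 - s) ^ 2 * h5 + h6
    refine key ![z 0 * (1 + s), z 1 * (1 - s), 1, 0, 0] ?_ ?_
    · rw [Fin.sum_univ_five]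
      simp only [Matrix.cons_val]
      rw [hs']
      ring
    · change algebraMap K (v.adicCompletion K) (a 0 : K) * (z 0 * (1 + s)) ^ 2 +
        algebraMap K (v.adicCompletion K) (a 1 : K) * (z 1 * (1 - s)) ^ 2 ≠ 0
      rw [hs', neg_ne_zero]
      exact hA 2
  · refine ⟨a 0, ⟨1, 0, by ring⟩, fun ε => near_of_zeroC v _ ![0, z 2, z 3, z 4] ?_ ?_ ε⟩
    · intro h
      exact h2 ⟨congrFun h 1, congrFun h 2, congrFun h 3⟩
    · rw [Fin.sum_univ_five] at h0
      rw [Fin.sum_univ_four]
      simp only [Matrix.cons_val]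
      linear_combination h0 - h1

/-- Ternary forms with unit coefficients have zeros over the completion at a nondyadic place. -/
theorem zero3_unit {v : HeightOneSpectrum (𝓞 K)} (hv : v.valuation K 2 = 1) (a : Fin 3 → K)
    (ha : ∀ i, v.valuation K (a i) = 1) :
    ∃ x : Fin 3 → v.adicCompletion K, x ≠ 0 ∧
      ∑ i, algebraMap K (v.adicCompletion K) (a i) * x i ^ 2 = 0 := by
  classical
  have hmax : v.asIdeal.IsMaximal := v.isMaximal
  let _ : Field (𝓞 K ⧸ v.asIdeal) := Ideal.Quotient.field v.asIdeal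
  have hf : Finite (𝓞 K ⧸ v.asIdeal) := Ideal.finiteQuotientOfFreeOfNeBot _ v.ne_bot
  let _ : Fintype (𝓞 K ⧸ v.asIdeal) := Fintype.ofFinite _
  have h2 : Ideal.Quotient.mk v.asIdeal 2 ≠ 0 := by
    have h3 : v.valuation K (algebraMap (𝓞 K) K 2) = 1 := by
      rw [map_ofNat (algebraMap (𝓞 K) K) 2, hv]
    rw [Ne, Ideal.Quotient.eq_zero_iff_mem, ← v.valuation_lt_one_iff_mem (K := K), h3]
    exact lt_irrefl _
  have hodd : Fintype.card (𝓞 K ⧸ v.asIdeal) % 2 = 1 := by
    refine FiniteField.odd_card_of_char_ne_two fun h => h2 ?_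
    have h3 := ringChar.Nat.cast_ringChar (R := 𝓞 K ⧸ v.asIdeal)
    rw [h] at h3
    rw [map_ofNat]
    exact_mod_cast h3
  choose b hb using fun i => v.exists_valuation_sub_lt_of_integer (ha i).le 1
  have hb1 : ∀ i, v.valuation K (algebraMap (𝓞 K) K (b i)) = 1 := by
    intro i
    have h3 : algebraMap (𝓞 K) K (b i) = a i + (algebraMap (𝓞 K) K (b i) - a i) := by ring
    rw [h3, Valuation.map_add_eq_of_lt_left _ (by rw [ha i]; simpa using hb i), ha i]
  have hb0 : ∀ i, Ideal.Quotient.mk v.asIdeal (b i) ≠ 0 := by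
    intro i
    rw [Ne, Ideal.Quotient.eq_zero_iff_mem, ← v.valuation_lt_one_iff_mem (K := K), hb1 i]
    exact lt_irrefl _
  obtain ⟨x', y', hxy'⟩ := FiniteField.exists_root_sum_quadratic
    (f := Polynomial.C (Ideal.Quotient.mk v.asIdeal (b 0)) * Polynomial.X ^ 2)
    (g := Polynomial.C (Ideal.Quotient.mk v.asIdeal (b 1)) * Polynomial.X ^ 2 +
      Polynomial.C (Ideal.Quotient.mk v.asIdeal (b 2)))
    (Polynomial.degree_C_mul_X_pow 2 (hb0 0))
    (by
      rw [Polynomial.degree_add_eq_left_of_degree_lt, Polynomial.degree_C_mul_X_pow 2 (hb0 1)]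
      · rfl
      · rw [Polynomial.degree_C_mul_X_pow 2 (hb0 1)]
        exact lt_of_le_of_lt Polynomial.degree_C_le (by decide)) hodd
  obtain ⟨x, rfl⟩ := Ideal.Quotient.mk_surjective x'
  obtain ⟨y, rfl⟩ := Ideal.Quotient.mk_surjective y'
  simp only [Polynomial.eval_mul, Polynomial.eval_C, Polynomial.eval_pow, Polynomial.eval_X,
    Polynomial.eval_add] at hxy'
  have hval : v.valuation K (a 0 * (algebraMap (𝓞 K) K x) ^ 2 +
      a 1 * (algebraMap (𝓞 K) K y) ^ 2 + a 2) < 1 := by
    have h3 : b 0 * x ^ 2 + (b 1 * y ^ 2 + b 2) ∈ v.asIdeal := by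
      rw [← Ideal.Quotient.eq_zero_iff_mem]
      simpa only [map_add, map_mul, map_pow] using hxy'
    rw [← v.valuation_lt_one_iff_mem (K := K)] at h3
    have e : a 0 * (algebraMap (𝓞 K) K x) ^ 2 + a 1 * (algebraMap (𝓞 K) K y) ^ 2 + a 2 =
        algebraMap (𝓞 K) K (b 0 * x ^ 2 + (b 1 * y ^ 2 + b 2)) -
          ((algebraMap (𝓞 K) K (b 0) - a 0) * algebraMap (𝓞 K) K (x ^ 2) +
            ((algebraMap (𝓞 K) K (b 1) - a 1) * algebraMap (𝓞 K) K (y ^ 2) +
              (algebraMap (𝓞 K) K (b 2) - a 2))) := by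
      simp only [map_add, map_mul, map_pow]
      ring
    have hb' : ∀ i, v.valuation K (algebraMap (𝓞 K) K (b i) - a i) < 1 := fun i => by
      simpa using hb i
    have hm : ∀ i (z : 𝓞 K),
        v.valuation K ((algebraMap (𝓞 K) K (b i) - a i) * algebraMap (𝓞 K) K z) < 1 := by
      intro i z
      rw [map_mul]
      exact lt_of_le_of_lt (mul_le_of_le_one_right' (v.valuation_le_one z)) (hb' i)
    rw [e]
    exact Valuation.map_sub_lt _ h3 (Valuation.map_add_lt _ (hm 0 _)
      (Valuation.map_add_lt _ (hm 1 _) (hb' 2)))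
  obtain ⟨p, hp⟩ : ∃ p, p = algebraMap (𝓞 K) K x := ⟨_, rfl⟩
  obtain ⟨q, hq⟩ : ∃ q, q = algebraMap (𝓞 K) K y := ⟨_, rfl⟩
  have hp1 : v.valuation K p ≤ 1 := by
    rw [hp]
    exact v.valuation_le_one x
  have hq1 : v.valuation K q ≤ 1 := by
    rw [hq]
    exact v.valuation_le_one y
  rw [← hp, ← hq] at hval
  have hC4 : Valued.v (4 : v.adicCompletion K) = 1 := by
    have h3 : (4 : K) = 2 * 2 := by norm_num
    have h5 := valC v 4
    rw [map_ofNat (algebraMap K (v.adicCompletion K)) 4] at h5
    rw [h5, h3, map_mul, hv, one_mul]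
  -- solving for one of the variables
  have key : ∀ (α β γ : K), v.valuation K α = 1 → v.valuation K (α + β + γ) < 1 →
      ∃ s : v.adicCompletion K, algebraMap K (v.adicCompletion K) α * s ^ 2 +
        algebraMap K (v.adicCompletion K) β + algebraMap K (v.adicCompletion K) γ = 0 := by
    intro α β γ hα h
    have hα0 : algebraMap K (v.adicCompletion K) α ≠ 0 := by
      intro h3
      have h5 := valC v α
      rw [h3, map_zero, hα] at h5
      exact zero_ne_one h5
    obtain ⟨s, -, hs⟩ := exists_sq_of_near (v := v)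
      (z := -(algebraMap K (v.adicCompletion K) β + algebraMap K (v.adicCompletion K) γ) /
        algebraMap K (v.adicCompletion K) α) (by
      have e : -(algebraMap K (v.adicCompletion K) β + algebraMap K (v.adicCompletion K) γ) /
        algebraMap K (v.adicCompletion K) α - 1 =
          -(algebraMap K (v.adicCompletion K) (α + β + γ) /
            algebraMap K (v.adicCompletion K) α) := by
        rw [map_add, map_add]
        field_simp
        ring
      rw [e, Valuation.map_neg, map_div₀, valC, valC, hα, hC4, div_one]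
      exact h)
    refine ⟨s, ?_⟩
    rw [hs]
    field_simp
    ring
  by_cases hpu : v.valuation K p = 1
  · obtain ⟨s, hs⟩ := key (a 0 * p ^ 2) (a 1 * q ^ 2) (a 2)
      (by rw [map_mul, map_pow, ha, hpu, one_pow, one_mul]) hval
    refine ⟨![algebraMap K (v.adicCompletion K) p * s, algebraMap K (v.adicCompletion K) q, 1],
      ?_, ?_⟩
    · intro h
      exact one_ne_zero (congrFun h 2)
    · rw [Fin.sum_univ_three]
      simp only [Matrix.cons_val]
      simp only [map_mul, map_pow] at hs
      linear_combination hs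
  · have hqu : v.valuation K q = 1 := by
      by_contra hqu
      have hp2 : v.valuation K (a 0 * p ^ 2) < 1 := by
        rw [map_mul, map_pow, ha, one_mul]
        exact pow_lt_one₀ zero_le (lt_of_le_of_ne hp1 hpu) two_ne_zero
      have hq2 : v.valuation K (a 1 * q ^ 2) < 1 := by
        rw [map_mul, map_pow, ha, one_mul]
        exact pow_lt_one₀ zero_le (lt_of_le_of_ne hq1 hqu) two_ne_zero
      have h3 : v.valuation K (a 2) < 1 := by
        have e : a 2 = (a 0 * p ^ 2 + a 1 * q ^ 2 + a 2) - (a 0 * p ^ 2 + a 1 * q ^ 2) := by ring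
        rw [e]
        exact Valuation.map_sub_lt _ hval (Valuation.map_add_lt _ hp2 hq2)
      rw [ha] at h3
      exact lt_irrefl _ h3
    obtain ⟨s, hs⟩ := key (a 1 * q ^ 2) (a 0 * p ^ 2) (a 2)
      (by rw [map_mul, map_pow, ha, hqu, one_pow, one_mul])
      (by rwa [add_comm (a 1 * q ^ 2)])
    refine ⟨![algebraMap K (v.adicCompletion K) p, algebraMap K (v.adicCompletion K) q * s, 1],
      ?_, ?_⟩
    · intro h
      exact one_ne_zero (congrFun h 2)
    · rw [Fin.sum_univ_three]
      simp only [Matrix.cons_val]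
      simp only [map_mul, map_pow] at hs
      linear_combination hs

/-- The same in terms of the number field, with one more coefficient. -/
theorem ni3 {v : HeightOneSpectrum (𝓞 K)} (hv : v.valuation K 2 = 1) (c : Kˣ) (a : Fin 3 → Kˣ)
    (ha : ∀ i, v.valuation K (a i : K) = 1) (ε : Kˣ) :
    ∃ x : Fin 4 → K, (∀ i, v.valuation K (x i) ≤ 1) ∧
      (∃ i, v.valuation K (x i) = 1) ∧
      v.valuation K (∑ i, (![c, a 0, a 1, a 2] i : K) * x i ^ 2) < v.valuation K (ε : K) := by
  obtain ⟨z, hz, h0⟩ := zero3_unit hv (fun i => (a i : K)) ha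
  refine near_of_zeroC v _ ![0, z 0, z 1, z 2] ?_ ?_ ε
  · intro h
    apply hz
    funext i
    fin_cases i
    · exact congrFun h 1
    · exact congrFun h 2
    · exact congrFun h 3
  · rw [Fin.sum_univ_three] at h0
    rw [Fin.sum_univ_four]
    simp only [Matrix.cons_val]
    linear_combination h0

end Hm
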