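import Mathlib
import Pool.Agent.Lib.MP_f80667_ag.Hm.L1

/-! Local squares of `F` are squares in the completion. -/

namespace Hm

open IsLocalRing IsDedekindDomain NumberField HeightOneSpectrum
open Pool.Agent.Lib.MP_f80667_ag

variable {F : Type*} [Field F] [NumberField F]

/-- Elements of `F_v` with `|z - 1| < |4|` are squares. -/
theorem exists_sq_of_near {v : HeightOneSpectrum (𝓞 F)} {z : v.adicCompletion F}
    (hz : Valued.v (z - 1) < Valued.v (4 : v.adicCompletion F)) :
    ∃ s : v.adicCompletion F, s ≠ 0 ∧ s ^ 2 = z := by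
  have h2 : (2 : v.adicCompletion F) ≠ 0 := two_ne_zero
  have h4 : (4 : v.adicCompletion F) ≠ 0 := by
    have : (4 : v.adicCompletion F) = 2 * 2 := by norm_num
    rw [this]
    exact mul_ne_zero h2 h2
  have hv4 : Valued.v (4 : v.adicCompletion F) ≠ 0 := by rwa [Ne, map_eq_zero]
  have hlt : Valued.v ((z - 1) / 4) < 1 := by
    rw [map_div₀]
    exact (div_lt_one₀ (zero_lt_iff.2 hv4)).2 hz
  let a : v.adicCompletionIntegers F :=
    ⟨(z - 1) / 4, (mem_adicCompletionIntegers _ _ _).2 hlt.le⟩
  obtain ⟨y, hy⟩ := exists_sq_of_mem (R := v.adicCompletionIntegers F) (a := a)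
    ((LF.mem_max_iff F v).2 hlt)
  refine ⟨((y : v.adicCompletionIntegers F) : v.adicCompletion F), ?_, ?_⟩
  · intro h
    exact y.ne_zero (Subtype.ext h)
  · have h5 := congrArg (fun t : v.adicCompletionIntegers F => (t : v.adicCompletion F)) hy
    have h6 : ((y : v.adicCompletionIntegers F) : v.adicCompletion F) ^ 2 =
        1 + 4 * ((z - 1) / 4) := h5
    rw [h6]
    field_simp
    ring

/-- The local squares of `F` are squares in `F_v`. -/
theorem sq_of_mem_LSq {v : HeightOneSpectrum (𝓞 F)} {x : Fˣ} (hx : x ∈ LSq v) :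
    ∃ s : v.adicCompletion F, s ≠ 0 ∧ algebraMap F (v.adicCompletion F) x = s ^ 2 := by
  have hval : ∀ z : F, Valued.v (algebraMap F (v.adicCompletion F) z) = v.valuation F z :=
    fun z => valuedAdicCompletion_eq_valuation' v z
  obtain ⟨y, hy⟩ := hx
  have h44 : Valued.v (4 : v.adicCompletion F) = v.valuation F 4 := by
    rw [← hval, map_ofNat (algebraMap F (v.adicCompletion F)) 4]
  obtain ⟨s, hs0, hs⟩ := exists_sq_of_near (v := v)
    (z := algebraMap F (v.adicCompletion F) ((x : F) * (y : F) ^ 2)) (by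
      rw [h44, ← map_one (algebraMap F (v.adicCompletion F)), ← map_sub, hval]
      exact hy)
  have hy0 : algebraMap F (v.adicCompletion F) (y : F) ≠ 0 := by
    rw [Ne, map_eq_zero]
    exact y.ne_zero
  refine ⟨s / algebraMap F (v.adicCompletion F) (y : F), div_ne_zero hs0 hy0, ?_⟩
  rw [div_pow, hs, map_mul, map_pow]
  field_simp

/-- `LSq v` is the group of the elements of `F` which are squares in `F_v`. -/
theorem mem_LSq_iff {v : HeightOneSpectrum (𝓞 F)} {x : Fˣ} :
    x ∈ LSq v ↔ IsSquare (algebraMap F (v.adicCompletion F) x) := by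
  constructor
  · intro h
    obtain ⟨s, -, hs⟩ := sq_of_mem_LSq h
    exact ⟨s, by rw [hs, pow_two]⟩
  · rintro ⟨s, hs⟩
    exact mem_LSq_of_sq (z := s) (by rw [hs, pow_two])

end Hm
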