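import Pool.Agent.Lib.MP_f80667_ag.Hm.F1A

/-! The places of `L = K(√b)` over a finite set of places of `K`. -/

open IsDedekindDomain NumberField HeightOneSpectrum WithZero

namespace Hm

variable {K L : Type*} [Field K] [Field L] [NumberField K] [NumberField L] [Algebra K L]

theorem val_under_lt {w : HeightOneSpectrum (𝓞 L)} {x : K}
    (hx : (w.under (𝓞 K)).valuation K x < 1) : w.valuation L (algebraMap K L x) < 1 := by
  have hlo : w.asIdeal.LiesOver (w.under (𝓞 K)).asIdeal := ⟨rfl⟩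
  rw [← valuation_liesOver L (w.under (𝓞 K)) w x]
  exact pow_lt_one₀ zero_le hx
    (Ideal.IsDedekindDomain.ramificationIdx'_ne_zero_of_liesOver w.asIdeal
      (w.under (𝓞 K)).ne_bot)

/-- If `b` is close to a square at `v` then `v` is split. -/
theorem Quad.split {σ : L ≃ₐ[K] L} {θ : L} {b : K} (h : Quad σ θ b) (w : HeightOneSpectrum (𝓞 L))
    (hy : ∃ y : K, y ≠ 0 ∧ (w.under (𝓞 K)).valuation K (b * y ^ 2 - 1) <
      (w.under (𝓞 K)).valuation K 4) : cj σ w ≠ w := by
  obtain ⟨y, hy0, hy⟩ := hy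
  intro hcj
  have h4 : (4 : K) ≠ 0 := by norm_num
  have hd : (w.under (𝓞 K)).valuation K ((b * y ^ 2 - 1) / 4) < 1 := by
    rw [map_div₀]
    rw [div_lt_one₀]
    · exact hy
    · rw [zero_lt_iff]
      exact (Valuation.ne_zero_iff _).2 h4
  have hw := val_under_lt hd
  obtain ⟨g, hg⟩ : ∃ g : L, g = (θ * algebraMap K L y - 1) / 2 := ⟨_, rfl⟩
  have hsg : σ g = -1 - g := by
    rw [hg, map_div₀, map_sub, map_mul, h.neg, σ.commutes, map_one, map_ofNat]
    field_simp
    ring
  have hprod : g * σ g = -algebraMap K L ((b * y ^ 2 - 1) / 4) := by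
    rw [hsg, hg, map_div₀, map_sub, map_mul, map_pow, ← h.sq, map_one, map_ofNat]
    field_simp
    ring
  have hval : w.valuation L (σ g) = w.valuation L g := by
    rw [← cj_valuation, hcj]
  have h1 : w.valuation L g * w.valuation L g < 1 := by
    have h2 : w.valuation L (g * σ g) < 1 := by
      rw [hprod, Valuation.map_neg]
      exact hw
    rwa [map_mul, hval] at h2
  have h2 : w.valuation L g < 1 := by
    by_contra h3
    push Not at h3
    have := mul_le_mul' h3 h3
    rw [mul_one] at this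
    exact absurd h1 (not_lt.2 this)
  have h3 : w.valuation L (-1 : L) < 1 := by
    have h5 : (-1 : L) = g + σ g := by rw [hsg]; ring
    rw [h5]
    refine lt_of_le_of_lt (Valuation.map_add _ _ _) (max_lt h2 ?_)
    rw [hval]
    exact h2
  rw [Valuation.map_neg, map_one] at h3
  exact lt_irrefl _ h3

theorem finite_over (S : Finset (HeightOneSpectrum (𝓞 K))) :
    {w : HeightOneSpectrum (𝓞 L) | w.under (𝓞 K) ∈ S}.Finite := by
  classical
  have h1 : {w : HeightOneSpectrum (𝓞 L) | w.under (𝓞 K) ∈ S} =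
      ⋃ v ∈ S, {w : HeightOneSpectrum (𝓞 L) | w.under (𝓞 K) = v} := by
    ext w
    simp
  rw [h1]
  refine Set.Finite.biUnion S.finite_toSet fun v _ => ?_
  refine Set.Finite.of_finite_image (f := fun w => w.asIdeal)
    ((IsDedekindDomain.primesOver_finite v.asIdeal (𝓞 L)).subset ?_) ?_
  · rintro _ ⟨w, rfl, rfl⟩
    exact ⟨w.isPrime, ⟨rfl⟩⟩
  · intro w _ w' _ hww
    exact HeightOneSpectrum.ext hww

variable (L) in
/-- The primes of `L` over `S`. -/
noncomputable def SL (S : Finset (HeightOneSpectrum (𝓞 K))) : Finset (HeightOneSpectrum (𝓞 L)) :=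
  (finite_over (L := L) S).toFinset

theorem mem_SL {S : Finset (HeightOneSpectrum (𝓞 K))} {w : HeightOneSpectrum (𝓞 L)} :
    w ∈ SL L S ↔ w.under (𝓞 K) ∈ S := by
  simp [SL]

omit [NumberField K] [NumberField L] in
theorem exists_over (v : HeightOneSpectrum (𝓞 K)) :
    ∃ w : HeightOneSpectrum (𝓞 L), w.under (𝓞 K) = v := by
  have := v.isPrime
  obtain ⟨P, hP, hPv⟩ := Ideal.exists_ideal_over_prime_of_isIntegral_of_isDomain (S := 𝓞 L)
    v.asIdeal (by
      rw [(RingHom.injective_iff_ker_eq_bot _).1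
        (FaithfulSMul.algebraMap_injective (𝓞 K) (𝓞 L))]
      exact bot_le)
  refine ⟨⟨P, hP, ?_⟩, HeightOneSpectrum.ext hPv⟩
  rintro rfl
  apply v.ne_bot
  rw [← hPv]
  exact Ideal.comap_bot_of_injective _ (FaithfulSMul.algebraMap_injective (𝓞 K) (𝓞 L))

open Classical in
/-- The number of primes of `L` over `S`. -/
theorem Quad.card_SL {σ : L ≃ₐ[K] L} {θ : L} {b : K} (h : Quad σ θ b)
    (S : Finset (HeightOneSpectrum (𝓞 K))) :
    2 * S.card ≤ (SL L S).card + (S.filter fun v =>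
      ¬ ∃ y : K, y ≠ 0 ∧ v.valuation K (b * y ^ 2 - 1) < v.valuation K 4).card := by
  have h1 : (SL L S).card = ∑ v ∈ S, ((SL L S).filter fun w => w.under (𝓞 K) = v).card :=
    Finset.card_eq_sum_card_fiberwise fun w hw => mem_SL.1 hw
  rw [h1, Finset.card_filter, ← Finset.sum_add_distrib, mul_comm, ← smul_eq_mul, ← Finset.sum_const]
  refine Finset.sum_le_sum fun v hv => ?_
  obtain ⟨w, hw⟩ := exists_over (L := L) v
  have hwm : w ∈ (SL L S).filter fun w => w.under (𝓞 K) = v := by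
    rw [Finset.mem_filter, mem_SL, hw]
    exact ⟨hv, rfl⟩
  by_cases hs : ∃ y : K, y ≠ 0 ∧ v.valuation K (b * y ^ 2 - 1) < v.valuation K 4
  · rw [if_neg (not_not.2 hs)]
    have hne : cj σ w ≠ w := h.split w (by rw [hw]; exact hs)
    have hcm : cj σ w ∈ (SL L S).filter fun w => w.under (𝓞 K) = v := by
      rw [Finset.mem_filter, mem_SL, cj_under, hw]
      exact ⟨hv, rfl⟩
    exact Finset.one_lt_card.2 ⟨_, hcm, _, hwm, hne⟩
  · rw [if_pos hs]
    have := Finset.card_pos.2 ⟨w, hwm⟩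
    omega

end Hm
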