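import Mathlib

/-! Discrete valuations: the predicates of valuation at least `k` and exactly `k`, and a finite residue
field. -/

set_option autoImplicit false

namespace Hm

open WithZero

variable {F : Type*} [Field F]

/-- valuation at least `k` -/
def G (v : Valuation F ℤᵐ⁰) (k : ℤ) (x : F) : Prop := v x ≤ exp (-k)

/-- valuation exactly `k` -/
def E (v : Valuation F ℤᵐ⁰) (k : ℤ) (x : F) : Prop := v x = exp (-k)

variable {v : Valuation F ℤᵐ⁰} {k l : ℤ} {x y : F}

theorem G.add (hx : G v k x) (hy : G v k y) : G v k (x + y) := v.map_add_le hx hy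

theorem G.sub (hx : G v k x) (hy : G v k y) : G v k (x - y) := v.map_sub_le hx hy

theorem G.neg (hx : G v k x) : G v k (-x) := by
  rw [G, v.map_neg]
  exact hx

theorem G.mono (hx : G v k x) (h : l ≤ k) : G v l x :=
  le_trans hx (exp_le_exp.2 (by omega))

theorem G.mul (hx : G v k x) (hy : G v l y) : G v (k + l) (x * y) := by
  rw [G, map_mul, neg_add, exp_add]
  exact mul_le_mul' hx hy

theorem G.sq (hx : G v k x) : G v (2 * k) (x ^ 2) := by
  rw [pow_two, two_mul]
  exact hx.mul hx

theorem G_zero : G v k 0 := by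
  rw [G, map_zero]
  exact zero_le

theorem E.mul (hx : E v k x) (hy : E v l y) : E v (k + l) (x * y) := by
  rw [E, map_mul, neg_add, exp_add, hx, hy]

theorem E.sq (hx : E v k x) : E v (2 * k) (x ^ 2) := by
  rw [pow_two, two_mul]
  exact hx.mul hx

theorem E.inv (hx : E v k x) : E v (-k) x⁻¹ := by
  rw [E, map_inv₀, hx, exp_neg, exp_neg, exp_neg]

theorem E.neg (hx : E v k x) : E v k (-x) := by
  rw [E, v.map_neg]
  exact hx

theorem E_neg : E v k (-x) ↔ E v k x := by
  rw [E, v.map_neg, E]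

theorem G_neg : G v k (-x) ↔ G v k x := by
  rw [G, v.map_neg, G]

theorem E.ne (hx : E v k x) : x ≠ 0 := by
  rintro rfl
  rw [E, map_zero] at hx
  exact exp_ne_zero hx.symm

theorem E.ge (hx : E v k x) : G v k x := le_of_eq hx

theorem E.ge_iff (hx : E v k x) : G v l x ↔ l ≤ k := by
  rw [G, hx, exp_le_exp]
  omega

theorem E.eq (hx : E v k x) (hy : E v l x) : k = l := by
  rw [E, hy, exp_inj] at hx
  omega

theorem exists_E (v : Valuation F ℤᵐ⁰) (hx : x ≠ 0) : ∃ k : ℤ, E v k x := by
  refine ⟨-log (v x), ?_⟩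
  rw [E, neg_neg, exp_log ((v.ne_zero_iff).2 hx)]

theorem E_one : E v 0 (1 : F) := by
  rw [E, map_one, neg_zero, exp_zero]

theorem E.add (hx : E v k x) (hy : G v (k + 1) y) : E v k (x + y) := by
  rw [E, v.map_add_eq_of_lt_left, hx]
  rw [hx]
  exact lt_of_le_of_lt hy (exp_lt_exp.2 (by omega))

theorem E.sub (hx : E v k x) (hy : G v (k + 1) y) : E v k (x - y) := by
  rw [sub_eq_add_neg]
  exact hx.add hy.neg

theorem E_of (h : G v k x) (h' : ¬G v (k + 1) x) : E v k x := by
  have h0 : x ≠ 0 := by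
    rintro rfl
    exact h' G_zero
  obtain ⟨l, hl⟩ := exists_E v h0
  rw [hl.ge_iff] at h h'
  have : l = k := by omega
  exact this ▸ hl


/-- A finite set of representatives of the residue field. -/
def FinRes (v : Valuation F ℤᵐ⁰) : Prop :=
  ∃ R : Set F, R.Finite ∧ ∀ x, G v 0 x → ∃ r ∈ R, G v 1 (x - r)

/-- A self map of the residue field is injective iff it is surjective. -/
theorem FinRes.inj_iff_surj (hR : FinRes v) (f : F → F) (h0 : ∀ x, G v 0 x → G v 0 (f x))
    (hf : ∀ x y, G v 0 x → G v 0 y → G v 1 (x - y) → G v 1 (f x - f y)) :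
    (∀ x y, G v 0 x → G v 0 y → G v 1 (f x - f y) → G v 1 (x - y)) ↔
      ∀ z, G v 0 z → ∃ x, G v 0 x ∧ G v 1 (f x - z) := by
  obtain ⟨R, hR, hR'⟩ := hR
  let s : Setoid {x : F // G v 0 x} :=
    { r := fun x y => G v 1 (x.1 - y.1)
      iseqv := ⟨fun x => by rw [sub_self]; exact G_zero,
        fun {x y} h => by rw [← neg_sub]; exact h.neg,
        fun {x y z} h h' => by rw [← sub_add_sub_cancel x.1 y.1 z.1]; exact h.add h'⟩ }
  have hfin : Finite (Quotient s) := by
    have : Finite R := hR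
    choose! g hg hg' using hR'
    refine Finite.of_injective (fun q : Quotient s => (⟨g q.out.1, hg _ q.out.2⟩ : R)) ?_
    intro q q' h
    have h1 : g q.out.1 = g q'.out.1 := congrArg Subtype.val h
    have h2 : G v 1 (q.out.1 - q'.out.1) := by
      have h3 := (hg' _ q.out.2).sub (hg' _ q'.out.2)
      rw [h1, sub_sub_sub_cancel_right] at h3
      exact h3
    rw [← q.out_eq, ← q'.out_eq]
    exact Quotient.sound h2
  let F' : Quotient s → Quotient s :=
    Quotient.map (fun x => ⟨f x.1, h0 _ x.2⟩) fun x y h => hf _ _ x.2 y.2 h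
  have hF : ∀ x, F' ⟦x⟧ = ⟦⟨f x.1, h0 _ x.2⟩⟧ := fun x => rfl
  have h1 : Function.Injective F' ↔
      ∀ x y, G v 0 x → G v 0 y → G v 1 (f x - f y) → G v 1 (x - y) := by
    constructor
    · intro hi x y hx hy h
      have h2 : F' ⟦⟨x, hx⟩⟧ = F' ⟦⟨y, hy⟩⟧ := Quotient.sound h
      exact Quotient.exact (hi h2)
    · intro hi q q'
      induction q, q' using Quotient.inductionOn₂ with
      | _ x y =>
        intro h
        rw [hF, hF] at h
        exact Quotient.sound (hi _ _ x.2 y.2 (Quotient.exact h))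
  have h2 : Function.Surjective F' ↔ ∀ z, G v 0 z → ∃ x, G v 0 x ∧ G v 1 (f x - z) := by
    constructor
    · intro hs z hz
      obtain ⟨q, hq⟩ := hs ⟦⟨z, hz⟩⟧
      induction q using Quotient.inductionOn with
      | _ x =>
        rw [hF] at hq
        exact ⟨x.1, x.2, Quotient.exact hq⟩
    · intro hs q
      induction q using Quotient.inductionOn with
      | _ z =>
        obtain ⟨x, hx, h⟩ := hs z.1 z.2
        exact ⟨⟦⟨x, hx⟩⟧, Quotient.sound h⟩
  rw [← h1, ← h2]
  exact Finite.injective_iff_surjective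

end Hm
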