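import Mathlib

/-! Valuations in a quadratic extension `L = K(√b)` of number fields: no ramification outside the
primes dividing `2 b`, and Hilbert 90 for `S`-units. -/

open IsDedekindDomain NumberField HeightOneSpectrum WithZero

namespace Hm

section comap

variable {R S : Type*} [CommRing R] [IsDedekindDomain R] [CommRing S] [IsDedekindDomain S]

private theorem eq_of_le {a b : ℤᵐ⁰} (ha : a ≠ 0) (hb : b ≠ 0) (ha1 : a ≤ 1) (hb1 : b ≤ 1)
    (h : ∀ n : ℕ, a ≤ exp (-(n : ℤ)) ↔ b ≤ exp (-(n : ℤ))) : a = b := by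
  have key : ∀ {a b : ℤᵐ⁰}, a ≠ 0 → b ≠ 0 → a ≤ 1 →
      (∀ n : ℕ, a ≤ exp (-(n : ℤ)) → b ≤ exp (-(n : ℤ))) → b ≤ a := by
    intro a b ha hb ha1 h
    have h1 : log a ≤ 0 := by
      rw [← log_one, log_le_log ha one_ne_zero]
      exact ha1
    have h2 := h (-(log a)).toNat (by
      rw [Int.toNat_of_nonneg (by omega), neg_neg, exp_log ha])
    rwa [Int.toNat_of_nonneg (by omega), neg_neg, exp_log ha] at h2
  exact le_antisymm (key hb ha hb1 fun n => (h n).2) (key ha hb ha1 fun n => (h n).1)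

theorem intValuation_comap (e : R ≃+* S) (w : HeightOneSpectrum S) (x : R) :
    (HeightOneSpectrum.comap (e : R →+* S) e.surjective w).intValuation x =
      w.intValuation (e x) := by
  by_cases hx : x = 0
  · subst hx
    simp
  have hx' : e x ≠ 0 := by simpa using hx
  apply eq_of_le (intValuation_ne_zero _ _ hx) (intValuation_ne_zero _ _ hx')
    (intValuation_le_one _ _) (intValuation_le_one _ _)
  intro n
  rw [intValuation_le_pow_iff_mem, intValuation_le_pow_iff_mem]
  have h1 : (HeightOneSpectrum.comap (e : R →+* S) e.surjective w).asIdeal =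
      Ideal.map (e.symm : S →+* R) w.asIdeal := (Ideal.map_symm e).symm
  rw [h1, ← Ideal.map_pow]
  have h2 : Ideal.map (e.symm : S →+* R) (w.asIdeal ^ n) =
      Ideal.comap (e : R →+* S) (w.asIdeal ^ n) := Ideal.map_symm e
  rw [h2, Ideal.mem_comap]
  rfl

end comap

variable {K L : Type*} [Field K] [Field L] [NumberField K] [NumberField L] [Algebra K L]

/-- The conjugate of a prime. -/
noncomputable def cj (σ : L ≃ₐ[K] L) (w : HeightOneSpectrum (𝓞 L)) : HeightOneSpectrum (𝓞 L) :=
  HeightOneSpectrum.comap ((RingOfIntegers.mapRingEquiv σ.toRingEquiv : 𝓞 L ≃+* 𝓞 L) : 𝓞 L →+* 𝓞 L)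
    (RingOfIntegers.mapRingEquiv σ.toRingEquiv).surjective w

omit [NumberField K] in
theorem cj_valuation (σ : L ≃ₐ[K] L) (w : HeightOneSpectrum (𝓞 L)) (y : L) :
    (cj σ w).valuation L y = w.valuation L (σ y) := by
  obtain ⟨a, c, hc, rfl⟩ := IsFractionRing.div_surjective (A := 𝓞 L) y
  have h : ∀ a : 𝓞 L, (cj σ w).valuation L (algebraMap (𝓞 L) L a) =
      w.valuation L (σ (algebraMap (𝓞 L) L a)) := by
    intro a
    have h1 : σ (algebraMap (𝓞 L) L a) =
        algebraMap (𝓞 L) L (RingOfIntegers.mapRingEquiv σ.toRingEquiv a) := rfl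
    rw [h1, valuation_of_algebraMap, valuation_of_algebraMap, cj, intValuation_comap]
  rw [map_div₀, map_div₀, map_div₀, h, h]

theorem cj_under (σ : L ≃ₐ[K] L) (w : HeightOneSpectrum (𝓞 L)) :
    (cj σ w).under (𝓞 K) = w.under (𝓞 K) := by
  apply HeightOneSpectrum.ext
  ext x
  change algebraMap (𝓞 K) (𝓞 L) x ∈ (cj σ w).asIdeal ↔ algebraMap (𝓞 K) (𝓞 L) x ∈ w.asIdeal
  have key : ∀ w : HeightOneSpectrum (𝓞 L), algebraMap (𝓞 K) (𝓞 L) x ∈ w.asIdeal ↔
      w.valuation L (algebraMap K L (algebraMap (𝓞 K) K x)) < 1 := fun w =>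
    (w.valuation_lt_one_iff_mem (K := L) (algebraMap (𝓞 K) (𝓞 L) x)).symm
  rw [key, key, cj_valuation, σ.commutes]

/-- `L = K(√b)`, `θ = √b`, `σ` the conjugation. -/
structure Quad (σ : L ≃ₐ[K] L) (θ : L) (b : K) : Prop where
  sq : θ ^ 2 = algebraMap K L b
  neg : σ θ = -θ
  dec : ∀ y : L, ∃ p q : K, y = algebraMap K L p + algebraMap K L q * θ
  nsq : ¬ IsSquare b

variable {σ : L ≃ₐ[K] L} {θ : L} {b : K}

omit [NumberField K] [NumberField L] in
theorem Quad.b0 (h : Quad σ θ b) : b ≠ 0 := by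
  rintro rfl
  exact h.nsq ⟨0, by simp⟩

omit [NumberField K] [NumberField L] in
theorem Quad.t0 (h : Quad σ θ b) : θ ≠ 0 := by
  rintro rfl
  have := h.sq
  rw [zero_pow two_ne_zero] at this
  exact h.b0 ((map_eq_zero (algebraMap K L)).1 this.symm)

omit [NumberField K] [NumberField L] in
theorem Quad.inv (h : Quad σ θ b) (y : L) : σ (σ y) = y := by
  obtain ⟨p, q, rfl⟩ := h.dec y
  simp [h.neg]

omit [NumberField K] in
theorem Quad.fixed (h : Quad σ θ b) {y : L} (hy : σ y = y) : ∃ p : K, y = algebraMap K L p := by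
  obtain ⟨p, q, rfl⟩ := h.dec y
  rw [map_add, map_mul, h.neg, σ.commutes, σ.commutes] at hy
  have h1 : (2 : L) * (algebraMap K L q * θ) = 0 := by linear_combination -hy
  rcases mul_eq_zero.1 h1 with h2 | h2
  · exact absurd h2 two_ne_zero
  · rw [h2, add_zero]
    exact ⟨p, rfl⟩

omit [NumberField K] in
/-- Hilbert 90. -/
theorem Quad.h90 (h : Quad σ θ b) {x : L} (hx : x * σ x = 1) : ∃ y, y ≠ 0 ∧ x = y / σ y := by
  by_cases h1 : x = -1
  · refine ⟨θ, h.t0, ?_⟩
    rw [h.neg, h1, div_neg, div_self h.t0]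
  · have hx0 : x ≠ 0 := by
      rintro rfl
      simp at hx
    have h2 : 1 + x ≠ 0 := by
      intro h2
      exact h1 (by linear_combination h2)
    refine ⟨1 + x, h2, ?_⟩
    have h3 : σ (1 + x) ≠ 0 := by
      rw [Ne, map_eq_zero_iff σ σ.injective]
      exact h2
    rw [eq_div_iff h3, map_add, map_one]
    linear_combination hx

omit [NumberField K] in
/-- The norm. -/
theorem Quad.norm (h : Quad σ θ b) (y : L) : ∃ z : K, y * σ y = algebraMap K L z := by
  apply h.fixed
  rw [map_mul, h.inv, mul_comm]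

theorem pow_eq_one {a : ℤᵐ⁰} (h : a ^ 2 = 1) : a = 1 := by
  have ha : a ≠ 0 := by
    rintro rfl
    simp at h
  rw [← exp_log ha] at h ⊢
  rw [← exp_nsmul, ← exp_zero, exp_inj] at h
  rw [← exp_zero, exp_inj]
  simpa using h

theorem exp_mul_nat (a : ℤ) (n : ℕ) : exp a ^ n = exp ((n : ℤ) * a) := by
  rw [← exp_nsmul, nsmul_eq_mul]

/-- No ramification outside `2 b`. -/
theorem Quad.unram (h : Quad σ θ b) (w : HeightOneSpectrum (𝓞 L))
    (h2 : (w.under (𝓞 K)).valuation K 2 = 1) (hb : (w.under (𝓞 K)).valuation K b = 1) (x : K) :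
    w.valuation L (algebraMap K L x) = (w.under (𝓞 K)).valuation K x := by
  have hlo : w.asIdeal.LiesOver (w.under (𝓞 K)).asIdeal := ⟨rfl⟩
  set v := w.under (𝓞 K) with hv
  obtain ⟨e, he⟩ : ∃ e, e = v.asIdeal.ramificationIdx' w.asIdeal := ⟨_, rfl⟩
  have hval : ∀ x : K, w.valuation L (algebraMap K L x) = v.valuation K x ^ e := by
    intro x
    rw [he]
    exact (valuation_liesOver L v w x).symm
  have he0 : e ≠ 0 := by
    rw [he]
    exact Ideal.IsDedekindDomain.ramificationIdx'_ne_zero_of_liesOver w.asIdeal v.ne_bot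
  suffices e = 1 by rw [hval, this, pow_one]
  -- values of elements of `K`
  have hK : ∀ x : K, x ≠ 0 → ∃ k : ℤ, w.valuation L (algebraMap K L x) = exp ((e : ℤ) * k) := by
    intro x hx
    have h1 : v.valuation K x ≠ 0 := (Valuation.ne_zero_iff _).2 hx
    refine ⟨log (v.valuation K x), ?_⟩
    rw [hval, ← exp_mul_nat, exp_log h1]
  have hK' : ∀ x : K, w.valuation L (algebraMap K L x) < 1 →
      w.valuation L (algebraMap K L x) ≤ exp (-(e : ℤ)) := by
    intro x hx
    by_cases hx0 : x = 0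
    · subst hx0
      simp
    obtain ⟨k, hk⟩ := hK x hx0
    rw [hk] at hx ⊢
    rw [← exp_zero, exp_lt_exp] at hx
    rw [exp_le_exp]
    have hepos : (0 : ℤ) < e := by exact_mod_cast Nat.pos_of_ne_zero he0
    have hk0 : k < 0 := by
      by_contra hk0
      push Not at hk0
      have := mul_nonneg hepos.le hk0
      omega
    have : k ≤ -1 := by omega
    calc (e : ℤ) * k ≤ e * (-1) := mul_le_mul_of_nonneg_left this hepos.le
      _ = -e := by ring
  have hw2 : w.valuation L 2 = 1 := by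
    have h3 := hval 2
    rwa [h2, one_pow, map_ofNat] at h3
  have hwθ : w.valuation L θ = 1 := by
    have h3 := hval b
    rw [hb, one_pow, ← h.sq, map_pow] at h3
    exact pow_eq_one h3
  obtain ⟨y, hy⟩ := w.intValuation_exists_uniformizer
  have hy1 : w.valuation L (y : L) = exp (-1 : ℤ) := by
    rw [← hy]
    exact valuation_of_algebraMap w y
  have hc1 : w.valuation L (σ (y : L)) ≤ 1 := by
    rw [← cj_valuation]
    exact valuation_le_one _ _
  rcases hc1.lt_or_eq with hc | hc
  · -- `w(σ y) < 1`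
    obtain ⟨p, q, hpq⟩ := h.dec (y : L)
    have hs : σ (y : L) = algebraMap K L p - algebraMap K L q * θ := by
      rw [hpq, map_add, map_mul, h.neg, σ.commutes, σ.commutes]
      ring
    have hlt : (exp (-1 : ℤ) : ℤᵐ⁰) < 1 := by
      rw [← exp_zero, exp_lt_exp]
      norm_num
    have hp : w.valuation L (algebraMap K L p) < 1 := by
      have h3 : (y : L) + σ (y : L) = 2 * algebraMap K L p := by
        rw [hs]
        nth_rw 1 [hpq]
        ring
      have h4 : w.valuation L ((y : L) + σ (y : L)) < 1 :=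
        lt_of_le_of_lt (Valuation.map_add _ _ _) (max_lt (by rw [hy1]; exact hlt) hc)
      rwa [h3, map_mul, hw2, one_mul] at h4
    have hq : w.valuation L (algebraMap K L q) < 1 := by
      have h3 : (y : L) - σ (y : L) = 2 * (algebraMap K L q * θ) := by
        rw [hs]
        nth_rw 1 [hpq]
        ring
      have h4 : w.valuation L ((y : L) - σ (y : L)) < 1 :=
        lt_of_le_of_lt (Valuation.map_sub _ _ _) (max_lt (by rw [hy1]; exact hlt) hc)
      rwa [h3, map_mul, map_mul, hw2, hwθ, one_mul, mul_one] at h4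
    have h5 : w.valuation L (y : L) ≤ exp (-(e : ℤ)) := by
      rw [hpq]
      refine (Valuation.map_add _ _ _).trans (max_le (hK' p hp) ?_)
      rw [map_mul, hwθ, mul_one]
      exact hK' q hq
    rw [hy1, exp_le_exp] at h5
    omega
  · obtain ⟨z, hz⟩ := h.norm (y : L)
    have h3 : w.valuation L (algebraMap K L z) = exp (-1 : ℤ) := by
      rw [← hz, map_mul, hy1, hc, mul_one]
    have hz0 : z ≠ 0 := by
      rintro rfl
      rw [map_zero, map_zero] at h3
      exact (exp_ne_zero) h3.symm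
    obtain ⟨k, hk⟩ := hK z hz0
    rw [h3, exp_inj] at hk
    have h4 : (e : ℤ) ∣ 1 := ⟨-k, by rw [mul_neg, ← hk]; norm_num⟩
    have h5 : e ∣ 1 := by exact_mod_cast h4
    exact Nat.dvd_one.1 h5

end Hm
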