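import Pool.Agent.Lib.MP_f80667_ag.Hm.F1A

/-! The infinite places of `L = K(√b)`. -/

open IsDedekindDomain NumberField HeightOneSpectrum WithZero InfinitePlace

namespace Hm

variable {K L : Type*} [Field K] [Field L] [NumberField K] [NumberField L] [Algebra K L]

omit [NumberField K] in
theorem Quad.uniq {σ : L ≃ₐ[K] L} {θ : L} {b : K} (h : Quad σ θ b) {p q p' q' : K}
    (he : algebraMap K L p + algebraMap K L q * θ = algebraMap K L p' + algebraMap K L q' * θ) :
    p = p' ∧ q = q' := by
  have h1 := congrArg σ he
  simp only [map_add, map_mul, h.neg, AlgEquiv.commutes] at h1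
  have h2 : (2 : L) ≠ 0 := two_ne_zero
  have hp : algebraMap K L p = algebraMap K L p' := by
    apply mul_left_cancel₀ h2
    linear_combination he + h1
  have hq : algebraMap K L q = algebraMap K L q' := by
    apply mul_right_cancel₀ h.t0
    apply mul_left_cancel₀ h2
    linear_combination he - h1
  exact ⟨(algebraMap K L).injective hp, (algebraMap K L).injective hq⟩

omit [NumberField K] in
theorem Quad.finrank {σ : L ≃ₐ[K] L} {θ : L} {b : K} (h : Quad σ θ b) :
    Module.finrank K L = 2 := by
  let F : (K × K) →ₗ[K] L :=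
    { toFun := fun x => algebraMap K L x.1 + algebraMap K L x.2 * θ
      map_add' := fun x y => by
        simp only [Prod.fst_add, Prod.snd_add, map_add]
        ring
      map_smul' := fun a x => by
        change algebraMap K L (a * x.1) + algebraMap K L (a * x.2) * θ =
          a • (algebraMap K L x.1 + algebraMap K L x.2 * θ)
        rw [map_mul, map_mul, Algebra.smul_def]
        ring }
  have hinj : Function.Injective F := by
    rintro ⟨p, q⟩ ⟨p', q'⟩ he
    obtain ⟨h1, h2⟩ := h.uniq (p := p) (q := q) (p' := p') (q' := q') he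
    rw [h1, h2]
  have hsur : Function.Surjective F := by
    intro y
    obtain ⟨p, q, hy⟩ := h.dec y
    exact ⟨(p, q), hy.symm⟩
  rw [← (LinearEquiv.ofBijective F ⟨hinj, hsur⟩).finrank_eq, Module.finrank_prod,
    Module.finrank_self]

omit [NumberField K] in
/-- Extension of a real embedding. -/
theorem Quad.exists_ext {σ : L ≃ₐ[K] L} {θ : L} {b : K} (h : Quad σ θ b) (φ : K →+* ℝ) (c : ℝ)
    (hc : c ^ 2 = φ b) : ∃ ψ : L →+* ℝ, (∀ x, ψ (algebraMap K L x) = φ x) ∧ ψ θ = c := by
  choose P Q hPQ using h.dec
  have key : ∀ y p q, y = algebraMap K L p + algebraMap K L q * θ → P y = p ∧ Q y = q := by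
    intro y p q hy
    exact h.uniq ((hPQ y).symm.trans hy)
  have hK : ∀ x : K, P (algebraMap K L x) = x ∧ Q (algebraMap K L x) = 0 := fun x =>
    key _ _ _ (by simp)
  have hadd : ∀ y z, P (y + z) = P y + P z ∧ Q (y + z) = Q y + Q z := fun y z =>
    key _ _ _ (by
      nth_rw 1 [hPQ y, hPQ z]
      simp only [map_add]
      ring)
  have hmul : ∀ y z, P (y * z) = P y * P z + b * (Q y * Q z) ∧
      Q (y * z) = P y * Q z + Q y * P z := fun y z =>
    key _ _ _ (by
      nth_rw 1 [hPQ y, hPQ z]
      simp only [map_add, map_mul, ← h.sq]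
      ring)
  refine ⟨{ toFun := fun y => φ (P y) + φ (Q y) * c
            map_one' := by
              have := hK 1
              rw [map_one] at this
              rw [this.1, this.2]
              simp
            map_zero' := by
              have := hK 0
              rw [map_zero] at this
              rw [this.1, this.2]
              simp
            map_add' := fun y z => by
              rw [(hadd y z).1, (hadd y z).2, map_add, map_add]
              ring
            map_mul' := fun y z => by
              rw [(hmul y z).1, (hmul y z).2, map_add, map_add, map_mul, map_mul, map_mul, map_mul,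
                map_mul, ← hc]
              ring }, fun x => ?_, ?_⟩
  · change φ (P _) + φ (Q _) * c = φ x
    rw [(hK x).1, (hK x).2]
    simp
  · change φ (P _) + φ (Q _) * c = c
    have := key θ 0 1 (by simp)
    rw [this.1, this.2]
    simp

/-- Real embeddings. -/
noncomputable def realEquiv (K : Type*) [Field K] :
    (K →+* ℝ) ≃ {φ : K →+* ℂ // ComplexEmbedding.IsReal φ} where
  toFun φ := ⟨Complex.ofRealHom.comp φ, by
    ext x
    simp⟩
  invFun φ := φ.2.embedding
  left_inv φ := by
    ext x
    rfl
  right_inv φ := by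
    apply Subtype.ext
    ext x
    exact φ.2.coe_embedding_apply x

theorem card_real (K : Type*) [Field K] [NumberField K] : Nat.card (K →+* ℝ) = nrRealPlaces K := by
  classical
  rw [Nat.card_congr ((realEquiv K).trans InfinitePlace.mkReal)]
  convert Nat.card_eq_fintype_card

instance finite_real (K : Type*) [Field K] [NumberField K] : Finite (K →+* ℝ) :=
  Finite.of_equiv _ (realEquiv K).symm

/-- The number of infinite places. -/
theorem Quad.card_inf {σ : L ≃ₐ[K] L} {θ : L} {b : K} (h : Quad σ θ b) :
    2 * Fintype.card (InfinitePlace K) ≤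
      Fintype.card (InfinitePlace L) + Nat.card {φ : K →+* ℝ // φ b < 0} := by
  have h1 : 2 * Nat.card {φ : K →+* ℝ // 0 < φ b} ≤ nrRealPlaces L := by
    rw [← card_real L]
    have h2 : ∀ x : {φ : K →+* ℝ // 0 < φ b} × Bool, ∃ ψ : L →+* ℝ,
        (∀ y, ψ (algebraMap K L y) = x.1.1 y) ∧
          ψ θ = if x.2 then Real.sqrt (x.1.1 b) else -Real.sqrt (x.1.1 b) := by
      rintro ⟨⟨φ, hφ⟩, s⟩
      apply h.exists_ext
      cases s
      · simp [Real.sq_sqrt hφ.le]
      · simp [Real.sq_sqrt hφ.le]
    choose F hF hF' using h2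
    have hinj : Function.Injective F := by
      rintro ⟨⟨φ, hφ⟩, s⟩ ⟨⟨φ', hφ'⟩, s'⟩ he
      have h3 : φ = φ' := by
        ext y
        have h4 := hF ⟨⟨φ, hφ⟩, s⟩ y
        have h5 := hF ⟨⟨φ', hφ'⟩, s'⟩ y
        rw [← he] at h5
        exact h4.symm.trans h5
      subst h3
      have h4 := hF' ⟨⟨φ, hφ⟩, s⟩
      have h5 := hF' ⟨⟨φ, hφ'⟩, s'⟩
      rw [← he, h4] at h5
      have h6 := Real.sqrt_pos.2 hφ
      cases s <;> cases s' <;> simp at h5 ⊢ <;> linarith
    have h3 := Nat.card_le_card_of_injective F hinj
    rw [Nat.card_prod, Nat.card_eq_fintype_card (α := Bool), Fintype.card_bool] at h3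
    omega
  have h2 : nrRealPlaces K ≤ Nat.card {φ : K →+* ℝ // 0 < φ b} +
      Nat.card {φ : K →+* ℝ // φ b < 0} := by
    rw [← card_real K]
    have h3 : ∀ φ : K →+* ℝ, φ b ≠ 0 := fun φ => (map_ne_zero φ).2 h.b0
    have h4 : Function.Injective (fun φ : K →+* ℝ =>
        (if hφ : 0 < φ b then Sum.inl ⟨φ, hφ⟩ else
          Sum.inr ⟨φ, lt_of_le_of_ne (not_lt.1 hφ) (h3 φ)⟩ :
          {φ : K →+* ℝ // 0 < φ b} ⊕ {φ : K →+* ℝ // φ b < 0})) := by
      intro φ φ' he
      dsimp only at he
      split_ifs at he
      · exact congrArg Subtype.val (Sum.inl_injective he)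
      · exact congrArg Subtype.val (Sum.inr_injective he)
    have h5 := Nat.card_le_card_of_injective _ h4
    rwa [Nat.card_sum] at h5
  have hK := card_add_two_mul_card_eq_rank K
  have hL := card_add_two_mul_card_eq_rank L
  have hKc := card_eq_nrRealPlaces_add_nrComplexPlaces K
  have hLc := card_eq_nrRealPlaces_add_nrComplexPlaces L
  have hd : Module.finrank ℚ L = 2 * Module.finrank ℚ K := by
    rw [← Module.finrank_mul_finrank ℚ K L, mul_comm, h.finrank]
  omega

end Hm
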