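import Pool.Agent.Lib.MP_f80667_ag.Hm.F1B
import Pool.Agent.Lib.MP_f80667_ag.Hm.F1I
import Pool.Agent.Lib.MP_f80667_ag.Hm.Defs
import Pool.Agent.Lib.MP_f80667_ag.Hm.SUnit

/-! The index of the norms of the `S`-units of `L = K(√b)`. -/

open IsDedekindDomain NumberField HeightOneSpectrum WithZero

namespace Hm

section cl

variable {K : Type*} [Field K] [NumberField K]

theorem finite_ne_one (z : Kˣ) :
    {v : HeightOneSpectrum (𝓞 K) | v.valuation K (z : K) ≠ 1}.Finite := by
  refine ((HeightOneSpectrum.Support.finite (𝓞 K) (z : K)).union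
    (HeightOneSpectrum.Support.finite (𝓞 K) (z⁻¹ : K))).subset ?_
  intro v hv
  have h0 : v.valuation K (z : K) ≠ 0 := (Valuation.ne_zero_iff _).2 z.ne_zero
  rcases lt_or_gt_of_ne hv with h | h
  · right
    change 1 < v.valuation K (z⁻¹ : K)
    rw [map_inv₀]
    exact (one_lt_inv₀ (zero_lt_iff.2 h0)).2 h
  · left
    exact h

/-- An element with prescribed orders outside `S`. -/
theorem exists_ord {S : Finset (HeightOneSpectrum (𝓞 K))} (hS : Gen S)
    (n : HeightOneSpectrum (𝓞 K) → ℤ) (hn : {v | n v ≠ 0}.Finite) :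
    ∃ a : Kˣ, ∀ v ∉ S, ordv v (Additive.ofMul a) = n v := by
  classical
  choose x hx hx' using hS.2
  refine ⟨∏ v ∈ hn.toFinset, x v ^ n v, fun v hv => ?_⟩
  rw [ofMul_prod, map_sum]
  have h1 : ∀ u, ordv v (Additive.ofMul (x u ^ n u)) = if u = v then n v else 0 := by
    intro u
    rw [ofMul_zpow, map_zsmul]
    split_ifs with huv
    · subst huv
      have h2 := hx u
      rw [ordv_spec, exp_inj] at h2
      have h3 : ordv u (Additive.ofMul (x u)) = 1 := by omega
      rw [h3, smul_eq_mul, mul_one]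
    · rw [ordv_eq_zero.2 (hx' u v hv (Ne.symm huv)), smul_zero]
  rw [Finset.sum_congr rfl fun u _ => h1 u, Finset.sum_ite_eq']
  split_ifs with h2
  · rfl
  · rw [Set.Finite.mem_toFinset, Set.mem_setOf_eq, not_not] at h2
    exact h2.symm

end cl

variable {K L : Type*} [Field K] [Field L] [NumberField K] [NumberField L] [Algebra K L]
  {σ : L ≃ₐ[K] L} {θ : L} {b : Kˣ}

/-- The embedding of the units. -/
noncomputable def up (K L : Type*) [Field K] [Field L] [Algebra K L] : Kˣ →* Lˣ :=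
  Units.map (algebraMap K L : K →* L)

omit [NumberField K] [NumberField L] in
@[simp] theorem up_coe (x : Kˣ) : ((up K L x : Lˣ) : L) = algebraMap K L x := rfl

theorem val_up (w : HeightOneSpectrum (𝓞 L)) (x : Kˣ) :
    ∃ e : ℕ, e ≠ 0 ∧ w.valuation L (algebraMap K L x) =
      (w.under (𝓞 K)).valuation K (x : K) ^ e := by
  have hlo : w.asIdeal.LiesOver (w.under (𝓞 K)).asIdeal := ⟨rfl⟩
  exact ⟨_, Ideal.IsDedekindDomain.ramificationIdx'_ne_zero_of_liesOver w.asIdeal
      (w.under (𝓞 K)).ne_bot, (valuation_liesOver L (w.under (𝓞 K)) w (x : K)).symm⟩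

theorem pow_eq_one' {a : ℤᵐ⁰} {e : ℕ} (he : e ≠ 0) (h : a ^ e = 1) : a = 1 := by
  have ha : a ≠ 0 := by
    rintro rfl
    rw [zero_pow he] at h
    exact zero_ne_one h
  rw [← exp_log ha] at h ⊢
  rw [exp_mul_nat, ← exp_zero, exp_inj, mul_eq_zero] at h
  rw [← exp_zero, exp_inj]
  exact h.resolve_left (by exact_mod_cast he)

theorem up_mem {S : Finset (HeightOneSpectrum (𝓞 K))} {x : Kˣ} :
    up K L x ∈ US L (SL L S) ↔ x ∈ US K S := by
  constructor
  · intro h v hv
    obtain ⟨w, rfl⟩ := exists_over (L := L) v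
    have h1 : w.valuation L (algebraMap K L x) = 1 := h w (by
      rw [Finset.mem_coe, mem_SL]
      exact hv)
    obtain ⟨e, he, h2⟩ := val_up w x
    rw [h2] at h1
    exact pow_eq_one' he h1
  · intro h w hw
    obtain ⟨e, he, h2⟩ := val_up w x
    rw [up_coe, h2, h (w.under (𝓞 K)) (by
      rw [Finset.mem_coe, mem_SL] at hw
      exact hw), one_pow]

/-- The conjugation on the units. -/
noncomputable def sg (σ : L ≃ₐ[K] L) : Lˣ →* Lˣ := Units.map (σ : L →* L)

omit [NumberField K] [NumberField L] in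
@[simp] theorem sg_coe (x : Lˣ) : ((sg σ x : Lˣ) : L) = σ x := rfl

theorem sg_mem {S : Finset (HeightOneSpectrum (𝓞 K))} {x : Lˣ} (hx : x ∈ US L (SL L S)) :
    sg σ x ∈ US L (SL L S) := by
  intro w hw
  rw [sg_coe, ← cj_valuation]
  apply hx
  rw [Finset.mem_coe, mem_SL] at hw ⊢
  rwa [cj_under]

/-- The conjugation on the `S`-units. -/
noncomputable def sM (σ : L ≃ₐ[K] L) (S : Finset (HeightOneSpectrum (𝓞 K))) :
    US L (SL L S) →* US L (SL L S) :=
  ((sg σ).comp (US L (SL L S)).subtype).codRestrict _ fun x => sg_mem x.2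

@[simp] theorem sM_coe (S : Finset (HeightOneSpectrum (𝓞 K))) (x : US L (SL L S)) :
    ((sM σ S x : US L (SL L S)) : Lˣ) = sg σ x := rfl

/-- Hilbert 90 for `S`-units. -/
theorem Quad.h90S (h : Quad σ θ (b : K)) {S : Finset (HeightOneSpectrum (𝓞 K))} (hS : Gen S)
    (hb : b ∈ US K S) (x : US L (SL L S)) (hx : x * sM σ S x = 1) : ∃ y, x = y / sM σ S y := by
  have h1 : ((x : Lˣ) : L) * σ ((x : Lˣ) : L) = 1 := by
    have h2 := congrArg (fun z : US L (SL L S) => ((z : Lˣ) : L)) hx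
    simpa using h2
  obtain ⟨y, hy0, hy⟩ := h.h90 h1
  obtain ⟨z, hz⟩ := h.norm y
  have hsy0 : σ y ≠ 0 := by
    rw [Ne, map_eq_zero_iff σ σ.injective]
    exact hy0
  have hz0 : z ≠ 0 := by
    rintro rfl
    rw [map_zero, mul_eq_zero] at hz
    exact hz.elim hy0 hsy0
  -- values outside `S`
  have hval : ∀ w : HeightOneSpectrum (𝓞 L), w.under (𝓞 K) ∉ S →
      w.valuation L y ^ 2 = (w.under (𝓞 K)).valuation K z := by
    intro w hw
    have h3 : w.valuation L (x : Lˣ) = 1 := x.2 w (by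
      rw [Finset.mem_coe, mem_SL]
      exact hw)
    rw [hy, map_div₀, div_eq_one_iff_eq ((Valuation.ne_zero_iff _).2 hsy0)] at h3
    have h4 : (w.under (𝓞 K)).valuation K 2 = 1 := by
      by_contra h5
      exact hw (hS.1 _ h5)
    rw [← h.unram w h4 (hb _ hw), ← hz, map_mul, ← h3, pow_two]
  obtain ⟨zu, hzu⟩ : ∃ zu : Kˣ, (zu : K) = z := ⟨Units.mk0 z hz0, rfl⟩
  obtain ⟨a, ha⟩ := exists_ord hS (fun v => ordv v (Additive.ofMul zu) / 2)
    ((finite_ne_one zu).subset (by
      intro v hv h3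
      rw [← ordv_eq_zero] at h3
      apply hv
      rw [h3]
      rfl))
  obtain ⟨yu, hyu⟩ : ∃ yu : Lˣ, (yu : L) = y := ⟨Units.mk0 y hy0, rfl⟩
  have hmem : yu / up K L a ∈ US L (SL L S) := by
    intro w hw
    rw [Finset.mem_coe, mem_SL] at hw
    have h4 : (w.under (𝓞 K)).valuation K 2 = 1 := by
      by_contra h5
      exact hw (hS.1 _ h5)
    have h5 := hval w hw
    rw [← hzu, ordv_spec, ← hyu, ordv_spec, exp_mul_nat, exp_inj] at h5
    have h6 := ha _ hw
    rw [Units.val_div_eq_div_val, map_div₀, up_coe, h.unram w h4 (hb _ hw), ordv_spec, ordv_spec,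
      ← exp_sub, ← exp_zero, exp_inj, h6]
    push_cast at h5
    omega
  refine ⟨⟨yu / up K L a, hmem⟩, ?_⟩
  apply Subtype.ext
  apply Units.ext
  rw [Subgroup.coe_div, sM_coe, Units.val_div_eq_div_val, sg_coe, Units.val_div_eq_div_val, up_coe,
    map_div₀, σ.commutes, hyu, hy]
  have ha0 : algebraMap K L a ≠ 0 := by
    rw [map_ne_zero]
    exact a.ne_zero
  field_simp

end Hm
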