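import Pool.Agent.Lib.MP_f80667_ag.Hm.F1C
import Pool.Agent.Lib.MP_f80667_ag.Hm.LemG

/-! The norm index of the `S`-units for a quadratic extension. -/

open IsDedekindDomain NumberField HeightOneSpectrum WithZero

namespace Hm

variable {K L : Type*} [Field K] [Field L] [NumberField K] [NumberField L] [Algebra K L]
  {σ : L ≃ₐ[K] L} {θ : L} {b : Kˣ}

/-- The embedding of the `S`-units. -/
noncomputable def upS (L : Type*) [Field L] [NumberField L] [Algebra K L]
    (S : Finset (HeightOneSpectrum (𝓞 K))) : US K S →* US L (SL L S) :=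
  ((up K L).comp (US K S).subtype).codRestrict _ fun x => up_mem.2 x.2

@[simp] theorem upS_coe (S : Finset (HeightOneSpectrum (𝓞 K))) (x : US K S) :
    ((upS L S x : US L (SL L S)) : Lˣ) = up K L x := rfl

theorem upS_inj (S : Finset (HeightOneSpectrum (𝓞 K))) : Function.Injective (upS (K := K) L S) := by
  intro x y h
  have h1 := congrArg (fun z : US L (SL L S) => ((z : Lˣ) : L)) h
  apply Subtype.ext
  apply Units.ext
  exact (algebraMap K L).injective h1

/-- The invariant `S`-units. -/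
theorem Quad.range_upS (h : Quad σ θ (b : K)) (S : Finset (HeightOneSpectrum (𝓞 K)))
    (x : US L (SL L S)) : x ∈ (upS (K := K) L S).range ↔ sM σ S x = x := by
  constructor
  · rintro ⟨y, rfl⟩
    apply Subtype.ext
    apply Units.ext
    rw [sM_coe, sg_coe, upS_coe, up_coe, σ.commutes]
  · intro hx
    have h1 : σ ((x : Lˣ) : L) = ((x : Lˣ) : L) :=
      congrArg (fun z : US L (SL L S) => ((z : Lˣ) : L)) hx
    obtain ⟨p, hp⟩ := h.fixed h1
    have hp0 : p ≠ 0 := by
      rintro rfl
      rw [map_zero] at hp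
      exact x.1.ne_zero hp
    have h2 : up K L (Units.mk0 p hp0) = x.1 := by
      apply Units.ext
      rw [up_coe, Units.val_mk0, hp]
    refine ⟨⟨Units.mk0 p hp0, up_mem.1 (h2 ▸ x.2)⟩, ?_⟩
    exact Subtype.ext h2

/-- `√b` as an `S`-unit. -/
theorem Quad.exists_t (h : Quad σ θ (b : K)) {S : Finset (HeightOneSpectrum (𝓞 K))}
    (hb : b ∈ US K S) : ∃ t : US L (SL L S), ((t : Lˣ) : L) = θ := by
  refine ⟨⟨Units.mk0 θ h.t0, ?_⟩, rfl⟩
  have h1 : (Units.mk0 θ h.t0) ^ 2 = up K L b := by
    apply Units.ext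
    rw [up_coe, Units.val_pow_eq_pow_val, Units.val_mk0, h.sq]
  have h2 : (Units.mk0 θ h.t0) ^ 2 ∈ US L (SL L S) := by
    rw [h1]
    exact up_mem.2 hb
  intro w hw
  have h3 := h2 w hw
  rw [Units.val_pow_eq_pow_val, map_pow] at h3
  exact pow_eq_one h3

theorem Quad.rel2 (h : Quad σ θ (b : K)) {S : Finset (HeightOneSpectrum (𝓞 K))}
    (hb : b ∈ US K S) :
    (sqOf (upS (K := K) L S).range).relIndex ((upS (K := K) L S).range ⊓ Sq (US L (SL L S))) =
      2 := by
  obtain ⟨t, ht⟩ := h.exists_t hb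
  rw [Subgroup.relIndex_eq_two_iff_exists_notMem_and]
  refine ⟨t ^ 2, ⟨?_, ?_⟩, ?_, ?_⟩
  · refine (h.range_upS S _).2 ?_
    apply Subtype.ext
    apply Units.ext
    rw [sM_coe, sg_coe, Subgroup.coe_pow, Units.val_pow_eq_pow_val, ht, h.sq, σ.commutes]
  · exact ⟨t, rfl⟩
  · rintro ⟨_, ⟨y, rfl⟩, hy⟩
    have h1 := congrArg (fun z : US L (SL L S) => ((z : Lˣ) : L)) hy
    simp only [powMonoidHom_apply, Subgroup.coe_pow, Units.val_pow_eq_pow_val, ht, h.sq, upS_coe,
      up_coe] at h1
    rw [← map_pow] at h1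
    apply h.nsq
    exact ⟨_, by rw [← (algebraMap K L).injective h1, pow_two]⟩
  · rintro _ ⟨hx, ⟨y, rfl⟩⟩
    replace hx := (h.range_upS S _).1 hx
    have h1 := congrArg (fun z : US L (SL L S) => ((z : Lˣ) : L)) hx
    simp only [powMonoidHom_apply, Subgroup.coe_pow, Units.val_pow_eq_pow_val, sM_coe, sg_coe,
      map_pow] at h1
    rcases sq_eq_sq_iff_eq_or_eq_neg.1 h1 with h2 | h2
    · right
      refine ⟨y, ?_, rfl⟩
      refine (h.range_upS S _).2 ?_
      apply Subtype.ext
      apply Units.ext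
      exact h2
    · left
      refine ⟨y * t, ?_, ?_⟩
      · refine (h.range_upS S _).2 ?_
        apply Subtype.ext
        apply Units.ext
        rw [sM_coe, sg_coe, Subgroup.coe_mul, Units.val_mul, map_mul, h2, ht, h.neg]
        ring
      · rw [powMonoidHom_apply, powMonoidHom_apply, mul_pow]

/-- The index of the norms of the `S`-units of `L`. -/
theorem Quad.index (h : Quad σ θ (b : K)) {S : Finset (HeightOneSpectrum (𝓞 K))} (hS : Gen S)
    (hb : b ∈ US K S) :
    2 * ((nrm (sM σ S)).range.relIndex (upS (K := K) L S).range *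
      2 ^ ((SL L S).card + Fintype.card (InfinitePlace L))) =
      (2 ^ (S.card + Fintype.card (InfinitePlace K))) ^ 2 := by
  have h1 := lemG (sM σ S) (fun x => by
    apply Subtype.ext
    apply Units.ext
    rw [sM_coe, sg_coe, sM_coe, sg_coe, h.inv]) (upS (K := K) L S).range (h.range_upS S)
    (h.h90S hS hb) (h.rel2 hb)
  rw [sq_index, sqOf_relIndex,
    ← Sq_index_congr (MonoidHom.ofInjective (upS_inj (L := L) S)), sq_index] at h1
  exact h1

/-- (F1) for a given quadratic extension. -/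
theorem Quad.F1 (h : Quad σ θ (b : K)) {S : Finset (HeightOneSpectrum (𝓞 K))} (hS : Gen S)
    (hb : b ∈ US K S) :
    (Nrm b).relIndex (US K S) ≠ 0 ∧ 2 * (Nrm b).relIndex (US K S) ≤ 2 ^ tt b S := by
  classical
  have h1 := h.index hS hb
  have h2 : (Nrm b).relIndex (US K S) ∣
      (nrm (sM σ S)).range.relIndex (upS (K := K) L S).range := by
    rw [← Subgroup.index_comap]
    apply Subgroup.index_dvd_of_le
    rintro x ⟨y, hy⟩
    rw [Subgroup.mem_subgroupOf]
    obtain ⟨p, q, hpq⟩ := h.dec ((y : Lˣ) : L)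
    refine ⟨p, q, ?_⟩
    have h3 := congrArg (fun z : US L (SL L S) => ((z : Lˣ) : L)) hy
    simp only [nrm_apply, Subgroup.coe_mul, Units.val_mul, sM_coe, sg_coe, upS_coe, up_coe, hpq,
      map_add, map_mul, h.neg, AlgEquiv.commutes] at h3
    apply (algebraMap K L).injective
    rw [← h3, map_sub, map_mul, map_pow, map_pow, ← h.sq]
    ring
  have h3 : (nrm (sM σ S)).range.relIndex (upS (K := K) L S).range ≠ 0 := by
    intro h4
    rw [h4, zero_mul, mul_zero] at h1
    exact absurd h1.symm (by positivity)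
  have h4 : (Nrm b).relIndex (US K S) ≤
      (nrm (sM σ S)).range.relIndex (upS (K := K) L S).range :=
    Nat.le_of_dvd (Nat.pos_of_ne_zero h3) h2
  refine ⟨fun h5 => h3 (Nat.eq_zero_of_zero_dvd (h5 ▸ h2)), ?_⟩
  have h5 := h.card_SL S
  have h6 := h.card_inf
  have h7 : (S.filter fun v => ¬ ∃ y : K, y ≠ 0 ∧ v.valuation K (b * y ^ 2 - 1) <
      v.valuation K 4) = S.filter fun v => b ∉ LSq v := by
    apply Finset.filter_congr
    intro v _
    rw [mem_LSq, not_iff_not]
    constructor
    · rintro ⟨y, hy0, hy⟩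
      exact ⟨Units.mk0 y hy0, hy⟩
    · rintro ⟨y, hy⟩
      exact ⟨y, y.ne_zero, hy⟩
  have h8 : 2 * (S.card + Fintype.card (InfinitePlace K)) ≤
      (SL L S).card + Fintype.card (InfinitePlace L) + tt b S := by
    rw [tt]
    rw [h7] at h5
    omega
  have h9 : 2 * (Nrm b).relIndex (US K S) * 2 ^ ((SL L S).card + Fintype.card (InfinitePlace L)) ≤
      2 ^ tt b S * 2 ^ ((SL L S).card + Fintype.card (InfinitePlace L)) := by
    calc 2 * (Nrm b).relIndex (US K S) * 2 ^ ((SL L S).card + Fintype.card (InfinitePlace L))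
        ≤ 2 * (nrm (sM σ S)).range.relIndex (upS (K := K) L S).range *
          2 ^ ((SL L S).card + Fintype.card (InfinitePlace L)) := by
          gcongr
      _ = 2 ^ (2 * (S.card + Fintype.card (InfinitePlace K))) := by
          rw [mul_assoc, h1, ← pow_mul, mul_comm 2]
      _ ≤ 2 ^ ((SL L S).card + Fintype.card (InfinitePlace L) + tt b S) :=
          Nat.pow_le_pow_right (by norm_num) h8
      _ = _ := by rw [pow_add, mul_comm]
  exact Nat.le_of_mul_le_mul_right h9 (by positivity)

end Hm
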