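import Mathlib

/-!
# Diagonal quadratic forms over a valued field: continuity, near zeros, splitting a zero
-/

set_option autoImplicit false

namespace Hm

variable {L Γ ι : Type*} [Field L] [LinearOrderedCommGroupWithZero Γ] [Finite ι]

/-- The values of a diagonal form are continuous, in terms of the valuation. -/
theorem diag_cont [Fintype ι] (V : Valuation L Γ) (a z : ι → L) {B : Γ} (hB : B ≠ 0) :
    ∃ g : Γ, g ≠ 0 ∧ g ≤ 1 ∧ ∀ x : ι → L, (∀ i, V (x i - z i) < g) →
      V (∑ i, a i * x i ^ 2 - ∑ i, a i * z i ^ 2) < B := by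
  obtain ⟨M1, hM1⟩ := (Set.finite_range fun i => V (a i)).bddAbove
  obtain ⟨M2, hM2⟩ := (Set.finite_range fun i => V (z i)).bddAbove
  let M : Γ := max 1 (max M1 M2)
  have hM : 0 < M := lt_of_lt_of_le zero_lt_one (le_max_left _ _)
  have h1M : 1 ≤ M := le_max_left _ _
  have haM : ∀ i, V (a i) ≤ M := fun i =>
    (hM1 ⟨i, rfl⟩).trans ((le_max_left _ _).trans (le_max_right _ _))
  have hzM : ∀ i, V (z i) ≤ M := fun i =>
    (hM2 ⟨i, rfl⟩).trans ((le_max_right _ _).trans (le_max_right _ _))
  have hV2 : V 2 ≤ 1 := by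
    have : (2 : L) = 1 + 1 := by norm_num
    rw [this]
    refine (V.map_add 1 1).trans ?_
    rw [map_one, max_self]
  have hg : M⁻¹ * (B * M⁻¹) ≠ 0 := mul_ne_zero (inv_ne_zero hM.ne') (mul_ne_zero hB (inv_ne_zero hM.ne'))
  refine ⟨min (M⁻¹ * (B * M⁻¹)) 1, ?_, min_le_right _ _, fun x hx => ?_⟩
  · rcases min_choice (M⁻¹ * (B * M⁻¹)) (1 : Γ) with h | h
    · rw [h]
      exact hg
    · rw [h]
      exact one_ne_zero
  · rw [← Finset.sum_sub_distrib]
    refine V.map_sum_lt hB fun i _ => ?_
    have e : a i * x i ^ 2 - a i * z i ^ 2 = a i * (x i - z i) * (x i + z i) := by ring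
    rw [e, map_mul, map_mul]
    have h1 : V (x i + z i) ≤ M := by
      have e2 : x i + z i = (x i - z i) + 2 * z i := by ring
      rw [e2]
      refine (V.map_add _ _).trans (max_le ((hx i).le.trans ((min_le_right _ _).trans h1M)) ?_)
      rw [map_mul]
      calc V 2 * V (z i) ≤ 1 * M := mul_le_mul' hV2 (hzM i)
        _ = M := one_mul _
    have h2 : V (x i - z i) < M⁻¹ * (B * M⁻¹) := (hx i).trans_le (min_le_left _ _)
    calc V (a i) * V (x i - z i) * V (x i + z i) ≤ M * V (x i - z i) * M :=
          mul_le_mul' (mul_le_mul' (haM i) le_rfl) h1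
      _ < M * (M⁻¹ * (B * M⁻¹)) * M :=
          mul_lt_mul_of_pos_right (mul_lt_mul_of_pos_left h2 hM) hM
      _ = B := by
          rw [mul_inv_cancel_left₀ hM.ne', mul_assoc, inv_mul_cancel₀ hM.ne', mul_one]

/-- A zero of a diagonal form over a field in which `K` is dense gives primitive near zeros. -/
theorem near_of_zero {K : Type*} [Field K] [Algebra K L] [Fintype ι] (v : Valuation K Γ)
    (V : Valuation L Γ) (hV : ∀ x, V (algebraMap K L x) = v x)
    (hd : ∀ (z : L) (g : Γ), g ≠ 0 → ∃ x : K, V (algebraMap K L x - z) < g) (a : ι → K)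
    (h : ∃ z : ι → L, z ≠ 0 ∧ ∑ i, algebraMap K L (a i) * z i ^ 2 = 0) {B : Γ} (hB : B ≠ 0) :
    ∃ x : ι → K, (∀ i, v (x i) ≤ 1) ∧ (∃ i, v (x i) = 1) ∧ v (∑ i, a i * x i ^ 2) < B := by
  obtain ⟨z, hz, h0⟩ := h
  obtain ⟨j, hj⟩ := Function.ne_iff.1 hz
  have : Nonempty ι := ⟨j⟩
  obtain ⟨k, hk⟩ := Finite.exists_max fun i => V (z i)
  have hzk : z k ≠ 0 := by
    intro h1
    have h2 := hk j
    rw [h1, map_zero, le_zero_iff, map_eq_zero] at h2
    exact hj h2
  have hVk : 0 < V (z k) := zero_lt_iff.2 ((V.ne_zero_iff).2 hzk)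
  obtain ⟨g, hg0, hg1, hg⟩ := diag_cont V (fun i => algebraMap K L (a i)) (fun i => z i / z k) hB
  choose x hx using fun i => hd (z i / z k) g hg0
  have hzi : ∀ i, V (z i / z k) ≤ 1 := by
    intro i
    rw [map_div₀]
    exact (div_le_one₀ hVk).2 (hk i)
  refine ⟨x, fun i => ?_, ⟨k, ?_⟩, ?_⟩
  · rw [← hV]
    have e : algebraMap K L (x i) = (algebraMap K L (x i) - z i / z k) + z i / z k := by ring
    rw [e]
    exact (V.map_add _ _).trans (max_le ((hx i).le.trans hg1) (hzi i))
  · rw [← hV]
    have e : algebraMap K L (x k) = (algebraMap K L (x k) - z k / z k) + 1 := by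
      rw [div_self hzk]
      ring
    have h1 : V (algebraMap K L (x k) - z k / z k) < V 1 := by
      rw [map_one]
      exact (hx k).trans_le hg1
    rw [e, V.map_add_eq_of_lt_right h1, map_one]
  · have h1 := hg (fun i => algebraMap K L (x i)) hx
    have h2 : ∑ i, algebraMap K L (a i) * (z i / z k) ^ 2 = 0 := by
      have : ∑ i, algebraMap K L (a i) * (z i / z k) ^ 2 =
          (∑ i, algebraMap K L (a i) * z i ^ 2) / z k ^ 2 := by
        rw [Finset.sum_div]
        exact Finset.sum_congr rfl fun i _ => by rw [div_pow, mul_div_assoc]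
      rw [this, h0, zero_div]
    rw [h2, sub_zero] at h1
    rw [← hV, map_sum]
    simpa only [map_mul, map_pow] using h1

/-- Splitting a zero of a form in five variables. -/
theorem split_zero {F : Type*} [Field F] (h2 : (2 : F) ≠ 0) {a0 a1 : F} (h0 : a0 ≠ 0) (h1 : a1 ≠ 0)
    {κ : Type*} [Fintype κ] [DecidableEq κ] (k : κ) (b : κ → F) (x y : F) (w : κ → F)
    (hne : x ≠ 0 ∨ y ≠ 0 ∨ w ≠ 0)
    (hz : a0 * x ^ 2 + a1 * y ^ 2 + ∑ i, b i * w i ^ 2 = 0) :
    ∃ x' y' : F, a0 * x' ^ 2 + a1 * y' ^ 2 ≠ 0 ∧ ∃ (t : F) (u : κ → F), (t ≠ 0 ∨ u ≠ 0) ∧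
      (a0 * x' ^ 2 + a1 * y' ^ 2) * t ^ 2 + ∑ i, b i * u i ^ 2 = 0 := by
  by_cases hc : a0 * x ^ 2 + a1 * y ^ 2 = 0
  · by_cases hw : w = 0
    · by_cases hb : b k = 0
      · refine ⟨1, 0, by simpa using h0, 0, Pi.single k 1, Or.inr ?_, ?_⟩
        · intro h
          have := congrFun h k
          simp at this
        · rw [Finset.sum_eq_single k]
          · rw [hb]
            ring
          · intro i _ hi
            rw [Pi.single_eq_of_ne hi]
            ring
          · intro h
            exact absurd (Finset.mem_univ k) h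
      · have hy : y ≠ 0 := by
          rintro rfl
          have hx : x = 0 := by
            have : a0 * x ^ 2 = 0 := by linear_combination hc
            rcases mul_eq_zero.1 this with h | h
            · exact absurd h h0
            · exact pow_eq_zero_iff (two_ne_zero) |>.1 h
          rcases hne with h | h | h
          · exact h hx
          · exact h rfl
          · exact h hw
        have hx : x ≠ 0 := by
          rintro rfl
          have : a1 * y ^ 2 = 0 := by linear_combination hc
          rcases mul_eq_zero.1 this with h | h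
          · exact h1 h
          · exact hy (pow_eq_zero_iff (two_ne_zero) |>.1 h)
        have key : a0 * ((1 - b k / a0) / 2) ^ 2 + a1 * ((1 + b k / a0) / (2 * (x / y))) ^ 2 = - b k := by
          have ha1 : a1 = - a0 * (x / y) ^ 2 := by
            rw [div_pow]
            field_simp
            linear_combination hc
          rw [ha1]
          field_simp
          ring
        refine ⟨(1 - b k / a0) / 2, (1 + b k / a0) / (2 * (x / y)), ?_, 1, Pi.single k 1,
          Or.inl one_ne_zero, ?_⟩
        · rw [key]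
          exact neg_ne_zero.2 hb
        · rw [key, Finset.sum_eq_single k]
          · rw [Pi.single_eq_same]
            ring
          · intro i _ hi
            rw [Pi.single_eq_of_ne hi]
            ring
          · intro h
            exact absurd (Finset.mem_univ k) h
    · refine ⟨1, 0, by simpa using h0, 0, w, Or.inr hw, ?_⟩
      linear_combination hz - hc
  · exact ⟨x, y, hc, 1, w, Or.inl one_ne_zero, by linear_combination hz⟩

end Hm
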