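import Pool.Agent.Lib.MP_f80667_ag.Hm.Frm4
import Pool.Agent.Lib.MP_f80667_ag.Hm.IsoLoc
import Pool.Agent.Lib.MP_f80667_ag.Hm.Loc

/-!
# Local input for quadratic forms in five variables over number fields
-/

set_option autoImplicit false

namespace Hm

open IsDedekindDomain NumberField HeightOneSpectrum WithZero

variable {K : Type} [Field K] [NumberField K]

/-- Density of `K` in its completion. -/
theorem exists_dense (v : HeightOneSpectrum (𝓞 K)) (z : v.adicCompletion K) (g : ℤᵐ⁰) (hg : g ≠ 0) :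
    ∃ x : K, Valued.v (algebraMap K (v.adicCompletion K) x - z) < g := by
  have hval : ∀ z : K, Valued.v (algebraMap K (v.adicCompletion K) z) = v.valuation K z :=
    fun z => valuedAdicCompletion_eq_valuation' v z
  obtain ⟨c, hc⟩ := v.valuation_surjective K g
  have hc0 : c ≠ 0 := by
    rintro rfl
    rw [map_zero] at hc
    exact hg hc.symm
  have hC0 : algebraMap K (v.adicCompletion K) c ≠ 0 := by
    rwa [Ne, map_eq_zero]
  have hopen : IsOpen {y : v.adicCompletion K |
      Valued.v (z / algebraMap K (v.adicCompletion K) c - y) < 1} := by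
    have h1 : IsOpen {z : v.adicCompletion K | Valued.v z < 1} := by
      simpa only [Valuation.restrict_lt_one_iff] using Valued.isOpen_ball (v.adicCompletion K) 1
    exact h1.preimage (continuous_const.sub continuous_id)
  obtain ⟨y, hy⟩ := (denseRange_algebraMap K v).exists_mem_open hopen
    ⟨z / algebraMap K (v.adicCompletion K) c, by simp⟩
  refine ⟨c * y, ?_⟩
  have e : algebraMap K (v.adicCompletion K) (c * y) - z =
      - (algebraMap K (v.adicCompletion K) c *
        (z / algebraMap K (v.adicCompletion K) c - algebraMap K (v.adicCompletion K) y)) := by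
    rw [map_mul]
    field_simp
    ring
  have hy' : Valued.v (z / algebraMap K (v.adicCompletion K) c -
      algebraMap K (v.adicCompletion K) y) < 1 := hy
  rw [e, Valuation.map_neg, map_mul, hval, hc]
  calc g * _ < g * 1 := mul_lt_mul_of_pos_left hy' (zero_lt_iff.2 hg)
    _ = g := mul_one g

/-- Zeros over the completion give primitive near zeros. -/
theorem near_of_loc (v : HeightOneSpectrum (𝓞 K)) {ι : Type*} [Fintype ι] (a : ι → K)
    (h : ∃ z : ι → v.adicCompletion K, z ≠ 0 ∧
      ∑ i, algebraMap K (v.adicCompletion K) (a i) * z i ^ 2 = 0) {B : ℤᵐ⁰} (hB : B ≠ 0) :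
    ∃ x : ι → K, (∀ i, v.valuation K (x i) ≤ 1) ∧ (∃ i, v.valuation K (x i) = 1) ∧
      v.valuation K (∑ i, a i * x i ^ 2) < B :=
  near_of_zero (v.valuation K) (Valued.v : Valuation (v.adicCompletion K) ℤᵐ⁰)
    (fun x => valuedAdicCompletion_eq_valuation' v x) (exists_dense v) a h hB

/-- At every finite place there is an open set of vectors whose values complete the three further
coefficients to an isotropic form. -/
theorem loc_c (v : HeightOneSpectrum (𝓞 K)) {n : ℕ} (hn : 2 ≤ n) (a : Fin n → K) (b : Fin 3 → K)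
    (ha : ∀ i, a i ≠ 0) :
    ∃ z : Fin n → K, ∃ g : ℤᵐ⁰, g ≠ 0 ∧ ∀ x : Fin n → K, (∀ i, v.valuation K (x i - z i) < g) →
      ∑ i, a i * x i ^ 2 ≠ 0 ∧ ∃ w : Fin 4 → v.adicCompletion K, w ≠ 0 ∧
        ∑ j, algebraMap K (v.adicCompletion K)
          ((![∑ i, a i * x i ^ 2, b 0, b 1, b 2] : Fin 4 → K) j) * w j ^ 2 = 0 := by
  set ρ := algebraMap K (v.adicCompletion K) with hρ
  have hval : ∀ z : K, Valued.v (ρ z) = v.valuation K z :=
    fun z => valuedAdicCompletion_eq_valuation' v z
  have hρ0 : ∀ z : K, z ≠ 0 → ρ z ≠ 0 := fun z hz => by rwa [Ne, map_eq_zero]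
  let i0 : Fin n := ⟨0, by omega⟩
  let i1 : Fin n := ⟨1, by omega⟩
  have hi : i1 ≠ i0 := by
    intro h
    have := congrArg Fin.val h
    simp [i0, i1] at this
  obtain ⟨y, hy0, hy⟩ := iso_loc v (m := 5) (by norm_num)
    ![ρ (a i0), ρ (a i1), ρ (b 0), ρ (b 1), ρ (b 2)]
  rw [Fin.sum_univ_five] at hy
  have h2 : (2 : v.adicCompletion K) ≠ 0 := two_ne_zero
  obtain ⟨x', y', hc, t, u, htu, hz⟩ := split_zero h2 (hρ0 _ (ha i0)) (hρ0 _ (ha i1)) (0 : Fin 3)
    (fun i => ρ (b i)) (y 0) (y 1) ![y 2, y 3, y 4] (by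
      by_contra hcon
      push Not at hcon
      obtain ⟨e0, e1, e2⟩ := hcon
      apply hy0
      funext j
      have f0 := congrFun e2 0
      have f1 := congrFun e2 1
      have f2 := congrFun e2 2
      fin_cases j
      · exact e0
      · exact e1
      · exact f0
      · exact f1
      · exact f2) (by
      rw [Fin.sum_univ_three]
      simpa [add_assoc] using hy)
  set c := ρ (a i0) * x' ^ 2 + ρ (a i1) * y' ^ 2 with hcdef
  let zv : Fin n → v.adicCompletion K := fun i => if i = i0 then x' else if i = i1 then y' else 0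
  have hsum : ∑ i, ρ (a i) * zv i ^ 2 = c := by
    rw [← Finset.add_sum_erase _ _ (Finset.mem_univ i0),
      ← Finset.add_sum_erase _ _ (Finset.mem_erase.2 ⟨hi, Finset.mem_univ i1⟩)]
    have h3 : ∑ x ∈ (Finset.univ.erase i0).erase i1, ρ (a x) * zv x ^ 2 = 0 := by
      refine Finset.sum_eq_zero fun j hj => ?_
      have hj1 : j ≠ i1 := (Finset.mem_erase.1 hj).1
      have hj0 : j ≠ i0 := (Finset.mem_erase.1 (Finset.mem_erase.1 hj).2).1
      show ρ (a j) * (if j = i0 then x' else if j = i1 then y' else 0) ^ 2 = 0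
      rw [if_neg hj0, if_neg hj1]
      ring
    rw [h3, add_zero]
    show ρ (a i0) * (if i0 = i0 then x' else if i0 = i1 then y' else 0) ^ 2 +
      ρ (a i1) * (if i1 = i0 then x' else if i1 = i1 then y' else 0) ^ 2 = c
    rw [if_pos rfl, if_neg hi, if_pos rfl]
  have h4 : (4 : v.adicCompletion K) ≠ 0 := by
    have : (4 : v.adicCompletion K) = 2 * 2 := by norm_num
    rw [this]
    exact mul_ne_zero h2 h2
  have hB : Valued.v (4 * c) ≠ (0 : ℤᵐ⁰) := by
    rw [Ne, map_eq_zero]
    exact mul_ne_zero h4 hc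
  obtain ⟨g, hg0, -, hg⟩ := diag_cont (Valued.v : Valuation (v.adicCompletion K) ℤᵐ⁰)
    (fun i => ρ (a i)) zv hB
  choose z hz' using fun i => exists_dense v (zv i) g hg0
  refine ⟨z, g, hg0, fun x hx => ?_⟩
  have h5 : Valued.v (ρ (∑ i, a i * x i ^ 2) - c) < Valued.v (4 * c) := by
    have h6 := hg (fun i => ρ (x i)) (fun i => by
      have e : ρ (x i) - zv i = ρ (x i - z i) + (ρ (z i) - zv i) := by
        rw [map_sub]
        ring
      rw [e]
      refine (Valuation.map_add _ _ _).trans_lt (max_lt ?_ (hz' i))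
      rw [hval]
      exact hx i)
    rw [hsum] at h6
    have h7 : ρ (∑ i, a i * x i ^ 2) = ∑ i, ρ (a i) * ρ (x i) ^ 2 := by
      rw [map_sum]
      exact Finset.sum_congr rfl fun i _ => by rw [map_mul, map_pow]
    rw [h7]
    exact h6
  obtain ⟨s, hs0, hs⟩ := exists_sq_of_near (v := v) (z := ρ (∑ i, a i * x i ^ 2) / c) (by
    have hVc : 0 < Valued.v c := zero_lt_iff.2 (by rwa [Ne, map_eq_zero])
    have e : ρ (∑ i, a i * x i ^ 2) / c - 1 = (ρ (∑ i, a i * x i ^ 2) - c) / c := by
      field_simp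
    rw [e, map_div₀, div_lt_iff₀ hVc, ← map_mul]
    exact h5)
  have hq : ρ (∑ i, a i * x i ^ 2) = c * s ^ 2 := by
    rw [hs]
    field_simp
  refine ⟨fun h0 => ?_, ![t / s, u 0, u 1, u 2], fun h0 => ?_, ?_⟩
  · rw [h0, map_zero] at hq
    exact mul_ne_zero hc (pow_ne_zero 2 hs0) hq.symm
  · have f0 := congrFun h0 0
    have f1 := congrFun h0 1
    have f2 := congrFun h0 2
    have f3 := congrFun h0 3
    simp at f0 f1 f2 f3
    rcases htu with h | h
    · rcases f0 with f0 | f0
      · exact h f0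
      · exact hs0 f0
    · apply h
      funext j
      fin_cases j
      · exact f1
      · exact f2
      · exact f3
  · rw [Fin.sum_univ_four]
    rw [Fin.sum_univ_three] at hz
    simp only [Matrix.cons_val_zero, Matrix.cons_val_one, Matrix.cons_val]
    rw [hq]
    have : c * s ^ 2 * (t / s) ^ 2 = c * t ^ 2 := by
      field_simp
    rw [this]
    linear_combination hz

end Hm
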