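import Pool.Agent.Lib.MP_f80667_ag.Hm.Frm5A
import Pool.Agent.Lib.MP_f80667_ag.Hm.WA
import Pool.Agent.Lib.MP_f80667_ag.Hm.GenS

/-!
# Quadratic forms in at least five variables, from forms in four variables
-/

set_option autoImplicit false

namespace Hm

open IsDedekindDomain NumberField HeightOneSpectrum WithZero

variable {K : Type} [Field K] [NumberField K]

private theorem pos_ball {n : ℕ} (α : Fin n → ℝ) (r : Fin n → ℝ) (h : 0 < ∑ i, α i * r i ^ 2) :
    ∃ ε : ℝ, 0 < ε ∧ ∀ x : Fin n → ℝ, (∀ i, |x i - r i| < ε) → 0 < ∑ i, α i * x i ^ 2 := by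
  have hc : Continuous fun x : Fin n → ℝ => ∑ i, α i * x i ^ 2 := by fun_prop
  have ho : IsOpen {x : Fin n → ℝ | 0 < ∑ i, α i * x i ^ 2} := isOpen_lt continuous_const hc
  obtain ⟨ε, hε, hb⟩ := Metric.isOpen_iff.1 ho r h
  refine ⟨ε, hε, fun x hx => hb ?_⟩
  rw [Metric.mem_ball, dist_pi_lt_iff hε]
  intro i
  rw [Real.dist_eq]
  exact hx i

private theorem sign_ball {n : ℕ} (α : Fin n → ℝ) (β : Fin 3 → ℝ) (hβ : ∀ i, β i ≠ 0)
    (h1 : (∃ i, 0 < α i) ∨ ∃ i, 0 < β i) (h2 : (∃ i, α i < 0) ∨ ∃ i, β i < 0) :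
    ∃ (r : Fin n → ℝ) (ε : ℝ), 0 < ε ∧ ∀ x : Fin n → ℝ, (∀ i, |x i - r i| < ε) →
      ((0 < ∑ i, α i * x i ^ 2) ∨ ∃ i, 0 < β i) ∧ ((∑ i, α i * x i ^ 2 < 0) ∨ ∃ i, β i < 0) := by
  have hs : ∀ (γ : Fin n → ℝ) (i : Fin n), ∑ j, γ j * (Pi.single i (1 : ℝ) : Fin n → ℝ) j ^ 2 = γ i := by
    intro γ i
    rw [Finset.sum_eq_single i]
    · rw [Pi.single_eq_same]
      ring
    · intro j _ hj
      rw [Pi.single_eq_of_ne hj]
      ring
    · intro h
      exact absurd (Finset.mem_univ i) h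
  by_cases hp : ∃ i, 0 < β i
  · by_cases hn : ∃ i, β i < 0
    · exact ⟨0, 1, one_pos, fun x _ => ⟨Or.inr hp, Or.inr hn⟩⟩
    · obtain ⟨i, hi⟩ := h2.resolve_right hn
      obtain ⟨ε, hε, hx⟩ := pos_ball (fun j => - α j) (Pi.single i 1) (by
        rw [hs (fun j => - α j) i]
        linarith)
      refine ⟨Pi.single i 1, ε, hε, fun x h => ⟨Or.inr hp, Or.inl ?_⟩⟩
      have := hx x h
      simp only [neg_mul, Finset.sum_neg_distrib] at this
      linarith
  · obtain ⟨i, hi⟩ := h1.resolve_right hp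
    have hn : ∃ i, β i < 0 := ⟨0, lt_of_le_of_ne (not_lt.1 fun h => hp ⟨0, h⟩) (hβ 0)⟩
    obtain ⟨ε, hε, hx⟩ := pos_ball α (Pi.single i 1) (by rw [hs α i]; exact hi)
    exact ⟨Pi.single i 1, ε, hε, fun x h => ⟨Or.inl (hx x h), Or.inr hn⟩⟩

/-- The statement for four variables, for the field `K`: near zeros at all finite places and indefinite at the real ones. -/
def Four (K : Type) [Field K] [NumberField K] : Prop :=
  ∀ a : Fin 4 → K, (∀ i, a i ≠ 0) →
    (∀ (v : HeightOneSpectrum (𝓞 K)) (B : ℤᵐ⁰), B ≠ 0 → ∃ x : Fin 4 → K,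
      (∀ i, v.valuation K (x i) ≤ 1) ∧ (∃ i, v.valuation K (x i) = 1) ∧
        v.valuation K (∑ i, a i * x i ^ 2) < B) →
    (∀ φ : K →+* ℝ, (∃ i, 0 < φ (a i)) ∧ ∃ i, φ (a i) < 0) →
    ∃ x : Fin 4 → K, x ≠ 0 ∧ ∑ i, a i * x i ^ 2 = 0

/-- Ternary forms with unit coefficients at the nondyadic places. -/
def Three (K : Type) [Field K] [NumberField K] : Prop :=
  ∀ (v : HeightOneSpectrum (𝓞 K)), v.valuation K 2 = 1 → ∀ a : Fin 3 → K,
    (∀ i, v.valuation K (a i) = 1) → ∃ x : Fin 3 → v.adicCompletion K, x ≠ 0 ∧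
      ∑ i, algebraMap K (v.adicCompletion K) (a i) * x i ^ 2 = 0

theorem iso5_of (h4 : Four K) (h3 : Three K) {n : ℕ} (hn : 2 ≤ n) (a : Fin n → K)
    (b : Fin 3 → K) (ha : ∀ i, a i ≠ 0) (hb : ∀ i, b i ≠ 0)
    (hR : ∀ φ : K →+* ℝ, ((∃ i, 0 < φ (a i)) ∨ ∃ i, 0 < φ (b i)) ∧
      ((∃ i, φ (a i) < 0) ∨ ∃ i, φ (b i) < 0)) :
    ∃ (x : Fin n → K) (y : Fin 3 → K), (x ≠ 0 ∨ y ≠ 0) ∧
      ∑ i, a i * x i ^ 2 + ∑ i, b i * y i ^ 2 = 0 := by
  classical
  -- the bad places
  have hfin : ({v : HeightOneSpectrum (𝓞 K) | v.valuation K 2 ≠ 1} ∪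
      ⋃ i, {v : HeightOneSpectrum (𝓞 K) | v.valuation K (b i) ≠ 1}).Finite :=
    finite_dyadic.union (Set.finite_iUnion fun i => finite_val_ne_one (Units.mk0 (b i) (hb i)))
  obtain ⟨v0⟩ : Nonempty (HeightOneSpectrum (𝓞 K)) := by
    obtain ⟨M, hM⟩ := Ideal.exists_maximal (𝓞 K)
    exact ⟨⟨M, hM.isPrime, Ring.ne_bot_of_isMaximal_of_not_isField hM (RingOfIntegers.not_isField K)⟩⟩
  let S : Finset (HeightOneSpectrum (𝓞 K)) := insert v0 hfin.toFinset
  have hS : ∀ v, v ∉ S → v.valuation K 2 = 1 ∧ ∀ i, v.valuation K (b i) = 1 := by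
    intro v hv
    have h1 : v ∉ hfin.toFinset := fun h => hv (Finset.mem_insert_of_mem h)
    rw [Set.Finite.mem_toFinset, Set.mem_union, Set.mem_iUnion] at h1
    push Not at h1
    exact ⟨by simpa using h1.1, fun i => by simpa using h1.2 i⟩
  choose z g hg0 hg using fun v => loc_c v hn a b ha
  choose r ε hε hr using fun φ : K →+* ℝ => sign_ball (fun i => φ (a i)) (fun i => φ (b i))
    (fun i => by
      have := hb i
      rwa [Ne, map_eq_zero]) (hR φ).1 (hR φ).2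
  obtain ⟨δ, hδ, hδε⟩ : ∃ δ : ℝ, 0 < δ ∧ ∀ φ : K →+* ℝ, δ ≤ ε φ := by
    have : Finite (K →+* ℝ) := by
      refine Finite.of_injective (fun φ : K →+* ℝ => (Complex.ofRealHom.comp φ : K →+* ℂ)) ?_
      intro φ ψ h
      ext x
      have := congrArg (fun f : K →+* ℂ => (f x).re) h
      simpa using this
    rcases isEmpty_or_nonempty (K →+* ℝ) with he | hne
    · exact ⟨1, one_pos, fun φ => (he.false φ).elim⟩
    · obtain ⟨φ0, h0⟩ := Finite.exists_min ε
      exact ⟨ε φ0, hε φ0, h0⟩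
  choose x hx1 hx2 using fun i => wapr S (fun v => z v i) (fun φ => r φ i) g hg0 δ hδ
  have hc0 : ∑ i, a i * x i ^ 2 ≠ 0 :=
    (hg v0 x fun i => hx1 i v0 (Finset.mem_insert_self _ _)).1
  set c := ∑ i, a i * x i ^ 2 with hc
  obtain ⟨w, hw0, hw⟩ := h4 ![c, b 0, b 1, b 2] (by
    intro i
    fin_cases i
    · exact hc0
    · exact hb 0
    · exact hb 1
    · exact hb 2) (by
    intro v B hB
    by_cases hv : v ∈ S
    · exact near_of_loc v _ (hg v x fun i => hx1 i v hv).2 hB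
    · obtain ⟨h2, hbv⟩ := hS v hv
      obtain ⟨u, hu0, hu⟩ := h3 v h2 b hbv
      refine near_of_loc v _ ⟨![0, u 0, u 1, u 2], fun h => hu0 ?_, ?_⟩ hB
      · funext j
        have f1 := congrFun h 1
        have f2 := congrFun h 2
        have f3 := congrFun h 3
        fin_cases j
        · exact f1
        · exact f2
        · exact f3
      · rw [Fin.sum_univ_three] at hu
        rw [Fin.sum_univ_four]
        simp only [Matrix.cons_val_zero, Matrix.cons_val_one, Matrix.cons_val]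
        linear_combination hu) (by
    intro φ
    have hP := hr φ (fun i => φ (x i)) (fun i => (hx2 i φ).trans_le (hδε φ))
    have he : ∑ i, φ (a i) * φ (x i) ^ 2 = φ c := by
      rw [hc, map_sum]
      exact Finset.sum_congr rfl fun i _ => by rw [map_mul, map_pow]
    rw [he] at hP
    constructor
    · rcases hP.1 with h | ⟨i, hi⟩
      · exact ⟨0, h⟩
      · fin_cases i
        · exact ⟨1, hi⟩
        · exact ⟨2, hi⟩
        · exact ⟨3, hi⟩
    · rcases hP.2 with h | ⟨i, hi⟩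
      · exact ⟨0, h⟩
      · fin_cases i
        · exact ⟨1, hi⟩
        · exact ⟨2, hi⟩
        · exact ⟨3, hi⟩)
  rw [Fin.sum_univ_four] at hw
  simp only [Matrix.cons_val_zero, Matrix.cons_val_one, Matrix.cons_val] at hw
  refine ⟨fun i => w 0 * x i, ![w 1, w 2, w 3], ?_, ?_⟩
  · by_contra hcon
    push Not at hcon
    obtain ⟨e1, e2⟩ := hcon
    have f1 := congrFun e2 0
    have f2 := congrFun e2 1
    have f3 := congrFun e2 2
    simp at f1 f2 f3
    have f0 : w 0 = 0 := by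
      by_contra h0
      apply hc0
      rw [hc]
      refine Finset.sum_eq_zero fun i _ => ?_
      have := congrFun e1 i
      simp only [Pi.zero_apply, mul_eq_zero, h0, false_or] at this
      rw [this]
      ring
    apply hw0
    funext j
    fin_cases j
    · exact f0
    · exact f1
    · exact f2
    · exact f3
  · have h5 : ∑ i, a i * (w 0 * x i) ^ 2 = w 0 ^ 2 * c := by
      rw [hc, Finset.mul_sum]
      exact Finset.sum_congr rfl fun i _ => by ring
    rw [h5, Fin.sum_univ_three]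
    simp only [Matrix.cons_val_zero, Matrix.cons_val_one, Matrix.cons_val]
    linear_combination hw

end Hm
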