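import Mathlib

/-! Two counting lemmas for subgroups of a commutative group. -/

namespace Hm

theorem mk_prod {G : Type*} [CommGroup G] {ι : Type*} [DecidableEq ι] (H : ι → Subgroup G) (x : ι → G)
    (h2 : ∀ i j, j ≠ i → x i ∈ H j) (I : Finset ι) (j : ι) :
    (QuotientGroup.mk (∏ i ∈ I, x i) : G ⧸ H j) = if j ∈ I then QuotientGroup.mk (x j) else 1 := by
  induction I using Finset.induction_on with
  | empty => simp
  | insert a I ha ih =>
    rw [Finset.prod_insert ha, QuotientGroup.mk_mul, ih]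
    by_cases hj : j = a
    · subst hj
      simp [ha]
    · have h3 : (QuotientGroup.mk (x a) : G ⧸ H j) = 1 := (QuotientGroup.eq_one_iff _).2 (h2 a j hj)
      rw [h3, one_mul]
      simp [hj]

/-- Products of a dual family hit and miss the subgroups as wanted. -/
theorem prod_mem_iff {G : Type*} [CommGroup G] {ι : Type*} [DecidableEq ι] (H : ι → Subgroup G) (x : ι → G)
    (h1 : ∀ i, x i ∉ H i) (h2 : ∀ i j, j ≠ i → x i ∈ H j) (I : Finset ι) (j : ι) :
    ∏ i ∈ I, x i ∈ H j ↔ j ∉ I := by
  rw [← QuotientGroup.eq_one_iff, mk_prod H x h2]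
  by_cases hj : j ∈ I
  · simp only [hj, if_true, not_true, iff_false]
    rw [QuotientGroup.eq_one_iff]
    exact h1 j
  · simp [hj]

/-- A dual family with `n` members gives index at least `2 ^ n`. -/
theorem two_pow_le {G : Type*} [CommGroup G] {ι : Type*} [Fintype ι] (H : ι → Subgroup G) (N U : Subgroup G)
    (hN : ∀ i, N ≤ H i) (x : ι → G) (hU : ∀ i, x i ∈ U) (h1 : ∀ i, x i ∉ H i)
    (h2 : ∀ i j, j ≠ i → x i ∈ H j) (h0 : N.relIndex U ≠ 0) : 2 ^ Fintype.card ι ≤ N.relIndex U := by
  classical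
  have hfin : Finite (U ⧸ N.subgroupOf U) := by
    rw [Subgroup.relIndex, Subgroup.index_ne_zero_iff_finite] at h0
    exact h0
  have hp : ∀ I : Finset ι, ∏ i ∈ I, x i ∈ U := fun I => prod_mem fun i _ => hU i
  have hinj : Function.Injective (fun I : Finset ι =>
      (QuotientGroup.mk (⟨∏ i ∈ I, x i, hp I⟩ : U) : U ⧸ N.subgroupOf U)) := by
    intro I J hIJ
    have h3 : (∏ i ∈ I, x i)⁻¹ * ∏ i ∈ J, x i ∈ N := by
      have := QuotientGroup.eq.1 hIJ
      rwa [Subgroup.mem_subgroupOf] at this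
    ext j
    have h4 : (QuotientGroup.mk (∏ i ∈ I, x i) : G ⧸ H j) = QuotientGroup.mk (∏ i ∈ J, x i) :=
      QuotientGroup.eq.2 (hN j h3)
    have h5 : ∏ i ∈ I, x i ∈ H j ↔ ∏ i ∈ J, x i ∈ H j := by
      rw [← QuotientGroup.eq_one_iff, ← QuotientGroup.eq_one_iff, h4]
    rw [prod_mem_iff H x h1 h2, prod_mem_iff H x h1 h2] at h5
    exact not_iff_not.1 h5
  have h6 := Nat.card_le_card_of_injective _ hinj
  rw [Nat.card_eq_fintype_card, Fintype.card_finset] at h6
  exact h6

/-- A cover by `n` translates gives index at most `n`. -/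
theorem relIndex_le_of_cover {G : Type*} [CommGroup G] {ι : Type*} [Finite ι] (W U : Subgroup G) (r : ι → G)
    (h : ∀ u ∈ U, ∃ i, u * r i ∈ W) : W.relIndex U ≠ 0 ∧ W.relIndex U ≤ Nat.card ι := by
  classical
  have h' : ∀ u : U, ∃ i, (u : G) * r i ∈ W := fun u => h u u.2
  choose i hi using h'
  have hinj : Function.Injective (fun q : U ⧸ W.subgroupOf U => i (Quotient.out q)) := by
    intro p q hpq
    have h1 := hi (Quotient.out p)
    have h2 := hi (Quotient.out q)
    simp only at hpq
    rw [← hpq] at h2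
    have h3 : (((Quotient.out p : U) : G))⁻¹ * ((Quotient.out q : U) : G) ∈ W := by
      have := mul_mem (inv_mem h1) h2
      have e : ((((Quotient.out p : U) : G)) * r (i (Quotient.out p)))⁻¹ *
          (((Quotient.out q : U) : G) * r (i (Quotient.out p))) =
          (((Quotient.out p : U) : G))⁻¹ * ((Quotient.out q : U) : G) := by
        rw [mul_inv, mul_mul_mul_comm, inv_mul_cancel, mul_one]
      rwa [e] at this
    have h4 : (QuotientGroup.mk (Quotient.out p) : U ⧸ W.subgroupOf U) = QuotientGroup.mk (Quotient.out q) :=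
      QuotientGroup.eq.2 (by rw [Subgroup.mem_subgroupOf]; exact h3)
    rwa [QuotientGroup.out_eq', QuotientGroup.out_eq'] at h4
  have hfin : Finite (U ⧸ W.subgroupOf U) := Finite.of_injective _ hinj
  refine ⟨?_, Nat.card_le_card_of_injective _ hinj⟩
  rw [Subgroup.relIndex, Subgroup.index_ne_zero_iff_finite]
  exact hfin

end Hm
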