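import Mathlib

/-! Leep's induction: zeros of systems of quadratic forms over a field of bounded `u`-invariant. -/

namespace Hm

open Module

section leep

variable {F : Type*} [Field F] {V : Type*} [AddCommGroup V] [Module F V] [FiniteDimensional F V]

/-- One more dimension: totally isotropic subspaces. -/
theorem Leep.step {ι : Type*} (Q : ι → QuadraticForm F V) (s : Finset ι) (W U : Submodule F V)
    (hUW : U ≤ W) (hU : ∀ i ∈ s, ∀ x ∈ U, Q i x = 0) :
    ∃ C ≤ W, Disjoint U C ∧ finrank F W ≤ finrank F C + (s.card + 1) * finrank F U ∧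
      ∀ i ∈ s, ∀ x ∈ U, ∀ y ∈ C, QuadraticMap.polar (Q i) x y = 0 := by
  classical
  let b := Module.finBasis F U
  let φ : W →ₗ[F] (s × Fin (finrank F U) → F) :=
    LinearMap.pi (fun p => ((Q p.1).polarBilin (b p.2 : V)).comp W.subtype)
  have hφ : ∀ y : W, y ∈ LinearMap.ker φ → ∀ i ∈ s, ∀ x ∈ U,
      QuadraticMap.polar (Q i) x (y : V) = 0 := by
    intro y hy i hi x hx
    have h1 : ∀ j, QuadraticMap.polar (Q i) (b j : V) (y : V) = 0 := fun j =>
      congrFun (LinearMap.mem_ker.1 hy) (⟨i, hi⟩, j)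
    have h2 : ((Q i).polarBilin.flip (y : V)).comp U.subtype = 0 := by
      apply b.ext
      intro j
      exact h1 j
    exact LinearMap.congr_fun h2 ⟨x, hx⟩
  have hUk : ∀ x (hx : x ∈ U), (⟨x, hUW hx⟩ : W) ∈ LinearMap.ker φ := by
    intro x hx
    rw [LinearMap.mem_ker]
    funext p
    change QuadraticMap.polar (Q p.1) (b p.2 : V) x = 0
    rw [QuadraticMap.polar, hU _ p.1.2 _ (U.add_mem (b p.2).2 hx), hU _ p.1.2 _ (b p.2).2,
      hU _ p.1.2 _ hx]
    ring
  have hdim : finrank F W ≤ finrank F (LinearMap.ker φ) + s.card * finrank F U := by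
    have h1 := LinearMap.finrank_range_add_finrank_ker φ
    have h2 : finrank F (LinearMap.range φ) ≤ s.card * finrank F U := by
      refine (Submodule.finrank_le _).trans ?_
      rw [Module.finrank_fintype_fun_eq_card, Fintype.card_prod, Fintype.card_coe,
        Fintype.card_fin]
    omega
  -- a complement of `U` in the kernel
  let U' : Submodule F W := U.comap W.subtype
  have hU'k : U' ≤ LinearMap.ker φ := by
    rintro ⟨x, hx⟩ hx2
    exact hUk x hx2
  obtain ⟨C', hC'⟩ := (U'.comap (LinearMap.ker φ).subtype).exists_isCompl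
  have hfU : finrank F (U'.comap (LinearMap.ker φ).subtype) = finrank F U := by
    rw [(Submodule.comapSubtypeEquivOfLe hU'k).finrank_eq,
      (Submodule.comapSubtypeEquivOfLe hUW).finrank_eq]
  have hfC := Submodule.finrank_add_eq_of_isCompl hC'
  refine ⟨(C'.map (LinearMap.ker φ).subtype).map W.subtype, ?_, ?_, ?_, ?_⟩
  · rintro _ ⟨y, _, rfl⟩
    exact y.2
  · rw [Submodule.disjoint_def]
    rintro _ hx ⟨y, ⟨z, hz, rfl⟩, rfl⟩
    have h1 : z ∈ U'.comap (LinearMap.ker φ).subtype := hx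
    have h2 : z = 0 := by
      have := Submodule.disjoint_def.1 hC'.disjoint z h1 hz
      exact this
    rw [h2]
    simp
  · rw [Submodule.finrank_map_subtype_eq, Submodule.finrank_map_subtype_eq]
    rw [hfU] at hfC
    have : (s.card + 1) * finrank F U = s.card * finrank F U + finrank F U := by ring
    omega
  · rintro i hi x hx _ ⟨y, ⟨z, _, rfl⟩, rfl⟩
    exact hφ z z.2 i hi x hx

/-- If the forms of `s` have a common zero in every submodule of dimension more than `N`, they have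
totally isotropic subspaces. -/
theorem Leep.tot {ι : Type*} (Q : ι → QuadraticForm F V) (s : Finset ι) (N : ℕ)
    (h : ∀ W : Submodule F V, N < finrank F W → ∃ x ∈ W, x ≠ 0 ∧ ∀ i ∈ s, Q i x = 0)
    (W : Submodule F V) (k : ℕ) (hk : N + (s.card + 1) * k < finrank F W) :
    ∃ U ≤ W, finrank F U = k + 1 ∧ ∀ i ∈ s, ∀ x ∈ U, Q i x = 0 := by
  induction k with
  | zero =>
    obtain ⟨x, hxW, hx0, hx⟩ := h W (by omega)
    refine ⟨F ∙ x, ?_, ?_, ?_⟩
    · rw [Submodule.span_singleton_le_iff_mem]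
      exact hxW
    · exact finrank_span_singleton hx0
    · intro i hi y hy
      obtain ⟨c, rfl⟩ := Submodule.mem_span_singleton.1 hy
      rw [QuadraticMap.map_smul, hx i hi, smul_zero]
  | succ k ih =>
    obtain ⟨U, hUW, hUk, hU⟩ := ih (lt_of_le_of_lt (by gcongr; omega) hk)
    obtain ⟨C, hCW, hd, hdim, hpol⟩ := Leep.step Q s W U hUW hU
    rw [hUk] at hdim
    obtain ⟨x, hxC, hx0, hx⟩ := h C (by omega)
    refine ⟨U ⊔ F ∙ x, sup_le hUW ?_, ?_, ?_⟩
    · rw [Submodule.span_singleton_le_iff_mem]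
      exact hCW hxC
    · have h1 := Submodule.finrank_sup_add_finrank_inf_eq U (F ∙ x)
      have h2 : Disjoint U (F ∙ x) := hd.mono_right (by
        rw [Submodule.span_singleton_le_iff_mem]
        exact hxC)
      rw [h2.eq_bot, finrank_bot, finrank_span_singleton hx0, hUk] at h1
      omega
    · intro i hi y hy
      obtain ⟨a, ha, z, hz, rfl⟩ := Submodule.mem_sup.1 hy
      obtain ⟨c, rfl⟩ := Submodule.mem_span_singleton.1 hz
      rw [QuadraticMap.map_add (Q i), hU i hi a ha, QuadraticMap.map_smul, hx i hi, smul_zero,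
        hpol i hi a ha _ (C.smul_mem c hxC)]
      ring

/-- **Leep's induction**. -/
theorem Leep.main {u : ℕ} (hu : ∀ q : QuadraticForm F (Fin (u + 1) → F), ∃ x, x ≠ 0 ∧ q x = 0)
    {ι : Type*} (Q : ι → QuadraticForm F V) (s : Finset ι) :
    ∀ W : Submodule F V, u * (∑ j ∈ Finset.range (s.card + 1), j) < finrank F W →
      ∃ x ∈ W, x ≠ 0 ∧ ∀ i ∈ s, Q i x = 0 := by
  classical
  induction s using Finset.induction_on with
  | empty =>
    intro W hW
    have h1 : W ≠ ⊥ := by
      rintro rfl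
      rw [finrank_bot] at hW
      omega
    obtain ⟨x, hx, hx0⟩ := W.ne_bot_iff.1 h1
    exact ⟨x, hx, hx0, fun i hi => absurd hi (Finset.notMem_empty i)⟩
  | insert i s hi ih =>
    intro W hW
    rw [Finset.card_insert_of_notMem hi, Finset.sum_range_succ] at hW
    obtain ⟨U, hUW, hUk, hU⟩ := Leep.tot Q s _ ih W u (by
      refine lt_of_eq_of_lt ?_ hW
      ring)
    have e : (Fin (u + 1) → F) ≃ₗ[F] U := LinearEquiv.ofFinrankEq _ _ (by
      rw [hUk, Module.finrank_fintype_fun_eq_card, Fintype.card_fin])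
    obtain ⟨x, hx0, hx⟩ := hu ((Q i).comp (U.subtype.comp e.toLinearMap))
    refine ⟨(e x : V), hUW (e x).2, ?_, ?_⟩
    · intro h
      apply hx0
      rw [← e.map_eq_zero_iff]
      exact Subtype.ext h
    · intro j hj
      rcases Finset.mem_insert.1 hj with rfl | hj
      · exact hx
      · exact hU j hj _ (e x).2

end leep

/-- A quadratic form is a diagonal one (characteristic not two). -/
theorem Leep.diag {F : Type*} [Field F] (h2 : (2 : F) ≠ 0) {n : ℕ}
    (h : ∀ a : Fin n → F, (∀ i, a i ≠ 0) → ∃ x : Fin n → F, x ≠ 0 ∧ ∑ i, a i * x i ^ 2 = 0)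
    (q : QuadraticForm F (Fin n → F)) : ∃ x, x ≠ 0 ∧ q x = 0 := by
  classical
  have : Invertible (2 : F) := invertibleOfNonzero h2
  have hs : (QuadraticMap.associated (R := F) q).IsSymm := QuadraticForm.associated_isSymm F q
  obtain ⟨v, hv⟩ := LinearMap.BilinForm.exists_orthogonal_basis hs
  have hc : Fintype.card (Fin (finrank F (Fin n → F))) = Fintype.card (Fin n) := by
    rw [Fintype.card_fin, Module.finrank_fintype_fun_eq_card]
  let w := v.reindex (Fintype.equivOfCardEq hc)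
  have hw : (QuadraticMap.associated (R := F) q).IsOrthoᵢ w := by
    intro i j hij
    change QuadraticMap.associated (R := F) q (w i) (w j) = 0
    rw [Basis.reindex_apply, Basis.reindex_apply]
    exact hv ((Fintype.equivOfCardEq hc).symm.injective.ne hij)
  have hq : ∀ x : Fin n → F, q (∑ i, x i • w i) = ∑ i, q (w i) * x i ^ 2 := by
    intro x
    have h3 := QuadraticMap.basisRepr_eq_of_iIsOrtho q w hw
    have h4 := congrArg (fun Q : QuadraticMap F (Fin n → F) F => Q x) h3
    simp only [QuadraticMap.basisRepr_apply, QuadraticMap.weightedSumSquares_apply] at h4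
    rw [h4]
    refine Finset.sum_congr rfl fun i _ => ?_
    rw [smul_eq_mul, pow_two]
  by_cases h0 : ∃ i, q (w i) = 0
  · obtain ⟨i, hi⟩ := h0
    exact ⟨w i, w.ne_zero i, hi⟩
  · obtain ⟨x, hx0, hx⟩ := h (fun i => q (w i)) (fun i hi => h0 ⟨i, hi⟩)
    refine ⟨∑ i, x i • w i, ?_, by rw [hq, hx]⟩
    intro h3
    apply hx0
    funext i
    exact (Fintype.linearIndependent_iff.1 w.linearIndependent) x h3 i

theorem Leep.sum_range (r : ℕ) : 4 * (∑ j ∈ Finset.range (r + 1), j) = 2 * r * (r + 1) := by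
  have h := Finset.sum_range_id_mul_two (r + 1)
  rw [Nat.add_sub_cancel] at h
  have e : 4 * (∑ j ∈ Finset.range (r + 1), j) = 2 * ((∑ j ∈ Finset.range (r + 1), j) * 2) := by
    ring
  rw [e]
  exact (congrArg (2 * ·) h).trans (by ring)

/-- **Leep's theorem** for `u = 4`: if the diagonal forms in five variables over `F` have nontrivial
zeros, every system of `r` quadratic forms in more than `2 r (r + 1)` variables has one. -/
theorem leep_form {F : Type*} [Field F] (h2 : (2 : F) ≠ 0)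
    (h5 : ∀ a : Fin 5 → F, (∀ i, a i ≠ 0) → ∃ x : Fin 5 → F, x ≠ 0 ∧ ∑ i, a i * x i ^ 2 = 0)
    {r n : ℕ} (hn : 2 * r * (r + 1) < n) (Q : Fin r → QuadraticForm F (Fin n → F)) :
    ∃ x, x ≠ 0 ∧ ∀ i, Q i x = 0 := by
  obtain ⟨x, -, hx0, hx⟩ := Leep.main (u := 4) (fun q => Leep.diag h2 h5 q) Q Finset.univ ⊤ (by
    rw [Finset.card_univ, Fintype.card_fin, finrank_top, Module.finrank_fintype_fun_eq_card,
      Fintype.card_fin, Leep.sum_range]
    exact hn)
  exact ⟨x, hx0, fun i => hx i (Finset.mem_univ i)⟩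

/-- `leep_form` for matrices. -/
theorem leep_matrix {F : Type*} [Field F] (h2 : (2 : F) ≠ 0)
    (h5 : ∀ a : Fin 5 → F, (∀ i, a i ≠ 0) → ∃ x : Fin 5 → F, x ≠ 0 ∧ ∑ i, a i * x i ^ 2 = 0)
    {r n : ℕ} (hn : 2 * r * (r + 1) < n) (M : Fin r → Matrix (Fin n) (Fin n) F) :
    ∃ x, x ≠ 0 ∧ ∀ i, x ⬝ᵥ (M i).mulVec x = 0 := by
  classical
  obtain ⟨x, hx0, hx⟩ := leep_form h2 h5 hn (fun i => (Matrix.toBilin' (M i)).toQuadraticMap)
  refine ⟨x, hx0, fun i => ?_⟩
  have h := hx i
  rw [LinearMap.BilinMap.toQuadraticMap_apply, Matrix.toBilin'_apply'] at h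
  exact h

open Matrix in
/-- **Leep's theorem.** (Induction on `r`: the first `r - 1` forms vanish on a subspace of dimension
five, obtained by adding vectors in the orthogonal complement for all `r - 1` forms.) -/
theorem iso_sys {k : Type} [Field k] [CharZero k]
    (h5 : ∀ {m : ℕ}, 4 < m → ∀ A : Matrix (Fin m) (Fin m) k,
      ∃ x : Fin m → k, x ≠ 0 ∧ x ⬝ᵥ (A *ᵥ x) = 0)
    (r : ℕ) {m : ℕ} (hm : 2 * r * (r + 1) < m) (A : Fin r → Matrix (Fin m) (Fin m) k) :
    ∃ x : Fin m → k, x ≠ 0 ∧ ∀ i, x ⬝ᵥ (A i *ᵥ x) = 0 := by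
  refine leep_matrix two_ne_zero (fun a _ => ?_) hm A
  obtain ⟨x, hx0, hx⟩ := h5 (m := 5) (by norm_num) (Matrix.diagonal a)
  refine ⟨x, hx0, ?_⟩
  rw [← hx, dotProduct]
  refine Finset.sum_congr rfl fun i _ => ?_
  rw [Matrix.mulVec_diagonal]
  ring

end Hm
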