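import Pool.Agent.Lib.MP_f80667_ag.Hm.Frm5
import Pool.Agent.Lib.MP_f80667_ag.Hm.Leep
import Pool.Agent.Lib.MP_f80667_ag.Hm.Rl
import Pool.Agent.Lib.MP_f80667_ag.Fa.Dfs

/-! Surjectivity of the push-forward over a number field. -/

open scoped LinearAlgebra.Projectivization
open IsDedekindDomain NumberField ZC

namespace Hm

section core

variable {k : Type} [Field k] {N n r : ℕ} {κ : Type}
  {h : κ → MvPolynomial (Fin N) k} {A : Fin r → Matrix (Fin n) (Fin n) (MvPolynomial (Fin N) k)}

theorem pushW_tr2 {Ω M : Type} [Field Ω] [Algebra k Ω] [Field M] [Algebra k M]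
    [FiniteDimensional k M] (P : ℙ M (Fin N → M)) (Q : ℙ M (Fin n → M)) :
    pushW Ω (ZCTr.tr2 k Ω P Q) = ZCTr.tr k Ω P := by
  unfold ZCTr.tr2 ZCTr.tr ZCTr.trG
  rw [map_sum]
  exact Finset.sum_congr rfl fun σ _ => pushW_single _ _

/-- If the fibres over the points over finite extensions have points over the same field, the
push-forward is surjective. -/
theorem pfOnto_core (hh : ∀ j, ∃ d, (h j).IsHomogeneous d)
    (hA : ∀ i, ∃ e, ∀ a b, (A i a b).IsHomogeneous e)
    (hfib : ∀ (M : IntermediateField k (AlgebraicClosure k)), FiniteDimensional k M →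
      ∀ w : Fin N → M, w ≠ 0 → Zer h M w → ∃ x : Fin n → M, x ≠ 0 ∧ Zer2 h A M w x) :
    PfOnto k h A := by
  intro c
  have hc : c.1 ∈ cyc (AlgebraicClosure k) h := c.2.1
  have key : c.1 ∈ AddSubgroup.map (pushW (AlgebraicClosure k))
      (cyc2 (AlgebraicClosure k) h A) := by
    refine cyc_mem_of_tr (k := k) _ c.1 hc.2 ?_
    intro M hM P hP _
    have hZ : Zer h M P.rep := (zer_mapPt_iff hh M.val P).1 (hc.1 _ hP)
    obtain ⟨x, hx, hZ2⟩ := hfib M hM P.rep P.rep_nonzero hZ
    refine ⟨ZCTr.tr2 k (AlgebraicClosure k) P (Projectivization.mk M x hx),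
      Fa.tr2_mem_cyc2 hh hA _ _ ?_, pushW_tr2 _ _⟩
    have h4 := (zer2_mk_iff hh hA P.rep P.rep_nonzero x hx).2 hZ2
    rwa [Projectivization.mk_rep] at h4
  obtain ⟨z, hz, h1⟩ := key
  have hz0 : z ∈ D02 k h A := by
    refine ⟨hz, ?_⟩
    have h2 := deg_pushW (Ω := AlgebraicClosure k) z
    change deg2 (AlgebraicClosure k) z = 0
    rw [← h2, h1]
    exact c.2.2
  refine ⟨⟨z, hz0⟩, ?_⟩
  have h3 : pfZ (⟨z, hz0⟩ : Z2 k h A) = c := Subtype.ext h1
  rw [h3]

end core

section real

variable {F : Type} [Field F] {N n r : ℕ} {κ : Type} {h : κ → MvPolynomial (Fin N) F}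
  {A : Fin r → Matrix (Fin n) (Fin n) (MvPolynomial (Fin N) F)}

/-- Compatibility of the evaluation of polynomials with a ring homomorphism. -/
theorem aeval_map_hom {M E : Type} [Field M] [Algebra F M] [Field E] [Algebra F E] (f : M →+* E)
    (hf : ∀ x : F, f (algebraMap F M x) = algebraMap F E x) (w : Fin N → M)
    (p : MvPolynomial (Fin N) F) :
    MvPolynomial.aeval (fun i => f (w i)) (MvPolynomial.map (algebraMap F E) p) =
      f (MvPolynomial.aeval w p) := by
  rw [MvPolynomial.aeval_map_algebraMap, MvPolynomial.aeval_def, MvPolynomial.aeval_def,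
    MvPolynomial.hom_eval₂]
  congr 1
  ext x
  exact (hf x).symm

theorem zer_hom {M E : Type} [Field M] [Algebra F M] [Field E] [Algebra F E] (f : M →+* E)
    (hf : ∀ x : F, f (algebraMap F M x) = algebraMap F E x) {w : Fin N → M} (h0 : Zer h M w) :
    Zer (hE E h) E (fun i => f (w i)) := by
  intro j
  have h2 := aeval_map_hom f hf w (h j)
  rw [h0 j, map_zero] at h2
  exact h2

theorem ne_hom {M E : Type} [Field M] [Field E] (f : M →+* E) {w : Fin N → M} (hw : w ≠ 0) :
    (fun i => f (w i)) ≠ 0 := by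
  intro h1
  apply hw
  funext i
  have h2 : f (w i) = 0 := congrFun h1 i
  exact (map_eq_zero f).1 h2

theorem zer2_real {M E : Type} [Field M] [Algebra F M] [Field E] [Algebra F E] (φ : M →+* ℝ)
    (e : ℝ ≃+* E) (he : ∀ x : F, e (φ (algebraMap F M x)) = algebraMap F E x) {w : Fin N → M}
    {x : Fin n → E}
    (h0 : Zer2 (hE E h) (AE E A) E (fun i => (e : ℝ →+* E).comp φ (w i)) x) (i : Fin r) :
    dotProduct (fun j => e.symm (x j))
      ((((A i).map (MvPolynomial.aeval w)).map φ).mulVec (fun j => e.symm (x j))) = 0 := by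
  apply e.injective
  have h4 := h0.2 i
  have h5 : ∀ a b, MvPolynomial.aeval (fun i => (e : ℝ →+* E).comp φ (w i)) (AE E A i a b) =
      e (φ (MvPolynomial.aeval w (A i a b))) := fun a b =>
    aeval_map_hom ((e : ℝ →+* E).comp φ) he w (A i a b)
  simp only [dotProduct, Matrix.mulVec, Matrix.map_apply, map_sum, map_mul, map_zero] at h4 ⊢
  rw [← h4]
  refine Finset.sum_congr rfl fun a _ => ?_
  rw [RingEquiv.apply_symm_apply]
  refine congrArg _ (Finset.sum_congr rfl fun b _ => ?_)
  rw [RingEquiv.apply_symm_apply, h5]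

variable [NumberField F]

/-- Over the fields over which the base has points there are no real embeddings, if the base has no
points over the real completions. -/
theorem no_real (hreal : ∀ v : InfinitePlace F, v.IsReal →
      ∀ w : Fin N → IK F v, Zer (hE (IK F v) h) (IK F v) w → w = 0) {M : Type} [Field M]
    [Algebra F M] {w : Fin N → M} (hw : w ≠ 0) (h0 : Zer h M w) (φ : M →+* ℝ) : False := by
  obtain ⟨v, hv, e, he⟩ := exists_real F M φ
  exact ne_hom ((e : ℝ →+* v.Completion).comp φ) hw (hreal v hv _ (zer_hom (E := IK F v)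
    ((e : ℝ →+* v.Completion).comp φ) he h0))

theorem pfOnto (hh : ∀ j, ∃ d, (h j).IsHomogeneous d)
    (hA : ∀ i, ∃ e, ∀ a b, (A i a b).IsHomogeneous e)
    (hn : 2 * r * (r + 1) < n) (hreal : ∀ v : InfinitePlace F, v.IsReal →
      ∀ w : Fin N → IK F v, Zer (hE (IK F v) h) (IK F v) w → w = 0) : PfOnto F h A := by
  refine pfOnto_core hh hA fun M hM w hw h0 => ?_
  have : NumberField M := NumberField.of_module_finite F M
  obtain ⟨x, hx, h1⟩ := iso_sys (k := M) (fun hm B => isoM hm B fun φ =>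
    (no_real hreal hw h0 φ).elim) r hn fun i => (A i).map (MvPolynomial.aeval w)
  exact ⟨x, hx, h0, h1⟩

/-- One quadratic form: it suffices that the fibres over the real points have real points. -/
theorem pfOnto_one {A : Fin 1 → Matrix (Fin n) (Fin n) (MvPolynomial (Fin N) F)}
    (hh : ∀ j, ∃ d, (h j).IsHomogeneous d) (hA : ∀ i, ∃ e, ∀ a b, (A i a b).IsHomogeneous e)
    (hn : 4 < n) (hreal : ∀ v : InfinitePlace F, v.IsReal →
      ∀ w : Fin N → IK F v, w ≠ 0 → Zer (hE (IK F v) h) (IK F v) w →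
      ∃ x : Fin n → IK F v, x ≠ 0 ∧
        Zer2 (hE (IK F v) h) (AE (IK F v) A) (IK F v) w x) : PfOnto F h A := by
  refine pfOnto_core hh hA fun M hM w hw h0 => ?_
  have : NumberField M := NumberField.of_module_finite F M
  obtain ⟨x, hx, h1⟩ := isoM hn ((A 0).map (MvPolynomial.aeval w)) (fun φ => by
    obtain ⟨v, hv, e, he⟩ := exists_real F M φ
    obtain ⟨x, hx, h2⟩ := hreal v hv _ (ne_hom ((e : ℝ →+* v.Completion).comp φ) hw)
      (zer_hom (E := IK F v) ((e : ℝ →+* v.Completion).comp φ) he h0)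
    refine ⟨fun i => e.symm (x i), ?_, zer2_real (E := IK F v) φ e he h2 0⟩
    exact ne_hom (e.symm : v.Completion →+* ℝ) hx)
  exact ⟨x, hx, h0, fun i => by rw [Subsingleton.elim i 0]; exact h1⟩

end real

end Hm
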