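import Pool.Agent.Lib.MP_f80667_ag.Hm.T

/-!
# (*): an `S ∪ T`-unit which is a square at `S` and at the real places is a square
-/

open IsDedekindDomain NumberField

namespace Hm

variable {K : Type*} [Field K] [NumberField K]

theorem US_mono {S T : Finset (HeightOneSpectrum (𝓞 K))} (h : S ⊆ T) : US K S ≤ US K T :=
  fun _ hu v hv => hu v fun h' => hv (h h')

theorem Gen.union {S T : Finset (HeightOneSpectrum (𝓞 K))} [DecidableEq (HeightOneSpectrum (𝓞 K))]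
    (hS : Gen S) : Gen (S ∪ T) := by
  refine ⟨fun v hv => Finset.mem_union_left _ (hS.1 v hv), fun w => ?_⟩
  obtain ⟨x, hx, h⟩ := hS.2 w
  exact ⟨x, hx, fun v hv => h v fun h' => hv (Finset.mem_union_left _ h')⟩

/-- Approximation of an element at one place of `T` by an `S ∪ T`-unit which is a square at the others. -/
theorem Dual.exists_near {b : Kˣ} {S T : Finset (HeightOneSpectrum (𝓞 K))}
    [DecidableEq (HeightOneSpectrum (𝓞 K))] (hS : Gen S) (h : Dual b S T)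
    {v : HeightOneSpectrum (𝓞 K)} (hv : v ∈ T) (c : Kˣ) :
    ∃ z ∈ US K (S ∪ T), z / c ∈ LSq v ∧ ∀ w ∈ T, w ≠ v → z ∈ LSq w := by
  classical
  obtain ⟨p, hp, hp'⟩ := hS.2 v
  obtain ⟨n, hn⟩ : ∃ n : ℤ, v.valuation K c = WithZero.exp (-n) :=
    ⟨ordv v (Additive.ofMul c), ordv_spec v c⟩
  have hpn : v.valuation K ((p ^ n : Kˣ) : K) = v.valuation K c := by
    rw [Units.val_zpow_eq_zpow_val, map_zpow₀, hp, hn, ← WithZero.exp_zsmul]
    congr 1
    simp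
  have hpw : ∀ w ∉ S, w ≠ v → w.valuation K ((p ^ n : Kˣ) : K) = 1 := by
    intro w hw hne
    rw [Units.val_zpow_eq_zpow_val, map_zpow₀, hp' w hw hne, one_zpow]
  have hpU : p ^ n ∈ US K (S ∪ T) := by
    intro w hw
    have hw' : w ∉ S ∪ T := fun h' => hw (Finset.mem_coe.2 h')
    rw [Finset.mem_union, not_or] at hw'
    exact hpw w hw'.1 fun e => hw'.2 (e ▸ hv)
  have hd : v.valuation K ((p ^ n / c : Kˣ) : K) = 1 := by
    rw [Units.val_div_eq_div_val, map_div₀, hpn]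
    exact div_self ((v.valuation K).ne_zero_iff.2 c.ne_zero)
  obtain ⟨I, hI⟩ : ∃ I : Finset (HeightOneSpectrum (𝓞 K)), ∀ w, w ∈ I ↔ w ∈ T ∧
      ((w ≠ v ∧ p ^ n ∉ LSq w) ∨ (w = v ∧ p ^ n / c ∉ LSq w)) :=
    ⟨T.filter (fun w => (w ≠ v ∧ p ^ n ∉ LSq w) ∨ (w = v ∧ p ^ n / c ∉ LSq w)), fun w => by
      rw [Finset.mem_filter]⟩
  obtain ⟨u, hu, huT⟩ := h.exists_unit I
  have huS : ∀ w ∈ T, w.valuation K (u : K) = 1 := fun w hw => hu w (h.disj w hw)
  have h2 : ∀ w ∈ T, w.valuation K 2 = 1 := fun w hw => val2_of_gen hS (h.disj w hw)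
  refine ⟨p ^ n * u, mul_mem hpU (US_mono Finset.subset_union_left hu), ?_, fun w hw hne => ?_⟩
  · have e : p ^ n * u / c = p ^ n / c * u := by
      rw [div_mul_eq_mul_div]
    rw [e]
    by_cases h3 : p ^ n / c ∈ LSq v
    · exact mul_mem h3 ((huT v hv).2 fun h4 => by
        rcases ((hI v).1 h4).2 with h5 | h5
        · exact h5.1 rfl
        · exact h5.2 h3)
    · refine mul_mem_LSq (h2 v hv) hd (huS v hv) h3 fun h4 => ?_
      exact (huT v hv).1 h4 ((hI v).2 ⟨hv, Or.inr ⟨rfl, h3⟩⟩)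
  · by_cases h3 : p ^ n ∈ LSq w
    · exact mul_mem h3 ((huT w hw).2 fun h4 => by
        rcases ((hI w).1 h4).2 with h5 | h5
        · exact h5.2 h3
        · exact hne h5.1)
    · refine mul_mem_LSq (h2 w hw) (hpw w (h.disj w hw) hne) (huS w hw) h3 fun h4 => ?_
      exact (huT w hw).1 h4 ((hI w).2 ⟨hw, Or.inl ⟨hne, h3⟩⟩)

/-- (*). -/
theorem star {b : Kˣ} {S T : Finset (HeightOneSpectrum (𝓞 K))} [DecidableEq (HeightOneSpectrum (𝓞 K))]
    (hS : Gen S) (h : Dual b S T) (x : Kˣ) (hx : x ∈ US K (S ∪ T)) (hxS : ∀ v ∈ S, x ∈ LSq v)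
    (hxR : ∀ φ : K →+* ℝ, 0 < φ x) : IsSquare x := by
  classical
  by_contra hcon
  obtain ⟨h0, h1⟩ := F1U x hcon (S ∪ T) hS.union hx
  obtain ⟨T', hT'⟩ : ∃ T' : Finset (HeightOneSpectrum (𝓞 K)), ∀ v, v ∈ T' ↔ v ∈ T ∧ x ∉ LSq v :=
    ⟨T.filter (fun v => x ∉ LSq v), fun v => Finset.mem_filter⟩
  have ht : tt x (S ∪ T) = T'.card := by
    rw [tt]
    have h2 : (S ∪ T).filter (fun v => x ∉ LSq v) = T' := by
      ext v
      rw [Finset.mem_filter, hT', Finset.mem_union]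
      constructor
      · rintro ⟨h3 | h3, h4⟩
        · exact absurd (hxS v h3) h4
        · exact ⟨h3, h4⟩
      · rintro ⟨h3, h4⟩
        exact ⟨Or.inr h3, h4⟩
    have h3 : Nat.card {φ : K →+* ℝ // φ x < 0} = 0 := by
      have : IsEmpty {φ : K →+* ℝ // φ x < 0} := ⟨fun φ => lt_asymm φ.2 (hxR φ.1)⟩
      exact Nat.card_of_isEmpty
    rw [h3, add_zero]
    convert congrArg Finset.card h2
  have h2 : ∀ v : {v // v ∈ T'}, ∃ z ∈ US K (S ∪ T), z ∉ LNm v.1 x ∧ ∀ w ∈ T, w ≠ v.1 → z ∈ LSq w := by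
    rintro ⟨v, hv⟩
    rw [hT'] at hv
    obtain ⟨c, hc⟩ := exists_notMem_LNm v hv.2
    obtain ⟨z, hz, hz1, hz2⟩ := h.exists_near hS hv.1 c
    refine ⟨z, hz, fun h3 => hc ?_, hz2⟩
    have h4 := mul_mem h3 (inv_mem (LSq_le_LNm v x hz1))
    rwa [inv_div, mul_div_cancel] at h4
  choose z hz1 hz2 hz3 using h2
  have h3 := two_pow_le (fun v : {v // v ∈ T'} => LNm v.1 x) (Nrm x) (US K (S ∪ T))
    (fun v => Nrm_le_LNm v.1 x) z hz1 hz2 (fun i j hij =>
      LSq_le_LNm _ _ (hz3 i j.1 ((hT' j.1).1 j.2).1 fun e => hij (Subtype.ext e))) h0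
  rw [Fintype.card_coe] at h3
  rw [ht] at h1
  have h4 : 0 < 2 ^ T'.card := by positivity
  omega

end Hm
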