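import Pool.Agent.Lib.MP_f80667_ag.Hm.Cor

/-!
# (T): enough places at which `b` is a local square and the `S`-units have independent classes
-/

open IsDedekindDomain NumberField

namespace Hm

variable {K : Type*} [Field K] [NumberField K]

/-- `T` is disjoint from `S`, `b` is a local square on `T`, and the `S`-units have a dual family on `T`. -/
structure Dual (b : Kˣ) (S T : Finset (HeightOneSpectrum (𝓞 K))) : Prop where
  disj : ∀ v ∈ T, v ∉ S
  sq : ∀ v ∈ T, b ∈ LSq v
  dual : ∀ v ∈ T, ∃ u ∈ US K S, u ∉ LSq v ∧ ∀ w ∈ T, w ≠ v → u ∈ LSq w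

theorem val2_of_gen {S : Finset (HeightOneSpectrum (𝓞 K))} (hS : Gen S) {v : HeightOneSpectrum (𝓞 K)}
    (hv : v ∉ S) : v.valuation K 2 = 1 := by
  by_contra h
  exact hv (hS.1 v h)

/-- Every set of signs on `T` is attained by an `S`-unit. -/
theorem Dual.exists_unit {b : Kˣ} {S T : Finset (HeightOneSpectrum (𝓞 K))} (h : Dual b S T)
    (I : Finset (HeightOneSpectrum (𝓞 K))) : ∃ u ∈ US K S, ∀ v ∈ T, (u ∈ LSq v ↔ v ∉ I) := by
  classical
  choose u hu1 hu2 hu3 using fun v : T => h.dual v.1 v.2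
  have h2 : ∀ i j : T, j ≠ i → u i ∈ LSq (K := K) j.1 := fun i j hij =>
    hu3 i j.1 j.2 fun e => hij (Subtype.ext e)
  refine ⟨∏ i ∈ Finset.univ.filter (fun i : T => i.1 ∈ I), u i, prod_mem fun i _ => hu1 i, fun v hv => ?_⟩
  rw [prod_mem_iff (fun i : T => LSq (K := K) i.1) u hu2 h2 _ ⟨v, hv⟩]
  simp

theorem mem_sqOf_US {S : Finset (HeightOneSpectrum (𝓞 K))} {u : Kˣ} (hu : u ∈ US K S) (h : IsSquare u) :
    u ∈ sqOf (US K S) := by
  obtain ⟨y, rfl⟩ := h
  refine mem_sqOf.2 ⟨y, fun v hv => ?_, pow_two y⟩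
  have h1 : v.valuation K ((y * y : Kˣ) : K) = 1 := hu v hv
  rw [Units.val_mul, map_mul] at h1
  have h2 : v.valuation K (y : K) ^ 2 = 1 := by rw [pow_two]; exact h1
  exact (pow_eq_one_iff_of_nonneg zero_le two_ne_zero).1 h2

theorem exists_T_aux (b : Kˣ) (hb : ¬ IsSquare b) (S : Finset (HeightOneSpectrum (𝓞 K))) (hS : Gen S)
    (hbS : b ∈ US K S) (k : ℕ) (hk : k + 1 ≤ S.card + Fintype.card (InfinitePlace K)) :
    ∃ T : Finset (HeightOneSpectrum (𝓞 K)), Dual b S T ∧ T.card = k := by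
  classical
  induction k with
  | zero => exact ⟨∅, ⟨by simp, by simp, by simp⟩, rfl⟩
  | succ k ih =>
    obtain ⟨T, hT, hc⟩ := ih (by omega)
    obtain ⟨W, hW⟩ : ∃ W : Subgroup Kˣ, W = US K S ⊓ ⨅ v : T, LSq v.1 := ⟨_, rfl⟩
    have hWm : ∀ u, u ∈ W ↔ u ∈ US K S ∧ ∀ v ∈ T, u ∈ LSq v := by
      intro u
      rw [hW, Subgroup.mem_inf, Subgroup.mem_iInf]
      simp
    have hWU : W ≤ US K S := fun u hu => ((hWm u).1 hu).1
    choose r hr1 hr2 using fun I : Finset T =>
      hT.exists_unit (I.map (Function.Embedding.subtype (fun v => v ∈ T)))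
    have h1 : W.relIndex (US K S) ≠ 0 ∧ W.relIndex (US K S) ≤ Nat.card (Finset T) := by
      refine relIndex_le_of_cover W (US K S) r fun u hu => ?_
      refine ⟨Finset.univ.filter (fun v : T => u ∉ LSq v.1), ?_⟩
      rw [hWm]
      refine ⟨mul_mem hu (hr1 _), fun v hv => ?_⟩
      have h3 := hr2 (Finset.univ.filter (fun v : T => u ∉ LSq v.1)) v hv
      have hvS := hT.disj v hv
      by_cases huv : u ∈ LSq v
      · refine mul_mem huv (h3.2 ?_)
        simp [huv]
      · have h4 : r (Finset.univ.filter (fun v : T => u ∉ LSq v.1)) ∉ LSq v := by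
          intro h5
          refine h3.1 h5 ?_
          simp [huv, hv]
        exact mul_mem_LSq (val2_of_gen hS hvS) (hu v hvS) (hr1 _ v hvS) huv h4
    obtain ⟨u, huW, hu1, hu2⟩ : ∃ u ∈ W, ¬ IsSquare u ∧ ¬ IsSquare (u * b) := by
      by_contra hcon
      push Not at hcon
      have h3 : (sqOf (US K S)).relIndex W ≠ 0 ∧ (sqOf (US K S)).relIndex W ≤ Nat.card Bool := by
        refine relIndex_le_of_cover _ _ (fun i : Bool => if i then 1 else b) fun u hu => ?_
        by_cases h4 : IsSquare u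
        · exact ⟨true, by simpa using mem_sqOf_US (hWU hu) h4⟩
        · exact ⟨false, by simpa using mem_sqOf_US (mul_mem (hWU hu) hbS) (hcon u hu h4)⟩
      have h4 : sqOf (US K S) ≤ W := by
        rintro _ ⟨y, hy, rfl⟩
        rw [hWm]
        exact ⟨pow_mem hy 2, fun v _ => sq_mem_LSq v y⟩
      have h5 := Subgroup.relIndex_mul_relIndex _ _ _ h4 hWU
      rw [sqOf_US, Nat.card_eq_fintype_card] at h5
      have h6 : (sqOf (US K S)).relIndex W * W.relIndex (US K S) ≤ 2 * 2 ^ k := by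
        refine Nat.mul_le_mul (by simpa using h3.2) ?_
        refine h1.2.trans ?_
        rw [Nat.card_eq_fintype_card, Fintype.card_finset, Fintype.card_coe, hc]
      rw [h5, ← pow_succ', Nat.pow_le_pow_iff_right (by norm_num)] at h6
      omega
    obtain ⟨v, hv, hbv, huv⟩ := cor b u hb hu1 hu2 (S ∪ T)
    rw [Finset.mem_union, not_or] at hv
    have huW' := (hWm u).1 huW
    refine ⟨insert v T, ⟨?_, ?_, ?_⟩, ?_⟩
    · intro w hw
      rcases Finset.mem_insert.1 hw with rfl | hw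
      · exact hv.1
      · exact hT.disj w hw
    · intro w hw
      rcases Finset.mem_insert.1 hw with rfl | hw
      · exact hbv
      · exact hT.sq w hw
    · intro w hw
      rcases Finset.mem_insert.1 hw with rfl | hw
      · refine ⟨u, huW'.1, huv, fun w' hw' hne => ?_⟩
        rcases Finset.mem_insert.1 hw' with rfl | hw'
        · exact absurd rfl hne
        · exact huW'.2 w' hw'
      · obtain ⟨z, hz1, hz2, hz3⟩ := hT.dual w hw
        by_cases hzv : z ∈ LSq v
        · refine ⟨z, hz1, hz2, fun w' hw' hne => ?_⟩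
          rcases Finset.mem_insert.1 hw' with rfl | hw'
          · exact hzv
          · exact hz3 w' hw' hne
        · refine ⟨z * u, mul_mem hz1 huW'.1, ?_, fun w' hw' hne => ?_⟩
          · intro h5
            exact hz2 ((Subgroup.mul_mem_cancel_right _ (huW'.2 w hw)).1 h5)
          rcases Finset.mem_insert.1 hw' with rfl | hw'
          · exact mul_mem_LSq (val2_of_gen hS hv.1) (hz1 _ hv.1) (huW'.1 _ hv.1) hzv huv
          · exact mul_mem (hz3 w' hw' hne) (huW'.2 w' hw')
    · rw [Finset.card_insert_of_notMem hv.2, hc]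

/-- (T). -/
theorem exists_T (b : Kˣ) (hb : ¬ IsSquare b) (S : Finset (HeightOneSpectrum (𝓞 K))) (hS : Gen S)
    (hbS : b ∈ US K S) : ∃ T : Finset (HeightOneSpectrum (𝓞 K)), Dual b S T ∧
      T.card + 1 = S.card + Fintype.card (InfinitePlace K) := by
  have h : 0 < Fintype.card (InfinitePlace K) := Fintype.card_pos
  obtain ⟨T, hT, hc⟩ := exists_T_aux b hb S hS hbS (S.card + Fintype.card (InfinitePlace K) - 1) (by omega)
  exact ⟨T, hT, by omega⟩

end Hm
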